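import Pool.Agent.Helper876.RP.Defs



namespace RPF
open Set


theorem cell_mem_sum (L : Item) (c : ℝ) (m : ℕ) (hn : (L.map Prod.fst).Nodup) :
    (L.map (fun y => if y.1 = m then c else 0)).sum =
      if m ∈ L.map Prod.fst then c else 0 := by
  induction L with
  | nil => simp
  | cons a L ih =>
    rw [List.map_cons, List.nodup_cons] at hn
    rw [List.map_cons, List.sum_cons, ih hn.2]
    by_cases h : a.1 = m
    · subst h
      rw [if_pos rfl, if_neg hn.1, if_pos (by simp), add_zero]
    · rw [if_neg h, zero_add]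
      by_cases h2 : m ∈ L.map Prod.fst
      · rw [if_pos h2, if_pos (by rw [List.map_cons]; exact List.mem_cons_of_mem _ h2)]
      · rw [if_neg h2, if_neg]
        rw [List.map_cons, List.mem_cons]
        rintro (h3 | h3)
        · exact h h3.symm
        · exact h2 h3

theorem cell_mem (L : Item) (gs : List Fn) (D : ℤ) (h : dualB L gs D = true)
    (w : ℕ → ℝ) (p : ℝ × ℝ × ℝ) (hr : Rep L w p) :
    (∀ g ∈ gs, 0 ≤ evR g p) ∧ ∀ n, w n = wts L gs D p n := by
  simp only [dualB, Bool.and_eq_true, decide_eq_true_eq, List.all_eq_true] at h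
  obtain ⟨⟨⟨hD, hlen⟩, hnd⟩, hdual⟩ := h
  obtain ⟨hw0, hwL, hrep⟩ := hr
  have hDR : (0 : ℝ) < (D : ℝ) := by exact_mod_cast hD
  have hfst : (L.zip gs).map Prod.fst = L := List.map_fst_zip (le_of_eq hlen)
  have hsnd : (L.zip gs).map Prod.snd = gs := List.map_snd_zip (le_of_eq hlen.symm)
  have hA : ∀ x ∈ L.zip gs, evR x.2 p = w x.1.1 * D := by
    intro x hx
    rw [← hrep x.2, lsum]
    have h1 : L.map (fun y => w y.1 * ((evI x.2 y.2 : ℤ) : ℝ)) =
        L.map (fun y => if y.1 = x.1.1 then w x.1.1 * D else 0) := by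
      apply List.map_congr_left
      intro y hy
      rw [hdual x hx y hy]
      by_cases h2 : y.1 = x.1.1
      · rw [if_pos h2, if_pos h2, h2]
      · rw [if_neg h2, if_neg h2]
        simp
    have hxL : x.1 ∈ L := by
      have : x.1 ∈ (L.zip gs).map Prod.fst := List.mem_map_of_mem hx
      rwa [hfst] at this
    rw [h1, cell_mem_sum L _ _ hnd, if_pos (List.mem_map_of_mem hxL)]
  constructor
  · intro g hg
    rw [← hsnd] at hg
    obtain ⟨x, hx, rfl⟩ := List.mem_map.1 hg
    rw [hA x hx]
    exact mul_nonneg (hw0 _) hDR.le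
  · intro n
    rw [wts]
    have h1 : (L.zip gs).map (fun x => if x.1.1 = n then evR x.2 p / D else 0) =
        (L.zip gs).map ((fun y : ℕ × Pt => if y.1 = n then w n else 0) ∘ Prod.fst) := by
      apply List.map_congr_left
      intro x hx
      show (if x.1.1 = n then evR x.2 p / D else 0) = (if x.1.1 = n then w n else 0)
      by_cases h2 : x.1.1 = n
      · rw [if_pos h2, if_pos h2, hA x hx, h2]
        field_simp
      · rw [if_neg h2, if_neg h2]
    rw [h1, ← List.map_map, hfst, cell_mem_sum L _ _ hnd]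
    by_cases h3 : n ∈ L.map Prod.fst
    · rw [if_pos h3]
    · rw [if_neg h3]
      by_contra hne
      obtain ⟨q, hq⟩ := hwL n hne
      exact h3 (List.mem_map.2 ⟨(n, q), hq, rfl⟩)

end RPF
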