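import Pool.Agent.Helper876.RP.Defs
import Pool.Agent.Helper876.RP.P_cell_mem



namespace RPF
open Set


theorem self_core (L : Item) (gs : List Fn) (D : ℤ) (hd : dualB L gs D = true) (w w' : ℕ → ℝ)
    (p : ℝ × ℝ × ℝ) (h1 : Rep L w p) (h2 : Rep L w' p) : ∀ n, w n = w' n := by
  intro n
  exact ((cell_mem L gs D hd w p h1).2 n).trans ((cell_mem L gs D hd w' p h2).2 n).symm

end RPF
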