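import Pool.Agent.Helper876.RP.Defs



namespace RPF
open Set


theorem lsum_congr_aux1 (L : Item) (w w' : ℕ → ℝ) (φ : Pt → ℝ)
    (h : ∀ x ∈ L, w x.1 = w' x.1) : lsum L w φ = lsum L w' φ := by
  unfold lsum
  congr 1
  refine List.map_congr_left fun x hx => ?_
  rw [h x hx]

theorem lsum_congr_aux2 (L : Item) (w : ℕ → ℝ) (φ : Pt → ℝ) (x : ℕ × Pt) :
    lsum (x :: L) w φ = w x.1 * φ x.2 + lsum L w φ := by
  unfold lsum
  rw [List.map_cons, List.sum_cons]

theorem lsum_congr_aux3 (L L' : Item) (w : ℕ → ℝ) (φ : Pt → ℝ) (h : L.Perm L') :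
    lsum L w φ = lsum L' w φ := by
  unfold lsum
  exact (h.map _).sum_eq

theorem lsum_congr (L L' : Item) (hL : (L.map Prod.fst).Nodup) (hL' : (L'.map Prod.fst).Nodup)
    (w : ℕ → ℝ) (φ ψ : Pt → ℝ)
    (h : ∀ n, w n ≠ 0 → ∃ p p', (n, p) ∈ L ∧ (n, p') ∈ L' ∧ φ p = ψ p') :
    lsum L w φ = lsum L' w ψ := by
  induction L generalizing L' w with
  | nil =>
    have hw : ∀ n, w n = 0 := by
      intro n
      by_contra hn
      obtain ⟨p, _, hp, _⟩ := h n hn
      exact absurd hp List.not_mem_nil
    rw [lsum_congr_aux1 L' w (fun _ => 0) ψ (fun x _ => hw x.1)]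
    unfold lsum
    simp
  | cons x L ih =>
    obtain ⟨n, p⟩ := x
    rw [List.map_cons, List.nodup_cons] at hL
    have hnot : ∀ q, (n, q) ∉ L := fun q hq => hL.1 (List.mem_map.2 ⟨(n, q), hq, rfl⟩)
    rw [lsum_congr_aux2]
    by_cases hn : w n = 0
    · rw [hn, zero_mul, zero_add]
      refine ih L' hL.2 hL' w fun m hm => ?_
      obtain ⟨q, q', hq, hq', he⟩ := h m hm
      refine ⟨q, q', ?_, hq', he⟩
      rcases List.mem_cons.1 hq with h1 | h1
      · exfalso
        apply hm
        rw [(Prod.mk.inj h1).1]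
        exact hn
      · exact h1
    · obtain ⟨q, q', hq, hq', he⟩ := h n hn
      have hqp : q = p := by
        rcases List.mem_cons.1 hq with h1 | h1
        · exact (Prod.mk.inj h1).2
        · exact absurd h1 (hnot q)
      subst hqp
      have hperm := List.perm_cons_erase hq'
      have hnd : (((n, q') :: L'.erase (n, q')).map Prod.fst).Nodup :=
        (hperm.map Prod.fst).nodup_iff.1 hL'
      rw [List.map_cons, List.nodup_cons] at hnd
      have hnot' : ∀ r, (n, r) ∉ L'.erase (n, q') :=
        fun r hr => hnd.1 (List.mem_map.2 ⟨(n, r), hr, rfl⟩)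
      rw [lsum_congr_aux3 L' _ w ψ hperm, lsum_congr_aux2, he]
      congr 1
      have h1 : lsum L w φ = lsum L (Function.update w n 0) φ := by
        refine lsum_congr_aux1 L _ _ φ fun x hx => ?_
        have hne : x.1 ≠ n := by
          rintro rfl
          exact hnot x.2 hx
        rw [Function.update_of_ne hne]
      have h2 : lsum (L'.erase (n, q')) w ψ = lsum (L'.erase (n, q')) (Function.update w n 0) ψ := by
        refine lsum_congr_aux1 _ _ _ ψ fun x hx => ?_
        have hne : x.1 ≠ n := by
          rintro rfl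
          exact hnot' x.2 hx
        rw [Function.update_of_ne hne]
      rw [h1, h2]
      refine ih _ hL.2 hnd.2 _ fun m hm => ?_
      have hmn : m ≠ n := by
        rintro rfl
        exact hm (Function.update_self _ _ _)
      rw [Function.update_of_ne hmn] at hm
      obtain ⟨r, r', hr, hr', he'⟩ := h m hm
      refine ⟨r, r', ?_, ?_, he'⟩
      · rcases List.mem_cons.1 hr with h3 | h3
        · exact absurd (Prod.mk.inj h3).1 hmn
        · exact h3
      · rcases List.mem_cons.1 (hperm.mem_iff.1 hr') with h3 | h3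
        · exact absurd (Prod.mk.inj h3).1 hmn
        · exact h3

end RPF
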