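import Pool.Agent.Helper876.RP.Defs
import Pool.Agent.Helper876.RP.P_lsum_congr



namespace RPF
open Set


theorem sep_core_aux0 (n : ℕ) (w : ℕ → ℝ) (D : ℝ) : ∀ l : List ℕ, n ∉ l →
    (l.map (fun m => w m * (if m = n then D else 0))).sum = 0 := by
  intro l
  induction l with
  | nil => intro _; simp
  | cons m t ih =>
    intro h
    simp only [List.mem_cons, not_or] at h
    rw [List.map_cons, List.sum_cons, ih h.2, if_neg (fun h' => h.1 h'.symm)]
    simp

theorem sep_core_aux1 (n : ℕ) (w : ℕ → ℝ) (D : ℝ) : ∀ l : List ℕ, l.Nodup → n ∈ l →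
    (l.map (fun m => w m * (if m = n then D else 0))).sum = w n * D := by
  intro l
  induction l with
  | nil => intro _ h; simp at h
  | cons m t ih =>
    intro hnd h
    rw [List.nodup_cons] at hnd
    rw [List.map_cons, List.sum_cons]
    rcases List.mem_cons.1 h with rfl | h'
    · rw [sep_core_aux0 n w D t hnd.1, if_pos rfl, add_zero]
    · have hmn : m ≠ n := by
        rintro rfl
        exact hnd.1 h'
      rw [ih hnd.2 h', if_neg hmn]
      simp

theorem sep_core_aux2 (l : List ℝ) (h0 : ∀ x ∈ l, 0 ≤ x) (hs : l.sum ≤ 0) : ∀ x ∈ l, x = 0 := by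
  induction l with
  | nil => intro x hx; simp at hx
  | cons a t ih =>
    rw [List.sum_cons] at hs
    have ha := h0 a (List.mem_cons_self ..)
    have ht : 0 ≤ t.sum := List.sum_nonneg (fun x hx => h0 x (List.mem_cons_of_mem _ hx))
    intro x hx
    rcases List.mem_cons.1 hx with rfl | hx
    · linarith
    · exact ih (fun x hx => h0 x (List.mem_cons_of_mem _ hx)) (by linarith) x hx

theorem sep_core (L M : Item) (f : Fn) (hsep : sepB L M f = true) (gs : List Fn) (D : ℤ)
    (hd : dualB L gs D = true) (hM : (M.map Prod.fst).Nodup) (w w' : ℕ → ℝ) (p : ℝ × ℝ × ℝ)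
    (h1 : Rep L w p) (h2 : Rep M w' p) :
    ∀ n, w n = w' n ∧ (w n ≠ 0 → ∃ q, (n, q) ∈ L ∧ (n, q) ∈ M) := by
  obtain ⟨a1, a2, a3⟩ := h1
  obtain ⟨b1, b2, b3⟩ := h2
  have hs1 : ∀ x ∈ L, 0 < evI f x.2 ∨ (evI f x.2 = 0 ∧ x ∈ M) := by
    intro x hx
    simp only [sepB, Bool.and_eq_true, List.all_eq_true] at hsep
    have := hsep.1 x hx
    simpa using this
  have hs2 : ∀ x ∈ M, evI f x.2 < 0 ∨ (evI f x.2 = 0 ∧ x ∈ L) := by
    intro x hx
    simp only [sepB, Bool.and_eq_true, List.all_eq_true] at hsep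
    have := hsep.2 x hx
    simpa using this
  have hn1 : ∀ x ∈ L, 0 ≤ w x.1 * (evI f x.2 : ℝ) := by
    intro x hx
    apply mul_nonneg (a1 _)
    rcases hs1 x hx with h | h
    · exact_mod_cast h.le
    · rw [h.1]; simp
  have hn2 : ∀ x ∈ M, 0 ≤ -(w' x.1 * (evI f x.2 : ℝ)) := by
    intro x hx
    rw [neg_nonneg]
    apply mul_nonpos_of_nonneg_of_nonpos (b1 _)
    rcases hs2 x hx with h | h
    · exact_mod_cast h.le
    · rw [h.1]; simp
  have hsum : lsum L w (fun q => (evI f q : ℝ)) = lsum M w' (fun q => (evI f q : ℝ)) := by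
    rw [a3 f, b3 f]
  have hL0 : 0 ≤ (L.map fun x => w x.1 * (evI f x.2 : ℝ)).sum := by
    apply List.sum_nonneg
    intro y hy
    obtain ⟨x, hx, rfl⟩ := List.mem_map.1 hy
    exact hn1 x hx
  have hM0' : (M.map fun x => -(w' x.1 * (evI f x.2 : ℝ))).sum =
      -(M.map fun x => (w' x.1 * (evI f x.2 : ℝ))).sum := by
    clear hn2 hs2 hs1 hn1 hsum hL0 a2 a3 b2 b3 hM hsep
    induction M with
    | nil => simp
    | cons a t ih =>
      simp only [List.map_cons, List.sum_cons, neg_add, ih]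
  have hM0 : 0 ≤ (M.map fun x => -(w' x.1 * (evI f x.2 : ℝ))).sum := by
    apply List.sum_nonneg
    intro y hy
    obtain ⟨x, hx, rfl⟩ := List.mem_map.1 hy
    exact hn2 x hx
  have hsum' : (L.map fun x => w x.1 * (evI f x.2 : ℝ)).sum =
    (M.map fun x => (w' x.1 * (evI f x.2 : ℝ))).sum := hsum
  have z1 : ∀ x ∈ L, w x.1 * (evI f x.2 : ℝ) = 0 := by
    intro x hx
    apply sep_core_aux2 (L.map fun x => w x.1 * (evI f x.2 : ℝ)) _ _ _
      (List.mem_map.2 ⟨x, hx, rfl⟩)
    · intro y hy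
      obtain ⟨x, hx, rfl⟩ := List.mem_map.1 hy
      exact hn1 x hx
    · rw [hM0'] at hM0
      linarith
  have z2 : ∀ x ∈ M, -(w' x.1 * (evI f x.2 : ℝ)) = 0 := by
    intro x hx
    apply sep_core_aux2 (M.map fun x => -(w' x.1 * (evI f x.2 : ℝ))) _ _ _
      (List.mem_map.2 ⟨x, hx, rfl⟩)
    · intro y hy
      obtain ⟨x, hx, rfl⟩ := List.mem_map.1 hy
      exact hn2 x hx
    · rw [hM0']
      linarith
  have c1 : ∀ n, w n ≠ 0 → ∃ q, (n, q) ∈ L ∧ (n, q) ∈ M := by
    intro n hn
    obtain ⟨q, hq⟩ := a2 n hn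
    refine ⟨q, hq, ?_⟩
    rcases hs1 _ hq with h | h
    · exfalso
      have := z1 _ hq
      rcases mul_eq_zero.1 this with h' | h'
      · exact hn h'
      · have h'' : evI f q = 0 := by exact_mod_cast h'
        simp only at h
        omega
    · exact h.2
  have c2 : ∀ n, w' n ≠ 0 → ∃ q, (n, q) ∈ M ∧ (n, q) ∈ L := by
    intro n hn
    obtain ⟨q, hq⟩ := b2 n hn
    refine ⟨q, hq, ?_⟩
    rcases hs2 _ hq with h | h
    · exfalso
      have := neg_eq_zero.1 (z2 _ hq)
      rcases mul_eq_zero.1 this with h' | h'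
      · exact hn h'
      · have h'' : evI f q = 0 := by exact_mod_cast h'
        simp only at h
        omega
    · exact h.2
  simp only [dualB, Bool.and_eq_true, List.all_eq_true, decide_eq_true_eq] at hd
  obtain ⟨⟨⟨hD, hlen⟩, hnd⟩, hdual⟩ := hd
  intro n
  refine ⟨?_, c1 n⟩
  by_cases hnL : ∃ q, (n, q) ∈ L
  · obtain ⟨q, hq⟩ := hnL
    obtain ⟨i, hi, hiq⟩ := List.getElem_of_mem hq
    have hi' : i < gs.length := hlen ▸ hi
    have hz : ((n, q), gs[i]) ∈ L.zip gs := by
      have hiz : i < (L.zip gs).length := by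
        rw [List.length_zip, ← hlen, min_self]
        exact hi
      have : (L.zip gs)[i] = ((n, q), gs[i]) := by
        rw [List.getElem_zip, hiq]
      rw [← this]
      exact List.getElem_mem hiz
    have hg := hdual _ hz
    simp only at hg
    have key : ∀ u : ℕ → ℝ, lsum L u (fun q => (evI gs[i] q : ℝ)) = u n * D := by
      intro u
      have e1 : lsum L u (fun q => (evI gs[i] q : ℝ)) =
          ((L.map Prod.fst).map (fun m => u m * (if m = n then (D : ℝ) else 0))).sum := by
        unfold lsum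
        rw [List.map_map]
        congr 1
        apply List.map_congr_left
        intro x hx
        have := hg x hx
        simp only [Function.comp]
        rw [this]
        split_ifs <;> simp
      rw [e1]
      exact sep_core_aux1 n u D _ hnd (List.mem_map.2 ⟨(n, q), hq, rfl⟩)
    have k1 := key w
    have k2 := key w'
    have k3 : lsum M w' (fun q => (evI gs[i] q : ℝ)) = lsum L w' (fun q => (evI gs[i] q : ℝ)) := by
      apply lsum_congr M L hM hnd
      intro m hm
      obtain ⟨q', h1, h2⟩ := c2 m hm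
      exact ⟨q', q', h1, h2, rfl⟩
    have k4 := a3 gs[i]
    have k5 := b3 gs[i]
    have hD' : (D : ℝ) ≠ 0 := by exact_mod_cast hD.ne'
    have : w n * D = w' n * D := by
      rw [← k1, ← k2, ← k3, k4, k5]
    exact mul_right_cancel₀ hD' this
  · have e1 : w n = 0 := by
      by_contra h
      obtain ⟨q, h1, -⟩ := c1 n h
      exact hnL ⟨q, h1⟩
    have e2 : w' n = 0 := by
      by_contra h
      obtain ⟨q, -, h1⟩ := c2 n h
      exact hnL ⟨q, h1⟩
    rw [e1, e2]

end RPF
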