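import Pool.Agent.Helper876.RP.Defs
import Pool.Agent.Helper876.RP.P_sep_core
import Pool.Agent.Helper876.RP.P_self_core



namespace RPF
open Set


theorem chart_unique_zip {α β : Type} (l : List α) (d : List β) (h : l.length = d.length) (x : α)
    (hx : x ∈ l) : ∃ y, (x, y) ∈ l.zip d := by
  obtain ⟨i, hi, rfl⟩ := List.mem_iff_getElem.1 hx
  have hi' : i < d.length := h ▸ hi
  refine ⟨d[i], ?_⟩
  rw [List.mem_iff_getElem]
  refine ⟨i, ?_, ?_⟩
  · rw [List.length_zip]
    exact lt_min hi hi'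
  · simp

theorem chart_unique_pairs (Ls : List Item) : ∀ cs : List (List Fn), pairsB Ls cs = true →
    ∀ L ∈ Ls, ∀ M ∈ Ls, L = M ∨ (∃ f, sepB L M f = true) ∨ (∃ f, sepB M L f = true) := by
  induction Ls with
  | nil =>
    intro cs _ L hL
    exact absurd hL (by simp)
  | cons A Ls ih =>
    intro cs hcs L hL M hM
    cases cs with
    | nil => simp [pairsB] at hcs
    | cons c cs =>
      unfold pairsB at hcs
      rw [Bool.and_eq_true, Bool.and_eq_true, decide_eq_true_eq, List.all_eq_true] at hcs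
      obtain ⟨⟨hlen, hall⟩, hrec⟩ := hcs
      have key : ∀ B ∈ Ls, ∃ f, sepB A B f = true := by
        intro B hB
        obtain ⟨f, hf⟩ := chart_unique_zip Ls c hlen B hB
        exact ⟨f, hall _ hf⟩
      rcases List.mem_cons.1 hL with h1 | h1
      · rcases List.mem_cons.1 hM with h2 | h2
        · exact Or.inl (h1.trans h2.symm)
        · rw [h1]
          exact Or.inr (Or.inl (key M h2))
      · rcases List.mem_cons.1 hM with h2 | h2
        · rw [h2]
          exact Or.inr (Or.inr (key L h1))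
        · exact ih cs hrec L h1 M h2

theorem chart_unique (Ls : List Item) (cs : List (List Fn)) (ds : List (List Fn × ℤ))
    (h : chartB Ls cs ds = true) : ChartUniq Ls := by
  unfold chartB at h
  rw [Bool.and_eq_true, Bool.and_eq_true, decide_eq_true_eq, List.all_eq_true] at h
  obtain ⟨⟨hp, hlen⟩, hd⟩ := h
  have hdual : ∀ L ∈ Ls, ∃ gs D, dualB L gs D = true := by
    intro L hL
    obtain ⟨⟨gs, D⟩, hf⟩ := chart_unique_zip Ls ds hlen L hL
    exact ⟨gs, D, hd _ hf⟩
  have hnd : ∀ L ∈ Ls, (L.map Prod.fst).Nodup := by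
    intro L hL
    obtain ⟨gs, D, hD⟩ := hdual L hL
    unfold dualB at hD
    rw [Bool.and_eq_true, Bool.and_eq_true, decide_eq_true_eq] at hD
    exact hD.1.2
  intro L hL M hM w w' p h1 h2 n
  obtain ⟨gs, D, hD⟩ := hdual L hL
  obtain ⟨gs', D', hD'⟩ := hdual M hM
  rcases chart_unique_pairs Ls cs hp L hL M hM with h3 | ⟨f, hf⟩ | ⟨f, hf⟩
  · subst h3
    refine ⟨self_core L gs D hD w w' p h1 h2 n, fun hn => ?_⟩
    obtain ⟨q, hq⟩ := h1.2.1 n hn
    exact ⟨q, hq, hq⟩
  · exact sep_core L M f hf gs D hD (hnd M hM) w w' p h1 h2 n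
  · obtain ⟨h4, h5⟩ := sep_core M L f hf gs' D' hD' (hnd L hL) w' w p h2 h1 n
    refine ⟨h4.symm, fun hn => ?_⟩
    obtain ⟨q, hq1, hq2⟩ := h5 (by rw [h4]; exact hn)
    exact ⟨q, hq2, hq1⟩

end RPF
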