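import Pool.Agent.Helper876.RP.Data
import Pool.Agent.Helper876.RP.P_chart_unique

namespace RPF
set_option maxRecDepth 100000

theorem ck_k0 : chartB k0_items k0_certs k0_duals = true := by decide +kernel
theorem ck_k1 : chartB k1_items k1_certs k1_duals = true := by decide +kernel
theorem ck_k2 : chartB k2_items k2_certs k2_duals = true := by decide +kernel
theorem ck_k3 : chartB k3_items k3_certs k3_duals = true := by decide +kernel
theorem ck_k4 : chartB k4_items k4_certs k4_duals = true := by decide +kernel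
theorem ck_f0 : chartB f0_items f0_certs f0_duals = true := by decide +kernel
theorem ck_f1 : chartB f1_items f1_certs f1_duals = true := by decide +kernel
theorem ck_f2 : chartB f2_items f2_certs f2_duals = true := by decide +kernel
theorem ck_f3 : chartB f3_items f3_certs f3_duals = true := by decide +kernel
theorem ck_f4 : chartB f4_items f4_certs f4_duals = true := by decide +kernel
theorem ck_dm : chartB (tets.map Tet.dom) dm_certs dm_duals = true := by decide +kernel

theorem ck_pc : ∀ c ∈ pcells, cellB 0 c.item c.duals c.den = true := by decide +kernel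
theorem ck_psys : sysB (pcells.map (fun c => (c.reg, c.item))) exits kcharts = true := by
  decide +kernel
theorem ck_p4 : ∀ c ∈ pcells, ∀ x ∈ c.item, x.1 < 11 := by decide +kernel
theorem ck_p5 : ∀ c ∈ pcells, ∃ T ∈ KT, ∀ x ∈ c.item, x.1 ∈ T := by decide +kernel
theorem ck_p6 : ∀ c ∈ pcells, ∀ c' ∈ pcells, comPrs c.item c'.item = [] ∨
    goodPairs (exits c.reg) (exits c'.reg) (comPrs c.item c'.item) = true := by decide +kernel
theorem ck_p7 : ∀ c ∈ pcells, ∃ e ∈ exits c.reg, e.s = (0, 0, 0) := by decide +kernel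

theorem ck_t1 : ∀ t ∈ tets, cellB 1 t.dom t.duals t.den = true := by decide +kernel
theorem ck_tsys : sysB (tets.map (fun t => (t.reg, t.flat))) exits fcharts = true := by
  decide +kernel
theorem ck_tr : ∀ t ∈ tets, t.reg < 2 := by decide +kernel
theorem ck_tZ : ∀ t ∈ tets, ∀ x ∈ t.flat, -1 ≤ x.2.2.2 ∧ x.2.2.2 ≤ 261 := by decide +kernel
theorem ck_tQ : ∀ t ∈ tets, ∀ x ∈ t.dom, |x.2.1| + |x.2.2.1| ≤ 8 ∧ |x.2.2.2| ≤ 1 := by
  decide +kernel
theorem ck_tanti : ∀ t ∈ tets, antiB exits tets t 1 1 = true ∧ antiB exits tets t 1 (-1) = true ∧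
    antiB exits tets t (-1) 1 = true ∧ antiB exits tets t (-1) (-1) = true := by decide +kernel
theorem ck_cons : ∀ t ∈ tets, ∀ t' ∈ tets, consB exits t t' = true := by decide +kernel
theorem ck_ap : ∀ t ∈ tets, ∀ t' ∈ tets, apB exits t t' = true := by decide +kernel

theorem chartUniq_nil : ChartUniq [] := by
  intro L hL; cases hL

theorem ck_kcharts : ∀ k, ChartUniq (kcharts k) := by
  intro k
  match k with
  | 0 => exact chart_unique _ _ _ ck_k0
  | 1 => exact chart_unique _ _ _ ck_k1
  | 2 => exact chart_unique _ _ _ ck_k2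
  | 3 => exact chart_unique _ _ _ ck_k3
  | 4 => exact chart_unique _ _ _ ck_k4
  | n + 5 => exact chartUniq_nil

theorem ck_fcharts : ∀ k, ChartUniq (fcharts k) := by
  intro k
  match k with
  | 0 => exact chart_unique _ _ _ ck_f0
  | 1 => exact chart_unique _ _ _ ck_f1
  | 2 => exact chart_unique _ _ _ ck_f2
  | 3 => exact chart_unique _ _ _ ck_f3
  | 4 => exact chart_unique _ _ _ ck_f4
  | n + 5 => exact chartUniq_nil

end RPF
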