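import Pool.Agent.Helper876.RP.Data

namespace RPF
open Set
set_option maxRecDepth 100000

theorem memP_0 (X Y : ℝ) (h0 : 0 ≤ (2520:ℝ) + (-21) * X + 1 * Y) (h1 : 0 ≤ (-1680:ℝ) + 21 * X + (-5) * Y) (h2 : 0 ≤ (0:ℝ) + 0 * X + 4 * Y) :
    (X, Y) ∈ plReg pcells 0 := by
  refine ⟨pcells[0]'(by decide), List.getElem_mem _, rfl, ?_⟩
  intro g hg
  have hg' : g ∈ ([(2520,-21,1,0), (-1680,21,-5,0), (0,0,4,0)] : List Fn) := hg
  simp only [List.mem_cons, List.not_mem_nil, or_false] at hg'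
  rcases hg' with rfl | rfl | rfl
  · simp only [evR]; push_cast; linarith
  · simp only [evR]; push_cast; linarith
  · simp only [evR]; push_cast; linarith

theorem memP_1 (X Y : ℝ) (h0 : 0 ≤ (2740:ℝ) + (-13) * X + (-5) * Y) (h1 : 0 ≤ (-2520:ℝ) + 21 * X + (-1) * Y) (h2 : 0 ≤ (960:ℝ) + (-8) * X + 6 * Y) :
    (X, Y) ∈ plReg pcells 0 := by
  refine ⟨pcells[1]'(by decide), List.getElem_mem _, rfl, ?_⟩
  intro g hg
  have hg' : g ∈ ([(2740,-13,-5,0), (-2520,21,-1,0), (960,-8,6,0)] : List Fn) := hg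
  simp only [List.mem_cons, List.not_mem_nil, or_false] at hg'
  rcases hg' with rfl | rfl | rfl
  · simp only [evR]; push_cast; linarith
  · simp only [evR]; push_cast; linarith
  · simp only [evR]; push_cast; linarith

theorem memP_2 (X Y : ℝ) (h0 : 0 ≤ (2960:ℝ) + (-5) * X + (-11) * Y) (h1 : 0 ≤ (-2740:ℝ) + 13 * X + 5 * Y) (h2 : 0 ≤ (960:ℝ) + (-8) * X + 6 * Y) :
    (X, Y) ∈ plReg pcells 0 := by
  refine ⟨pcells[2]'(by decide), List.getElem_mem _, rfl, ?_⟩
  intro g hg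
  have hg' : g ∈ ([(2960,-5,-11,0), (-2740,13,5,0), (960,-8,6,0)] : List Fn) := hg
  simp only [List.mem_cons, List.not_mem_nil, or_false] at hg'
  rcases hg' with rfl | rfl | rfl
  · simp only [evR]; push_cast; linarith
  · simp only [evR]; push_cast; linarith
  · simp only [evR]; push_cast; linarith

theorem memP_3 (X Y : ℝ) (h0 : 0 ≤ (-490:ℝ) + 7 * X + (-2) * Y) (h1 : 0 ≤ (-2960:ℝ) + 5 * X + 11 * Y) (h2 : 0 ≤ (4320:ℝ) + (-12) * X + (-9) * Y) :
    (X, Y) ∈ plReg pcells 0 := by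
  refine ⟨pcells[3]'(by decide), List.getElem_mem _, rfl, ?_⟩
  intro g hg
  have hg' : g ∈ ([(-490,7,-2,0), (-2960,5,11,0), (4320,-12,-9,0)] : List Fn) := hg
  simp only [List.mem_cons, List.not_mem_nil, or_false] at hg'
  rcases hg' with rfl | rfl | rfl
  · simp only [evR]; push_cast; linarith
  · simp only [evR]; push_cast; linarith
  · simp only [evR]; push_cast; linarith

theorem memP_4 (X Y : ℝ) (h0 : 0 ≤ (4800:ℝ) + (-4) * X + (-15) * Y) (h1 : 0 ≤ (-4320:ℝ) + 12 * X + 9 * Y) (h2 : 0 ≤ (960:ℝ) + (-8) * X + 6 * Y) :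
    (X, Y) ∈ plReg pcells 0 := by
  refine ⟨pcells[4]'(by decide), List.getElem_mem _, rfl, ?_⟩
  intro g hg
  have hg' : g ∈ ([(4800,-4,-15,0), (-4320,12,9,0), (960,-8,6,0)] : List Fn) := hg
  simp only [List.mem_cons, List.not_mem_nil, or_false] at hg'
  rcases hg' with rfl | rfl | rfl
  · simp only [evR]; push_cast; linarith
  · simp only [evR]; push_cast; linarith
  · simp only [evR]; push_cast; linarith

theorem memP_5 (X Y : ℝ) (h0 : 0 ≤ (1360:ℝ) + 4 * X + (-7) * Y) (h1 : 0 ≤ (-4800:ℝ) + 4 * X + 15 * Y) (h2 : 0 ≤ (4320:ℝ) + (-8) * X + (-8) * Y) :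
    (X, Y) ∈ plReg pcells 0 := by
  refine ⟨pcells[5]'(by decide), List.getElem_mem _, rfl, ?_⟩
  intro g hg
  have hg' : g ∈ ([(1360,4,-7,0), (-4800,4,15,0), (4320,-8,-8,0)] : List Fn) := hg
  simp only [List.mem_cons, List.not_mem_nil, or_false] at hg'
  rcases hg' with rfl | rfl | rfl
  · simp only [evR]; push_cast; linarith
  · simp only [evR]; push_cast; linarith
  · simp only [evR]; push_cast; linarith

theorem memP_6 (X Y : ℝ) (h0 : 0 ≤ (-2080:ℝ) + 12 * X + 1 * Y) (h1 : 0 ≤ (-1360:ℝ) + (-4) * X + 7 * Y) (h2 : 0 ≤ (4320:ℝ) + (-8) * X + (-8) * Y) :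
    (X, Y) ∈ plReg pcells 0 := by
  refine ⟨pcells[6]'(by decide), List.getElem_mem _, rfl, ?_⟩
  intro g hg
  have hg' : g ∈ ([(-2080,12,1,0), (-1360,-4,7,0), (4320,-8,-8,0)] : List Fn) := hg
  simp only [List.mem_cons, List.not_mem_nil, or_false] at hg'
  rcases hg' with rfl | rfl | rfl
  · simp only [evR]; push_cast; linarith
  · simp only [evR]; push_cast; linarith
  · simp only [evR]; push_cast; linarith

theorem memP_7 (X Y : ℝ) (h0 : 0 ≤ (-3850:ℝ) + 7 * X + 10 * Y) (h1 : 0 ≤ (2080:ℝ) + (-12) * X + (-1) * Y) (h2 : 0 ≤ (2900:ℝ) + 5 * X + (-9) * Y) :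
    (X, Y) ∈ plReg pcells 0 := by
  refine ⟨pcells[7]'(by decide), List.getElem_mem _, rfl, ?_⟩
  intro g hg
  have hg' : g ∈ ([(-3850,7,10,0), (2080,-12,-1,0), (2900,5,-9,0)] : List Fn) := hg
  simp only [List.mem_cons, List.not_mem_nil, or_false] at hg'
  rcases hg' with rfl | rfl | rfl
  · simp only [evR]; push_cast; linarith
  · simp only [evR]; push_cast; linarith
  · simp only [evR]; push_cast; linarith

theorem memP_8 (X Y : ℝ) (h0 : 0 ≤ (-300:ℝ) + 13 * X + (-1) * Y) (h1 : 0 ≤ (-2900:ℝ) + (-5) * X + 9 * Y) (h2 : 0 ≤ (4320:ℝ) + (-8) * X + (-8) * Y) :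
    (X, Y) ∈ plReg pcells 0 := by
  refine ⟨pcells[8]'(by decide), List.getElem_mem _, rfl, ?_⟩
  intro g hg
  have hg' : g ∈ ([(-300,13,-1,0), (-2900,-5,9,0), (4320,-8,-8,0)] : List Fn) := hg
  simp only [List.mem_cons, List.not_mem_nil, or_false] at hg'
  rcases hg' with rfl | rfl | rfl
  · simp only [evR]; push_cast; linarith
  · simp only [evR]; push_cast; linarith
  · simp only [evR]; push_cast; linarith

theorem memP_9 (X Y : ℝ) (h0 : 0 ≤ (-2700:ℝ) + 5 * X + 7 * Y) (h1 : 0 ≤ (300:ℝ) + (-13) * X + 1 * Y) (h2 : 0 ≤ (3360:ℝ) + 8 * X + (-8) * Y) :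
    (X, Y) ∈ plReg pcells 0 := by
  refine ⟨pcells[9]'(by decide), List.getElem_mem _, rfl, ?_⟩
  intro g hg
  have hg' : g ∈ ([(-2700,5,7,0), (300,-13,1,0), (3360,8,-8,0)] : List Fn) := hg
  simp only [List.mem_cons, List.not_mem_nil, or_false] at hg'
  rcases hg' with rfl | rfl | rfl
  · simp only [evR]; push_cast; linarith
  · simp only [evR]; push_cast; linarith
  · simp only [evR]; push_cast; linarith

theorem memP_10 (X Y : ℝ) (h0 : 0 ≤ (-2450:ℝ) + (-7) * X + 8 * Y) (h1 : 0 ≤ (2700:ℝ) + (-5) * X + (-7) * Y) (h2 : 0 ≤ (640:ℝ) + 12 * X + (-1) * Y) :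
    (X, Y) ∈ plReg pcells 0 := by
  refine ⟨pcells[10]'(by decide), List.getElem_mem _, rfl, ?_⟩
  intro g hg
  have hg' : g ∈ ([(-2450,-7,8,0), (2700,-5,-7,0), (640,12,-1,0)] : List Fn) := hg
  simp only [List.mem_cons, List.not_mem_nil, or_false] at hg'
  rcases hg' with rfl | rfl | rfl
  · simp only [evR]; push_cast; linarith
  · simp only [evR]; push_cast; linarith
  · simp only [evR]; push_cast; linarith

theorem memP_11 (X Y : ℝ) (h0 : 0 ≤ (-1840:ℝ) + 4 * X + 7 * Y) (h1 : 0 ≤ (-640:ℝ) + (-12) * X + 1 * Y) (h2 : 0 ≤ (3360:ℝ) + 8 * X + (-8) * Y) :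
    (X, Y) ∈ plReg pcells 0 := by
  refine ⟨pcells[11]'(by decide), List.getElem_mem _, rfl, ?_⟩
  intro g hg
  have hg' : g ∈ ([(-1840,4,7,0), (-640,-12,1,0), (3360,8,-8,0)] : List Fn) := hg
  simp only [List.mem_cons, List.not_mem_nil, or_false] at hg'
  rcases hg' with rfl | rfl | rfl
  · simp only [evR]; push_cast; linarith
  · simp only [evR]; push_cast; linarith
  · simp only [evR]; push_cast; linarith

theorem memP_12 (X Y : ℝ) (h0 : 0 ≤ (-4320:ℝ) + (-4) * X + 15 * Y) (h1 : 0 ≤ (1840:ℝ) + (-4) * X + (-7) * Y) (h2 : 0 ≤ (3360:ℝ) + 8 * X + (-8) * Y) :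
    (X, Y) ∈ plReg pcells 0 := by
  refine ⟨pcells[12]'(by decide), List.getElem_mem _, rfl, ?_⟩
  intro g hg
  have hg' : g ∈ ([(-4320,-4,15,0), (1840,-4,-7,0), (3360,8,-8,0)] : List Fn) := hg
  simp only [List.mem_cons, List.not_mem_nil, or_false] at hg'
  rcases hg' with rfl | rfl | rfl
  · simp only [evR]; push_cast; linarith
  · simp only [evR]; push_cast; linarith
  · simp only [evR]; push_cast; linarith

theorem memP_13 (X Y : ℝ) (h0 : 0 ≤ (-2880:ℝ) + (-12) * X + 9 * Y) (h1 : 0 ≤ (4320:ℝ) + 4 * X + (-15) * Y) (h2 : 0 ≤ (0:ℝ) + 8 * X + 6 * Y) :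
    (X, Y) ∈ plReg pcells 0 := by
  refine ⟨pcells[13]'(by decide), List.getElem_mem _, rfl, ?_⟩
  intro g hg
  have hg' : g ∈ ([(-2880,-12,9,0), (4320,4,-15,0), (0,8,6,0)] : List Fn) := hg
  simp only [List.mem_cons, List.not_mem_nil, or_false] at hg'
  rcases hg' with rfl | rfl | rfl
  · simp only [evR]; push_cast; linarith
  · simp only [evR]; push_cast; linarith
  · simp only [evR]; push_cast; linarith

theorem memP_14 (X Y : ℝ) (h0 : 0 ≤ (-1440:ℝ) + (-20) * X + 3 * Y) (h1 : 0 ≤ (2880:ℝ) + 12 * X + (-9) * Y) (h2 : 0 ≤ (0:ℝ) + 8 * X + 6 * Y) :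
    (X, Y) ∈ plReg pcells 0 := by
  refine ⟨pcells[14]'(by decide), List.getElem_mem _, rfl, ?_⟩
  intro g hg
  have hg' : g ∈ ([(-1440,-20,3,0), (2880,12,-9,0), (0,8,6,0)] : List Fn) := hg
  simp only [List.mem_cons, List.not_mem_nil, or_false] at hg'
  rcases hg' with rfl | rfl | rfl
  · simp only [evR]; push_cast; linarith
  · simp only [evR]; push_cast; linarith
  · simp only [evR]; push_cast; linarith

theorem memP_15 (X Y : ℝ) (h0 : 0 ≤ (910:ℝ) + (-7) * X + (-4) * Y) (h1 : 0 ≤ (1440:ℝ) + 20 * X + (-3) * Y) (h2 : 0 ≤ (-1340:ℝ) + (-13) * X + 7 * Y) :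
    (X, Y) ∈ plReg pcells 0 := by
  refine ⟨pcells[15]'(by decide), List.getElem_mem _, rfl, ?_⟩
  intro g hg
  have hg' : g ∈ ([(910,-7,-4,0), (1440,20,-3,0), (-1340,-13,7,0)] : List Fn) := hg
  simp only [List.mem_cons, List.not_mem_nil, or_false] at hg'
  rcases hg' with rfl | rfl | rfl
  · simp only [evR]; push_cast; linarith
  · simp only [evR]; push_cast; linarith
  · simp only [evR]; push_cast; linarith

theorem memP_16 (X Y : ℝ) (h0 : 0 ≤ (0:ℝ) + (-21) * X + 1 * Y) (h1 : 0 ≤ (1340:ℝ) + 13 * X + (-7) * Y) (h2 : 0 ≤ (0:ℝ) + 8 * X + 6 * Y) :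
    (X, Y) ∈ plReg pcells 0 := by
  refine ⟨pcells[16]'(by decide), List.getElem_mem _, rfl, ?_⟩
  intro g hg
  have hg' : g ∈ ([(0,-21,1,0), (1340,13,-7,0), (0,8,6,0)] : List Fn) := hg
  simp only [List.mem_cons, List.not_mem_nil, or_false] at hg'
  rcases hg' with rfl | rfl | rfl
  · simp only [evR]; push_cast; linarith
  · simp only [evR]; push_cast; linarith
  · simp only [evR]; push_cast; linarith

theorem memP_17 (X Y : ℝ) (h0 : 0 ≤ (840:ℝ) + (-21) * X + (-3) * Y) (h1 : 0 ≤ (0:ℝ) + 21 * X + (-1) * Y) (h2 : 0 ≤ (0:ℝ) + 0 * X + 4 * Y) :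
    (X, Y) ∈ plReg pcells 0 := by
  refine ⟨pcells[17]'(by decide), List.getElem_mem _, rfl, ?_⟩
  intro g hg
  have hg' : g ∈ ([(840,-21,-3,0), (0,21,-1,0), (0,0,4,0)] : List Fn) := hg
  simp only [List.mem_cons, List.not_mem_nil, or_false] at hg'
  rcases hg' with rfl | rfl | rfl
  · simp only [evR]; push_cast; linarith
  · simp only [evR]; push_cast; linarith
  · simp only [evR]; push_cast; linarith

theorem memP_18 (X Y : ℝ) (h0 : 0 ≤ (1680:ℝ) + (-21) * X + (-7) * Y) (h1 : 0 ≤ (-840:ℝ) + 21 * X + 3 * Y) (h2 : 0 ≤ (0:ℝ) + 0 * X + 4 * Y) :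
    (X, Y) ∈ plReg pcells 0 := by
  refine ⟨pcells[18]'(by decide), List.getElem_mem _, rfl, ?_⟩
  intro g hg
  have hg' : g ∈ ([(1680,-21,-7,0), (-840,21,3,0), (0,0,4,0)] : List Fn) := hg
  simp only [List.mem_cons, List.not_mem_nil, or_false] at hg'
  rcases hg' with rfl | rfl | rfl
  · simp only [evR]; push_cast; linarith
  · simp only [evR]; push_cast; linarith
  · simp only [evR]; push_cast; linarith

theorem memP_19 (X Y : ℝ) (h0 : 0 ≤ (2520:ℝ) + 0 * X + (-12) * Y) (h1 : 0 ≤ (-1680:ℝ) + 21 * X + 7 * Y) (h2 : 0 ≤ (1680:ℝ) + (-21) * X + 5 * Y) :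
    (X, Y) ∈ plReg pcells 0 := by
  refine ⟨pcells[19]'(by decide), List.getElem_mem _, rfl, ?_⟩
  intro g hg
  have hg' : g ∈ ([(2520,0,-12,0), (-1680,21,7,0), (1680,-21,5,0)] : List Fn) := hg
  simp only [List.mem_cons, List.not_mem_nil, or_false] at hg'
  rcases hg' with rfl | rfl | rfl
  · simp only [evR]; push_cast; linarith
  · simp only [evR]; push_cast; linarith
  · simp only [evR]; push_cast; linarith

theorem memP_20 (X Y : ℝ) (h0 : 0 ≤ (3850:ℝ) + (-7) * X + (-10) * Y) (h1 : 0 ≤ (-3500:ℝ) + 14 * X + 8 * Y) (h2 : 0 ≤ (490:ℝ) + (-7) * X + 2 * Y) :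
    (X, Y) ∈ plReg pcells 0 := by
  refine ⟨pcells[20]'(by decide), List.getElem_mem _, rfl, ?_⟩
  intro g hg
  have hg' : g ∈ ([(3850,-7,-10,0), (-3500,14,8,0), (490,-7,2,0)] : List Fn) := hg
  simp only [List.mem_cons, List.not_mem_nil, or_false] at hg'
  rcases hg' with rfl | rfl | rfl
  · simp only [evR]; push_cast; linarith
  · simp only [evR]; push_cast; linarith
  · simp only [evR]; push_cast; linarith

theorem memP_21 (X Y : ℝ) (h0 : 0 ≤ (2450:ℝ) + 7 * X + (-8) * Y) (h1 : 0 ≤ (-4270:ℝ) + 7 * X + 16 * Y) (h2 : 0 ≤ (3500:ℝ) + (-14) * X + (-8) * Y) :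
    (X, Y) ∈ plReg pcells 0 := by
  refine ⟨pcells[21]'(by decide), List.getElem_mem _, rfl, ?_⟩
  intro g hg
  have hg' : g ∈ ([(2450,7,-8,0), (-4270,7,16,0), (3500,-14,-8,0)] : List Fn) := hg
  simp only [List.mem_cons, List.not_mem_nil, or_false] at hg'
  rcases hg' with rfl | rfl | rfl
  · simp only [evR]; push_cast; linarith
  · simp only [evR]; push_cast; linarith
  · simp only [evR]; push_cast; linarith

theorem memP_22 (X Y : ℝ) (h0 : 0 ≤ (-910:ℝ) + 7 * X + 4 * Y) (h1 : 0 ≤ (-2520:ℝ) + 0 * X + 12 * Y) (h2 : 0 ≤ (4270:ℝ) + (-7) * X + (-16) * Y) :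
    (X, Y) ∈ plReg pcells 0 := by
  refine ⟨pcells[22]'(by decide), List.getElem_mem _, rfl, ?_⟩
  intro g hg
  have hg' : g ∈ ([(-910,7,4,0), (-2520,0,12,0), (4270,-7,-16,0)] : List Fn) := hg
  simp only [List.mem_cons, List.not_mem_nil, or_false] at hg'
  rcases hg' with rfl | rfl | rfl
  · simp only [evR]; push_cast; linarith
  · simp only [evR]; push_cast; linarith
  · simp only [evR]; push_cast; linarith

theorem memP_23 (X Y : ℝ) (h0 : 0 ≤ (300:ℝ) + (-1) * X + (-2) * Y) (h1 : 0 ≤ (0:ℝ) + 1 * X + (-1) * Y) (h2 : 0 ≤ (0:ℝ) + 0 * X + 3 * Y) :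
    (X, Y) ∈ plReg pcells 1 := by
  refine ⟨pcells[23]'(by decide), List.getElem_mem _, rfl, ?_⟩
  intro g hg
  have hg' : g ∈ ([(300,-1,-2,0), (0,1,-1,0), (0,0,3,0)] : List Fn) := hg
  simp only [List.mem_cons, List.not_mem_nil, or_false] at hg'
  rcases hg' with rfl | rfl | rfl
  · simp only [evR]; push_cast; linarith
  · simp only [evR]; push_cast; linarith
  · simp only [evR]; push_cast; linarith

theorem memP_24 (X Y : ℝ) (h0 : 0 ≤ (-300:ℝ) + 2 * X + 1 * Y) (h1 : 0 ≤ (-300:ℝ) + 1 * X + 2 * Y) (h2 : 0 ≤ (900:ℝ) + (-3) * X + (-3) * Y) :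
    (X, Y) ∈ plReg pcells 1 := by
  refine ⟨pcells[24]'(by decide), List.getElem_mem _, rfl, ?_⟩
  intro g hg
  have hg' : g ∈ ([(-300,2,1,0), (-300,1,2,0), (900,-3,-3,0)] : List Fn) := hg
  simp only [List.mem_cons, List.not_mem_nil, or_false] at hg'
  rcases hg' with rfl | rfl | rfl
  · simp only [evR]; push_cast; linarith
  · simp only [evR]; push_cast; linarith
  · simp only [evR]; push_cast; linarith

theorem memP_25 (X Y : ℝ) (h0 : 0 ≤ (0:ℝ) + (-1) * X + 1 * Y) (h1 : 0 ≤ (300:ℝ) + (-2) * X + (-1) * Y) (h2 : 0 ≤ (0:ℝ) + 3 * X + 0 * Y) :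
    (X, Y) ∈ plReg pcells 1 := by
  refine ⟨pcells[25]'(by decide), List.getElem_mem _, rfl, ?_⟩
  intro g hg
  have hg' : g ∈ ([(0,-1,1,0), (300,-2,-1,0), (0,3,0,0)] : List Fn) := hg
  simp only [List.mem_cons, List.not_mem_nil, or_false] at hg'
  rcases hg' with rfl | rfl | rfl
  · simp only [evR]; push_cast; linarith
  · simp only [evR]; push_cast; linarith
  · simp only [evR]; push_cast; linarith

theorem covP_0 (X Y : ℝ) (c0 : 0 ≤ (480:ℝ) + (-4) * X + 3 * Y) (c1 : 0 ≤ (540:ℝ) + (-1) * X + (-1) * Y) (c2 : 0 ≤ (420:ℝ) + 1 * X + (-1) * Y) (c3 : 0 ≤ (0:ℝ) + 4 * X + 3 * Y) (c4 : 0 ≤ (0:ℝ) + 0 * X + 1 * Y) :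
    (X, Y) ∈ plReg pcells 0 := by
  rcases le_total 0 ((-1750:ℝ) + 7 * X + 4 * Y) with h11 | h11
  · rcases le_total 0 ((2900:ℝ) + 5 * X + (-9) * Y) with h12 | h12
    · rcases le_total 0 ((-2960:ℝ) + 5 * X + 11 * Y) with h13 | h13
      · rcases le_total 0 ((-1440:ℝ) + 4 * X + 3 * Y) with h14 | h14
        · rcases le_total 0 ((1360:ℝ) + 4 * X + (-7) * Y) with h15 | h15
          · rcases le_total 0 ((-4800:ℝ) + 4 * X + 15 * Y) with h16 | h16
            · exact memP_5 X Y (by linarith) (by linarith) (by linarith)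
            · exact memP_4 X Y (by linarith) (by linarith) (by linarith)
          · rcases le_total 0 ((-2080:ℝ) + 12 * X + 1 * Y) with h16 | h16
            · exact memP_6 X Y (by linarith) (by linarith) (by linarith)
            · exact memP_7 X Y (by linarith) (by linarith) (by linarith)
        · rcases le_total 0 ((-3850:ℝ) + 7 * X + 10 * Y) with h15 | h15
          · exact memP_7 X Y (by linarith) (by linarith) (by linarith)
          · rcases le_total 0 ((-490:ℝ) + 7 * X + (-2) * Y) with h16 | h16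
            · exact memP_3 X Y (by linarith) (by linarith) (by linarith)
            · exact memP_20 X Y (by linarith) (by linarith) (by linarith)
      · exact memP_2 X Y (by linarith) (by linarith) (by linarith)
    · rcases le_total 0 ((-300:ℝ) + 13 * X + (-1) * Y) with h13 | h13
      · exact memP_8 X Y (by linarith) (by linarith) (by linarith)
      · exact memP_9 X Y (by linarith) (by linarith) (by linarith)
  · rcases le_total 0 ((-1680:ℝ) + 21 * X + (-5) * Y) with h12 | h12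
    · rcases le_total 0 ((-2520:ℝ) + 21 * X + (-1) * Y) with h13 | h13
      · rcases le_total 0 ((-2740:ℝ) + 13 * X + 5 * Y) with h14 | h14
        · exact memP_2 X Y (by linarith) (by linarith) (by linarith)
        · exact memP_1 X Y (by linarith) (by linarith) (by linarith)
      · exact memP_0 X Y (by linarith) (by linarith) (by linarith)
    · rcases le_total 0 ((-2700:ℝ) + 5 * X + 7 * Y) with h13 | h13
      · exact memP_9 X Y (by linarith) (by linarith) (by linarith)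
      · rcases le_total 0 ((1440:ℝ) + 20 * X + (-3) * Y) with h14 | h14
        · rcases le_total 0 ((-4270:ℝ) + 7 * X + 16 * Y) with h15 | h15
          · rcases le_total 0 ((2450:ℝ) + 7 * X + (-8) * Y) with h16 | h16
            · exact memP_21 X Y (by linarith) (by linarith) (by linarith)
            · exact memP_10 X Y (by linarith) (by linarith) (by linarith)
          · rcases le_total 0 ((0:ℝ) + 21 * X + (-1) * Y) with h16 | h16
            · rcases le_total 0 ((-240:ℝ) + 3 * X + 1 * Y) with h17 | h17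
              · rcases le_total 0 ((-210:ℝ) + 0 * X + 1 * Y) with h18 | h18
                · exact memP_22 X Y (by linarith) (by linarith) (by linarith)
                · exact memP_19 X Y (by linarith) (by linarith) (by linarith)
              · rcases le_total 0 ((-280:ℝ) + 7 * X + 1 * Y) with h18 | h18
                · exact memP_18 X Y (by linarith) (by linarith) (by linarith)
                · exact memP_17 X Y (by linarith) (by linarith) (by linarith)
            · rcases le_total 0 ((1340:ℝ) + 13 * X + (-7) * Y) with h17 | h17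
              · exact memP_16 X Y (by linarith) (by linarith) (by linarith)
              · rcases le_total 0 ((-910:ℝ) + 7 * X + 4 * Y) with h18 | h18
                · exact memP_22 X Y (by linarith) (by linarith) (by linarith)
                · exact memP_15 X Y (by linarith) (by linarith) (by linarith)
        · rcases le_total 0 ((4320:ℝ) + 4 * X + (-15) * Y) with h15 | h15
          · rcases le_total 0 ((960:ℝ) + 4 * X + (-3) * Y) with h16 | h16
            · exact memP_14 X Y (by linarith) (by linarith) (by linarith)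
            · exact memP_13 X Y (by linarith) (by linarith) (by linarith)
          · rcases le_total 0 ((-1840:ℝ) + 4 * X + 7 * Y) with h16 | h16
            · rcases le_total 0 ((640:ℝ) + 12 * X + (-1) * Y) with h17 | h17
              · exact memP_10 X Y (by linarith) (by linarith) (by linarith)
              · exact memP_11 X Y (by linarith) (by linarith) (by linarith)
            · exact memP_12 X Y (by linarith) (by linarith) (by linarith)

theorem covP_1 (X Y : ℝ) (c0 : 0 ≤ (0:ℝ) + 0 * X + 1 * Y) (c1 : 0 ≤ (300:ℝ) + (-1) * X + (-1) * Y) (c2 : 0 ≤ (0:ℝ) + 1 * X + 0 * Y) :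
    (X, Y) ∈ plReg pcells 1 := by
  rcases le_total 0 ((-300:ℝ) + 2 * X + 1 * Y) with h11 | h11
  · rcases le_total 0 ((-300:ℝ) + 1 * X + 2 * Y) with h12 | h12
    · exact memP_24 X Y (by linarith) (by linarith) (by linarith)
    · exact memP_23 X Y (by linarith) (by linarith) (by linarith)
  · rcases le_total 0 ((0:ℝ) + 1 * X + (-1) * Y) with h12 | h12
    · exact memP_23 X Y (by linarith) (by linarith) (by linarith)
    · exact memP_25 X Y (by linarith) (by linarith) (by linarith)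

theorem covP : ∀ r < 2, ∀ y : ℝ × ℝ, (∀ e ∈ exits r, 0 ≤ e2R e.s (y.1, y.2, 0)) → y ∈ plReg pcells r := by
  intro r hr y h
  interval_cases r
  · have H := fun (k : ℕ) (hk : k < (exits 0).length) => h _ (List.getElem_mem hk)
    have c0 := H 1 (by decide)
    have c0 : 0 ≤ e2R (480,-4,3) (y.1, y.2, 0) := c0
    have c1 := H 2 (by decide)
    have c1 : 0 ≤ e2R (540,-1,-1) (y.1, y.2, 0) := c1
    have c2 := H 3 (by decide)
    have c2 : 0 ≤ e2R (420,1,-1) (y.1, y.2, 0) := c2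
    have c3 := H 4 (by decide)
    have c3 : 0 ≤ e2R (0,4,3) (y.1, y.2, 0) := c3
    have c4 := H 5 (by decide)
    have c4 : 0 ≤ e2R (0,0,1) (y.1, y.2, 0) := c4
    simp only [e2R] at c0 c1 c2 c3 c4
    push_cast at c0 c1 c2 c3 c4
    exact covP_0 y.1 y.2 (by linarith) (by linarith) (by linarith) (by linarith) (by linarith)
  · have H := fun (k : ℕ) (hk : k < (exits 1).length) => h _ (List.getElem_mem hk)
    have c0 := H 1 (by decide)
    have c0 : 0 ≤ e2R (0,0,1) (y.1, y.2, 0) := c0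
    have c1 := H 2 (by decide)
    have c1 : 0 ≤ e2R (300,-1,-1) (y.1, y.2, 0) := c1
    have c2 := H 3 (by decide)
    have c2 : 0 ≤ e2R (0,1,0) (y.1, y.2, 0) := c2
    simp only [e2R] at c0 c1 c2
    push_cast at c0 c1 c2
    exact covP_1 y.1 y.2 (by linarith) (by linarith) (by linarith)

theorem memT_0 (x y s : ℝ) (h0 : 0 ≤ (-36:ℝ) + 5 * x + 4 * y + (-4) * s) (h1 : 0 ≤ (64:ℝ) + (-8) * x + (-8) * y + 0 * s) (h2 : 0 ≤ (-24:ℝ) + 3 * x + 4 * y + 0 * s) (h3 : 0 ≤ (4:ℝ) + 0 * x + 0 * y + 4 * s) :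
    ∃ t ∈ tets, (x, y, s) ∈ t.car := by
  refine ⟨tets[0]'(by decide), List.getElem_mem _, ?_⟩
  intro g hg
  have hg' : g ∈ ([(-36,5,4,-4), (64,-8,-8,0), (-24,3,4,0), (4,0,0,4)] : List Fn) := hg
  simp only [List.mem_cons, List.not_mem_nil, or_false] at hg'
  rcases hg' with rfl | rfl | rfl | rfl
  · simp only [evR]; push_cast; linarith
  · simp only [evR]; push_cast; linarith
  · simp only [evR]; push_cast; linarith
  · simp only [evR]; push_cast; linarith

theorem memT_1 (x y s : ℝ) (h0 : 0 ≤ (28:ℝ) + (-3) * x + (-4) * y + (-4) * s) (h1 : 0 ≤ (-24:ℝ) + 3 * x + 4 * y + 0 * s) (h2 : 0 ≤ (-32:ℝ) + 5 * x + 4 * y + 0 * s) (h3 : 0 ≤ (36:ℝ) + (-5) * x + (-4) * y + 4 * s) :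
    ∃ t ∈ tets, (x, y, s) ∈ t.car := by
  refine ⟨tets[1]'(by decide), List.getElem_mem _, ?_⟩
  intro g hg
  have hg' : g ∈ ([(28,-3,-4,-4), (-24,3,4,0), (-32,5,4,0), (36,-5,-4,4)] : List Fn) := hg
  simp only [List.mem_cons, List.not_mem_nil, or_false] at hg'
  rcases hg' with rfl | rfl | rfl | rfl
  · simp only [evR]; push_cast; linarith
  · simp only [evR]; push_cast; linarith
  · simp only [evR]; push_cast; linarith
  · simp only [evR]; push_cast; linarith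

theorem memT_2 (x y s : ℝ) (h0 : 0 ≤ (4:ℝ) + 0 * x + 0 * y + (-4) * s) (h1 : 0 ≤ (-32:ℝ) + 5 * x + 4 * y + 0 * s) (h2 : 0 ≤ (64:ℝ) + (-8) * x + (-8) * y + 0 * s) (h3 : 0 ≤ (-28:ℝ) + 3 * x + 4 * y + 4 * s) :
    ∃ t ∈ tets, (x, y, s) ∈ t.car := by
  refine ⟨tets[2]'(by decide), List.getElem_mem _, ?_⟩
  intro g hg
  have hg' : g ∈ ([(4,0,0,-4), (-32,5,4,0), (64,-8,-8,0), (-28,3,4,4)] : List Fn) := hg
  simp only [List.mem_cons, List.not_mem_nil, or_false] at hg'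
  rcases hg' with rfl | rfl | rfl | rfl
  · simp only [evR]; push_cast; linarith
  · simp only [evR]; push_cast; linarith
  · simp only [evR]; push_cast; linarith
  · simp only [evR]; push_cast; linarith

theorem memT_3 (x y s : ℝ) (h0 : 0 ≤ (21:ℝ) + (-3) * x + (-4) * y + (-3) * s) (h1 : 0 ≤ (-18:ℝ) + 3 * x + 2 * y + 0 * s) (h2 : 0 ≤ (0:ℝ) + 0 * x + 2 * y + 0 * s) (h3 : 0 ≤ (3:ℝ) + 0 * x + 0 * y + 3 * s) :
    ∃ t ∈ tets, (x, y, s) ∈ t.car := by
  refine ⟨tets[3]'(by decide), List.getElem_mem _, ?_⟩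
  intro g hg
  have hg' : g ∈ ([(21,-3,-4,-3), (-18,3,2,0), (0,0,2,0), (3,0,0,3)] : List Fn) := hg
  simp only [List.mem_cons, List.not_mem_nil, or_false] at hg'
  rcases hg' with rfl | rfl | rfl | rfl
  · simp only [evR]; push_cast; linarith
  · simp only [evR]; push_cast; linarith
  · simp only [evR]; push_cast; linarith
  · simp only [evR]; push_cast; linarith

theorem memT_4 (x y s : ℝ) (h0 : 0 ≤ (3:ℝ) + 0 * x + (-2) * y + (-3) * s) (h1 : 0 ≤ (0:ℝ) + 0 * x + 2 * y + 0 * s) (h2 : 0 ≤ (24:ℝ) + (-3) * x + (-4) * y + 0 * s) (h3 : 0 ≤ (-21:ℝ) + 3 * x + 4 * y + 3 * s) :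
    ∃ t ∈ tets, (x, y, s) ∈ t.car := by
  refine ⟨tets[4]'(by decide), List.getElem_mem _, ?_⟩
  intro g hg
  have hg' : g ∈ ([(3,0,-2,-3), (0,0,2,0), (24,-3,-4,0), (-21,3,4,3)] : List Fn) := hg
  simp only [List.mem_cons, List.not_mem_nil, or_false] at hg'
  rcases hg' with rfl | rfl | rfl | rfl
  · simp only [evR]; push_cast; linarith
  · simp only [evR]; push_cast; linarith
  · simp only [evR]; push_cast; linarith
  · simp only [evR]; push_cast; linarith

theorem memT_5 (x y s : ℝ) (h0 : 0 ≤ (3:ℝ) + 0 * x + 0 * y + (-3) * s) (h1 : 0 ≤ (24:ℝ) + (-3) * x + (-4) * y + 0 * s) (h2 : 0 ≤ (-18:ℝ) + 3 * x + 2 * y + 0 * s) (h3 : 0 ≤ (-3:ℝ) + 0 * x + 2 * y + 3 * s) :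
    ∃ t ∈ tets, (x, y, s) ∈ t.car := by
  refine ⟨tets[5]'(by decide), List.getElem_mem _, ?_⟩
  intro g hg
  have hg' : g ∈ ([(3,0,0,-3), (24,-3,-4,0), (-18,3,2,0), (-3,0,2,3)] : List Fn) := hg
  simp only [List.mem_cons, List.not_mem_nil, or_false] at hg'
  rcases hg' with rfl | rfl | rfl | rfl
  · simp only [evR]; push_cast; linarith
  · simp only [evR]; push_cast; linarith
  · simp only [evR]; push_cast; linarith
  · simp only [evR]; push_cast; linarith

theorem memT_6 (x y s : ℝ) (h0 : 0 ≤ (-27:ℝ) + 6 * x + (-2) * y + (-9) * s) (h1 : 0 ≤ (0:ℝ) + 0 * x + 6 * y + 0 * s) (h2 : 0 ≤ (36:ℝ) + (-6) * x + (-4) * y + 0 * s) (h3 : 0 ≤ (9:ℝ) + 0 * x + 0 * y + 9 * s) :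
    ∃ t ∈ tets, (x, y, s) ∈ t.car := by
  refine ⟨tets[6]'(by decide), List.getElem_mem _, ?_⟩
  intro g hg
  have hg' : g ∈ ([(-27,6,-2,-9), (0,0,6,0), (36,-6,-4,0), (9,0,0,9)] : List Fn) := hg
  simp only [List.mem_cons, List.not_mem_nil, or_false] at hg'
  rcases hg' with rfl | rfl | rfl | rfl
  · simp only [evR]; push_cast; linarith
  · simp only [evR]; push_cast; linarith
  · simp only [evR]; push_cast; linarith
  · simp only [evR]; push_cast; linarith

theorem memT_7 (x y s : ℝ) (h0 : 0 ≤ (-27:ℝ) + 6 * x + 4 * y + (-9) * s) (h1 : 0 ≤ (36:ℝ) + (-6) * x + (-4) * y + 0 * s) (h2 : 0 ≤ (-18:ℝ) + 6 * x + (-2) * y + 0 * s) (h3 : 0 ≤ (27:ℝ) + (-6) * x + 2 * y + 9 * s) :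
    ∃ t ∈ tets, (x, y, s) ∈ t.car := by
  refine ⟨tets[7]'(by decide), List.getElem_mem _, ?_⟩
  intro g hg
  have hg' : g ∈ ([(-27,6,4,-9), (36,-6,-4,0), (-18,6,-2,0), (27,-6,2,9)] : List Fn) := hg
  simp only [List.mem_cons, List.not_mem_nil, or_false] at hg'
  rcases hg' with rfl | rfl | rfl | rfl
  · simp only [evR]; push_cast; linarith
  · simp only [evR]; push_cast; linarith
  · simp only [evR]; push_cast; linarith
  · simp only [evR]; push_cast; linarith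

theorem memT_8 (x y s : ℝ) (h0 : 0 ≤ (9:ℝ) + 0 * x + 0 * y + (-9) * s) (h1 : 0 ≤ (-18:ℝ) + 6 * x + (-2) * y + 0 * s) (h2 : 0 ≤ (0:ℝ) + 0 * x + 6 * y + 0 * s) (h3 : 0 ≤ (27:ℝ) + (-6) * x + (-4) * y + 9 * s) :
    ∃ t ∈ tets, (x, y, s) ∈ t.car := by
  refine ⟨tets[8]'(by decide), List.getElem_mem _, ?_⟩
  intro g hg
  have hg' : g ∈ ([(9,0,0,-9), (-18,6,-2,0), (0,0,6,0), (27,-6,-4,9)] : List Fn) := hg
  simp only [List.mem_cons, List.not_mem_nil, or_false] at hg'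
  rcases hg' with rfl | rfl | rfl | rfl
  · simp only [evR]; push_cast; linarith
  · simp only [evR]; push_cast; linarith
  · simp only [evR]; push_cast; linarith
  · simp only [evR]; push_cast; linarith

theorem memT_9 (x y s : ℝ) (h0 : 0 ≤ (5:ℝ) + (-4) * x + 6 * y + (-7) * s) (h1 : 0 ≤ (-16:ℝ) + 10 * x + (-8) * y + 0 * s) (h2 : 0 ≤ (18:ℝ) + (-6) * x + 2 * y + 0 * s) (h3 : 0 ≤ (7:ℝ) + 0 * x + 0 * y + 7 * s) :
    ∃ t ∈ tets, (x, y, s) ∈ t.car := by
  refine ⟨tets[9]'(by decide), List.getElem_mem _, ?_⟩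
  intro g hg
  have hg' : g ∈ ([(5,-4,6,-7), (-16,10,-8,0), (18,-6,2,0), (7,0,0,7)] : List Fn) := hg
  simp only [List.mem_cons, List.not_mem_nil, or_false] at hg'
  rcases hg' with rfl | rfl | rfl | rfl
  · simp only [evR]; push_cast; linarith
  · simp only [evR]; push_cast; linarith
  · simp only [evR]; push_cast; linarith
  · simp only [evR]; push_cast; linarith

theorem memT_10 (x y s : ℝ) (h0 : 0 ≤ (-11:ℝ) + 6 * x + (-2) * y + (-7) * s) (h1 : 0 ≤ (18:ℝ) + (-6) * x + 2 * y + 0 * s) (h2 : 0 ≤ (12:ℝ) + (-4) * x + 6 * y + 0 * s) (h3 : 0 ≤ (-5:ℝ) + 4 * x + (-6) * y + 7 * s) :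
    ∃ t ∈ tets, (x, y, s) ∈ t.car := by
  refine ⟨tets[10]'(by decide), List.getElem_mem _, ?_⟩
  intro g hg
  have hg' : g ∈ ([(-11,6,-2,-7), (18,-6,2,0), (12,-4,6,0), (-5,4,-6,7)] : List Fn) := hg
  simp only [List.mem_cons, List.not_mem_nil, or_false] at hg'
  rcases hg' with rfl | rfl | rfl | rfl
  · simp only [evR]; push_cast; linarith
  · simp only [evR]; push_cast; linarith
  · simp only [evR]; push_cast; linarith
  · simp only [evR]; push_cast; linarith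

theorem memT_11 (x y s : ℝ) (h0 : 0 ≤ (7:ℝ) + 0 * x + 0 * y + (-7) * s) (h1 : 0 ≤ (12:ℝ) + (-4) * x + 6 * y + 0 * s) (h2 : 0 ≤ (-16:ℝ) + 10 * x + (-8) * y + 0 * s) (h3 : 0 ≤ (11:ℝ) + (-6) * x + 2 * y + 7 * s) :
    ∃ t ∈ tets, (x, y, s) ∈ t.car := by
  refine ⟨tets[11]'(by decide), List.getElem_mem _, ?_⟩
  intro g hg
  have hg' : g ∈ ([(7,0,0,-7), (12,-4,6,0), (-16,10,-8,0), (11,-6,2,7)] : List Fn) := hg
  simp only [List.mem_cons, List.not_mem_nil, or_false] at hg'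
  rcases hg' with rfl | rfl | rfl | rfl
  · simp only [evR]; push_cast; linarith
  · simp only [evR]; push_cast; linarith
  · simp only [evR]; push_cast; linarith
  · simp only [evR]; push_cast; linarith

theorem memT_12 (x y s : ℝ) (h0 : 0 ≤ (-15:ℝ) + 2 * x + (-6) * y + (-3) * s) (h1 : 0 ≤ (-6:ℝ) + 2 * x + (-3) * y + 0 * s) (h2 : 0 ≤ (24:ℝ) + (-4) * x + 9 * y + 0 * s) (h3 : 0 ≤ (3:ℝ) + 0 * x + 0 * y + 3 * s) :
    ∃ t ∈ tets, (x, y, s) ∈ t.car := by
  refine ⟨tets[12]'(by decide), List.getElem_mem _, ?_⟩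
  intro g hg
  have hg' : g ∈ ([(-15,2,-6,-3), (-6,2,-3,0), (24,-4,9,0), (3,0,0,3)] : List Fn) := hg
  simp only [List.mem_cons, List.not_mem_nil, or_false] at hg'
  rcases hg' with rfl | rfl | rfl | rfl
  · simp only [evR]; push_cast; linarith
  · simp only [evR]; push_cast; linarith
  · simp only [evR]; push_cast; linarith
  · simp only [evR]; push_cast; linarith

theorem memT_13 (x y s : ℝ) (h0 : 0 ≤ (-21:ℝ) + 4 * x + (-9) * y + (-3) * s) (h1 : 0 ≤ (24:ℝ) + (-4) * x + 9 * y + 0 * s) (h2 : 0 ≤ (-12:ℝ) + 2 * x + (-6) * y + 0 * s) (h3 : 0 ≤ (15:ℝ) + (-2) * x + 6 * y + 3 * s) :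
    ∃ t ∈ tets, (x, y, s) ∈ t.car := by
  refine ⟨tets[13]'(by decide), List.getElem_mem _, ?_⟩
  intro g hg
  have hg' : g ∈ ([(-21,4,-9,-3), (24,-4,9,0), (-12,2,-6,0), (15,-2,6,3)] : List Fn) := hg
  simp only [List.mem_cons, List.not_mem_nil, or_false] at hg'
  rcases hg' with rfl | rfl | rfl | rfl
  · simp only [evR]; push_cast; linarith
  · simp only [evR]; push_cast; linarith
  · simp only [evR]; push_cast; linarith
  · simp only [evR]; push_cast; linarith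

theorem memT_14 (x y s : ℝ) (h0 : 0 ≤ (3:ℝ) + 0 * x + 0 * y + (-3) * s) (h1 : 0 ≤ (-12:ℝ) + 2 * x + (-6) * y + 0 * s) (h2 : 0 ≤ (-6:ℝ) + 2 * x + (-3) * y + 0 * s) (h3 : 0 ≤ (21:ℝ) + (-4) * x + 9 * y + 3 * s) :
    ∃ t ∈ tets, (x, y, s) ∈ t.car := by
  refine ⟨tets[14]'(by decide), List.getElem_mem _, ?_⟩
  intro g hg
  have hg' : g ∈ ([(3,0,0,-3), (-12,2,-6,0), (-6,2,-3,0), (21,-4,9,3)] : List Fn) := hg
  simp only [List.mem_cons, List.not_mem_nil, or_false] at hg'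
  rcases hg' with rfl | rfl | rfl | rfl
  · simp only [evR]; push_cast; linarith
  · simp only [evR]; push_cast; linarith
  · simp only [evR]; push_cast; linarith
  · simp only [evR]; push_cast; linarith

theorem memT_15 (x y s : ℝ) (h0 : 0 ≤ (-4:ℝ) + 0 * x + (-2) * y + (-4) * s) (h1 : 0 ≤ (32:ℝ) + (-4) * x + 11 * y + 0 * s) (h2 : 0 ≤ (-24:ℝ) + 4 * x + (-9) * y + 0 * s) (h3 : 0 ≤ (4:ℝ) + 0 * x + 0 * y + 4 * s) :
    ∃ t ∈ tets, (x, y, s) ∈ t.car := by
  refine ⟨tets[15]'(by decide), List.getElem_mem _, ?_⟩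
  intro g hg
  have hg' : g ∈ ([(-4,0,-2,-4), (32,-4,11,0), (-24,4,-9,0), (4,0,0,4)] : List Fn) := hg
  simp only [List.mem_cons, List.not_mem_nil, or_false] at hg'
  rcases hg' with rfl | rfl | rfl | rfl
  · simp only [evR]; push_cast; linarith
  · simp only [evR]; push_cast; linarith
  · simp only [evR]; push_cast; linarith
  · simp only [evR]; push_cast; linarith

theorem memT_16 (x y s : ℝ) (h0 : 0 ≤ (28:ℝ) + (-4) * x + 9 * y + (-4) * s) (h1 : 0 ≤ (-24:ℝ) + 4 * x + (-9) * y + 0 * s) (h2 : 0 ≤ (0:ℝ) + 0 * x + (-2) * y + 0 * s) (h3 : 0 ≤ (4:ℝ) + 0 * x + 2 * y + 4 * s) :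
    ∃ t ∈ tets, (x, y, s) ∈ t.car := by
  refine ⟨tets[16]'(by decide), List.getElem_mem _, ?_⟩
  intro g hg
  have hg' : g ∈ ([(28,-4,9,-4), (-24,4,-9,0), (0,0,-2,0), (4,0,2,4)] : List Fn) := hg
  simp only [List.mem_cons, List.not_mem_nil, or_false] at hg'
  rcases hg' with rfl | rfl | rfl | rfl
  · simp only [evR]; push_cast; linarith
  · simp only [evR]; push_cast; linarith
  · simp only [evR]; push_cast; linarith
  · simp only [evR]; push_cast; linarith

theorem memT_17 (x y s : ℝ) (h0 : 0 ≤ (4:ℝ) + 0 * x + 0 * y + (-4) * s) (h1 : 0 ≤ (0:ℝ) + 0 * x + (-2) * y + 0 * s) (h2 : 0 ≤ (32:ℝ) + (-4) * x + 11 * y + 0 * s) (h3 : 0 ≤ (-28:ℝ) + 4 * x + (-9) * y + 4 * s) :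
    ∃ t ∈ tets, (x, y, s) ∈ t.car := by
  refine ⟨tets[17]'(by decide), List.getElem_mem _, ?_⟩
  intro g hg
  have hg' : g ∈ ([(4,0,0,-4), (0,0,-2,0), (32,-4,11,0), (-28,4,-9,4)] : List Fn) := hg
  simp only [List.mem_cons, List.not_mem_nil, or_false] at hg'
  rcases hg' with rfl | rfl | rfl | rfl
  · simp only [evR]; push_cast; linarith
  · simp only [evR]; push_cast; linarith
  · simp only [evR]; push_cast; linarith
  · simp only [evR]; push_cast; linarith

theorem memT_18 (x y s : ℝ) (h0 : 0 ≤ (18:ℝ) + (-4) * x + 4 * y + (-14) * s) (h1 : 0 ≤ (28:ℝ) + 0 * x + 7 * y + 0 * s) (h2 : 0 ≤ (-32:ℝ) + 4 * x + (-11) * y + 0 * s) (h3 : 0 ≤ (14:ℝ) + 0 * x + 0 * y + 14 * s) :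
    ∃ t ∈ tets, (x, y, s) ∈ t.car := by
  refine ⟨tets[18]'(by decide), List.getElem_mem _, ?_⟩
  intro g hg
  have hg' : g ∈ ([(18,-4,4,-14), (28,0,7,0), (-32,4,-11,0), (14,0,0,14)] : List Fn) := hg
  simp only [List.mem_cons, List.not_mem_nil, or_false] at hg'
  rcases hg' with rfl | rfl | rfl | rfl
  · simp only [evR]; push_cast; linarith
  · simp only [evR]; push_cast; linarith
  · simp only [evR]; push_cast; linarith
  · simp only [evR]; push_cast; linarith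

theorem memT_19 (x y s : ℝ) (h0 : 0 ≤ (46:ℝ) + (-4) * x + 11 * y + (-14) * s) (h1 : 0 ≤ (-32:ℝ) + 4 * x + (-11) * y + 0 * s) (h2 : 0 ≤ (32:ℝ) + (-4) * x + 4 * y + 0 * s) (h3 : 0 ≤ (-18:ℝ) + 4 * x + (-4) * y + 14 * s) :
    ∃ t ∈ tets, (x, y, s) ∈ t.car := by
  refine ⟨tets[19]'(by decide), List.getElem_mem _, ?_⟩
  intro g hg
  have hg' : g ∈ ([(46,-4,11,-14), (-32,4,-11,0), (32,-4,4,0), (-18,4,-4,14)] : List Fn) := hg
  simp only [List.mem_cons, List.not_mem_nil, or_false] at hg'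
  rcases hg' with rfl | rfl | rfl | rfl
  · simp only [evR]; push_cast; linarith
  · simp only [evR]; push_cast; linarith
  · simp only [evR]; push_cast; linarith
  · simp only [evR]; push_cast; linarith

theorem memT_20 (x y s : ℝ) (h0 : 0 ≤ (14:ℝ) + 0 * x + 0 * y + (-14) * s) (h1 : 0 ≤ (32:ℝ) + (-4) * x + 4 * y + 0 * s) (h2 : 0 ≤ (28:ℝ) + 0 * x + 7 * y + 0 * s) (h3 : 0 ≤ (-46:ℝ) + 4 * x + (-11) * y + 14 * s) :
    ∃ t ∈ tets, (x, y, s) ∈ t.car := by
  refine ⟨tets[20]'(by decide), List.getElem_mem _, ?_⟩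
  intro g hg
  have hg' : g ∈ ([(14,0,0,-14), (32,-4,4,0), (28,0,7,0), (-46,4,-11,14)] : List Fn) := hg
  simp only [List.mem_cons, List.not_mem_nil, or_false] at hg'
  rcases hg' with rfl | rfl | rfl | rfl
  · simp only [evR]; push_cast; linarith
  · simp only [evR]; push_cast; linarith
  · simp only [evR]; push_cast; linarith
  · simp only [evR]; push_cast; linarith

theorem memT_21 (x y s : ℝ) (h0 : 0 ≤ (18:ℝ) + (-4) * x + 4 * y + (-14) * s) (h1 : 0 ≤ (-28:ℝ) + 0 * x + (-7) * y + 0 * s) (h2 : 0 ≤ (24:ℝ) + 4 * x + 3 * y + 0 * s) (h3 : 0 ≤ (14:ℝ) + 0 * x + 0 * y + 14 * s) :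
    ∃ t ∈ tets, (x, y, s) ∈ t.car := by
  refine ⟨tets[21]'(by decide), List.getElem_mem _, ?_⟩
  intro g hg
  have hg' : g ∈ ([(18,-4,4,-14), (-28,0,-7,0), (24,4,3,0), (14,0,0,14)] : List Fn) := hg
  simp only [List.mem_cons, List.not_mem_nil, or_false] at hg'
  rcases hg' with rfl | rfl | rfl | rfl
  · simp only [evR]; push_cast; linarith
  · simp only [evR]; push_cast; linarith
  · simp only [evR]; push_cast; linarith
  · simp only [evR]; push_cast; linarith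

theorem memT_22 (x y s : ℝ) (h0 : 0 ≤ (-10:ℝ) + (-4) * x + (-3) * y + (-14) * s) (h1 : 0 ≤ (24:ℝ) + 4 * x + 3 * y + 0 * s) (h2 : 0 ≤ (32:ℝ) + (-4) * x + 4 * y + 0 * s) (h3 : 0 ≤ (-18:ℝ) + 4 * x + (-4) * y + 14 * s) :
    ∃ t ∈ tets, (x, y, s) ∈ t.car := by
  refine ⟨tets[22]'(by decide), List.getElem_mem _, ?_⟩
  intro g hg
  have hg' : g ∈ ([(-10,-4,-3,-14), (24,4,3,0), (32,-4,4,0), (-18,4,-4,14)] : List Fn) := hg
  simp only [List.mem_cons, List.not_mem_nil, or_false] at hg'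
  rcases hg' with rfl | rfl | rfl | rfl
  · simp only [evR]; push_cast; linarith
  · simp only [evR]; push_cast; linarith
  · simp only [evR]; push_cast; linarith
  · simp only [evR]; push_cast; linarith

theorem memT_23 (x y s : ℝ) (h0 : 0 ≤ (14:ℝ) + 0 * x + 0 * y + (-14) * s) (h1 : 0 ≤ (32:ℝ) + (-4) * x + 4 * y + 0 * s) (h2 : 0 ≤ (-28:ℝ) + 0 * x + (-7) * y + 0 * s) (h3 : 0 ≤ (10:ℝ) + 4 * x + 3 * y + 14 * s) :
    ∃ t ∈ tets, (x, y, s) ∈ t.car := by
  refine ⟨tets[23]'(by decide), List.getElem_mem _, ?_⟩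
  intro g hg
  have hg' : g ∈ ([(14,0,0,-14), (32,-4,4,0), (-28,0,-7,0), (10,4,3,14)] : List Fn) := hg
  simp only [List.mem_cons, List.not_mem_nil, or_false] at hg'
  rcases hg' with rfl | rfl | rfl | rfl
  · simp only [evR]; push_cast; linarith
  · simp only [evR]; push_cast; linarith
  · simp only [evR]; push_cast; linarith
  · simp only [evR]; push_cast; linarith

theorem memT_24 (x y s : ℝ) (h0 : 0 ≤ (60:ℝ) + 8 * x + 8 * y + (-4) * s) (h1 : 0 ≤ (-32:ℝ) + (-4) * x + (-5) * y + 0 * s) (h2 : 0 ≤ (-24:ℝ) + (-4) * x + (-3) * y + 0 * s) (h3 : 0 ≤ (4:ℝ) + 0 * x + 0 * y + 4 * s) :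
    ∃ t ∈ tets, (x, y, s) ∈ t.car := by
  refine ⟨tets[24]'(by decide), List.getElem_mem _, ?_⟩
  intro g hg
  have hg' : g ∈ ([(60,8,8,-4), (-32,-4,-5,0), (-24,-4,-3,0), (4,0,0,4)] : List Fn) := hg
  simp only [List.mem_cons, List.not_mem_nil, or_false] at hg'
  rcases hg' with rfl | rfl | rfl | rfl
  · simp only [evR]; push_cast; linarith
  · simp only [evR]; push_cast; linarith
  · simp only [evR]; push_cast; linarith
  · simp only [evR]; push_cast; linarith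

theorem memT_25 (x y s : ℝ) (h0 : 0 ≤ (28:ℝ) + 4 * x + 3 * y + (-4) * s) (h1 : 0 ≤ (-24:ℝ) + (-4) * x + (-3) * y + 0 * s) (h2 : 0 ≤ (64:ℝ) + 8 * x + 8 * y + 0 * s) (h3 : 0 ≤ (-60:ℝ) + (-8) * x + (-8) * y + 4 * s) :
    ∃ t ∈ tets, (x, y, s) ∈ t.car := by
  refine ⟨tets[25]'(by decide), List.getElem_mem _, ?_⟩
  intro g hg
  have hg' : g ∈ ([(28,4,3,-4), (-24,-4,-3,0), (64,8,8,0), (-60,-8,-8,4)] : List Fn) := hg
  simp only [List.mem_cons, List.not_mem_nil, or_false] at hg'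
  rcases hg' with rfl | rfl | rfl | rfl
  · simp only [evR]; push_cast; linarith
  · simp only [evR]; push_cast; linarith
  · simp only [evR]; push_cast; linarith
  · simp only [evR]; push_cast; linarith

theorem memT_26 (x y s : ℝ) (h0 : 0 ≤ (4:ℝ) + 0 * x + 0 * y + (-4) * s) (h1 : 0 ≤ (64:ℝ) + 8 * x + 8 * y + 0 * s) (h2 : 0 ≤ (-32:ℝ) + (-4) * x + (-5) * y + 0 * s) (h3 : 0 ≤ (-28:ℝ) + (-4) * x + (-3) * y + 4 * s) :
    ∃ t ∈ tets, (x, y, s) ∈ t.car := by
  refine ⟨tets[26]'(by decide), List.getElem_mem _, ?_⟩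
  intro g hg
  have hg' : g ∈ ([(4,0,0,-4), (64,8,8,0), (-32,-4,-5,0), (-28,-4,-3,4)] : List Fn) := hg
  simp only [List.mem_cons, List.not_mem_nil, or_false] at hg'
  rcases hg' with rfl | rfl | rfl | rfl
  · simp only [evR]; push_cast; linarith
  · simp only [evR]; push_cast; linarith
  · simp only [evR]; push_cast; linarith
  · simp only [evR]; push_cast; linarith

theorem memT_27 (x y s : ℝ) (h0 : 0 ≤ (14:ℝ) + 4 * x + (-4) * y + (-18) * s) (h1 : 0 ≤ (32:ℝ) + 4 * x + 5 * y + 0 * s) (h2 : 0 ≤ (-28:ℝ) + (-8) * x + (-1) * y + 0 * s) (h3 : 0 ≤ (18:ℝ) + 0 * x + 0 * y + 18 * s) :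
    ∃ t ∈ tets, (x, y, s) ∈ t.car := by
  refine ⟨tets[27]'(by decide), List.getElem_mem _, ?_⟩
  intro g hg
  have hg' : g ∈ ([(14,4,-4,-18), (32,4,5,0), (-28,-8,-1,0), (18,0,0,18)] : List Fn) := hg
  simp only [List.mem_cons, List.not_mem_nil, or_false] at hg'
  rcases hg' with rfl | rfl | rfl | rfl
  · simp only [evR]; push_cast; linarith
  · simp only [evR]; push_cast; linarith
  · simp only [evR]; push_cast; linarith
  · simp only [evR]; push_cast; linarith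

theorem memT_28 (x y s : ℝ) (h0 : 0 ≤ (46:ℝ) + 8 * x + 1 * y + (-18) * s) (h1 : 0 ≤ (-28:ℝ) + (-8) * x + (-1) * y + 0 * s) (h2 : 0 ≤ (32:ℝ) + 4 * x + (-4) * y + 0 * s) (h3 : 0 ≤ (-14:ℝ) + (-4) * x + 4 * y + 18 * s) :
    ∃ t ∈ tets, (x, y, s) ∈ t.car := by
  refine ⟨tets[28]'(by decide), List.getElem_mem _, ?_⟩
  intro g hg
  have hg' : g ∈ ([(46,8,1,-18), (-28,-8,-1,0), (32,4,-4,0), (-14,-4,4,18)] : List Fn) := hg
  simp only [List.mem_cons, List.not_mem_nil, or_false] at hg'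
  rcases hg' with rfl | rfl | rfl | rfl
  · simp only [evR]; push_cast; linarith
  · simp only [evR]; push_cast; linarith
  · simp only [evR]; push_cast; linarith
  · simp only [evR]; push_cast; linarith

theorem memT_29 (x y s : ℝ) (h0 : 0 ≤ (18:ℝ) + 0 * x + 0 * y + (-18) * s) (h1 : 0 ≤ (32:ℝ) + 4 * x + (-4) * y + 0 * s) (h2 : 0 ≤ (32:ℝ) + 4 * x + 5 * y + 0 * s) (h3 : 0 ≤ (-46:ℝ) + (-8) * x + (-1) * y + 18 * s) :
    ∃ t ∈ tets, (x, y, s) ∈ t.car := by
  refine ⟨tets[29]'(by decide), List.getElem_mem _, ?_⟩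
  intro g hg
  have hg' : g ∈ ([(18,0,0,-18), (32,4,-4,0), (32,4,5,0), (-46,-8,-1,18)] : List Fn) := hg
  simp only [List.mem_cons, List.not_mem_nil, or_false] at hg'
  rcases hg' with rfl | rfl | rfl | rfl
  · simp only [evR]; push_cast; linarith
  · simp only [evR]; push_cast; linarith
  · simp only [evR]; push_cast; linarith
  · simp only [evR]; push_cast; linarith

theorem memT_30 (x y s : ℝ) (h0 : 0 ≤ (14:ℝ) + 4 * x + (-4) * y + (-18) * s) (h1 : 0 ≤ (-24:ℝ) + (-12) * x + 3 * y + 0 * s) (h2 : 0 ≤ (28:ℝ) + 8 * x + 1 * y + 0 * s) (h3 : 0 ≤ (18:ℝ) + 0 * x + 0 * y + 18 * s) :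
    ∃ t ∈ tets, (x, y, s) ∈ t.car := by
  refine ⟨tets[30]'(by decide), List.getElem_mem _, ?_⟩
  intro g hg
  have hg' : g ∈ ([(14,4,-4,-18), (-24,-12,3,0), (28,8,1,0), (18,0,0,18)] : List Fn) := hg
  simp only [List.mem_cons, List.not_mem_nil, or_false] at hg'
  rcases hg' with rfl | rfl | rfl | rfl
  · simp only [evR]; push_cast; linarith
  · simp only [evR]; push_cast; linarith
  · simp only [evR]; push_cast; linarith
  · simp only [evR]; push_cast; linarith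

theorem memT_31 (x y s : ℝ) (h0 : 0 ≤ (-10:ℝ) + (-8) * x + (-1) * y + (-18) * s) (h1 : 0 ≤ (28:ℝ) + 8 * x + 1 * y + 0 * s) (h2 : 0 ≤ (32:ℝ) + 4 * x + (-4) * y + 0 * s) (h3 : 0 ≤ (-14:ℝ) + (-4) * x + 4 * y + 18 * s) :
    ∃ t ∈ tets, (x, y, s) ∈ t.car := by
  refine ⟨tets[31]'(by decide), List.getElem_mem _, ?_⟩
  intro g hg
  have hg' : g ∈ ([(-10,-8,-1,-18), (28,8,1,0), (32,4,-4,0), (-14,-4,4,18)] : List Fn) := hg
  simp only [List.mem_cons, List.not_mem_nil, or_false] at hg'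
  rcases hg' with rfl | rfl | rfl | rfl
  · simp only [evR]; push_cast; linarith
  · simp only [evR]; push_cast; linarith
  · simp only [evR]; push_cast; linarith
  · simp only [evR]; push_cast; linarith

theorem memT_32 (x y s : ℝ) (h0 : 0 ≤ (18:ℝ) + 0 * x + 0 * y + (-18) * s) (h1 : 0 ≤ (32:ℝ) + 4 * x + (-4) * y + 0 * s) (h2 : 0 ≤ (-24:ℝ) + (-12) * x + 3 * y + 0 * s) (h3 : 0 ≤ (10:ℝ) + 8 * x + 1 * y + 18 * s) :
    ∃ t ∈ tets, (x, y, s) ∈ t.car := by
  refine ⟨tets[32]'(by decide), List.getElem_mem _, ?_⟩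
  intro g hg
  have hg' : g ∈ ([(18,0,0,-18), (32,4,-4,0), (-24,-12,3,0), (10,8,1,18)] : List Fn) := hg
  simp only [List.mem_cons, List.not_mem_nil, or_false] at hg'
  rcases hg' with rfl | rfl | rfl | rfl
  · simp only [evR]; push_cast; linarith
  · simp only [evR]; push_cast; linarith
  · simp only [evR]; push_cast; linarith
  · simp only [evR]; push_cast; linarith

theorem memT_33 (x y s : ℝ) (h0 : 0 ≤ (-19:ℝ) + (-10) * x + 2 * y + (-3) * s) (h1 : 0 ≤ (-2:ℝ) + (-2) * x + 1 * y + 0 * s) (h2 : 0 ≤ (24:ℝ) + 12 * x + (-3) * y + 0 * s) (h3 : 0 ≤ (3:ℝ) + 0 * x + 0 * y + 3 * s) :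
    ∃ t ∈ tets, (x, y, s) ∈ t.car := by
  refine ⟨tets[33]'(by decide), List.getElem_mem _, ?_⟩
  intro g hg
  have hg' : g ∈ ([(-19,-10,2,-3), (-2,-2,1,0), (24,12,-3,0), (3,0,0,3)] : List Fn) := hg
  simp only [List.mem_cons, List.not_mem_nil, or_false] at hg'
  rcases hg' with rfl | rfl | rfl | rfl
  · simp only [evR]; push_cast; linarith
  · simp only [evR]; push_cast; linarith
  · simp only [evR]; push_cast; linarith
  · simp only [evR]; push_cast; linarith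

theorem memT_34 (x y s : ℝ) (h0 : 0 ≤ (-21:ℝ) + (-12) * x + 3 * y + (-3) * s) (h1 : 0 ≤ (24:ℝ) + 12 * x + (-3) * y + 0 * s) (h2 : 0 ≤ (-16:ℝ) + (-10) * x + 2 * y + 0 * s) (h3 : 0 ≤ (19:ℝ) + 10 * x + (-2) * y + 3 * s) :
    ∃ t ∈ tets, (x, y, s) ∈ t.car := by
  refine ⟨tets[34]'(by decide), List.getElem_mem _, ?_⟩
  intro g hg
  have hg' : g ∈ ([(-21,-12,3,-3), (24,12,-3,0), (-16,-10,2,0), (19,10,-2,3)] : List Fn) := hg
  simp only [List.mem_cons, List.not_mem_nil, or_false] at hg'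
  rcases hg' with rfl | rfl | rfl | rfl
  · simp only [evR]; push_cast; linarith
  · simp only [evR]; push_cast; linarith
  · simp only [evR]; push_cast; linarith
  · simp only [evR]; push_cast; linarith

theorem memT_35 (x y s : ℝ) (h0 : 0 ≤ (3:ℝ) + 0 * x + 0 * y + (-3) * s) (h1 : 0 ≤ (-16:ℝ) + (-10) * x + 2 * y + 0 * s) (h2 : 0 ≤ (-2:ℝ) + (-2) * x + 1 * y + 0 * s) (h3 : 0 ≤ (21:ℝ) + 12 * x + (-3) * y + 3 * s) :
    ∃ t ∈ tets, (x, y, s) ∈ t.car := by
  refine ⟨tets[35]'(by decide), List.getElem_mem _, ?_⟩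
  intro g hg
  have hg' : g ∈ ([(3,0,0,-3), (-16,-10,2,0), (-2,-2,1,0), (21,12,-3,3)] : List Fn) := hg
  simp only [List.mem_cons, List.not_mem_nil, or_false] at hg'
  rcases hg' with rfl | rfl | rfl | rfl
  · simp only [evR]; push_cast; linarith
  · simp only [evR]; push_cast; linarith
  · simp only [evR]; push_cast; linarith
  · simp only [evR]; push_cast; linarith

theorem memT_36 (x y s : ℝ) (h0 : 0 ≤ (-11:ℝ) + 10 * x + (-12) * y + (-7) * s) (h1 : 0 ≤ (4:ℝ) + 4 * x + (-2) * y + 0 * s) (h2 : 0 ≤ (14:ℝ) + (-14) * x + 14 * y + 0 * s) (h3 : 0 ≤ (7:ℝ) + 0 * x + 0 * y + 7 * s) :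
    ∃ t ∈ tets, (x, y, s) ∈ t.car := by
  refine ⟨tets[36]'(by decide), List.getElem_mem _, ?_⟩
  intro g hg
  have hg' : g ∈ ([(-11,10,-12,-7), (4,4,-2,0), (14,-14,14,0), (7,0,0,7)] : List Fn) := hg
  simp only [List.mem_cons, List.not_mem_nil, or_false] at hg'
  rcases hg' with rfl | rfl | rfl | rfl
  · simp only [evR]; push_cast; linarith
  · simp only [evR]; push_cast; linarith
  · simp only [evR]; push_cast; linarith
  · simp only [evR]; push_cast; linarith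

theorem memT_37 (x y s : ℝ) (h0 : 0 ≤ (-7:ℝ) + 14 * x + (-14) * y + (-7) * s) (h1 : 0 ≤ (14:ℝ) + (-14) * x + 14 * y + 0 * s) (h2 : 0 ≤ (-4:ℝ) + 10 * x + (-12) * y + 0 * s) (h3 : 0 ≤ (11:ℝ) + (-10) * x + 12 * y + 7 * s) :
    ∃ t ∈ tets, (x, y, s) ∈ t.car := by
  refine ⟨tets[37]'(by decide), List.getElem_mem _, ?_⟩
  intro g hg
  have hg' : g ∈ ([(-7,14,-14,-7), (14,-14,14,0), (-4,10,-12,0), (11,-10,12,7)] : List Fn) := hg
  simp only [List.mem_cons, List.not_mem_nil, or_false] at hg'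
  rcases hg' with rfl | rfl | rfl | rfl
  · simp only [evR]; push_cast; linarith
  · simp only [evR]; push_cast; linarith
  · simp only [evR]; push_cast; linarith
  · simp only [evR]; push_cast; linarith

theorem memT_38 (x y s : ℝ) (h0 : 0 ≤ (7:ℝ) + 0 * x + 0 * y + (-7) * s) (h1 : 0 ≤ (-4:ℝ) + 10 * x + (-12) * y + 0 * s) (h2 : 0 ≤ (4:ℝ) + 4 * x + (-2) * y + 0 * s) (h3 : 0 ≤ (7:ℝ) + (-14) * x + 14 * y + 7 * s) :
    ∃ t ∈ tets, (x, y, s) ∈ t.car := by
  refine ⟨tets[38]'(by decide), List.getElem_mem _, ?_⟩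
  intro g hg
  have hg' : g ∈ ([(7,0,0,-7), (-4,10,-12,0), (4,4,-2,0), (7,-14,14,7)] : List Fn) := hg
  simp only [List.mem_cons, List.not_mem_nil, or_false] at hg'
  rcases hg' with rfl | rfl | rfl | rfl
  · simp only [evR]; push_cast; linarith
  · simp only [evR]; push_cast; linarith
  · simp only [evR]; push_cast; linarith
  · simp only [evR]; push_cast; linarith

theorem memT_39 (x y s : ℝ) (h0 : 0 ≤ (9:ℝ) + (-10) * x + 8 * y + (-7) * s) (h1 : 0 ≤ (12:ℝ) + (-4) * x + 6 * y + 0 * s) (h2 : 0 ≤ (-14:ℝ) + 14 * x + (-14) * y + 0 * s) (h3 : 0 ≤ (7:ℝ) + 0 * x + 0 * y + 7 * s) :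
    ∃ t ∈ tets, (x, y, s) ∈ t.car := by
  refine ⟨tets[39]'(by decide), List.getElem_mem _, ?_⟩
  intro g hg
  have hg' : g ∈ ([(9,-10,8,-7), (12,-4,6,0), (-14,14,-14,0), (7,0,0,7)] : List Fn) := hg
  simp only [List.mem_cons, List.not_mem_nil, or_false] at hg'
  rcases hg' with rfl | rfl | rfl | rfl
  · simp only [evR]; push_cast; linarith
  · simp only [evR]; push_cast; linarith
  · simp only [evR]; push_cast; linarith
  · simp only [evR]; push_cast; linarith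

theorem memT_40 (x y s : ℝ) (h0 : 0 ≤ (21:ℝ) + (-14) * x + 14 * y + (-7) * s) (h1 : 0 ≤ (-14:ℝ) + 14 * x + (-14) * y + 0 * s) (h2 : 0 ≤ (16:ℝ) + (-10) * x + 8 * y + 0 * s) (h3 : 0 ≤ (-9:ℝ) + 10 * x + (-8) * y + 7 * s) :
    ∃ t ∈ tets, (x, y, s) ∈ t.car := by
  refine ⟨tets[40]'(by decide), List.getElem_mem _, ?_⟩
  intro g hg
  have hg' : g ∈ ([(21,-14,14,-7), (-14,14,-14,0), (16,-10,8,0), (-9,10,-8,7)] : List Fn) := hg
  simp only [List.mem_cons, List.not_mem_nil, or_false] at hg'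
  rcases hg' with rfl | rfl | rfl | rfl
  · simp only [evR]; push_cast; linarith
  · simp only [evR]; push_cast; linarith
  · simp only [evR]; push_cast; linarith
  · simp only [evR]; push_cast; linarith

theorem memT_41 (x y s : ℝ) (h0 : 0 ≤ (7:ℝ) + 0 * x + 0 * y + (-7) * s) (h1 : 0 ≤ (16:ℝ) + (-10) * x + 8 * y + 0 * s) (h2 : 0 ≤ (12:ℝ) + (-4) * x + 6 * y + 0 * s) (h3 : 0 ≤ (-21:ℝ) + 14 * x + (-14) * y + 7 * s) :
    ∃ t ∈ tets, (x, y, s) ∈ t.car := by
  refine ⟨tets[41]'(by decide), List.getElem_mem _, ?_⟩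
  intro g hg
  have hg' : g ∈ ([(7,0,0,-7), (16,-10,8,0), (12,-4,6,0), (-21,14,-14,7)] : List Fn) := hg
  simp only [List.mem_cons, List.not_mem_nil, or_false] at hg'
  rcases hg' with rfl | rfl | rfl | rfl
  · simp only [evR]; push_cast; linarith
  · simp only [evR]; push_cast; linarith
  · simp only [evR]; push_cast; linarith
  · simp only [evR]; push_cast; linarith

theorem memT_42 (x y s : ℝ) (h0 : 0 ≤ (27:ℝ) + (-5) * x + (-4) * y + (-5) * s) (h1 : 0 ≤ (-16:ℝ) + 5 * x + 2 * y + 0 * s) (h2 : 0 ≤ (-6:ℝ) + 0 * x + 2 * y + 0 * s) (h3 : 0 ≤ (5:ℝ) + 0 * x + 0 * y + 5 * s) :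
    ∃ t ∈ tets, (x, y, s) ∈ t.car := by
  refine ⟨tets[42]'(by decide), List.getElem_mem _, ?_⟩
  intro g hg
  have hg' : g ∈ ([(27,-5,-4,-5), (-16,5,2,0), (-6,0,2,0), (5,0,0,5)] : List Fn) := hg
  simp only [List.mem_cons, List.not_mem_nil, or_false] at hg'
  rcases hg' with rfl | rfl | rfl | rfl
  · simp only [evR]; push_cast; linarith
  · simp only [evR]; push_cast; linarith
  · simp only [evR]; push_cast; linarith
  · simp only [evR]; push_cast; linarith

theorem memT_43 (x y s : ℝ) (h0 : 0 ≤ (11:ℝ) + 0 * x + (-2) * y + (-5) * s) (h1 : 0 ≤ (-6:ℝ) + 0 * x + 2 * y + 0 * s) (h2 : 0 ≤ (32:ℝ) + (-5) * x + (-4) * y + 0 * s) (h3 : 0 ≤ (-27:ℝ) + 5 * x + 4 * y + 5 * s) :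
    ∃ t ∈ tets, (x, y, s) ∈ t.car := by
  refine ⟨tets[43]'(by decide), List.getElem_mem _, ?_⟩
  intro g hg
  have hg' : g ∈ ([(11,0,-2,-5), (-6,0,2,0), (32,-5,-4,0), (-27,5,4,5)] : List Fn) := hg
  simp only [List.mem_cons, List.not_mem_nil, or_false] at hg'
  rcases hg' with rfl | rfl | rfl | rfl
  · simp only [evR]; push_cast; linarith
  · simp only [evR]; push_cast; linarith
  · simp only [evR]; push_cast; linarith
  · simp only [evR]; push_cast; linarith

theorem memT_44 (x y s : ℝ) (h0 : 0 ≤ (5:ℝ) + 0 * x + 0 * y + (-5) * s) (h1 : 0 ≤ (32:ℝ) + (-5) * x + (-4) * y + 0 * s) (h2 : 0 ≤ (-16:ℝ) + 5 * x + 2 * y + 0 * s) (h3 : 0 ≤ (-11:ℝ) + 0 * x + 2 * y + 5 * s) :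
    ∃ t ∈ tets, (x, y, s) ∈ t.car := by
  refine ⟨tets[44]'(by decide), List.getElem_mem _, ?_⟩
  intro g hg
  have hg' : g ∈ ([(5,0,0,-5), (32,-5,-4,0), (-16,5,2,0), (-11,0,2,5)] : List Fn) := hg
  simp only [List.mem_cons, List.not_mem_nil, or_false] at hg'
  rcases hg' with rfl | rfl | rfl | rfl
  · simp only [evR]; push_cast; linarith
  · simp only [evR]; push_cast; linarith
  · simp only [evR]; push_cast; linarith
  · simp only [evR]; push_cast; linarith

theorem memT_45 (x y s : ℝ) (h0 : 0 ≤ (12:ℝ) + (-5) * x + (-2) * y + (-4) * s) (h1 : 0 ≤ (0:ℝ) + 4 * x + 0 * y + 0 * s) (h2 : 0 ≤ (-8:ℝ) + 1 * x + 2 * y + 0 * s) (h3 : 0 ≤ (4:ℝ) + 0 * x + 0 * y + 4 * s) :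
    ∃ t ∈ tets, (x, y, s) ∈ t.car := by
  refine ⟨tets[45]'(by decide), List.getElem_mem _, ?_⟩
  intro g hg
  have hg' : g ∈ ([(12,-5,-2,-4), (0,4,0,0), (-8,1,2,0), (4,0,0,4)] : List Fn) := hg
  simp only [List.mem_cons, List.not_mem_nil, or_false] at hg'
  rcases hg' with rfl | rfl | rfl | rfl
  · simp only [evR]; push_cast; linarith
  · simp only [evR]; push_cast; linarith
  · simp only [evR]; push_cast; linarith
  · simp only [evR]; push_cast; linarith

theorem memT_46 (x y s : ℝ) (h0 : 0 ≤ (12:ℝ) + (-1) * x + (-2) * y + (-4) * s) (h1 : 0 ≤ (-8:ℝ) + 1 * x + 2 * y + 0 * s) (h2 : 0 ≤ (16:ℝ) + (-5) * x + (-2) * y + 0 * s) (h3 : 0 ≤ (-12:ℝ) + 5 * x + 2 * y + 4 * s) :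
    ∃ t ∈ tets, (x, y, s) ∈ t.car := by
  refine ⟨tets[46]'(by decide), List.getElem_mem _, ?_⟩
  intro g hg
  have hg' : g ∈ ([(12,-1,-2,-4), (-8,1,2,0), (16,-5,-2,0), (-12,5,2,4)] : List Fn) := hg
  simp only [List.mem_cons, List.not_mem_nil, or_false] at hg'
  rcases hg' with rfl | rfl | rfl | rfl
  · simp only [evR]; push_cast; linarith
  · simp only [evR]; push_cast; linarith
  · simp only [evR]; push_cast; linarith
  · simp only [evR]; push_cast; linarith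

theorem memT_47 (x y s : ℝ) (h0 : 0 ≤ (4:ℝ) + 0 * x + 0 * y + (-4) * s) (h1 : 0 ≤ (16:ℝ) + (-5) * x + (-2) * y + 0 * s) (h2 : 0 ≤ (0:ℝ) + 4 * x + 0 * y + 0 * s) (h3 : 0 ≤ (-12:ℝ) + 1 * x + 2 * y + 4 * s) :
    ∃ t ∈ tets, (x, y, s) ∈ t.car := by
  refine ⟨tets[47]'(by decide), List.getElem_mem _, ?_⟩
  intro g hg
  have hg' : g ∈ ([(4,0,0,-4), (16,-5,-2,0), (0,4,0,0), (-12,1,2,4)] : List Fn) := hg
  simp only [List.mem_cons, List.not_mem_nil, or_false] at hg'
  rcases hg' with rfl | rfl | rfl | rfl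
  · simp only [evR]; push_cast; linarith
  · simp only [evR]; push_cast; linarith
  · simp only [evR]; push_cast; linarith
  · simp only [evR]; push_cast; linarith

theorem memT_48 (x y s : ℝ) (h0 : 0 ≤ (6:ℝ) + 7 * x + (-1) * y + (-2) * s) (h1 : 0 ≤ (0:ℝ) + (-4) * x + 0 * y + 0 * s) (h2 : 0 ≤ (-4:ℝ) + (-3) * x + 1 * y + 0 * s) (h3 : 0 ≤ (2:ℝ) + 0 * x + 0 * y + 2 * s) :
    ∃ t ∈ tets, (x, y, s) ∈ t.car := by
  refine ⟨tets[48]'(by decide), List.getElem_mem _, ?_⟩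
  intro g hg
  have hg' : g ∈ ([(6,7,-1,-2), (0,-4,0,0), (-4,-3,1,0), (2,0,0,2)] : List Fn) := hg
  simp only [List.mem_cons, List.not_mem_nil, or_false] at hg'
  rcases hg' with rfl | rfl | rfl | rfl
  · simp only [evR]; push_cast; linarith
  · simp only [evR]; push_cast; linarith
  · simp only [evR]; push_cast; linarith
  · simp only [evR]; push_cast; linarith

theorem memT_49 (x y s : ℝ) (h0 : 0 ≤ (6:ℝ) + 3 * x + (-1) * y + (-2) * s) (h1 : 0 ≤ (-4:ℝ) + (-3) * x + 1 * y + 0 * s) (h2 : 0 ≤ (8:ℝ) + 7 * x + (-1) * y + 0 * s) (h3 : 0 ≤ (-6:ℝ) + (-7) * x + 1 * y + 2 * s) :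
    ∃ t ∈ tets, (x, y, s) ∈ t.car := by
  refine ⟨tets[49]'(by decide), List.getElem_mem _, ?_⟩
  intro g hg
  have hg' : g ∈ ([(6,3,-1,-2), (-4,-3,1,0), (8,7,-1,0), (-6,-7,1,2)] : List Fn) := hg
  simp only [List.mem_cons, List.not_mem_nil, or_false] at hg'
  rcases hg' with rfl | rfl | rfl | rfl
  · simp only [evR]; push_cast; linarith
  · simp only [evR]; push_cast; linarith
  · simp only [evR]; push_cast; linarith
  · simp only [evR]; push_cast; linarith

theorem memT_50 (x y s : ℝ) (h0 : 0 ≤ (2:ℝ) + 0 * x + 0 * y + (-2) * s) (h1 : 0 ≤ (8:ℝ) + 7 * x + (-1) * y + 0 * s) (h2 : 0 ≤ (0:ℝ) + (-4) * x + 0 * y + 0 * s) (h3 : 0 ≤ (-6:ℝ) + (-3) * x + 1 * y + 2 * s) :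
    ∃ t ∈ tets, (x, y, s) ∈ t.car := by
  refine ⟨tets[50]'(by decide), List.getElem_mem _, ?_⟩
  intro g hg
  have hg' : g ∈ ([(2,0,0,-2), (8,7,-1,0), (0,-4,0,0), (-6,-3,1,2)] : List Fn) := hg
  simp only [List.mem_cons, List.not_mem_nil, or_false] at hg'
  rcases hg' with rfl | rfl | rfl | rfl
  · simp only [evR]; push_cast; linarith
  · simp only [evR]; push_cast; linarith
  · simp only [evR]; push_cast; linarith
  · simp only [evR]; push_cast; linarith

theorem memT_51 (x y s : ℝ) (h0 : 0 ≤ (1:ℝ) + 6 * x + (-2) * y + (-7) * s) (h1 : 0 ≤ (-4:ℝ) + (-10) * x + 8 * y + 0 * s) (h2 : 0 ≤ (10:ℝ) + 4 * x + (-6) * y + 0 * s) (h3 : 0 ≤ (7:ℝ) + 0 * x + 0 * y + 7 * s) :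
    ∃ t ∈ tets, (x, y, s) ∈ t.car := by
  refine ⟨tets[51]'(by decide), List.getElem_mem _, ?_⟩
  intro g hg
  have hg' : g ∈ ([(1,6,-2,-7), (-4,-10,8,0), (10,4,-6,0), (7,0,0,7)] : List Fn) := hg
  simp only [List.mem_cons, List.not_mem_nil, or_false] at hg'
  rcases hg' with rfl | rfl | rfl | rfl
  · simp only [evR]; push_cast; linarith
  · simp only [evR]; push_cast; linarith
  · simp only [evR]; push_cast; linarith
  · simp only [evR]; push_cast; linarith

theorem memT_52 (x y s : ℝ) (h0 : 0 ≤ (-3:ℝ) + (-4) * x + 6 * y + (-7) * s) (h1 : 0 ≤ (10:ℝ) + 4 * x + (-6) * y + 0 * s) (h2 : 0 ≤ (8:ℝ) + 6 * x + (-2) * y + 0 * s) (h3 : 0 ≤ (-1:ℝ) + (-6) * x + 2 * y + 7 * s) :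
    ∃ t ∈ tets, (x, y, s) ∈ t.car := by
  refine ⟨tets[52]'(by decide), List.getElem_mem _, ?_⟩
  intro g hg
  have hg' : g ∈ ([(-3,-4,6,-7), (10,4,-6,0), (8,6,-2,0), (-1,-6,2,7)] : List Fn) := hg
  simp only [List.mem_cons, List.not_mem_nil, or_false] at hg'
  rcases hg' with rfl | rfl | rfl | rfl
  · simp only [evR]; push_cast; linarith
  · simp only [evR]; push_cast; linarith
  · simp only [evR]; push_cast; linarith
  · simp only [evR]; push_cast; linarith

theorem memT_53 (x y s : ℝ) (h0 : 0 ≤ (7:ℝ) + 0 * x + 0 * y + (-7) * s) (h1 : 0 ≤ (8:ℝ) + 6 * x + (-2) * y + 0 * s) (h2 : 0 ≤ (-4:ℝ) + (-10) * x + 8 * y + 0 * s) (h3 : 0 ≤ (3:ℝ) + 4 * x + (-6) * y + 7 * s) :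
    ∃ t ∈ tets, (x, y, s) ∈ t.car := by
  refine ⟨tets[53]'(by decide), List.getElem_mem _, ?_⟩
  intro g hg
  have hg' : g ∈ ([(7,0,0,-7), (8,6,-2,0), (-4,-10,8,0), (3,4,-6,7)] : List Fn) := hg
  simp only [List.mem_cons, List.not_mem_nil, or_false] at hg'
  rcases hg' with rfl | rfl | rfl | rfl
  · simp only [evR]; push_cast; linarith
  · simp only [evR]; push_cast; linarith
  · simp only [evR]; push_cast; linarith
  · simp only [evR]; push_cast; linarith

theorem memT_54 (x y s : ℝ) (h0 : 0 ≤ (-3:ℝ) + (-5) * x + 6 * y + (-5) * s) (h1 : 0 ≤ (2:ℝ) + 5 * x + (-4) * y + 0 * s) (h2 : 0 ≤ (6:ℝ) + 0 * x + (-2) * y + 0 * s) (h3 : 0 ≤ (5:ℝ) + 0 * x + 0 * y + 5 * s) :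
    ∃ t ∈ tets, (x, y, s) ∈ t.car := by
  refine ⟨tets[54]'(by decide), List.getElem_mem _, ?_⟩
  intro g hg
  have hg' : g ∈ ([(-3,-5,6,-5), (2,5,-4,0), (6,0,-2,0), (5,0,0,5)] : List Fn) := hg
  simp only [List.mem_cons, List.not_mem_nil, or_false] at hg'
  rcases hg' with rfl | rfl | rfl | rfl
  · simp only [evR]; push_cast; linarith
  · simp only [evR]; push_cast; linarith
  · simp only [evR]; push_cast; linarith
  · simp only [evR]; push_cast; linarith

theorem memT_55 (x y s : ℝ) (h0 : 0 ≤ (-1:ℝ) + 0 * x + 2 * y + (-5) * s) (h1 : 0 ≤ (6:ℝ) + 0 * x + (-2) * y + 0 * s) (h2 : 0 ≤ (2:ℝ) + (-5) * x + 6 * y + 0 * s) (h3 : 0 ≤ (3:ℝ) + 5 * x + (-6) * y + 5 * s) :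
    ∃ t ∈ tets, (x, y, s) ∈ t.car := by
  refine ⟨tets[55]'(by decide), List.getElem_mem _, ?_⟩
  intro g hg
  have hg' : g ∈ ([(-1,0,2,-5), (6,0,-2,0), (2,-5,6,0), (3,5,-6,5)] : List Fn) := hg
  simp only [List.mem_cons, List.not_mem_nil, or_false] at hg'
  rcases hg' with rfl | rfl | rfl | rfl
  · simp only [evR]; push_cast; linarith
  · simp only [evR]; push_cast; linarith
  · simp only [evR]; push_cast; linarith
  · simp only [evR]; push_cast; linarith

theorem memT_56 (x y s : ℝ) (h0 : 0 ≤ (5:ℝ) + 0 * x + 0 * y + (-5) * s) (h1 : 0 ≤ (2:ℝ) + (-5) * x + 6 * y + 0 * s) (h2 : 0 ≤ (2:ℝ) + 5 * x + (-4) * y + 0 * s) (h3 : 0 ≤ (1:ℝ) + 0 * x + (-2) * y + 5 * s) :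
    ∃ t ∈ tets, (x, y, s) ∈ t.car := by
  refine ⟨tets[56]'(by decide), List.getElem_mem _, ?_⟩
  intro g hg
  have hg' : g ∈ ([(5,0,0,-5), (2,-5,6,0), (2,5,-4,0), (1,0,-2,5)] : List Fn) := hg
  simp only [List.mem_cons, List.not_mem_nil, or_false] at hg'
  rcases hg' with rfl | rfl | rfl | rfl
  · simp only [evR]; push_cast; linarith
  · simp only [evR]; push_cast; linarith
  · simp only [evR]; push_cast; linarith
  · simp only [evR]; push_cast; linarith

theorem memT_57 (x y s : ℝ) (h0 : 0 ≤ (14:ℝ) + 10 * x + (-2) * y + (-2) * s) (h1 : 0 ≤ (-4:ℝ) + (-3) * x + 1 * y + 0 * s) (h2 : 0 ≤ (-8:ℝ) + (-7) * x + 1 * y + 0 * s) (h3 : 0 ≤ (2:ℝ) + 0 * x + 0 * y + 2 * s) :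
    ∃ t ∈ tets, (x, y, s) ∈ t.car := by
  refine ⟨tets[57]'(by decide), List.getElem_mem _, ?_⟩
  intro g hg
  have hg' : g ∈ ([(14,10,-2,-2), (-4,-3,1,0), (-8,-7,1,0), (2,0,0,2)] : List Fn) := hg
  simp only [List.mem_cons, List.not_mem_nil, or_false] at hg'
  rcases hg' with rfl | rfl | rfl | rfl
  · simp only [evR]; push_cast; linarith
  · simp only [evR]; push_cast; linarith
  · simp only [evR]; push_cast; linarith
  · simp only [evR]; push_cast; linarith

theorem memT_58 (x y s : ℝ) (h0 : 0 ≤ (10:ℝ) + 7 * x + (-1) * y + (-2) * s) (h1 : 0 ≤ (-8:ℝ) + (-7) * x + 1 * y + 0 * s) (h2 : 0 ≤ (16:ℝ) + 10 * x + (-2) * y + 0 * s) (h3 : 0 ≤ (-14:ℝ) + (-10) * x + 2 * y + 2 * s) :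
    ∃ t ∈ tets, (x, y, s) ∈ t.car := by
  refine ⟨tets[58]'(by decide), List.getElem_mem _, ?_⟩
  intro g hg
  have hg' : g ∈ ([(10,7,-1,-2), (-8,-7,1,0), (16,10,-2,0), (-14,-10,2,2)] : List Fn) := hg
  simp only [List.mem_cons, List.not_mem_nil, or_false] at hg'
  rcases hg' with rfl | rfl | rfl | rfl
  · simp only [evR]; push_cast; linarith
  · simp only [evR]; push_cast; linarith
  · simp only [evR]; push_cast; linarith
  · simp only [evR]; push_cast; linarith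

theorem memT_59 (x y s : ℝ) (h0 : 0 ≤ (2:ℝ) + 0 * x + 0 * y + (-2) * s) (h1 : 0 ≤ (16:ℝ) + 10 * x + (-2) * y + 0 * s) (h2 : 0 ≤ (-4:ℝ) + (-3) * x + 1 * y + 0 * s) (h3 : 0 ≤ (-10:ℝ) + (-7) * x + 1 * y + 2 * s) :
    ∃ t ∈ tets, (x, y, s) ∈ t.car := by
  refine ⟨tets[59]'(by decide), List.getElem_mem _, ?_⟩
  intro g hg
  have hg' : g ∈ ([(2,0,0,-2), (16,10,-2,0), (-4,-3,1,0), (-10,-7,1,2)] : List Fn) := hg
  simp only [List.mem_cons, List.not_mem_nil, or_false] at hg'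
  rcases hg' with rfl | rfl | rfl | rfl
  · simp only [evR]; push_cast; linarith
  · simp only [evR]; push_cast; linarith
  · simp only [evR]; push_cast; linarith
  · simp only [evR]; push_cast; linarith

theorem memT_60 (x y s : ℝ) (h0 : 0 ≤ (-9:ℝ) + 2 * x + (-3) * y + (-3) * s) (h1 : 0 ≤ (12:ℝ) + (-2) * x + 6 * y + 0 * s) (h2 : 0 ≤ (0:ℝ) + 0 * x + (-3) * y + 0 * s) (h3 : 0 ≤ (3:ℝ) + 0 * x + 0 * y + 3 * s) :
    ∃ t ∈ tets, (x, y, s) ∈ t.car := by
  refine ⟨tets[60]'(by decide), List.getElem_mem _, ?_⟩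
  intro g hg
  have hg' : g ∈ ([(-9,2,-3,-3), (12,-2,6,0), (0,0,-3,0), (3,0,0,3)] : List Fn) := hg
  simp only [List.mem_cons, List.not_mem_nil, or_false] at hg'
  rcases hg' with rfl | rfl | rfl | rfl
  · simp only [evR]; push_cast; linarith
  · simp only [evR]; push_cast; linarith
  · simp only [evR]; push_cast; linarith
  · simp only [evR]; push_cast; linarith

theorem memT_61 (x y s : ℝ) (h0 : 0 ≤ (3:ℝ) + 0 * x + 3 * y + (-3) * s) (h1 : 0 ≤ (0:ℝ) + 0 * x + (-3) * y + 0 * s) (h2 : 0 ≤ (-6:ℝ) + 2 * x + (-3) * y + 0 * s) (h3 : 0 ≤ (9:ℝ) + (-2) * x + 3 * y + 3 * s) :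
    ∃ t ∈ tets, (x, y, s) ∈ t.car := by
  refine ⟨tets[61]'(by decide), List.getElem_mem _, ?_⟩
  intro g hg
  have hg' : g ∈ ([(3,0,3,-3), (0,0,-3,0), (-6,2,-3,0), (9,-2,3,3)] : List Fn) := hg
  simp only [List.mem_cons, List.not_mem_nil, or_false] at hg'
  rcases hg' with rfl | rfl | rfl | rfl
  · simp only [evR]; push_cast; linarith
  · simp only [evR]; push_cast; linarith
  · simp only [evR]; push_cast; linarith
  · simp only [evR]; push_cast; linarith

theorem memT_62 (x y s : ℝ) (h0 : 0 ≤ (3:ℝ) + 0 * x + 0 * y + (-3) * s) (h1 : 0 ≤ (-6:ℝ) + 2 * x + (-3) * y + 0 * s) (h2 : 0 ≤ (12:ℝ) + (-2) * x + 6 * y + 0 * s) (h3 : 0 ≤ (-3:ℝ) + 0 * x + (-3) * y + 3 * s) :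
    ∃ t ∈ tets, (x, y, s) ∈ t.car := by
  refine ⟨tets[62]'(by decide), List.getElem_mem _, ?_⟩
  intro g hg
  have hg' : g ∈ ([(3,0,0,-3), (-6,2,-3,0), (12,-2,6,0), (-3,0,-3,3)] : List Fn) := hg
  simp only [List.mem_cons, List.not_mem_nil, or_false] at hg'
  rcases hg' with rfl | rfl | rfl | rfl
  · simp only [evR]; push_cast; linarith
  · simp only [evR]; push_cast; linarith
  · simp only [evR]; push_cast; linarith
  · simp only [evR]; push_cast; linarith

theorem memT_63 (x y s : ℝ) (h0 : 0 ≤ (-17:ℝ) + (-4) * x + 6 * y + (-7) * s) (h1 : 0 ≤ (8:ℝ) + 6 * x + (-2) * y + 0 * s) (h2 : 0 ≤ (16:ℝ) + (-2) * x + (-4) * y + 0 * s) (h3 : 0 ≤ (7:ℝ) + 0 * x + 0 * y + 7 * s) :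
    ∃ t ∈ tets, (x, y, s) ∈ t.car := by
  refine ⟨tets[63]'(by decide), List.getElem_mem _, ?_⟩
  intro g hg
  have hg' : g ∈ ([(-17,-4,6,-7), (8,6,-2,0), (16,-2,-4,0), (7,0,0,7)] : List Fn) := hg
  simp only [List.mem_cons, List.not_mem_nil, or_false] at hg'
  rcases hg' with rfl | rfl | rfl | rfl
  · simp only [evR]; push_cast; linarith
  · simp only [evR]; push_cast; linarith
  · simp only [evR]; push_cast; linarith
  · simp only [evR]; push_cast; linarith

theorem memT_64 (x y s : ℝ) (h0 : 0 ≤ (-9:ℝ) + 2 * x + 4 * y + (-7) * s) (h1 : 0 ≤ (16:ℝ) + (-2) * x + (-4) * y + 0 * s) (h2 : 0 ≤ (-10:ℝ) + (-4) * x + 6 * y + 0 * s) (h3 : 0 ≤ (17:ℝ) + 4 * x + (-6) * y + 7 * s) :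
    ∃ t ∈ tets, (x, y, s) ∈ t.car := by
  refine ⟨tets[64]'(by decide), List.getElem_mem _, ?_⟩
  intro g hg
  have hg' : g ∈ ([(-9,2,4,-7), (16,-2,-4,0), (-10,-4,6,0), (17,4,-6,7)] : List Fn) := hg
  simp only [List.mem_cons, List.not_mem_nil, or_false] at hg'
  rcases hg' with rfl | rfl | rfl | rfl
  · simp only [evR]; push_cast; linarith
  · simp only [evR]; push_cast; linarith
  · simp only [evR]; push_cast; linarith
  · simp only [evR]; push_cast; linarith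

theorem memT_65 (x y s : ℝ) (h0 : 0 ≤ (7:ℝ) + 0 * x + 0 * y + (-7) * s) (h1 : 0 ≤ (-10:ℝ) + (-4) * x + 6 * y + 0 * s) (h2 : 0 ≤ (8:ℝ) + 6 * x + (-2) * y + 0 * s) (h3 : 0 ≤ (9:ℝ) + (-2) * x + (-4) * y + 7 * s) :
    ∃ t ∈ tets, (x, y, s) ∈ t.car := by
  refine ⟨tets[65]'(by decide), List.getElem_mem _, ?_⟩
  intro g hg
  have hg' : g ∈ ([(7,0,0,-7), (-10,-4,6,0), (8,6,-2,0), (9,-2,-4,7)] : List Fn) := hg
  simp only [List.mem_cons, List.not_mem_nil, or_false] at hg'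
  rcases hg' with rfl | rfl | rfl | rfl
  · simp only [evR]; push_cast; linarith
  · simp only [evR]; push_cast; linarith
  · simp only [evR]; push_cast; linarith
  · simp only [evR]; push_cast; linarith

theorem prism_0 (x y s : ℝ) (h0 : 0 ≤ (-32:ℝ) + 5 * x + 4 * y) (h1 : 0 ≤ (64:ℝ) + (-8) * x + (-8) * y) (h2 : 0 ≤ (-24:ℝ) + 3 * x + 4 * y) (s1 : -1 ≤ s) (s2 : s ≤ 1) :
    ∃ t ∈ tets, (x, y, s) ∈ t.car := by
  rcases le_total 0 ((-36:ℝ) + 5 * x + 4 * y + (-4) * s) with a | a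
  · exact memT_0 x y s (by linarith) (by linarith) (by linarith) (by linarith)
  · rcases le_total 0 ((-28:ℝ) + 3 * x + 4 * y + 4 * s) with b | b
    · exact memT_2 x y s (by linarith) (by linarith) (by linarith) (by linarith)
    · exact memT_1 x y s (by linarith) (by linarith) (by linarith) (by linarith)

theorem prism_1 (x y s : ℝ) (h0 : 0 ≤ (24:ℝ) + (-3) * x + (-4) * y) (h1 : 0 ≤ (-18:ℝ) + 3 * x + 2 * y) (h2 : 0 ≤ (0:ℝ) + 0 * x + 2 * y) (s1 : -1 ≤ s) (s2 : s ≤ 1) :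
    ∃ t ∈ tets, (x, y, s) ∈ t.car := by
  rcases le_total 0 ((21:ℝ) + (-3) * x + (-4) * y + (-3) * s) with a | a
  · exact memT_3 x y s (by linarith) (by linarith) (by linarith) (by linarith)
  · rcases le_total 0 ((-3:ℝ) + 0 * x + 2 * y + 3 * s) with b | b
    · exact memT_5 x y s (by linarith) (by linarith) (by linarith) (by linarith)
    · exact memT_4 x y s (by linarith) (by linarith) (by linarith) (by linarith)

theorem prism_2 (x y s : ℝ) (h0 : 0 ≤ (-9:ℝ) + 3 * x + (-1) * y) (h1 : 0 ≤ (0:ℝ) + 0 * x + 3 * y) (h2 : 0 ≤ (18:ℝ) + (-3) * x + (-2) * y) (s1 : -1 ≤ s) (s2 : s ≤ 1) :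
    ∃ t ∈ tets, (x, y, s) ∈ t.car := by
  rcases le_total 0 ((-27:ℝ) + 6 * x + (-2) * y + (-9) * s) with a | a
  · exact memT_6 x y s (by linarith) (by linarith) (by linarith) (by linarith)
  · rcases le_total 0 ((27:ℝ) + (-6) * x + (-4) * y + 9 * s) with b | b
    · exact memT_8 x y s (by linarith) (by linarith) (by linarith) (by linarith)
    · exact memT_7 x y s (by linarith) (by linarith) (by linarith) (by linarith)

theorem prism_3 (x y s : ℝ) (h0 : 0 ≤ (6:ℝ) + (-2) * x + 3 * y) (h1 : 0 ≤ (-8:ℝ) + 5 * x + (-4) * y) (h2 : 0 ≤ (9:ℝ) + (-3) * x + 1 * y) (s1 : -1 ≤ s) (s2 : s ≤ 1) :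
    ∃ t ∈ tets, (x, y, s) ∈ t.car := by
  rcases le_total 0 ((5:ℝ) + (-4) * x + 6 * y + (-7) * s) with a | a
  · exact memT_9 x y s (by linarith) (by linarith) (by linarith) (by linarith)
  · rcases le_total 0 ((11:ℝ) + (-6) * x + 2 * y + 7 * s) with b | b
    · exact memT_11 x y s (by linarith) (by linarith) (by linarith) (by linarith)
    · exact memT_10 x y s (by linarith) (by linarith) (by linarith) (by linarith)

theorem prism_4 (x y s : ℝ) (h0 : 0 ≤ (-12:ℝ) + 2 * x + (-6) * y) (h1 : 0 ≤ (-6:ℝ) + 2 * x + (-3) * y) (h2 : 0 ≤ (24:ℝ) + (-4) * x + 9 * y) (s1 : -1 ≤ s) (s2 : s ≤ 1) :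
    ∃ t ∈ tets, (x, y, s) ∈ t.car := by
  rcases le_total 0 ((-15:ℝ) + 2 * x + (-6) * y + (-3) * s) with a | a
  · exact memT_12 x y s (by linarith) (by linarith) (by linarith) (by linarith)
  · rcases le_total 0 ((21:ℝ) + (-4) * x + 9 * y + 3 * s) with b | b
    · exact memT_14 x y s (by linarith) (by linarith) (by linarith) (by linarith)
    · exact memT_13 x y s (by linarith) (by linarith) (by linarith) (by linarith)

theorem prism_5 (x y s : ℝ) (h0 : 0 ≤ (0:ℝ) + 0 * x + (-2) * y) (h1 : 0 ≤ (32:ℝ) + (-4) * x + 11 * y) (h2 : 0 ≤ (-24:ℝ) + 4 * x + (-9) * y) (s1 : -1 ≤ s) (s2 : s ≤ 1) :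
    ∃ t ∈ tets, (x, y, s) ∈ t.car := by
  rcases le_total 0 ((-4:ℝ) + 0 * x + (-2) * y + (-4) * s) with a | a
  · exact memT_15 x y s (by linarith) (by linarith) (by linarith) (by linarith)
  · rcases le_total 0 ((-28:ℝ) + 4 * x + (-9) * y + 4 * s) with b | b
    · exact memT_17 x y s (by linarith) (by linarith) (by linarith) (by linarith)
    · exact memT_16 x y s (by linarith) (by linarith) (by linarith) (by linarith)

theorem prism_6 (x y s : ℝ) (h0 : 0 ≤ (32:ℝ) + (-4) * x + 4 * y) (h1 : 0 ≤ (28:ℝ) + 0 * x + 7 * y) (h2 : 0 ≤ (-32:ℝ) + 4 * x + (-11) * y) (s1 : -1 ≤ s) (s2 : s ≤ 1) :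
    ∃ t ∈ tets, (x, y, s) ∈ t.car := by
  rcases le_total 0 ((18:ℝ) + (-4) * x + 4 * y + (-14) * s) with a | a
  · exact memT_18 x y s (by linarith) (by linarith) (by linarith) (by linarith)
  · rcases le_total 0 ((-46:ℝ) + 4 * x + (-11) * y + 14 * s) with b | b
    · exact memT_20 x y s (by linarith) (by linarith) (by linarith) (by linarith)
    · exact memT_19 x y s (by linarith) (by linarith) (by linarith) (by linarith)

theorem prism_7 (x y s : ℝ) (h0 : 0 ≤ (32:ℝ) + (-4) * x + 4 * y) (h1 : 0 ≤ (-28:ℝ) + 0 * x + (-7) * y) (h2 : 0 ≤ (24:ℝ) + 4 * x + 3 * y) (s1 : -1 ≤ s) (s2 : s ≤ 1) :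
    ∃ t ∈ tets, (x, y, s) ∈ t.car := by
  rcases le_total 0 ((18:ℝ) + (-4) * x + 4 * y + (-14) * s) with a | a
  · exact memT_21 x y s (by linarith) (by linarith) (by linarith) (by linarith)
  · rcases le_total 0 ((10:ℝ) + 4 * x + 3 * y + 14 * s) with b | b
    · exact memT_23 x y s (by linarith) (by linarith) (by linarith) (by linarith)
    · exact memT_22 x y s (by linarith) (by linarith) (by linarith) (by linarith)

theorem prism_8 (x y s : ℝ) (h0 : 0 ≤ (64:ℝ) + 8 * x + 8 * y) (h1 : 0 ≤ (-32:ℝ) + (-4) * x + (-5) * y) (h2 : 0 ≤ (-24:ℝ) + (-4) * x + (-3) * y) (s1 : -1 ≤ s) (s2 : s ≤ 1) :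
    ∃ t ∈ tets, (x, y, s) ∈ t.car := by
  rcases le_total 0 ((60:ℝ) + 8 * x + 8 * y + (-4) * s) with a | a
  · exact memT_24 x y s (by linarith) (by linarith) (by linarith) (by linarith)
  · rcases le_total 0 ((-28:ℝ) + (-4) * x + (-3) * y + 4 * s) with b | b
    · exact memT_26 x y s (by linarith) (by linarith) (by linarith) (by linarith)
    · exact memT_25 x y s (by linarith) (by linarith) (by linarith) (by linarith)

theorem prism_9 (x y s : ℝ) (h0 : 0 ≤ (32:ℝ) + 4 * x + (-4) * y) (h1 : 0 ≤ (32:ℝ) + 4 * x + 5 * y) (h2 : 0 ≤ (-28:ℝ) + (-8) * x + (-1) * y) (s1 : -1 ≤ s) (s2 : s ≤ 1) :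
    ∃ t ∈ tets, (x, y, s) ∈ t.car := by
  rcases le_total 0 ((14:ℝ) + 4 * x + (-4) * y + (-18) * s) with a | a
  · exact memT_27 x y s (by linarith) (by linarith) (by linarith) (by linarith)
  · rcases le_total 0 ((-46:ℝ) + (-8) * x + (-1) * y + 18 * s) with b | b
    · exact memT_29 x y s (by linarith) (by linarith) (by linarith) (by linarith)
    · exact memT_28 x y s (by linarith) (by linarith) (by linarith) (by linarith)

theorem prism_10 (x y s : ℝ) (h0 : 0 ≤ (32:ℝ) + 4 * x + (-4) * y) (h1 : 0 ≤ (-24:ℝ) + (-12) * x + 3 * y) (h2 : 0 ≤ (28:ℝ) + 8 * x + 1 * y) (s1 : -1 ≤ s) (s2 : s ≤ 1) :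
    ∃ t ∈ tets, (x, y, s) ∈ t.car := by
  rcases le_total 0 ((14:ℝ) + 4 * x + (-4) * y + (-18) * s) with a | a
  · exact memT_30 x y s (by linarith) (by linarith) (by linarith) (by linarith)
  · rcases le_total 0 ((10:ℝ) + 8 * x + 1 * y + 18 * s) with b | b
    · exact memT_32 x y s (by linarith) (by linarith) (by linarith) (by linarith)
    · exact memT_31 x y s (by linarith) (by linarith) (by linarith) (by linarith)

theorem prism_11 (x y s : ℝ) (h0 : 0 ≤ (-16:ℝ) + (-10) * x + 2 * y) (h1 : 0 ≤ (-2:ℝ) + (-2) * x + 1 * y) (h2 : 0 ≤ (24:ℝ) + 12 * x + (-3) * y) (s1 : -1 ≤ s) (s2 : s ≤ 1) :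
    ∃ t ∈ tets, (x, y, s) ∈ t.car := by
  rcases le_total 0 ((-19:ℝ) + (-10) * x + 2 * y + (-3) * s) with a | a
  · exact memT_33 x y s (by linarith) (by linarith) (by linarith) (by linarith)
  · rcases le_total 0 ((21:ℝ) + 12 * x + (-3) * y + 3 * s) with b | b
    · exact memT_35 x y s (by linarith) (by linarith) (by linarith) (by linarith)
    · exact memT_34 x y s (by linarith) (by linarith) (by linarith) (by linarith)

theorem prism_12 (x y s : ℝ) (h0 : 0 ≤ (-2:ℝ) + 5 * x + (-6) * y) (h1 : 0 ≤ (2:ℝ) + 2 * x + (-1) * y) (h2 : 0 ≤ (7:ℝ) + (-7) * x + 7 * y) (s1 : -1 ≤ s) (s2 : s ≤ 1) :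
    ∃ t ∈ tets, (x, y, s) ∈ t.car := by
  rcases le_total 0 ((-11:ℝ) + 10 * x + (-12) * y + (-7) * s) with a | a
  · exact memT_36 x y s (by linarith) (by linarith) (by linarith) (by linarith)
  · rcases le_total 0 ((7:ℝ) + (-14) * x + 14 * y + 7 * s) with b | b
    · exact memT_38 x y s (by linarith) (by linarith) (by linarith) (by linarith)
    · exact memT_37 x y s (by linarith) (by linarith) (by linarith) (by linarith)

theorem prism_13 (x y s : ℝ) (h0 : 0 ≤ (8:ℝ) + (-5) * x + 4 * y) (h1 : 0 ≤ (6:ℝ) + (-2) * x + 3 * y) (h2 : 0 ≤ (-7:ℝ) + 7 * x + (-7) * y) (s1 : -1 ≤ s) (s2 : s ≤ 1) :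
    ∃ t ∈ tets, (x, y, s) ∈ t.car := by
  rcases le_total 0 ((9:ℝ) + (-10) * x + 8 * y + (-7) * s) with a | a
  · exact memT_39 x y s (by linarith) (by linarith) (by linarith) (by linarith)
  · rcases le_total 0 ((-21:ℝ) + 14 * x + (-14) * y + 7 * s) with b | b
    · exact memT_41 x y s (by linarith) (by linarith) (by linarith) (by linarith)
    · exact memT_40 x y s (by linarith) (by linarith) (by linarith) (by linarith)

theorem prism_14 (x y s : ℝ) (h0 : 0 ≤ (32:ℝ) + (-5) * x + (-4) * y) (h1 : 0 ≤ (-16:ℝ) + 5 * x + 2 * y) (h2 : 0 ≤ (-6:ℝ) + 0 * x + 2 * y) (s1 : -1 ≤ s) (s2 : s ≤ 1) :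
    ∃ t ∈ tets, (x, y, s) ∈ t.car := by
  rcases le_total 0 ((27:ℝ) + (-5) * x + (-4) * y + (-5) * s) with a | a
  · exact memT_42 x y s (by linarith) (by linarith) (by linarith) (by linarith)
  · rcases le_total 0 ((-11:ℝ) + 0 * x + 2 * y + 5 * s) with b | b
    · exact memT_44 x y s (by linarith) (by linarith) (by linarith) (by linarith)
    · exact memT_43 x y s (by linarith) (by linarith) (by linarith) (by linarith)

theorem prism_15 (x y s : ℝ) (h0 : 0 ≤ (16:ℝ) + (-5) * x + (-2) * y) (h1 : 0 ≤ (0:ℝ) + 4 * x + 0 * y) (h2 : 0 ≤ (-8:ℝ) + 1 * x + 2 * y) (s1 : -1 ≤ s) (s2 : s ≤ 1) :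
    ∃ t ∈ tets, (x, y, s) ∈ t.car := by
  rcases le_total 0 ((12:ℝ) + (-5) * x + (-2) * y + (-4) * s) with a | a
  · exact memT_45 x y s (by linarith) (by linarith) (by linarith) (by linarith)
  · rcases le_total 0 ((-12:ℝ) + 1 * x + 2 * y + 4 * s) with b | b
    · exact memT_47 x y s (by linarith) (by linarith) (by linarith) (by linarith)
    · exact memT_46 x y s (by linarith) (by linarith) (by linarith) (by linarith)

theorem prism_16 (x y s : ℝ) (h0 : 0 ≤ (8:ℝ) + 7 * x + (-1) * y) (h1 : 0 ≤ (0:ℝ) + (-4) * x + 0 * y) (h2 : 0 ≤ (-4:ℝ) + (-3) * x + 1 * y) (s1 : -1 ≤ s) (s2 : s ≤ 1) :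
    ∃ t ∈ tets, (x, y, s) ∈ t.car := by
  rcases le_total 0 ((6:ℝ) + 7 * x + (-1) * y + (-2) * s) with a | a
  · exact memT_48 x y s (by linarith) (by linarith) (by linarith) (by linarith)
  · rcases le_total 0 ((-6:ℝ) + (-3) * x + 1 * y + 2 * s) with b | b
    · exact memT_50 x y s (by linarith) (by linarith) (by linarith) (by linarith)
    · exact memT_49 x y s (by linarith) (by linarith) (by linarith) (by linarith)

theorem prism_17 (x y s : ℝ) (h0 : 0 ≤ (4:ℝ) + 3 * x + (-1) * y) (h1 : 0 ≤ (-2:ℝ) + (-5) * x + 4 * y) (h2 : 0 ≤ (5:ℝ) + 2 * x + (-3) * y) (s1 : -1 ≤ s) (s2 : s ≤ 1) :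
    ∃ t ∈ tets, (x, y, s) ∈ t.car := by
  rcases le_total 0 ((1:ℝ) + 6 * x + (-2) * y + (-7) * s) with a | a
  · exact memT_51 x y s (by linarith) (by linarith) (by linarith) (by linarith)
  · rcases le_total 0 ((3:ℝ) + 4 * x + (-6) * y + 7 * s) with b | b
    · exact memT_53 x y s (by linarith) (by linarith) (by linarith) (by linarith)
    · exact memT_52 x y s (by linarith) (by linarith) (by linarith) (by linarith)

theorem prism_18 (x y s : ℝ) (h0 : 0 ≤ (2:ℝ) + (-5) * x + 6 * y) (h1 : 0 ≤ (2:ℝ) + 5 * x + (-4) * y) (h2 : 0 ≤ (6:ℝ) + 0 * x + (-2) * y) (s1 : -1 ≤ s) (s2 : s ≤ 1) :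
    ∃ t ∈ tets, (x, y, s) ∈ t.car := by
  rcases le_total 0 ((-3:ℝ) + (-5) * x + 6 * y + (-5) * s) with a | a
  · exact memT_54 x y s (by linarith) (by linarith) (by linarith) (by linarith)
  · rcases le_total 0 ((1:ℝ) + 0 * x + (-2) * y + 5 * s) with b | b
    · exact memT_56 x y s (by linarith) (by linarith) (by linarith) (by linarith)
    · exact memT_55 x y s (by linarith) (by linarith) (by linarith) (by linarith)

theorem prism_19 (x y s : ℝ) (h0 : 0 ≤ (16:ℝ) + 10 * x + (-2) * y) (h1 : 0 ≤ (-4:ℝ) + (-3) * x + 1 * y) (h2 : 0 ≤ (-8:ℝ) + (-7) * x + 1 * y) (s1 : -1 ≤ s) (s2 : s ≤ 1) :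
    ∃ t ∈ tets, (x, y, s) ∈ t.car := by
  rcases le_total 0 ((14:ℝ) + 10 * x + (-2) * y + (-2) * s) with a | a
  · exact memT_57 x y s (by linarith) (by linarith) (by linarith) (by linarith)
  · rcases le_total 0 ((-10:ℝ) + (-7) * x + 1 * y + 2 * s) with b | b
    · exact memT_59 x y s (by linarith) (by linarith) (by linarith) (by linarith)
    · exact memT_58 x y s (by linarith) (by linarith) (by linarith) (by linarith)

theorem prism_20 (x y s : ℝ) (h0 : 0 ≤ (-6:ℝ) + 2 * x + (-3) * y) (h1 : 0 ≤ (12:ℝ) + (-2) * x + 6 * y) (h2 : 0 ≤ (0:ℝ) + 0 * x + (-3) * y) (s1 : -1 ≤ s) (s2 : s ≤ 1) :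
    ∃ t ∈ tets, (x, y, s) ∈ t.car := by
  rcases le_total 0 ((-9:ℝ) + 2 * x + (-3) * y + (-3) * s) with a | a
  · exact memT_60 x y s (by linarith) (by linarith) (by linarith) (by linarith)
  · rcases le_total 0 ((-3:ℝ) + 0 * x + (-3) * y + 3 * s) with b | b
    · exact memT_62 x y s (by linarith) (by linarith) (by linarith) (by linarith)
    · exact memT_61 x y s (by linarith) (by linarith) (by linarith) (by linarith)

theorem prism_21 (x y s : ℝ) (h0 : 0 ≤ (-5:ℝ) + (-2) * x + 3 * y) (h1 : 0 ≤ (4:ℝ) + 3 * x + (-1) * y) (h2 : 0 ≤ (8:ℝ) + (-1) * x + (-2) * y) (s1 : -1 ≤ s) (s2 : s ≤ 1) :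
    ∃ t ∈ tets, (x, y, s) ∈ t.car := by
  rcases le_total 0 ((-17:ℝ) + (-4) * x + 6 * y + (-7) * s) with a | a
  · exact memT_63 x y s (by linarith) (by linarith) (by linarith) (by linarith)
  · rcases le_total 0 ((9:ℝ) + (-2) * x + (-4) * y + 7 * s) with b | b
    · exact memT_65 x y s (by linarith) (by linarith) (by linarith) (by linarith)
    · exact memT_64 x y s (by linarith) (by linarith) (by linarith) (by linarith)

theorem covQ_ (x y s : ℝ) (c0 : x + y ≤ 8) (c1 : x - y ≤ 8) (c2 : -x + y ≤ 8) (c3 : -x - y ≤ 8)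
    (s1 : -1 ≤ s) (s2 : s ≤ 1) : ∃ t ∈ tets, (x, y, s) ∈ t.car := by
  rcases le_total 0 ((-32:ℝ) + 4 * x + (-11) * y) with h11 | h11
  · rcases le_total 0 ((4:ℝ) + 0 * x + 1 * y) with h12 | h12
    · exact prism_6 x y s (by linarith) (by linarith) (by linarith) s1 s2
    · rcases le_total 0 ((24:ℝ) + 4 * x + 3 * y) with h13 | h13
      · exact prism_7 x y s (by linarith) (by linarith) (by linarith) s1 s2
      · exact prism_8 x y s (by linarith) (by linarith) (by linarith) s1 s2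
  · rcases le_total 0 ((8:ℝ) + 4 * x + (-1) * y) with h12 | h12
    · rcases le_total 0 ((-1:ℝ) + 1 * x + (-1) * y) with h13 | h13
      · rcases le_total 0 ((-24:ℝ) + 3 * x + 4 * y) with h14 | h14
        · exact prism_0 x y s (by linarith) (by linarith) (by linarith) s1 s2
        · rcases le_total 0 ((-24:ℝ) + 4 * x + (-9) * y) with h15 | h15
          · rcases le_total 0 ((0:ℝ) + 0 * x + 1 * y) with h16 | h16
            · exact prism_1 x y s (by linarith) (by linarith) (by linarith) s1 s2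
            · exact prism_5 x y s (by linarith) (by linarith) (by linarith) s1 s2
          · rcases le_total 0 ((-18:ℝ) + 3 * x + 2 * y) with h16 | h16
            · exact prism_1 x y s (by linarith) (by linarith) (by linarith) s1 s2
            · rcases le_total 0 ((-6:ℝ) + 2 * x + (-3) * y) with h17 | h17
              · rcases le_total 0 ((-6:ℝ) + 1 * x + (-3) * y) with h18 | h18
                · exact prism_4 x y s (by linarith) (by linarith) (by linarith) s1 s2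
                · rcases le_total 0 ((0:ℝ) + 0 * x + 1 * y) with h19 | h19
                  · exact prism_2 x y s (by linarith) (by linarith) (by linarith) s1 s2
                  · exact prism_20 x y s (by linarith) (by linarith) (by linarith) s1 s2
              · rcases le_total 0 ((-9:ℝ) + 3 * x + (-1) * y) with h18 | h18
                · exact prism_2 x y s (by linarith) (by linarith) (by linarith) s1 s2
                · rcases le_total 0 ((-8:ℝ) + 5 * x + (-4) * y) with h19 | h19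
                  · exact prism_3 x y s (by linarith) (by linarith) (by linarith) s1 s2
                  · exact prism_13 x y s (by linarith) (by linarith) (by linarith) s1 s2
      · rcases le_total 0 ((-32:ℝ) + 5 * x + 4 * y) with h14 | h14
        · exact prism_0 x y s (by linarith) (by linarith) (by linarith) s1 s2
        · rcases le_total 0 ((-2:ℝ) + 5 * x + (-6) * y) with h15 | h15
          · rcases le_total 0 ((2:ℝ) + 2 * x + (-1) * y) with h16 | h16
            · exact prism_12 x y s (by linarith) (by linarith) (by linarith) s1 s2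
            · exact prism_11 x y s (by linarith) (by linarith) (by linarith) s1 s2
          · rcases le_total 0 ((8:ℝ) + 5 * x + (-1) * y) with h16 | h16
            · rcases le_total 0 ((2:ℝ) + 5 * x + (-4) * y) with h17 | h17
              · rcases le_total 0 ((-3:ℝ) + 0 * x + 1 * y) with h18 | h18
                · exact prism_14 x y s (by linarith) (by linarith) (by linarith) s1 s2
                · exact prism_18 x y s (by linarith) (by linarith) (by linarith) s1 s2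
              · rcases le_total 0 ((-16:ℝ) + 5 * x + 2 * y) with h18 | h18
                · exact prism_14 x y s (by linarith) (by linarith) (by linarith) s1 s2
                · rcases le_total 0 ((4:ℝ) + 3 * x + (-1) * y) with h19 | h19
                  · rcases le_total 0 ((-8:ℝ) + 1 * x + 2 * y) with h20 | h20
                    · exact prism_15 x y s (by linarith) (by linarith) (by linarith) s1 s2
                    · rcases le_total 0 ((5:ℝ) + 2 * x + (-3) * y) with h21 | h21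
                      · exact prism_17 x y s (by linarith) (by linarith) (by linarith) s1 s2
                      · exact prism_21 x y s (by linarith) (by linarith) (by linarith) s1 s2
                  · rcases le_total 0 ((0:ℝ) + 1 * x + 0 * y) with h20 | h20
                    · exact prism_15 x y s (by linarith) (by linarith) (by linarith) s1 s2
                    · rcases le_total 0 ((8:ℝ) + 7 * x + (-1) * y) with h21 | h21
                      · exact prism_16 x y s (by linarith) (by linarith) (by linarith) s1 s2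
                      · exact prism_19 x y s (by linarith) (by linarith) (by linarith) s1 s2
            · exact prism_11 x y s (by linarith) (by linarith) (by linarith) s1 s2
    · rcases le_total 0 ((32:ℝ) + 4 * x + 5 * y) with h13 | h13
      · rcases le_total 0 ((28:ℝ) + 8 * x + 1 * y) with h14 | h14
        · exact prism_10 x y s (by linarith) (by linarith) (by linarith) s1 s2
        · exact prism_9 x y s (by linarith) (by linarith) (by linarith) s1 s2
      · exact prism_8 x y s (by linarith) (by linarith) (by linarith) s1 s2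

theorem covQ (z : ℝ × ℝ × ℝ) (h1 : |z.1| + |z.2.1| ≤ 8) (h2 : |z.2.2| ≤ 1) :
    ∃ t ∈ tets, z ∈ t.car := by
  obtain ⟨x, y, s⟩ := z
  simp only at h1 h2
  have hx := abs_le.mp (le_refl |x|)
  have hy := abs_le.mp (le_refl |y|)
  have hs := abs_le.mp h2
  exact covQ_ x y s (by linarith [hx.1, hx.2, hy.1, hy.2]) (by linarith [hx.1, hx.2, hy.1, hy.2])
    (by linarith [hx.1, hx.2, hy.1, hy.2]) (by linarith [hx.1, hx.2, hy.1, hy.2]) hs.1 hs.2

end RPF
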