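import Pool.Agent.Helper876.RP.Stmt

namespace RPF

open Set

/-! Internal definitions (not used in the statement of the theorem) -/


/-- integer points `(u, v, z)` -/
abbrev Pt := ℤ × ℤ × ℤ

/-- integer affine functionals `f0 + f1 u + f2 v + f3 z` -/
abbrev Fn := ℤ × ℤ × ℤ × ℤ

/-- labelled points -/
abbrev Item := List (ℕ × Pt)

def evI (f : Fn) (p : Pt) : ℤ := f.1 + f.2.1 * p.1 + f.2.2.1 * p.2.1 + f.2.2.2 * p.2.2

def evR (f : Fn) (p : ℝ × ℝ × ℝ) : ℝ := f.1 + f.2.1 * p.1 + f.2.2.1 * p.2.1 + f.2.2.2 * p.2.2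

def lsum (L : Item) (w : ℕ → ℝ) (φ : Pt → ℝ) : ℝ := (L.map fun x => w x.1 * φ x.2).sum

/-- `w` are barycentric weights on the labelled points `L` representing the point `p`. -/
def Rep (L : Item) (w : ℕ → ℝ) (p : ℝ × ℝ × ℝ) : Prop :=
  (∀ n, 0 ≤ w n) ∧ (∀ n, w n ≠ 0 → ∃ q, (n, q) ∈ L) ∧
    ∀ f : Fn, lsum L w (fun q => (evI f q : ℝ)) = evR f p

/-- `f` separates `L` and `M` properly (zero exactly on the common labelled points). -/
def sepB (L M : Item) (f : Fn) : Bool :=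
  L.all (fun x => decide (0 < evI f x.2) || (decide (evI f x.2 = 0) && M.elem x)) &&
  M.all (fun x => decide (evI f x.2 < 0) || (decide (evI f x.2 = 0) && L.elem x))

/-- dual functionals of an item -/
def dualB (L : Item) (gs : List Fn) (D : ℤ) : Bool :=
  decide (0 < D) && decide (L.length = gs.length) && decide ((L.map Prod.fst).Nodup) &&
  (L.zip gs).all (fun x => L.all (fun y => decide (evI x.2 y.2 = if y.1 = x.1.1 then D else 0)))

def coef (g : Fn) (c : ℕ) : ℤ :=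
  match c with
  | 0 => g.1
  | 1 => g.2.1
  | 2 => g.2.2.1
  | _ => g.2.2.2

def hco (p : Pt) (c : ℕ) : ℤ :=
  match c with
  | 0 => 1
  | 1 => p.1
  | 2 => p.2.1
  | _ => p.2.2

/-- the dual functionals resolve the identity (`ε = 1`), or do so on the plane `z = 0` (`ε = 0`) -/
def cellB (ε : ℤ) (L : Item) (gs : List Fn) (D : ℤ) : Bool :=
  dualB L gs D && (List.range 4).all (fun c => (List.range 4).all (fun c' =>
    decide (((L.zip gs).map (fun x => coef x.2 c * hco x.1.2 c')).sum =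
      if c = c' then (if c = 3 then ε * D else D) else 0)))

/-- barycentric weights given by the dual functionals -/
noncomputable def wts (L : Item) (gs : List Fn) (D : ℤ) (p : ℝ × ℝ × ℝ) (n : ℕ) : ℝ :=
  ((L.zip gs).map fun x => if x.1.1 = n then evR x.2 p / D else 0).sum

structure Exit where
  ch : ℕ
  s : ℤ × ℤ × ℤ
  p1 : ℤ × ℤ × ℤ
  p2 : ℤ × ℤ × ℤ
  deriving DecidableEq

def e2I (f : ℤ × ℤ × ℤ) (p : Pt) : ℤ := f.1 + f.2.1 * p.1 + f.2.2 * p.2.1

def e2R (f : ℤ × ℤ × ℤ) (p : ℝ × ℝ × ℝ) : ℝ := f.1 + f.2.1 * p.1 + f.2.2 * p.2.1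

/-- chart coordinates -/
def Exit.pos (e : Exit) (p : Pt) : Pt := (e2I e.p1 p, e2I e.p2 p, p.2.2)

def Exit.posR (e : Exit) (p : ℝ × ℝ × ℝ) : ℝ × ℝ × ℝ := (e2R e.p1 p, e2R e.p2 p, p.2.2)

def exitItem (L : Item) (e : Exit) : Item :=
  (L.filter (fun x => decide (e2I e.s x.2 = 0))).map (fun x => (x.1, e.pos x.2))

def Match (e e' : Exit) (p p' : ℝ × ℝ × ℝ) : Prop :=
  e.ch = e'.ch ∧ e2R e.s p = 0 ∧ e2R e'.s p' = 0 ∧ e.posR p = e'.posR p'

/-- the listed pairs are matched by some pair of exits with the same chart -/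
def goodPairs (es es' : List Exit) (prs : List (Pt × Pt)) : Bool :=
  es.any fun e => prs.all (fun x => decide (e2I e.s x.1 = 0)) &&
    es'.any fun e' => decide (e.ch = e'.ch) &&
      prs.all (fun x => decide (e2I e'.s x.2 = 0) && decide (e.pos x.1 = e'.pos x.2))

/-- all pairs of items of a chart are properly separated, by the functionals `cs` -/
def pairsB : List Item → List (List Fn) → Bool
  | [], _ => true
  | _ :: _, [] => false
  | L :: Ls, c :: cs => decide (Ls.length = c.length) &&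
      (Ls.zip c).all (fun x => sepB L x.1 x.2) && pairsB Ls cs

/-- the items of a chart: separation of all pairs, and dual functionals for every item -/
def chartB (Ls : List Item) (cs : List (List Fn)) (ds : List (List Fn × ℤ)) : Bool :=
  pairsB Ls cs && decide (Ls.length = ds.length) && (Ls.zip ds).all (fun x => dualB x.1 x.2.1 x.2.2)

def ChartUniq (Ls : List Item) : Prop :=
  ∀ L ∈ Ls, ∀ M ∈ Ls, ∀ w w' : ℕ → ℝ, ∀ p, Rep L w p → Rep M w' p →
    ∀ n, w n = w' n ∧ (w n ≠ 0 → ∃ q, (n, q) ∈ L ∧ (n, q) ∈ M)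

/-- every item has nodup labels, all exit functionals are nonnegative and the exit items are
contained in items of the charts -/
def sysB (cells : List (ℕ × Item)) (exits : ℕ → List Exit) (charts : ℕ → List Item) : Bool :=
  cells.all fun c => decide ((c.2.map Prod.fst).Nodup) && (exits c.1).all fun e =>
    c.2.all (fun x => decide (0 ≤ e2I e.s x.2)) &&
      (decide (exitItem c.2 e = []) ||
        (charts e.ch).any (fun M => decide ((M.map Prod.fst).Nodup) &&
          (exitItem c.2 e).all (fun x => M.elem x)))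

/-- the 26 triangles of the complex -/
def KT : List (List ℕ) :=
  [[0,3,5],[0,1,5],[1,2,5],[2,5,6],[0,2,6],[0,3,6],[3,4,6],[4,6,7],[0,4,7],[0,3,7],[3,7,8],
   [3,4,8],[0,4,8],[0,2,8],[1,2,8],[1,8,9],[0,1,9],[0,4,9],[3,4,9],[3,5,9],[5,6,7],[5,7,8],
   [5,8,9],[0,1,10],[1,2,10],[0,2,10]]

/-- the fake surface: the union of the standard simplices of the triangles in `KT` -/
def P11 : Set (Fin 11 → ℝ) :=
  {y | (∀ i, 0 ≤ y i) ∧ ∑ i, y i = 1 ∧ ∃ T ∈ KT, ∀ i : Fin 11, y i ≠ 0 → (i : ℕ) ∈ T}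

/-- pairs of positions of common labels -/
def comPrs (L L' : Item) : List (Pt × Pt) :=
  L.flatMap (fun x => (L'.filter (fun y => decide (y.1 = x.1))).map (fun y => (x.2, y.2)))

structure PCell where
  reg : ℕ
  item : Item
  duals : List Fn
  den : ℤ

def PCell.car (c : PCell) : Set (ℝ × ℝ) := {y | ∀ g ∈ c.duals, 0 ≤ evR g (y.1, y.2, 0)}

noncomputable def PCell.kv (c : PCell) (y : ℝ × ℝ) : Fin 11 → ℝ :=
  fun i => wts c.item c.duals c.den (y.1, y.2, 0) i

def plReg (cells : List PCell) (r : ℕ) : Set (ℝ × ℝ) := {y | ∃ c ∈ cells, c.reg = r ∧ y ∈ c.car}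

structure Tet where
  reg : ℕ
  slots : List (ℕ × Pt × Pt)
  duals : List Fn
  den : ℤ

def Tet.dom (t : Tet) : Item := t.slots.map (fun x => (x.1, x.2.1))

def Tet.flat (t : Tet) : Item := t.slots.map (fun x => (x.1, x.2.2))

def Tet.car (t : Tet) : Set (ℝ × ℝ × ℝ) := {p | ∀ g ∈ t.duals, 0 ≤ evR g p}

noncomputable def Tet.w (t : Tet) (z : ℝ × ℝ × ℝ) : ℕ → ℝ := wts t.dom t.duals t.den z

noncomputable def Tet.fl (t : Tet) (z : ℝ × ℝ × ℝ) : ℝ × ℝ × ℝ :=
  (lsum t.flat (t.w z) (fun q => (q.1 : ℝ)), lsum t.flat (t.w z) (fun q => (q.2.1 : ℝ)),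
    lsum t.flat (t.w z) (fun q => (q.2.2 : ℝ)))

noncomputable def Tet.phi (t : Tet) (κ : ℕ → ℝ × ℝ → (Fin 11 → ℝ)) (z : ℝ × ℝ × ℝ) :
    (Fin 11 → ℝ) × ℝ :=
  (κ t.reg ((t.fl z).1, (t.fl z).2.1), ((t.fl z).2.2 + 1) / 262)

/-- the properties of the quotient map `κ` from the two polygons to the fake surface -/
def KappaOK (cells : List PCell) (exits : ℕ → List Exit) (κ : ℕ → ℝ × ℝ → (Fin 11 → ℝ)) : Prop :=
  (∀ r, IsPLOn (κ r) (plReg cells r)) ∧ (∀ r, ∀ y ∈ plReg cells r, κ r y ∈ P11) ∧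
  (∀ r r' y y', y ∈ plReg cells r → y' ∈ plReg cells r' → κ r y = κ r' y' →
    ∃ e ∈ exits r, ∃ e' ∈ exits r', Match e e' (y.1, y.2, 0) (y'.1, y'.2, 0)) ∧
  (∀ r r' y y', y ∈ plReg cells r → y' ∈ plReg cells r' → ∀ e ∈ exits r, ∀ e' ∈ exits r',
    Match e e' (y.1, y.2, 0) (y'.1, y'.2, 0) → κ r y = κ r' y')

/-- consistency check of two tetrahedra: vertices common in the domain are matched -/
def consB (exits : ℕ → List Exit) (t t' : Tet) : Bool :=
  let prs := t.slots.flatMap (fun x =>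
    (t'.slots.filter (fun y => decide (y.1 = x.1) && decide (y.2.1 = x.2.1))).map
      (fun y => (x.2.2, y.2.2)))
  decide (prs = []) || goodPairs (exits t.reg) (exits t'.reg) prs

def negPt (p : Pt) : Pt := (-p.1, -p.2.1, -p.2.2)

/-- antipodal consistency check for the side `sx x + sy y = 8` of a tetrahedron -/
def antiB (exits : ℕ → List Exit) (tets : List Tet) (t : Tet) (sx sy : ℤ) : Bool :=
  let V := t.slots.filter (fun x => decide (sx * x.2.1.1 + sy * x.2.1.2.1 = 8))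
  decide (V = []) || tets.any (fun t' =>
    V.all (fun x => t'.slots.any (fun y => decide (y.1 = x.1) && decide (y.2.1 = negPt x.2.1))) &&
    goodPairs (exits t.reg) (exits t'.reg) (V.flatMap (fun x =>
      (t'.slots.filter (fun y => decide (y.1 = x.1))).map (fun y => (x.2.2, y.2.2)))))

/-- all listed pairs of domain positions are equal, or all are antipodal on a common side -/
def sameOpp (M : List (Pt × Pt)) : Bool :=
  M.all (fun x => decide (x.1 = x.2)) ||
  (M.all (fun x => decide (x.2 = negPt x.1)) &&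
    (M.all (fun x => decide (x.1.1 + x.1.2.1 = 8)) || M.all (fun x => decide (x.1.1 - x.1.2.1 = 8)) ||
     M.all (fun x => decide (-x.1.1 + x.1.2.1 = 8)) || M.all (fun x => decide (-x.1.1 - x.1.2.1 = 8))))

/-- injectivity check of two tetrahedra -/
def apB (exits : ℕ → List Exit) (t t' : Tet) : Bool :=
  sameOpp (comPrs t.dom t'.dom) ||
  (exits t.reg).all (fun e => (exits t'.reg).all (fun e' => decide (e.ch ≠ e'.ch) ||
    sameOpp (t.slots.flatMap (fun x => (t'.slots.filter (fun y => decide (y.1 = x.1) &&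
      decide (e2I e.s x.2.2 = 0) && decide (e2I e'.s y.2.2 = 0) &&
      decide (e.pos x.2.2 = e'.pos y.2.2))).map (fun y => (x.2.1, y.2.1))))))

/-! ### the product triangulation and its collapse -/

/-- tetrahedra of the product triangulation (vertex `v` below, `v + 11` above) -/
def topsL : List (List ℕ) :=
  KT.flatMap (fun T => T.map (fun p => T.filter (fun v => decide (v ≤ p)) ++
    (T.filter (fun v => decide (p ≤ v))).map (· + 11)))

def K22 : Finset (Finset (Fin 22)) :=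
  Finset.univ.filter (fun σ => σ.Nonempty ∧ ∃ t ∈ topsL, ∀ v ∈ σ, (v : ℕ) ∈ t)

noncomputable def pos22 (v : Fin 22) : (Fin 11 → ℝ) × ℝ :=
  (fun i => if (i : ℕ) = (v : ℕ) % 11 then 1 else 0, if (v : ℕ) < 11 then 0 else 1)

def toFs (m : ℕ) : Finset (Fin 22) := Finset.univ.filter (fun i => m.testBit (i : ℕ) = true)

def maskOf (s : List ℕ) : ℕ := (s.map (fun v => 2 ^ v)).sum

def facesOf (st : List (ℕ × ℕ)) (fin : ℕ) : List ℕ := st.flatMap (fun x => [x.1, x.2]) ++ [fin]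

def collB : List (ℕ × ℕ) → ℕ → Bool
  | [], _ => true
  | x :: rest, fin => decide (x.2 &&& x.1 = x.1) && decide (x.2 ≠ x.1) &&
      rest.all (fun z => decide (z.1 &&& x.1 ≠ x.1) && decide (z.2 &&& x.1 ≠ x.1)) &&
      decide (fin &&& x.1 ≠ x.1) && collB rest fin

/-! ### vertex stars -/

noncomputable def toV (p : Pt) : Fin 3 → ℝ := ![(p.1 : ℝ) / 6, (p.2.1 : ℝ) / 6, (p.2.2 : ℝ) / 6]

def modelZ (k : ℕ) : List (Pt × Pt) :=
  match k with
  | 0 => [((6,0,0),(0,6,0)), ((0,6,0),(-6,-6,0)), ((-6,-6,0),(6,0,0))]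
  | 1 => [((0,0,6),(6,0,0)), ((6,0,0),(0,0,-6)), ((0,0,6),(0,6,0)), ((0,6,0),(0,0,-6)),
      ((0,0,6),(-6,-6,0)), ((-6,-6,0),(0,0,-6))]
  | _ => [((6,6,6),(6,-6,-6)), ((6,6,6),(-6,6,-6)), ((6,6,6),(-6,-6,6)),
      ((6,-6,-6),(-6,6,-6)), ((6,-6,-6),(-6,-6,6)), ((-6,6,-6),(-6,-6,6))]

noncomputable def toL (LZ : List (Pt × Pt)) : List ((Fin 3 → ℝ) × (Fin 3 → ℝ)) :=
  LZ.map (fun e => (toV e.1, toV e.2))

noncomputable def fmap (ms : List Pt) (y : Fin 11 → ℝ) : Fin 3 → ℝ :=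
  ∑ i : Fin 11, y i • toV (ms.getD i (0, 0, 0))

def simplexSet (T : List ℕ) : Set (Fin 11 → ℝ) :=
  {y | (∀ i, 0 ≤ y i) ∧ ∑ i, y i = 1 ∧ ∀ i : Fin 11, y i ≠ 0 → (i : ℕ) ∈ T}

def starSet (v : ℕ) : Set (Fin 11 → ℝ) := {y | ∃ T ∈ KT, v ∈ T ∧ y ∈ simplexSet T}

def segEq (k i : ℕ) (u w q : Pt) : Bool :=
  decide ((k : ℤ) * q.1 = ((k : ℤ) - i) * u.1 + i * w.1) &&
  decide ((k : ℤ) * q.2.1 = ((k : ℤ) - i) * u.2.1 + i * w.2.1) &&
  decide ((k : ℤ) * q.2.2 = ((k : ℤ) - i) * u.2.2 + i * w.2.2)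

def triB (v a b : ℕ) : Bool :=
  KT.any (fun T => decide (v ∈ T) && decide (a ∈ T) && decide (b ∈ T)) &&
    decide (a ≠ b) && decide (a ≠ v) && decide (b ≠ v)

def chainB (v : ℕ) (ms : List Pt) (e : Pt × Pt) (c : List ℕ) : Bool :=
  decide (2 ≤ c.length) &&
  (List.range c.length).all (fun i =>
    segEq (c.length - 1) i e.1 e.2 (ms.getD (c.getD i 0) (0, 0, 0))) &&
  (List.range (c.length - 1)).all (fun i => triB v (c.getD i 0) (c.getD (i + 1) 0))

/-- `ms` places the star of `v` onto the model `LZ`; `chains` are the subdivisions of the edges of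
the link of the model -/
def starB (v : ℕ) (ms : List Pt) (LZ : List (Pt × Pt)) (chains : List (List ℕ)) : Bool :=
  decide (ms.getD v (0, 0, 0) = (0, 0, 0)) && decide (LZ.length = chains.length) &&
  (LZ.zip chains).all (fun x => chainB v ms x.1 x.2) &&
  KT.all (fun T => decide (v ∉ T) || chains.any (fun c => (List.range (c.length - 1)).any (fun i =>
    T.all (fun a => decide (a = v ∨ a = c.getD i 0 ∨ a = c.getD (i + 1) 0)))))

def starItems (v : ℕ) (ms : List Pt) : List Item :=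
  (KT.filter (fun T => decide (v ∈ T))).map (fun T => T.map (fun i => (i, ms.getD i (0, 0, 0))))

end RPF
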