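import Pool.Agent.Helper876.RP.Defs



namespace RPF
open Set


theorem cell_sum_aux1 (φ : Pt → ℝ) : ∀ (L : Item), (L.map Prod.fst).Nodup → ∀ x ∈ L,
    (L.map fun y => if x.1 = y.1 then φ y.2 else 0).sum = φ x.2
  | [], _, x, hx => by simp at hx
  | y :: L, hnd, x, hx => by
    rw [List.map_cons, List.nodup_cons] at hnd
    rw [List.map_cons, List.sum_cons]
    rcases List.mem_cons.1 hx with rfl | hx
    · have h0 : (L.map fun y => if x.1 = y.1 then φ y.2 else 0).sum = 0 := by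
        apply List.sum_eq_zero
        intro a ha
        obtain ⟨y, hy, rfl⟩ := List.mem_map.1 ha
        rw [if_neg]
        intro h
        apply hnd.1
        rw [h]
        exact List.mem_map_of_mem hy
      rw [h0, if_pos rfl, add_zero]
    · rw [if_neg, zero_add]
      · exact cell_sum_aux1 φ L hnd.2 x hx
      · intro h
        apply hnd.1
        rw [← h]
        exact List.mem_map_of_mem hx

theorem cell_sum_aux2 (φ : Pt → ℝ) (g : (ℕ × Pt) × Fn → ℝ) (L : Item) :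
    ∀ Z : List ((ℕ × Pt) × Fn),
    (L.map fun y => (Z.map fun x => if x.1.1 = y.1 then g x else 0).sum * φ y.2).sum =
      (Z.map fun x => g x * (L.map fun y => if x.1.1 = y.1 then φ y.2 else 0).sum).sum
  | [] => by simp
  | x :: Z => by
    simp only [List.map_cons, List.sum_cons]
    rw [← cell_sum_aux2 φ g L Z, ← List.sum_map_mul_left, ← List.sum_map_add]
    congr 1
    apply List.map_congr_left
    intro y _
    split_ifs <;> ring

theorem cell_sum_aux3 (f : Fn) (p : ℝ × ℝ × ℝ) : ∀ Z : List ((ℕ × Pt) × Fn),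
    (Z.map fun x => evR x.2 p * (evI f x.1.2 : ℝ)).sum =
      (((Z.map fun x => coef x.2 0 * hco x.1.2 0).sum : ℤ) : ℝ) * f.1 +
      (((Z.map fun x => coef x.2 0 * hco x.1.2 1).sum : ℤ) : ℝ) * f.2.1 +
      (((Z.map fun x => coef x.2 0 * hco x.1.2 2).sum : ℤ) : ℝ) * f.2.2.1 +
      (((Z.map fun x => coef x.2 0 * hco x.1.2 3).sum : ℤ) : ℝ) * f.2.2.2 +
      p.1 * ((((Z.map fun x => coef x.2 1 * hco x.1.2 0).sum : ℤ) : ℝ) * f.1 +
      (((Z.map fun x => coef x.2 1 * hco x.1.2 1).sum : ℤ) : ℝ) * f.2.1 +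
      (((Z.map fun x => coef x.2 1 * hco x.1.2 2).sum : ℤ) : ℝ) * f.2.2.1 +
      (((Z.map fun x => coef x.2 1 * hco x.1.2 3).sum : ℤ) : ℝ) * f.2.2.2) +
      p.2.1 * ((((Z.map fun x => coef x.2 2 * hco x.1.2 0).sum : ℤ) : ℝ) * f.1 +
      (((Z.map fun x => coef x.2 2 * hco x.1.2 1).sum : ℤ) : ℝ) * f.2.1 +
      (((Z.map fun x => coef x.2 2 * hco x.1.2 2).sum : ℤ) : ℝ) * f.2.2.1 +
      (((Z.map fun x => coef x.2 2 * hco x.1.2 3).sum : ℤ) : ℝ) * f.2.2.2) +
      p.2.2 * ((((Z.map fun x => coef x.2 3 * hco x.1.2 0).sum : ℤ) : ℝ) * f.1 +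
      (((Z.map fun x => coef x.2 3 * hco x.1.2 1).sum : ℤ) : ℝ) * f.2.1 +
      (((Z.map fun x => coef x.2 3 * hco x.1.2 2).sum : ℤ) : ℝ) * f.2.2.1 +
      (((Z.map fun x => coef x.2 3 * hco x.1.2 3).sum : ℤ) : ℝ) * f.2.2.2)
  | [] => by simp
  | x :: Z => by
    simp only [List.map_cons, List.sum_cons]
    rw [cell_sum_aux3 f p Z]
    push_cast
    simp only [evR, evI, coef, hco]
    push_cast
    ring

theorem cell_sum (ε : ℤ) (L : Item) (gs : List Fn) (D : ℤ) (h : cellB ε L gs D = true)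
    (p : ℝ × ℝ × ℝ) (hp : ε = 1 ∨ (ε = 0 ∧ p.2.2 = 0)) (f : Fn) :
    lsum L (wts L gs D p) (fun q => (evI f q : ℝ)) = evR f p := by
  unfold cellB dualB at h
  simp only [Bool.and_eq_true, decide_eq_true_eq, List.all_eq_true, List.mem_range] at h
  obtain ⟨⟨⟨⟨hD, -⟩, hnd⟩, -⟩, hS⟩ := h
  have hDR : (D : ℝ) ≠ 0 := by exact_mod_cast hD.ne'
  have h1 : lsum L (wts L gs D p) (fun q => (evI f q : ℝ)) =
      ((L.zip gs).map fun x => evR x.2 p * (evI f x.1.2 : ℝ)).sum / D := by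
    unfold lsum wts
    rw [cell_sum_aux2 (fun q => (evI f q : ℝ)) (fun x => evR x.2 p / D) L (L.zip gs)]
    rw [div_eq_mul_inv, ← List.sum_map_mul_right]
    congr 1
    apply List.map_congr_left
    intro x hx
    have hxL : x.1 ∈ L := by
      obtain ⟨a, b⟩ := x
      exact (List.of_mem_zip hx).1
    rw [cell_sum_aux1 (fun q => (evI f q : ℝ)) L hnd x.1 hxL]
    rw [div_eq_mul_inv]
    ring
  rw [h1, cell_sum_aux3]
  rw [hS 0 (by norm_num) 0 (by norm_num), hS 0 (by norm_num) 1 (by norm_num),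
    hS 0 (by norm_num) 2 (by norm_num), hS 0 (by norm_num) 3 (by norm_num),
    hS 1 (by norm_num) 0 (by norm_num), hS 1 (by norm_num) 1 (by norm_num),
    hS 1 (by norm_num) 2 (by norm_num), hS 1 (by norm_num) 3 (by norm_num),
    hS 2 (by norm_num) 0 (by norm_num), hS 2 (by norm_num) 1 (by norm_num),
    hS 2 (by norm_num) 2 (by norm_num), hS 2 (by norm_num) 3 (by norm_num),
    hS 3 (by norm_num) 0 (by norm_num), hS 3 (by norm_num) 1 (by norm_num),
    hS 3 (by norm_num) 2 (by norm_num), hS 3 (by norm_num) 3 (by norm_num)]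
  norm_num
  rw [div_eq_iff hDR]
  unfold evR
  rcases hp with rfl | ⟨rfl, hz⟩
  · push_cast
    ring
  · rw [hz]
    push_cast
    ring

end RPF
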