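import Pool.Agent.Helper876.RP.Defs
import Pool.Agent.Helper876.RP.P_cell_sum



namespace RPF
open Set


theorem cell_rep (ε : ℤ) (L : Item) (gs : List Fn) (D : ℤ) (h : cellB ε L gs D = true)
    (p : ℝ × ℝ × ℝ) (hp : ε = 1 ∨ (ε = 0 ∧ p.2.2 = 0)) (hg : ∀ g ∈ gs, 0 ≤ evR g p) :
    Rep L (wts L gs D p) p := by
  have hD : (0 : ℝ) < D := by
    simp only [cellB, dualB, Bool.and_eq_true, decide_eq_true_eq] at h
    exact_mod_cast h.1.1.1.1
  refine ⟨?_, ?_, ?_⟩
  · intro n
    unfold wts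
    apply List.sum_nonneg
    intro a ha
    rw [List.mem_map] at ha
    obtain ⟨x, hx, rfl⟩ := ha
    split_ifs with hn
    · have hx2 : x.2 ∈ gs := (List.of_mem_zip (a := x.1) (b := x.2) hx).2
      exact div_nonneg (hg _ hx2) hD.le
    · exact le_refl _
  · intro n hn
    by_contra hcon
    push Not at hcon
    apply hn
    unfold wts
    apply List.sum_eq_zero
    intro a ha
    rw [List.mem_map] at ha
    obtain ⟨x, hx, rfl⟩ := ha
    have hx1 : x.1 ∈ L := (List.of_mem_zip (a := x.1) (b := x.2) hx).1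
    rw [if_neg]
    intro hxn
    apply hcon x.1.2
    rw [← hxn]
    exact hx1
  · intro f
    exact cell_sum ε L gs D h p hp f

end RPF
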