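import Pool.Agent.Helper876.RP.Defs
import Pool.Agent.Helper876.RP.P_cell_rep



namespace RPF
open Set


theorem cell_polytope2_nonneg (L : Item) (w : ℕ → ℝ) (hw : ∀ n, 0 ≤ w n) :
    0 ≤ (L.map fun x => w x.1).sum := by
  induction L with
  | nil => simp
  | cons a L ih =>
    rw [List.map_cons, List.sum_cons]
    exact add_nonneg (hw _) ih

theorem cell_polytope2_bd (L : Item) (w : ℕ → ℝ) (hw : ∀ n, 0 ≤ w n) (φ : Pt → ℝ)
    (h1 : (L.map fun x => w x.1).sum ≤ 1) : |lsum L w φ| ≤ (L.map fun x => |φ x.2|).sum := by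
  induction L with
  | nil => simp [lsum]
  | cons a L ih =>
    have hn := cell_polytope2_nonneg L w hw
    rw [List.map_cons, List.sum_cons] at h1
    have hwa := hw a.1
    have ih' := ih (by linarith)
    have e1 : lsum (a :: L) w φ = w a.1 * φ a.2 + lsum L w φ := by
      simp only [lsum, List.map_cons, List.sum_cons]
    rw [e1, List.map_cons, List.sum_cons]
    refine (abs_add_le _ _).trans (add_le_add ?_ ih')
    rw [abs_mul, abs_of_nonneg hwa]
    calc w a.1 * |φ a.2| ≤ 1 * |φ a.2| := mul_le_mul_of_nonneg_right (by linarith) (abs_nonneg _)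
      _ = |φ a.2| := one_mul _

noncomputable def cell_polytope2_aff (g : Fn) : (ℝ × ℝ) →ᵃ[ℝ] ℝ :=
  AffineMap.const ℝ (ℝ × ℝ) (g.1 : ℝ) + ((g.2.1 : ℝ) • (LinearMap.fst ℝ ℝ ℝ)).toAffineMap +
    ((g.2.2.1 : ℝ) • (LinearMap.snd ℝ ℝ ℝ)).toAffineMap

theorem cell_polytope2_aff_apply (g : Fn) (y : ℝ × ℝ) :
    cell_polytope2_aff g y = evR g (y.1, y.2, 0) := by
  simp [cell_polytope2_aff, evR]

theorem cell_polytope2_aux (L : Item) (gs : List Fn) (D : ℤ) (h : cellB 0 L gs D = true)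
    (y : ℝ × ℝ) (hy : ∀ g ∈ gs, 0 ≤ evR g (y.1, y.2, 0)) :
    |y.1| ≤ (L.map fun x => |(x.2.1 : ℝ)|).sum ∧ |y.2| ≤ (L.map fun x => |(x.2.2.1 : ℝ)|).sum := by
  obtain ⟨hw, -, hf⟩ := cell_rep 0 L gs D h (y.1, y.2, 0) (Or.inr ⟨rfl, rfl⟩) hy
  set w := wts L gs D (y.1, y.2, 0) with hwdef
  have h1 : (L.map fun x => w x.1).sum = 1 := by
    have := hf (1, 0, 0, 0)
    simpa [lsum, evI, evR] using this
  constructor
  · have h2 := hf (0, 1, 0, 0)
    have h3 := cell_polytope2_bd L w hw (fun q => ((evI (0, 1, 0, 0) q : ℤ) : ℝ)) h1.le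
    rw [h2] at h3
    simpa [evI, evR] using h3
  · have h2 := hf (0, 0, 1, 0)
    have h3 := cell_polytope2_bd L w hw (fun q => ((evI (0, 0, 1, 0) q : ℤ) : ℝ)) h1.le
    rw [h2] at h3
    simpa [evI, evR] using h3

theorem cell_polytope2 (L : Item) (gs : List Fn) (D : ℤ) (h : cellB 0 L gs D = true) :
    IsPolytope {y : ℝ × ℝ | ∀ g ∈ gs, 0 ≤ evR g (y.1, y.2, 0)} := by
  refine ⟨?_, ?_⟩
  · refine Metric.isCompact_of_isClosed_isBounded ?_ ?_
    · have : {y : ℝ × ℝ | ∀ g ∈ gs, 0 ≤ evR g (y.1, y.2, 0)}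
          = ⋂ g ∈ gs, {y : ℝ × ℝ | 0 ≤ evR g (y.1, y.2, 0)} := by
        ext y
        simp only [Set.mem_ofPred_eq, Set.mem_iInter]
      rw [this]
      refine isClosed_biInter fun g _ => isClosed_le continuous_const ?_
      unfold evR
      fun_prop
    · refine (Metric.isBounded_iff_subset_closedBall (0 : ℝ × ℝ)).2
        ⟨max (L.map fun x => |(x.2.1 : ℝ)|).sum (L.map fun x => |(x.2.2.1 : ℝ)|).sum, fun y hy => ?_⟩
      have h1 := cell_polytope2_aux L gs D h y hy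
      rw [mem_closedBall_zero_iff, Prod.norm_def]
      exact max_le_max h1.1 h1.2
  · refine ⟨cell_polytope2_aff '' {g | g ∈ gs}, (List.finite_toSet gs).image _, ?_⟩
    ext y
    simp only [Set.mem_ofPred_eq, Set.forall_mem_image, cell_polytope2_aff_apply]

end RPF
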