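import Pool.Agent.Helper876.RP.Defs



namespace RPF
open Set


theorem kv_affine_aux (D : ℤ) (n : ℕ) (l : List ((ℕ × Pt) × Fn)) : ∃ a b c : ℝ, ∀ y : ℝ × ℝ,
    (l.map fun x => if x.1.1 = n then evR x.2 (y.1, y.2, 0) / D else 0).sum
      = a + b * y.1 + c * y.2 := by
  induction l with
  | nil => exact ⟨0, 0, 0, fun y => by simp⟩
  | cons x l ih =>
    obtain ⟨a, b, c, h⟩ := ih
    by_cases hx : x.1.1 = n
    · refine ⟨a + x.2.1 / D, b + x.2.2.1 / D, c + x.2.2.2.1 / D, fun y => ?_⟩
      rw [List.map_cons, List.sum_cons, h y, if_pos hx]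
      simp only [evR]
      ring
    · refine ⟨a, b, c, fun y => ?_⟩
      rw [List.map_cons, List.sum_cons, h y, if_neg hx]
      ring

theorem kv_affine (c : PCell) : ∃ a : (ℝ × ℝ) →ᵃ[ℝ] (Fin 11 → ℝ), ∀ y, a y = c.kv y := by
  choose A B C h using fun i : Fin 11 => kv_affine_aux c.den i (c.item.zip c.duals)
  let lin : (ℝ × ℝ) →ₗ[ℝ] (Fin 11 → ℝ) :=
    { toFun := fun y i => B i * y.1 + C i * y.2
      map_add' := by
        intro x y
        funext i
        simp only [Prod.fst_add, Prod.snd_add, Pi.add_apply]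
        ring
      map_smul' := by
        intro r y
        funext i
        simp only [Prod.smul_fst, Prod.smul_snd, Pi.smul_apply, smul_eq_mul, RingHom.id_apply]
        ring }
  refine ⟨lin.toAffineMap + AffineMap.const ℝ (ℝ × ℝ) (A : Fin 11 → ℝ), fun y => ?_⟩
  funext i
  have h1 := h i y
  simp only [PCell.kv, wts]
  rw [h1]
  simp only [AffineMap.coe_add, LinearMap.coe_toAffineMap, AffineMap.coe_const, Pi.add_apply,
    Function.const_apply, lin, LinearMap.coe_mk, AddHom.coe_mk]
  ring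

end RPF
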