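import Pool.Agent.Helper876.RP.Defs



namespace RPF
open Set


theorem plon_affine {E F : Type*} [NormedAddCommGroup E] [NormedSpace ℝ E]
    [NormedAddCommGroup F] [NormedSpace ℝ F] {C : Set E} (hC : IsPolytope C) (g : E →ᵃ[ℝ] F) :
    IsPLOn g C := by
  refine ⟨{C}, Set.finite_singleton C, by simp, ?_⟩
  rintro D rfl
  exact ⟨hC, g, fun _ _ => rfl⟩

end RPF
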