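import Pool.Agent.Helper876.RP.Defs



namespace RPF
open Set


theorem plon_glue {E F ι : Type*} [NormedAddCommGroup E] [NormedSpace ℝ E]
    [NormedAddCommGroup F] [NormedSpace ℝ F] [Finite ι] (X : ι → Set E) (f : ι → E → F)
    (hf : ∀ i, IsPLOn (f i) (X i)) (hc : ∀ i j x, x ∈ X i → x ∈ X j → f i x = f j x) :
    ∃ φ : E → F, IsPLOn φ (⋃ i, X i) ∧ ∀ i, EqOn φ (f i) (X i) := by
  classical
  obtain ⟨φ, hφ⟩ : ∃ φ : E → F, φ = fun x =>
      if h : ∃ i, x ∈ X i then f (Classical.choose h) x else 0 := ⟨_, rfl⟩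
  have hEq : ∀ i, EqOn φ (f i) (X i) := by
    intro i x hx
    have h : ∃ i, x ∈ X i := ⟨i, hx⟩
    have h1 : φ x = f (Classical.choose h) x := by
      rw [hφ]
      exact dif_pos h
    rw [h1]
    exact hc _ _ x (Classical.choose_spec h) hx
  choose S hS1 hS2 hS3 using hf
  refine ⟨φ, ⟨⋃ i, S i, Set.finite_iUnion hS1, ?_, ?_⟩, hEq⟩
  · rw [Set.sUnion_iUnion]
    exact Set.iUnion_congr hS2
  · intro C hC
    obtain ⟨i, hi⟩ := Set.mem_iUnion.mp hC
    obtain ⟨h1, g, hg⟩ := hS3 i C hi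
    refine ⟨h1, g, ?_⟩
    intro x hx
    have hxX : x ∈ X i := by
      rw [hS2 i]
      exact ⟨C, hi, hx⟩
    rw [hEq i hxX]
    exact hg hx

end RPF
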