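import Pool.Agent.Helper876.RP.Defs
import Pool.Agent.Helper876.RP.P_plon_affine
import Pool.Agent.Helper876.RP.P_plon_glue
import Pool.Agent.Helper876.RP.P_cell_polytope2
import Pool.Agent.Helper876.RP.P_kv_affine



namespace RPF
open Set


theorem kappa_glue (cells : List PCell)
    (h1 : ∀ c ∈ cells, cellB 0 c.item c.duals c.den = true)
    (hcons : ∀ c ∈ cells, ∀ c' ∈ cells, c.reg = c'.reg → ∀ y, y ∈ c.car → y ∈ c'.car →
      c.kv y = c'.kv y) :
    ∃ κ : ℕ → ℝ × ℝ → (Fin 11 → ℝ), (∀ r, IsPLOn (κ r) (plReg cells r)) ∧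
      ∀ c ∈ cells, ∀ y ∈ c.car, κ c.reg y = c.kv y := by
  have hpl : ∀ c ∈ cells, IsPLOn c.kv c.car := by
    intro c hc
    obtain ⟨a, ha⟩ := kv_affine c
    have hP : IsPolytope c.car := cell_polytope2 c.item c.duals c.den (h1 c hc)
    have h := plon_affine hP a
    have e : (a : (ℝ × ℝ) → (Fin 11 → ℝ)) = c.kv := funext ha
    rw [e] at h
    exact h
  have key : ∀ r : ℕ, ∃ φ : ℝ × ℝ → (Fin 11 → ℝ), IsPLOn φ (plReg cells r) ∧
      ∀ c ∈ cells, c.reg = r → ∀ y ∈ c.car, φ y = c.kv y := by
    intro r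
    obtain ⟨φ, h2, h3⟩ := plon_glue
      (fun i : {i : Fin cells.length // (cells.get i).reg = r} => (cells.get i.1).car)
      (fun i : {i : Fin cells.length // (cells.get i).reg = r} => (cells.get i.1).kv)
      (fun i => hpl _ (List.get_mem _ _))
      (fun i j x hi hj => hcons _ (List.get_mem _ _) _ (List.get_mem _ _)
        (i.2.trans j.2.symm) x hi hj)
    refine ⟨φ, ?_, ?_⟩
    · have e : (⋃ i : {i : Fin cells.length // (cells.get i).reg = r},
          (cells.get i.1).car) = plReg cells r := by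
        ext y
        simp only [Set.mem_iUnion, plReg, Set.mem_setOf_eq]
        constructor
        · rintro ⟨i, hi⟩
          exact ⟨cells.get i.1, List.get_mem _ _, i.2, hi⟩
        · rintro ⟨c, hc, hr, hy⟩
          obtain ⟨n, hn⟩ := List.mem_iff_get.1 hc
          refine ⟨⟨n, ?_⟩, ?_⟩
          · rw [hn]; exact hr
          · show y ∈ (cells.get n).car
            rw [hn]; exact hy
      rw [← e]
      exact h2
    · intro c hc hr y hy
      obtain ⟨n, hn⟩ := List.mem_iff_get.1 hc
      have hn' : (cells.get n).reg = r := by rw [hn]; exact hr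
      have h4 := h3 ⟨n, hn'⟩
      have h5 : y ∈ (cells.get n).car := by rw [hn]; exact hy
      have h6 := h4 h5
      have h7 : φ y = (cells.get n).kv y := h6
      rw [hn] at h7
      exact h7
  choose κ hκ using key
  exact ⟨κ, fun r => (hκ r).1, fun c hc y hy => (hκ c.reg).2 c hc rfl y hy⟩

end RPF
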