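import Pool.Agent.Helper876.RP.Defs
import Pool.Agent.Helper876.RP.P_lsum_congr



namespace RPF
open Set


theorem gm_rep2 (L : Item) (w : ℕ → ℝ) (p : ℝ × ℝ × ℝ) (h : Rep L w p) (f : ℤ × ℤ × ℤ) :
    lsum L w (fun q => (e2I f q : ℝ)) = e2R f p := by
  have h1 := h.2.2 (f.1, f.2.1, f.2.2, 0)
  have h2 : (fun q : Pt => ((evI (f.1, f.2.1, f.2.2, 0) q : ℤ) : ℝ)) = fun q => (e2I f q : ℝ) := by
    funext q
    simp [evI, e2I]
  have h3 : evR (f.1, f.2.1, f.2.2, 0) p = e2R f p := by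
    simp [evR, e2R]
  rw [h2, h3] at h1
  exact h1

theorem gm_rep3 (L : Item) (w : ℕ → ℝ) (p : ℝ × ℝ × ℝ) (h : Rep L w p) :
    lsum L w (fun q => (q.2.2 : ℝ)) = p.2.2 := by
  have h1 := h.2.2 (0, 0, 0, 1)
  have h2 : (fun q : Pt => ((evI (0, 0, 0, 1) q : ℤ) : ℝ)) = fun q => (q.2.2 : ℝ) := by
    funext q
    simp [evI]
  have h3 : evR (0, 0, 0, 1) p = p.2.2 := by
    simp [evR]
  rw [h2, h3] at h1
  exact h1

theorem gm_zero (L : Item) (w : ℕ → ℝ) : lsum L w (fun _ => 0) = 0 := by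
  simp [lsum]

theorem good_match (es es' : List Exit) (prs : List (Pt × Pt)) (hg : goodPairs es es' prs = true)
    (L L' : Item) (hL : (L.map Prod.fst).Nodup) (hL' : (L'.map Prod.fst).Nodup)
    (w : ℕ → ℝ) (p p' : ℝ × ℝ × ℝ) (h : Rep L w p) (h' : Rep L' w p')
    (hw : ∀ n, w n ≠ 0 → ∃ a b, (n, a) ∈ L ∧ (n, b) ∈ L' ∧ (a, b) ∈ prs) :
    ∃ e ∈ es, ∃ e' ∈ es', Match e e' p p' := by
  unfold goodPairs at hg
  rw [List.any_eq_true] at hg
  obtain ⟨e, he, hg⟩ := hg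
  rw [Bool.and_eq_true, List.all_eq_true, List.any_eq_true] at hg
  obtain ⟨h1, e', he', hg⟩ := hg
  rw [Bool.and_eq_true, List.all_eq_true, decide_eq_true_eq] at hg
  obtain ⟨hch, h2⟩ := hg
  have h1' : ∀ x ∈ prs, e2I e.s x.1 = 0 := fun x hx => by
    have := h1 x hx
    rwa [decide_eq_true_eq] at this
  have h2' : ∀ x ∈ prs, e2I e'.s x.2 = 0 ∧ e.pos x.1 = e'.pos x.2 := fun x hx => by
    have := h2 x hx
    rwa [Bool.and_eq_true, decide_eq_true_eq, decide_eq_true_eq] at this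
  refine ⟨e, he, e', he', hch, ?_, ?_, ?_⟩
  · rw [← gm_rep2 L w p h e.s]
    rw [lsum_congr L L' hL hL' w (fun q => (e2I e.s q : ℝ)) (fun _ => 0), gm_zero]
    intro n hn
    obtain ⟨a, b, ha, hb, hab⟩ := hw n hn
    refine ⟨a, b, ha, hb, ?_⟩
    have := h1' (a, b) hab
    simp only at this
    simp [this]
  · rw [← gm_rep2 L' w p' h' e'.s]
    rw [lsum_congr L' L hL' hL w (fun q => (e2I e'.s q : ℝ)) (fun _ => 0), gm_zero]
    intro n hn
    obtain ⟨a, b, ha, hb, hab⟩ := hw n hn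
    refine ⟨b, a, hb, ha, ?_⟩
    have := (h2' (a, b) hab).1
    simp only at this
    simp [this]
  · have hpos : ∀ n, w n ≠ 0 → ∃ a b, (n, a) ∈ L ∧ (n, b) ∈ L' ∧ e.pos a = e'.pos b := by
      intro n hn
      obtain ⟨a, b, ha, hb, hab⟩ := hw n hn
      exact ⟨a, b, ha, hb, (h2' (a, b) hab).2⟩
    have c1 : e2R e.p1 p = e2R e'.p1 p' := by
      rw [← gm_rep2 L w p h e.p1, ← gm_rep2 L' w p' h' e'.p1]
      apply lsum_congr L L' hL hL' w
      intro n hn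
      obtain ⟨a, b, ha, hb, hab⟩ := hpos n hn
      refine ⟨a, b, ha, hb, ?_⟩
      have : (e.pos a).1 = (e'.pos b).1 := by rw [hab]
      have h3 : e2I e.p1 a = e2I e'.p1 b := this
      simp [h3]
    have c2 : e2R e.p2 p = e2R e'.p2 p' := by
      rw [← gm_rep2 L w p h e.p2, ← gm_rep2 L' w p' h' e'.p2]
      apply lsum_congr L L' hL hL' w
      intro n hn
      obtain ⟨a, b, ha, hb, hab⟩ := hpos n hn
      refine ⟨a, b, ha, hb, ?_⟩
      have : (e.pos a).2.1 = (e'.pos b).2.1 := by rw [hab]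
      have h3 : e2I e.p2 a = e2I e'.p2 b := this
      simp [h3]
    have c3 : p.2.2 = p'.2.2 := by
      rw [← gm_rep3 L w p h, ← gm_rep3 L' w p' h']
      apply lsum_congr L L' hL hL' w
      intro n hn
      obtain ⟨a, b, ha, hb, hab⟩ := hpos n hn
      refine ⟨a, b, ha, hb, ?_⟩
      have : (e.pos a).2.2 = (e'.pos b).2.2 := by rw [hab]
      have h3 : a.2.2 = b.2.2 := this
      simp [h3]
    unfold Exit.posR
    rw [c1, c2, c3]

end RPF
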