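import Pool.Agent.Helper876.RP.Defs
import Pool.Agent.Helper876.RP.P_cell_rep



namespace RPF
open Set


theorem pcell_rep (c : PCell) (h : cellB 0 c.item c.duals c.den = true) (y : ℝ × ℝ)
    (hy : y ∈ c.car) : Rep c.item (wts c.item c.duals c.den (y.1, y.2, 0)) (y.1, y.2, 0) := by
  exact cell_rep 0 c.item c.duals c.den h (y.1, y.2, 0) (Or.inr ⟨rfl, rfl⟩) hy

end RPF
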