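import Pool.Agent.Helper876.RP.Defs
import Pool.Agent.Helper876.RP.P_good_match
import Pool.Agent.Helper876.RP.P_pcell_rep



namespace RPF
open Set


theorem kv_match_nodup {ε : ℤ} {L : Item} {gs : List Fn} {D : ℤ} (h : cellB ε L gs D = true) :
    (L.map Prod.fst).Nodup := by
  unfold cellB at h
  rw [Bool.and_eq_true] at h
  have h1 := h.1
  unfold dualB at h1
  rw [Bool.and_eq_true, Bool.and_eq_true, Bool.and_eq_true] at h1
  exact of_decide_eq_true h1.1.2

theorem kv_match_com {L L' : Item} {n : ℕ} {a b : Pt} (h1 : (n, a) ∈ L) (h2 : (n, b) ∈ L') :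
    (a, b) ∈ comPrs L L' := by
  unfold comPrs
  rw [List.mem_flatMap]
  refine ⟨(n, a), h1, ?_⟩
  rw [List.mem_map]
  refine ⟨(n, b), ?_, rfl⟩
  rw [List.mem_filter]
  exact ⟨h2, by simp⟩

theorem kv_match_ne {L : Item} {w : ℕ → ℝ} {p : ℝ × ℝ × ℝ} (h : Rep L w p) : ∃ n, w n ≠ 0 := by
  by_contra hcon
  push Not at hcon
  have h1 := h.2.2 (1, 0, 0, 0)
  have h2 : lsum L w (fun q => (evI (1, 0, 0, 0) q : ℝ)) = 0 := by
    unfold lsum
    have : (L.map fun x => w x.1 * ((evI (1, 0, 0, 0) x.2 : ℤ) : ℝ)) = L.map fun _ => (0 : ℝ) := by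
      apply List.map_congr_left
      intro x _
      rw [hcon, zero_mul]
    rw [this]
    simp
  rw [h2] at h1
  have h3 : evR (1, 0, 0, 0) p = 1 := by
    unfold evR
    simp
  rw [h3] at h1
  exact zero_ne_one h1

theorem kv_match (exits : ℕ → List Exit) (c c' : PCell)
    (h : cellB 0 c.item c.duals c.den = true) (h' : cellB 0 c'.item c'.duals c'.den = true)
    (hl : ∀ x ∈ c.item, x.1 < 11) (hl' : ∀ x ∈ c'.item, x.1 < 11)
    (hg : comPrs c.item c'.item = [] ∨
      goodPairs (exits c.reg) (exits c'.reg) (comPrs c.item c'.item) = true)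
    (y y' : ℝ × ℝ) (hy : y ∈ c.car) (hy' : y' ∈ c'.car) (he : c.kv y = c'.kv y') :
    ∃ e ∈ exits c.reg, ∃ e' ∈ exits c'.reg, Match e e' (y.1, y.2, 0) (y'.1, y'.2, 0) := by
  have hr := pcell_rep c h y hy
  have hr' := pcell_rep c' h' y' hy'
  have hww : wts c'.item c'.duals c'.den (y'.1, y'.2, 0) =
      wts c.item c.duals c.den (y.1, y.2, 0) := by
    funext n
    by_cases hn : n < 11
    · have := congrFun he ⟨n, hn⟩
      exact this.symm
    · have e1 : wts c.item c.duals c.den (y.1, y.2, 0) n = 0 := by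
        by_contra hne
        obtain ⟨q, hq⟩ := hr.2.1 n hne
        exact hn (hl _ hq)
      have e2 : wts c'.item c'.duals c'.den (y'.1, y'.2, 0) n = 0 := by
        by_contra hne
        obtain ⟨q, hq⟩ := hr'.2.1 n hne
        exact hn (hl' _ hq)
      rw [e1, e2]
  rw [hww] at hr'
  have hw : ∀ n, wts c.item c.duals c.den (y.1, y.2, 0) n ≠ 0 →
      ∃ a b, (n, a) ∈ c.item ∧ (n, b) ∈ c'.item ∧ (a, b) ∈ comPrs c.item c'.item := by
    intro n hn
    obtain ⟨a, ha⟩ := hr.2.1 n hn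
    obtain ⟨b, hb⟩ := hr'.2.1 n hn
    exact ⟨a, b, ha, hb, kv_match_com ha hb⟩
  rcases hg with hg | hg
  · exfalso
    obtain ⟨n, hn⟩ := kv_match_ne hr
    obtain ⟨a, b, _, _, hab⟩ := hw n hn
    rw [hg] at hab
    exact absurd hab List.not_mem_nil
  · exact good_match _ _ _ hg c.item c'.item (kv_match_nodup h) (kv_match_nodup h') _ _ _ hr hr' hw

end RPF
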