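import Pool.Agent.Helper876.RP.Defs
import Pool.Agent.Helper876.RP.P_pcell_rep



namespace RPF
open Set


theorem kv_mem (c : PCell) (h : cellB 0 c.item c.duals c.den = true)
    (hl : ∀ x ∈ c.item, x.1 < 11) (hT : ∃ T ∈ KT, ∀ x ∈ c.item, x.1 ∈ T)
    (y : ℝ × ℝ) (hy : y ∈ c.car) : c.kv y ∈ P11 := by
  obtain ⟨hw0, hws, hwf⟩ := pcell_rep c h y hy
  set w := wts c.item c.duals c.den (y.1, y.2, 0) with hw
  have hnd : (c.item.map Prod.fst).Nodup := by
    unfold cellB at h
    rw [Bool.and_eq_true] at h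
    have h1 := h.1
    unfold dualB at h1
    simp only [Bool.and_eq_true, decide_eq_true_eq] at h1
    exact h1.1.2
  have hkv : ∀ i : Fin 11, c.kv y i = w (i : ℕ) := fun i => rfl
  refine ⟨fun i => by rw [hkv]; exact hw0 _, ?_, ?_⟩
  · have h1 := hwf (1, 0, 0, 0)
    have h2 : evR (1, 0, 0, 0) (y.1, y.2, 0) = 1 := by
      simp [evR]
    have h3 : lsum c.item w (fun q => (evI (1, 0, 0, 0) q : ℝ)) =
        ((c.item.map Prod.fst).map w).sum := by
      unfold lsum
      rw [List.map_map]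
      congr 1
      refine List.map_congr_left fun x _ => ?_
      simp [evI]
    rw [h2, h3, ← List.sum_toFinset w hnd] at h1
    simp only [hkv]
    rw [Fin.sum_univ_eq_sum_range (fun n => w n) 11, ← h1]
    symm
    refine Finset.sum_subset ?_ ?_
    · intro n hn
      rw [List.mem_toFinset, List.mem_map] at hn
      obtain ⟨x, hx, rfl⟩ := hn
      exact Finset.mem_range.2 (hl x hx)
    · intro n _ hn
      by_contra hne
      obtain ⟨q, hq⟩ := hws n hne
      apply hn
      rw [List.mem_toFinset, List.mem_map]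
      exact ⟨(n, q), hq, rfl⟩
  · obtain ⟨T, hT1, hT2⟩ := hT
    refine ⟨T, hT1, fun i hi => ?_⟩
    rw [hkv] at hi
    obtain ⟨q, hq⟩ := hws _ hi
    exact hT2 _ hq

end RPF
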