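import Pool.Agent.Helper876.RP.Defs



namespace RPF
open Set


theorem h400_zero {X : Type} (g : X → ℝ) (L : List X) :
    (∀ x ∈ L, 0 ≤ g x) → (L.map g).sum = 0 → ∀ x ∈ L, g x = 0 := by
  induction L with
  | nil =>
    intro _ _ x hx
    exact absurd hx List.not_mem_nil
  | cons a L ih =>
    intro h0 hs x hx
    rw [List.map_cons, List.sum_cons] at hs
    have h1 : 0 ≤ (L.map g).sum := by
      apply List.sum_nonneg
      intro y hy
      obtain ⟨z, hz, rfl⟩ := List.mem_map.mp hy
      exact h0 z (List.mem_cons_of_mem _ hz)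
    have h2 := h0 a List.mem_cons_self
    rcases List.mem_cons.mp hx with rfl | hx
    · linarith
    · exact ih (fun y hy => h0 y (List.mem_cons_of_mem _ hy)) (by linarith) x hx

theorem h400_filter {X : Type} (P : X → Bool) (g : X → ℝ) (L : List X) :
    (∀ x ∈ L, P x = false → g x = 0) → ((L.filter P).map g).sum = (L.map g).sum := by
  induction L with
  | nil =>
    intro _
    rfl
  | cons a L ih =>
    intro h
    have h1 := ih (fun x hx => h x (List.mem_cons_of_mem _ hx))
    cases hP : P a with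
    | false =>
      rw [List.filter_cons_of_neg (by rw [hP]; simp), h1, List.map_cons, List.sum_cons,
        h a List.mem_cons_self hP, zero_add]
    | true =>
      rw [List.filter_cons_of_pos hP, List.map_cons, List.map_cons, List.sum_cons, List.sum_cons,
        h1]

theorem exit_rep (L : Item) (hL : (L.map Prod.fst).Nodup) (e : Exit)
    (hs : ∀ x ∈ L, 0 ≤ e2I e.s x.2) (w : ℕ → ℝ) (p : ℝ × ℝ × ℝ) (h : Rep L w p)
    (h0 : e2R e.s p = 0) : Rep (exitItem L e) w (e.posR p) := by
  obtain ⟨hw0, hw1, hw2⟩ := h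
  have hz : ∀ x ∈ L, w x.1 * (e2I e.s x.2 : ℝ) = 0 := by
    apply h400_zero (fun x : ℕ × Pt => w x.1 * (e2I e.s x.2 : ℝ)) L
    · intro x hx
      exact mul_nonneg (hw0 _) (by exact_mod_cast hs x hx)
    · have h1 := hw2 (e.s.1, e.s.2.1, e.s.2.2, 0)
      have h2 : evR (e.s.1, e.s.2.1, e.s.2.2, 0) p = e2R e.s p := by
        unfold evR e2R
        push_cast
        ring
      rw [h2, h0] at h1
      rw [← h1]
      unfold lsum
      congr 1
      apply List.map_congr_left
      intro x _
      congr 1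
      unfold evI e2I
      push_cast
      ring
  refine ⟨hw0, ?_, ?_⟩
  · intro n hn
    obtain ⟨q, hq⟩ := hw1 n hn
    have h1 := hz (n, q) hq
    have h2 : (e2I e.s q : ℝ) = 0 := (mul_eq_zero.mp h1).resolve_left hn
    have h3 : e2I e.s q = 0 := by exact_mod_cast h2
    refine ⟨e.pos q, ?_⟩
    unfold exitItem
    rw [List.mem_map]
    refine ⟨(n, q), ?_, rfl⟩
    rw [List.mem_filter]
    exact ⟨hq, decide_eq_true h3⟩
  · intro f
    have h1 := hw2 (f.1 + f.2.1 * e.p1.1 + f.2.2.1 * e.p2.1,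
      f.2.1 * e.p1.2.1 + f.2.2.1 * e.p2.2.1, f.2.1 * e.p1.2.2 + f.2.2.1 * e.p2.2.2, f.2.2.2)
    have h2 : evR (f.1 + f.2.1 * e.p1.1 + f.2.2.1 * e.p2.1,
        f.2.1 * e.p1.2.1 + f.2.2.1 * e.p2.2.1, f.2.1 * e.p1.2.2 + f.2.2.1 * e.p2.2.2, f.2.2.2) p =
        evR f (e.posR p) := by
      unfold evR Exit.posR e2R
      push_cast
      ring
    rw [h2] at h1
    rw [← h1]
    unfold lsum exitItem
    rw [List.map_map]
    have h3 := h400_filter (fun x : ℕ × Pt => decide (e2I e.s x.2 = 0))
      ((fun x : ℕ × Pt => w x.1 * (evI f x.2 : ℝ)) ∘ fun x => (x.1, e.pos x.2)) L (by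
        intro x hx hP
        have h4 : e2I e.s x.2 ≠ 0 := of_decide_eq_false hP
        have h5 : w x.1 = 0 := (mul_eq_zero.mp (hz x hx)).resolve_right (by exact_mod_cast h4)
        show w x.1 * _ = 0
        rw [h5, zero_mul])
    rw [h3]
    congr 1
    apply List.map_congr_left
    intro x _
    show w x.1 * (evI f (e.pos x.2) : ℝ) = w x.1 * _
    congr 1
    unfold evI Exit.pos e2I
    push_cast
    ring

end RPF
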