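import Pool.Agent.Helper876.RP.Defs
import Pool.Agent.Helper876.RP.P_lsum_congr



namespace RPF
open Set


theorem rep_mono (L M : Item) (hL : (L.map Prod.fst).Nodup) (hM : (M.map Prod.fst).Nodup)
    (hLM : ∀ x ∈ L, x ∈ M) (w : ℕ → ℝ) (p : ℝ × ℝ × ℝ) (h : Rep L w p) : Rep M w p := by
  obtain ⟨h1, h2, h3⟩ := h
  refine ⟨h1, fun n hn => ?_, fun f => ?_⟩
  · obtain ⟨q, hq⟩ := h2 n hn
    exact ⟨q, hLM _ hq⟩
  · rw [← h3 f]
    refine lsum_congr M L hM hL w _ _ fun n hn => ?_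
    obtain ⟨q, hq⟩ := h2 n hn
    exact ⟨q, q, hLM _ hq, hq, rfl⟩

end RPF
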