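import Pool.Agent.Helper876.RP.Defs
import Pool.Agent.Helper876.RP.P_rep_mono
import Pool.Agent.Helper876.RP.P_exit_rep



namespace RPF
open Set


theorem zz_nodup_fst (L : Item) (hL : (L.map Prod.fst).Nodup) {n : ℕ} {a b : Pt}
    (ha : (n, a) ∈ L) (hb : (n, b) ∈ L) : a = b := by
  induction L with
  | nil => exact absurd ha List.not_mem_nil
  | cons x L ih =>
    rw [List.map_cons, List.nodup_cons] at hL
    rw [List.mem_cons] at ha hb
    rcases ha with ha | ha <;> rcases hb with hb | hb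
    · have := ha.trans hb.symm
      exact (Prod.ext_iff.1 this).2
    · exact absurd (List.mem_map.2 ⟨_, hb, by rw [← ha]⟩) hL.1
    · exact absurd (List.mem_map.2 ⟨_, ha, by rw [← hb]⟩) hL.1
    · exact ih hL.2 ha hb

theorem zz_key (cells : List (ℕ × Item)) (exits : ℕ → List Exit) (charts : ℕ → List Item)
    (hsys : sysB cells exits charts = true)
    (c : ℕ × Item) (hc : c ∈ cells) (e : Exit) (he : e ∈ exits c.1)
    (w : ℕ → ℝ) (p : ℝ × ℝ × ℝ) (h : Rep c.2 w p) (h0 : e2R e.s p = 0) :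
    ∃ M ∈ charts e.ch, (M.map Prod.fst).Nodup ∧ Rep M w (e.posR p) ∧
      Rep (exitItem c.2 e) w (e.posR p) ∧ ∀ x ∈ exitItem c.2 e, x ∈ M := by
  unfold sysB at hsys
  rw [List.all_eq_true] at hsys
  have h1 := hsys c hc
  rw [Bool.and_eq_true, List.all_eq_true] at h1
  obtain ⟨hnd, h2⟩ := h1
  have hnd' : (c.2.map Prod.fst).Nodup := of_decide_eq_true hnd
  have h3 := h2 e he
  rw [Bool.and_eq_true, List.all_eq_true] at h3
  obtain ⟨hpos, h4⟩ := h3
  have hpos' : ∀ x ∈ c.2, 0 ≤ e2I e.s x.2 := fun x hx => of_decide_eq_true (hpos x hx)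
  have hrep := exit_rep c.2 hnd' e hpos' w p h h0
  have hne : exitItem c.2 e ≠ [] := by
    intro h5
    have h6 := hrep.2.2 (1, 0, 0, 0)
    rw [h5] at h6
    simp [lsum, evR] at h6
  have hnd2 : ((exitItem c.2 e).map Prod.fst).Nodup := by
    unfold exitItem
    rw [List.map_map]
    have : (Prod.fst ∘ fun x : ℕ × Pt => (x.1, e.pos x.2)) = Prod.fst := by
      funext x; rfl
    rw [this]
    exact (List.Sublist.map _ List.filter_sublist).nodup hnd'
  rw [Bool.or_eq_true] at h4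
  rcases h4 with h4 | h4
  · exact absurd (of_decide_eq_true h4) hne
  · rw [List.any_eq_true] at h4
    obtain ⟨M, hM, h5⟩ := h4
    rw [Bool.and_eq_true] at h5
    obtain ⟨h6, h7⟩ := h5
    have hMn : (M.map Prod.fst).Nodup := of_decide_eq_true h6
    rw [List.all_eq_true] at h7
    have hEM : ∀ x ∈ exitItem c.2 e, x ∈ M := fun x hx => by
      have := h7 x hx
      exact List.elem_iff.1 this
    exact ⟨M, hM, hMn, rep_mono _ M hnd2 hMn hEM w _ hrep, hrep, hEM⟩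

theorem sys_unique (cells : List (ℕ × Item)) (exits : ℕ → List Exit) (charts : ℕ → List Item)
    (hsys : sysB cells exits charts = true) (hu : ∀ c, ChartUniq (charts c))
    (c c' : ℕ × Item) (hc : c ∈ cells) (hc' : c' ∈ cells) (e e' : Exit) (he : e ∈ exits c.1)
    (he' : e' ∈ exits c'.1) (w w' : ℕ → ℝ) (p p' : ℝ × ℝ × ℝ) (h : Rep c.2 w p)
    (h' : Rep c'.2 w' p') (hm : Match e e' p p') :
    ∀ n, w n = w' n ∧ (w n ≠ 0 → ∃ a b, (n, a) ∈ c.2 ∧ (n, b) ∈ c'.2 ∧ e2I e.s a = 0 ∧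
      e2I e'.s b = 0 ∧ e.pos a = e'.pos b) := by
  obtain ⟨hch, hs, hs', hpp⟩ := hm
  obtain ⟨M, hM, hMn, hMr, hEr, hEM⟩ := zz_key cells exits charts hsys c hc e he w p h hs
  obtain ⟨M', hM', hMn', hMr', hEr', hEM'⟩ := zz_key cells exits charts hsys c' hc' e' he' w' p' h' hs'
  rw [← hch] at hM'
  rw [← hpp] at hMr'
  intro n
  obtain ⟨hw, hq⟩ := hu e.ch M hM M' hM' w w' (e.posR p) hMr hMr' n
  refine ⟨hw, fun hn => ?_⟩
  obtain ⟨q, hq1, hq2⟩ := hq hn
  obtain ⟨q1, hq1'⟩ := hEr.2.1 n hn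
  obtain ⟨q2, hq2'⟩ := hEr'.2.1 n (by rw [← hw]; exact hn)
  have e1 : q = q1 := zz_nodup_fst M hMn hq1 (hEM _ hq1')
  have e2 : q = q2 := zz_nodup_fst M' hMn' hq2 (hEM' _ hq2')
  unfold exitItem at hq1' hq2'
  rw [List.mem_map] at hq1' hq2'
  obtain ⟨⟨n1, a⟩, ha, ha'⟩ := hq1'
  obtain ⟨⟨n2, b⟩, hb, hb'⟩ := hq2'
  rw [List.mem_filter] at ha hb
  have ea := of_decide_eq_true ha.2
  have eb := of_decide_eq_true hb.2
  have fa := Prod.ext_iff.1 ha'
  have fb := Prod.ext_iff.1 hb'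
  simp only at fa fb
  refine ⟨a, b, ?_, ?_, ea, eb, ?_⟩
  · rw [← fa.1]; exact ha.1
  · rw [← fb.1]; exact hb.1
  · rw [fa.2, fb.2, ← e1, ← e2]

end RPF
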