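import Pool.Agent.Helper876.RP.Defs
import Pool.Agent.Helper876.RP.P_sys_unique
import Pool.Agent.Helper876.RP.P_pcell_rep



namespace RPF
open Set


theorem kv_unique (cells : List PCell) (exits : ℕ → List Exit) (charts : ℕ → List Item)
    (h1 : ∀ c ∈ cells, cellB 0 c.item c.duals c.den = true)
    (h2 : sysB (cells.map (fun c => (c.reg, c.item))) exits charts = true)
    (h3 : ∀ k, ChartUniq (charts k)) (c c' : PCell) (hc : c ∈ cells) (hc' : c' ∈ cells)
    (y y' : ℝ × ℝ) (hy : y ∈ c.car) (hy' : y' ∈ c'.car) (e e' : Exit) (he : e ∈ exits c.reg)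
    (he' : e' ∈ exits c'.reg) (hm : Match e e' (y.1, y.2, 0) (y'.1, y'.2, 0)) :
    c.kv y = c'.kv y' := by
  funext i
  exact (sys_unique (cells.map (fun c => (c.reg, c.item))) exits charts h2 h3
    (c.reg, c.item) (c'.reg, c'.item) (List.mem_map.2 ⟨c, hc, rfl⟩)
    (List.mem_map.2 ⟨c', hc', rfl⟩) e e' he he' _ _ _ _ (pcell_rep c (h1 c hc) y hy)
    (pcell_rep c' (h1 c' hc') y' hy') hm (i : ℕ)).1

end RPF
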