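import Pool.Agent.Helper876.RP.Defs
import Pool.Agent.Helper876.RP.P_kappa_glue
import Pool.Agent.Helper876.RP.P_kv_mem
import Pool.Agent.Helper876.RP.P_kv_match
import Pool.Agent.Helper876.RP.P_kv_unique



namespace RPF
open Set


theorem kappa_all (cells : List PCell) (exits : ℕ → List Exit) (charts : ℕ → List Item)
    (h1 : ∀ c ∈ cells, cellB 0 c.item c.duals c.den = true)
    (h2 : sysB (cells.map (fun c => (c.reg, c.item))) exits charts = true)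
    (h3 : ∀ k, ChartUniq (charts k))
    (h4 : ∀ c ∈ cells, ∀ x ∈ c.item, x.1 < 11)
    (h5 : ∀ c ∈ cells, ∃ T ∈ KT, ∀ x ∈ c.item, x.1 ∈ T)
    (h6 : ∀ c ∈ cells, ∀ c' ∈ cells, comPrs c.item c'.item = [] ∨
      goodPairs (exits c.reg) (exits c'.reg) (comPrs c.item c'.item) = true)
    (h7 : ∀ c ∈ cells, ∃ e ∈ exits c.reg, e.s = (0, 0, 0)) :
    ∃ κ, KappaOK cells exits κ := by
  have hcons : ∀ c ∈ cells, ∀ c' ∈ cells, c.reg = c'.reg → ∀ y, y ∈ c.car → y ∈ c'.car →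
      c.kv y = c'.kv y := by
    intro c hc c' hc' hreg y hy hy'
    obtain ⟨e, he, hes⟩ := h7 c hc
    have he' : e ∈ exits c'.reg := by rw [← hreg]; exact he
    refine kv_unique cells exits charts h1 h2 h3 c c' hc hc' y y hy hy' e e he he' ?_
    refine ⟨rfl, ?_, ?_, rfl⟩ <;> · rw [hes]; simp [e2R]
  obtain ⟨κ, hpl, hκ⟩ := kappa_glue cells h1 hcons
  refine ⟨κ, hpl, ?_, ?_, ?_⟩
  · rintro r y ⟨c, hc, rfl, hy⟩
    rw [hκ c hc y hy]
    exact kv_mem c (h1 c hc) (h4 c hc) (h5 c hc) y hy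
  · rintro r r' y y' ⟨c, hc, rfl, hy⟩ ⟨c', hc', rfl, hy'⟩ he
    rw [hκ c hc y hy, hκ c' hc' y' hy'] at he
    exact kv_match exits c c' (h1 c hc) (h1 c' hc') (h4 c hc) (h4 c' hc') (h6 c hc c' hc') y y'
      hy hy' he
  · rintro r r' y y' ⟨c, hc, rfl, hy⟩ ⟨c', hc', rfl, hy'⟩ e he e' he' hm
    rw [hκ c hc y hy, hκ c' hc' y' hy']
    exact kv_unique cells exits charts h1 h2 h3 c c' hc hc' y y' hy hy' e e' he he' hm

end RPF
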