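import Pool.Agent.Helper876.RP.Defs



namespace RPF
open Set


theorem model_eq : toL (modelZ 0) = diskL ∧ toL (modelZ 1) = pagesL ∧ toL (modelZ 2) = k4L := by
  refine ⟨?_, ?_, ?_⟩
  · norm_num [toL, modelZ, diskL, toV]
  · norm_num [toL, modelZ, pagesL, toV]
  · norm_num [toL, modelZ, k4L, toV]

end RPF
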