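import Pool.Agent.Helper876.RP.Defs



namespace RPF
open Set


theorem p11c_simplexSet_convex_aux (T : List ℕ) : Convex ℝ (simplexSet T) := by
  rintro x ⟨hx0, hx1, hxT⟩ y ⟨hy0, hy1, hyT⟩ a b ha hb hab
  refine ⟨fun i => ?_, ?_, fun i hi => ?_⟩
  · simp only [Pi.add_apply, Pi.smul_apply, smul_eq_mul]
    exact add_nonneg (mul_nonneg ha (hx0 i)) (mul_nonneg hb (hy0 i))
  · simp only [Pi.add_apply, Pi.smul_apply, smul_eq_mul]
    rw [Finset.sum_add_distrib, ← Finset.mul_sum, ← Finset.mul_sum, hx1, hy1]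
    linarith
  · by_contra h
    have h1 : x i = 0 := by
      by_contra h'
      exact h (hxT i h')
    have h2 : y i = 0 := by
      by_contra h'
      exact h (hyT i h')
    apply hi
    simp [h1, h2]

theorem p11c_single_mem_simplexSet_aux (T : List ℕ) (i : Fin 11) (hi : (i : ℕ) ∈ T) :
    (Pi.single i 1 : Fin 11 → ℝ) ∈ simplexSet T := by
  refine ⟨fun j => ?_, ?_, fun j hj => ?_⟩
  · by_cases h : j = i
    · subst h; simp
    · rw [Pi.single_eq_of_ne h]
  · rw [Finset.sum_pi_single']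
    simp
  · by_cases h : j = i
    · rw [h]; exact hi
    · exact absurd (Pi.single_eq_of_ne h _) hj

theorem p11c_simplexSet_subset_P11_aux (T : List ℕ) (hT : T ∈ KT) : simplexSet T ⊆ P11 :=
  fun _ hy => ⟨hy.1, hy.2.1, T, hT, hy.2.2⟩

theorem p11c_KT_link_aux : ∀ T ∈ KT, ∃ T' ∈ KT, 0 ∈ T' ∧ ∃ i : Fin 11, (i : ℕ) ∈ T ∧ (i : ℕ) ∈ T' := by
  decide

theorem p11_connected : IsConnected P11 := by
  have h0 : (Pi.single 0 1 : Fin 11 → ℝ) ∈ P11 :=
    p11c_simplexSet_subset_P11_aux [0, 3, 5] (by decide)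
      (p11c_single_mem_simplexSet_aux [0, 3, 5] 0 (by decide))
  refine ⟨⟨_, h0⟩, ?_⟩
  refine isPreconnected_of_forall (Pi.single 0 1 : Fin 11 → ℝ) ?_
  rintro y ⟨hy0, hy1, T, hT, hyT⟩
  obtain ⟨T', hT', h0', i, hi, hi'⟩ := p11c_KT_link_aux T hT
  refine ⟨simplexSet T' ∪ simplexSet T, Set.union_subset (p11c_simplexSet_subset_P11_aux T' hT')
    (p11c_simplexSet_subset_P11_aux T hT), Or.inl (p11c_single_mem_simplexSet_aux T' 0 h0'),
    Or.inr ⟨hy0, hy1, hyT⟩, ?_⟩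
  exact IsPreconnected.union (Pi.single i 1 : Fin 11 → ℝ) (p11c_single_mem_simplexSet_aux T' i hi')
    (p11c_single_mem_simplexSet_aux T i hi) (p11c_simplexSet_convex_aux T').isPreconnected
    (p11c_simplexSet_convex_aux T).isPreconnected

end RPF
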