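import Pool.Agent.Helper876.RP.Defs



namespace RPF
open Set


theorem simplex_polytope (T : List ℕ) : IsPolytope (simplexSet T) := by
  have hset : simplexSet T = {x | ∀ g ∈ (Set.range (fun i : Fin 11 =>
      ((LinearMap.proj i : (Fin 11 → ℝ) →ₗ[ℝ] ℝ).toAffineMap)) ∪
      {(∑ i : Fin 11, (LinearMap.proj i : (Fin 11 → ℝ) →ₗ[ℝ] ℝ)).toAffineMap -
        AffineMap.const ℝ (Fin 11 → ℝ) (1 : ℝ),
       AffineMap.const ℝ (Fin 11 → ℝ) (1 : ℝ) -
        (∑ i : Fin 11, (LinearMap.proj i : (Fin 11 → ℝ) →ₗ[ℝ] ℝ)).toAffineMap}) ∪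
      ((fun i : Fin 11 => -((LinearMap.proj i : (Fin 11 → ℝ) →ₗ[ℝ] ℝ).toAffineMap)) ''
        {i : Fin 11 | (i : ℕ) ∉ T}), 0 ≤ g x} := by
    ext y
    constructor
    · rintro ⟨h1, h2, h3⟩ g hg
      rcases hg with (⟨i, rfl⟩ | hg) | ⟨i, hi, rfl⟩
      · exact h1 i
      · rcases hg with hg | hg
        · rw [hg]
          show 0 ≤ (∑ i : Fin 11, (LinearMap.proj i : (Fin 11 → ℝ) →ₗ[ℝ] ℝ)) y - 1
          rw [LinearMap.sum_apply]
          show 0 ≤ (∑ i, y i) - 1
          rw [h2, sub_self]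
        · rw [Set.mem_singleton_iff] at hg
          rw [hg]
          show 0 ≤ 1 - (∑ i : Fin 11, (LinearMap.proj i : (Fin 11 → ℝ) →ₗ[ℝ] ℝ)) y
          rw [LinearMap.sum_apply]
          show 0 ≤ 1 - (∑ i, y i)
          rw [h2, sub_self]
      · show 0 ≤ -(y i)
        have : y i = 0 := by
          by_contra hne
          exact hi (h3 i hne)
        rw [this, neg_zero]
    · intro h
      have h1 : ∀ i, 0 ≤ y i := fun i => h _ (Or.inl (Or.inl ⟨i, rfl⟩))
      have h2 : 0 ≤ (∑ i, y i) - 1 := by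
        have h4 : 0 ≤ (∑ i : Fin 11, (LinearMap.proj i : (Fin 11 → ℝ) →ₗ[ℝ] ℝ)) y - 1 :=
          h _ (Or.inl (Or.inr (Or.inl rfl)))
        rw [LinearMap.sum_apply] at h4
        exact h4
      have h3 : 0 ≤ 1 - (∑ i, y i) := by
        have h4 : 0 ≤ 1 - (∑ i : Fin 11, (LinearMap.proj i : (Fin 11 → ℝ) →ₗ[ℝ] ℝ)) y :=
          h _ (Or.inl (Or.inr (Or.inr rfl)))
        rw [LinearMap.sum_apply] at h4
        exact h4
      refine ⟨h1, by linarith, fun i hi => ?_⟩
      by_contra hcon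
      have h5 : 0 ≤ -(y i) := h _ (Or.inr ⟨i, hcon, rfl⟩)
      exact hi (le_antisymm (by linarith) (h1 i))
  refine ⟨?_, _, ?_, hset⟩
  · have hclosed : IsClosed (simplexSet T) := by
      rw [hset]
      have : ∀ S : Set ((Fin 11 → ℝ) →ᵃ[ℝ] ℝ), IsClosed {x | ∀ g ∈ S, 0 ≤ g x} := by
        intro S
        have e : {x : Fin 11 → ℝ | ∀ g ∈ S, 0 ≤ g x} = ⋂ g ∈ S, {x | 0 ≤ g x} := by
          ext x
          simp only [Set.mem_iInter]
          rfl
        rw [e]
        exact isClosed_biInter fun g _ =>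
          isClosed_le continuous_const (AffineMap.continuous_of_finiteDimensional g)
      exact this _
    have hsub : simplexSet T ⊆ Set.univ.pi (fun _ : Fin 11 => Set.Icc (0 : ℝ) 1) := by
      rintro y ⟨h1, h2, _⟩ i _
      refine ⟨h1 i, ?_⟩
      rw [← h2]
      exact Finset.single_le_sum (fun j _ => h1 j) (Finset.mem_univ i)
    exact (isCompact_univ_pi fun _ => isCompact_Icc).of_isClosed_subset hclosed hsub
  · exact Set.toFinite _

end RPF
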