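import Pool.Agent.Helper876.RP.Defs
import Pool.Agent.Helper876.RP.P_simplex_polytope



namespace RPF
open Set


theorem p11_polyhedron : IsPolyhedron P11 := by
  refine ⟨simplexSet '' {T | T ∈ KT}, ?_, ?_, ?_⟩
  · exact (List.finite_toSet KT).image _
  · rintro C ⟨T, _, rfl⟩
    exact simplex_polytope T
  · ext y
    constructor
    · rintro ⟨h1, h2, T, hT, h3⟩
      exact ⟨simplexSet T, ⟨T, hT, rfl⟩, h1, h2, h3⟩
    · rintro ⟨_, ⟨T, hT, rfl⟩, h1, h2, h3⟩
      exact ⟨h1, h2, T, hT, h3⟩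

end RPF
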