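import Pool.Agent.Helper876.RP.Defs



namespace RPF
open Set


theorem polytope_inter {E : Type*} [NormedAddCommGroup E] [NormedSpace ℝ E] {C D : Set E}
    (hC : IsPolytope C) (hD : IsPolytope D) : IsPolytope (C ∩ D) := by
  obtain ⟨hCc, S, hSf, hS⟩ := hC
  obtain ⟨hDc, S', hSf', hS'⟩ := hD
  refine ⟨hCc.inter hDc, S ∪ S', hSf.union hSf', ?_⟩
  rw [hS, hS']
  ext x
  constructor
  · rintro ⟨h1, h2⟩ g hg
    rcases hg with hg | hg
    · exact h1 g hg
    · exact h2 g hg
  · intro h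
    exact ⟨fun g hg => h g (Or.inl hg), fun g hg => h g (Or.inr hg)⟩

end RPF

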