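import Pool.Agent.Helper876.RP.Defs



namespace RPF
open Set


theorem polytope_preimage {E F : Type*} [NormedAddCommGroup E] [NormedSpace ℝ E]
    [NormedAddCommGroup F] [NormedSpace ℝ F] [FiniteDimensional ℝ E] {C : Set E} {D : Set F}
    (hC : IsPolytope C) (hD : IsPolytope D) (g : E →ᵃ[ℝ] F) : IsPolytope (C ∩ g ⁻¹' D) := by
  obtain ⟨hCc, S, hS, hCS⟩ := hC
  obtain ⟨hDc, T, hT, hDT⟩ := hD
  have hg : Continuous g := AffineMap.continuous_of_finiteDimensional g
  refine ⟨hCc.inter_right (hDc.isClosed.preimage hg), S ∪ (fun h : F →ᵃ[ℝ] ℝ => h.comp g) '' T,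
    hS.union (hT.image _), ?_⟩
  ext x
  rw [Set.mem_inter_iff, Set.mem_preimage]
  constructor
  · rintro ⟨h1, h2⟩ h hh
    rcases hh with hh | ⟨k, hk, rfl⟩
    · rw [hCS] at h1
      exact h1 h hh
    · rw [hDT] at h2
      exact h2 k hk
  · intro h
    constructor
    · rw [hCS]
      intro k hk
      exact h k (Or.inl hk)
    · rw [hDT]
      intro k hk
      exact h (k.comp g) (Or.inr ⟨k, hk, rfl⟩)

end RPF
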