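import Pool.Agent.Helper876.RP.Defs
import Pool.Agent.Helper876.RP.P_polytope_inter
import Pool.Agent.Helper876.RP.P_polytope_preimage



namespace RPF
open Set


theorem plon_comp {E F G : Type*} [NormedAddCommGroup E] [NormedSpace ℝ E]
    [NormedAddCommGroup F] [NormedSpace ℝ F] [NormedAddCommGroup G] [NormedSpace ℝ G]
    [FiniteDimensional ℝ E] {X : Set E} {Y : Set F} {f : E → F} {g : F → G}
    (hg : IsPLOn g Y) (hf : IsPLOn f X) (hm : MapsTo f X Y) : IsPLOn (g ∘ f) X := by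
  classical
  obtain ⟨S, hSf, hXS, hS⟩ := hf
  obtain ⟨T, hTf, hYT, hT⟩ := hg
  have ha : ∀ C : Set E, ∃ a : E →ᵃ[ℝ] F, C ∈ S → EqOn f a C := by
    intro C
    by_cases h : C ∈ S
    · obtain ⟨a, ha⟩ := (hS C h).2
      exact ⟨a, fun _ => ha⟩
    · exact ⟨AffineMap.const ℝ E 0, fun h' => absurd h' h⟩
  choose a ha using ha
  refine ⟨Set.image2 (fun C D => C ∩ a C ⁻¹' D) S T, hSf.image2 _ hTf, ?_, ?_⟩
  · ext x
    constructor
    · intro hx
      have hx' := hx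
      rw [hXS] at hx'
      obtain ⟨C, hC, hxC⟩ := hx'
      have hfx := hm hx
      rw [hYT] at hfx
      obtain ⟨D, hD, hfD⟩ := hfx
      refine ⟨C ∩ a C ⁻¹' D, ⟨C, hC, D, hD, rfl⟩, hxC, ?_⟩
      rw [mem_preimage, ← ha C hC hxC]
      exact hfD
    · rintro ⟨_, ⟨C, hC, D, hD, rfl⟩, hxC, -⟩
      rw [hXS]
      exact ⟨C, hC, hxC⟩
  · rintro _ ⟨C, hC, D, hD, rfl⟩
    refine ⟨polytope_preimage (hS C hC).1 (hT D hD).1 (a C), ?_⟩
    obtain ⟨b, hb⟩ := (hT D hD).2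
    refine ⟨b.comp (a C), ?_⟩
    rintro x ⟨hxC, hxD⟩
    show g (f x) = b (a C x)
    rw [ha C hC hxC]
    exact hb hxD

end RPF
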