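import Pool.Agent.Helper876.RP.Defs
import Pool.Agent.Helper876.RP.P_polytope_preimage
import Pool.Agent.Helper876.RP.P_plon_comp
import Pool.Agent.Helper876.RP.P_plon_affine
import Pool.Agent.Helper876.RP.P_plon_glue



namespace RPF
open Set


/-- the affine functional `l + c` -/
noncomputable def af352 (l : ((Fin 3 → ℝ) × ℝ) →ₗ[ℝ] ℝ) (c : ℝ) : ((Fin 3 → ℝ) × ℝ) →ᵃ[ℝ] ℝ :=
  l.toAffineMap + AffineMap.const ℝ _ c

theorem af352_apply (l : ((Fin 3 → ℝ) × ℝ) →ₗ[ℝ] ℝ) (c : ℝ) (x : (Fin 3 → ℝ) × ℝ) :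
    af352 l c x = l x + c := rfl

/-- the coordinate `i` -/
noncomputable def co352 (i : Fin 3) : ((Fin 3 → ℝ) × ℝ) →ₗ[ℝ] ℝ :=
  (LinearMap.proj i).comp (LinearMap.fst ℝ (Fin 3 → ℝ) ℝ)

theorem co352_apply (i : Fin 3) (x : (Fin 3 → ℝ) × ℝ) : co352 i x = x.1 i := rfl

/-- a face of the octahedron times the interval -/
def pc352 (p q r : ℝ) : Set ((Fin 3 → ℝ) × ℝ) :=
  {z | 0 ≤ p * z.1 0 ∧ 0 ≤ q * z.1 1 ∧ 0 ≤ r * z.1 2 ∧ p * z.1 0 + q * z.1 1 + r * z.1 2 = 1 ∧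
    |z.2| ≤ 1}

theorem pc352_polytope (p q r : ℝ) (hp : p = 1 ∨ p = -1) (hq : q = 1 ∨ q = -1)
    (hr : r = 1 ∨ r = -1) : IsPolytope (pc352 p q r) := by
  have hset : pc352 p q r = {x | ∀ g ∈ ({af352 (p • co352 0) 0, af352 (q • co352 1) 0,
      af352 (r • co352 2) 0, af352 (p • co352 0 + q • co352 1 + r • co352 2) (-1),
      af352 (-(p • co352 0 + q • co352 1 + r • co352 2)) 1,
      af352 (LinearMap.snd ℝ (Fin 3 → ℝ) ℝ) 1, af352 (-(LinearMap.snd ℝ (Fin 3 → ℝ) ℝ)) 1} :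
        Set (((Fin 3 → ℝ) × ℝ) →ᵃ[ℝ] ℝ)), 0 ≤ g x} := by
    ext z
    simp only [pc352, Set.mem_ofPred_eq, Set.mem_insert_iff, Set.mem_singleton_iff,
      forall_eq_or_imp, forall_eq, af352_apply, LinearMap.smul_apply, LinearMap.add_apply,
      LinearMap.neg_apply, co352_apply, LinearMap.snd_apply, smul_eq_mul, add_zero, abs_le]
    constructor
    · rintro ⟨h1, h2, h3, h4, h5, h6⟩
      refine ⟨h1, h2, h3, ?_, ?_, ?_, ?_⟩ <;> linarith
    · rintro ⟨h1, h2, h3, h4, h5, h6, h7⟩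
      refine ⟨h1, h2, h3, ?_, ?_, ?_⟩ <;> linarith
  refine ⟨?_, _, Set.toFinite _, hset⟩
  have c0 : Continuous fun z : (Fin 3 → ℝ) × ℝ => z.1 0 := (continuous_apply 0).comp continuous_fst
  have c1 : Continuous fun z : (Fin 3 → ℝ) × ℝ => z.1 1 := (continuous_apply 1).comp continuous_fst
  have c2 : Continuous fun z : (Fin 3 → ℝ) × ℝ => z.1 2 := (continuous_apply 2).comp continuous_fst
  have hclosed : IsClosed (pc352 p q r) := by
    have k1 : IsClosed {z : (Fin 3 → ℝ) × ℝ | 0 ≤ p * z.1 0} :=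
      isClosed_le continuous_const (c0.const_mul p)
    have k2 : IsClosed {z : (Fin 3 → ℝ) × ℝ | 0 ≤ q * z.1 1} :=
      isClosed_le continuous_const (c1.const_mul q)
    have k3 : IsClosed {z : (Fin 3 → ℝ) × ℝ | 0 ≤ r * z.1 2} :=
      isClosed_le continuous_const (c2.const_mul r)
    have k4 : IsClosed {z : (Fin 3 → ℝ) × ℝ | p * z.1 0 + q * z.1 1 + r * z.1 2 = 1} :=
      isClosed_eq (((c0.const_mul p).add (c1.const_mul q)).add (c2.const_mul r)) continuous_const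
    have k5 : IsClosed {z : (Fin 3 → ℝ) × ℝ | |z.2| ≤ 1} :=
      isClosed_le continuous_snd.abs continuous_const
    exact k1.inter (k2.inter (k3.inter (k4.inter k5)))
  have hsub : pc352 p q r ⊆ Metric.closedBall (0 : (Fin 3 → ℝ) × ℝ) 1 := by
    rintro z ⟨h1, h2, h3, h4, h5⟩
    rw [mem_closedBall_zero_iff, Prod.norm_def, max_le_iff]
    refine ⟨(pi_norm_le_iff_of_nonneg zero_le_one).2 fun i => ?_, by
      rw [Real.norm_eq_abs]; exact h5⟩
    rw [Real.norm_eq_abs, abs_le]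
    fin_cases i
    · show -1 ≤ z.1 0 ∧ z.1 0 ≤ 1
      rcases hp with rfl | rfl <;> constructor <;> linarith
    · show -1 ≤ z.1 1 ∧ z.1 1 ≤ 1
      rcases hq with rfl | rfl <;> constructor <;> linarith
    · show -1 ≤ z.1 2 ∧ z.1 2 ≤ 1
      rcases hr with rfl | rfl <;> constructor <;> linarith
  exact (isCompact_closedBall _ _).of_isClosed_subset hclosed hsub

/-- signs -/
noncomputable def sg352 (b : Bool) : ℝ := if b then 1 else -1

theorem sg352_or (b : Bool) : sg352 b = 1 ∨ sg352 b = -1 := by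
  cases b
  · right; simp [sg352]
  · left; simp [sg352]

theorem sg352_ex (x : ℝ) : ∃ b, 0 ≤ sg352 b * x ∧ sg352 b * x = |x| := by
  rcases le_total 0 x with h | h
  · exact ⟨true, by simp [sg352, h], by simp [sg352, abs_of_nonneg h]⟩
  · refine ⟨false, ?_, ?_⟩
    · simp only [sg352, Bool.false_eq_true, if_false]; linarith
    · simp only [sg352, Bool.false_eq_true, if_false]; rw [abs_of_nonpos h]; ring

theorem sg352_abs {s x : ℝ} (hs : s = 1 ∨ s = -1) (h : 0 ≤ s * x) : |x| = s * x := by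
  rcases hs with rfl | rfl
  · rw [one_mul] at h ⊢
    exact abs_of_nonneg h
  · rw [abs_of_nonpos (by linarith)]
    ring

theorem half352 (r : ℝ) (hr : r = 1 ∨ r = -1) (g : ((Fin 3 → ℝ) × ℝ) →ᵃ[ℝ] (ℝ × ℝ × ℝ)) :
    IsPLOn g {z : (Fin 3 → ℝ) × ℝ | z ∈ shell ∧ 0 ≤ r * z.1 2} := by
  refine ⟨Set.range fun b : Bool × Bool => pc352 (sg352 b.1) (sg352 b.2) r, Set.finite_range _,
    ?_, ?_⟩
  · ext z
    rw [Set.mem_sUnion]
    constructor
    · rintro ⟨⟨h1, h2⟩, h3⟩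
      obtain ⟨b0, hb0, hb0'⟩ := sg352_ex (z.1 0)
      obtain ⟨b1, hb1, hb1'⟩ := sg352_ex (z.1 1)
      refine ⟨_, ⟨(b0, b1), rfl⟩, hb0, hb1, h3, ?_, h2⟩
      rw [Fin.sum_univ_three] at h1
      show sg352 b0 * z.1 0 + sg352 b1 * z.1 1 + r * z.1 2 = 1
      rw [hb0', hb1', ← sg352_abs hr h3]
      exact h1
    · rintro ⟨_, ⟨⟨b0, b1⟩, rfl⟩, h1, h2, h3, h4, h5⟩
      refine ⟨⟨?_, h5⟩, h3⟩
      rw [Fin.sum_univ_three, sg352_abs (sg352_or b0) h1, sg352_abs (sg352_or b1) h2,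
        sg352_abs hr h3]
      exact h4
  · rintro _ ⟨⟨b0, b1⟩, rfl⟩
    exact ⟨pc352_polytope _ _ _ (sg352_or b0) (sg352_or b1) hr, g, fun z _ => rfl⟩

/-- the linear map `(f, s) ↦ (8 f 0, 8 f 1, s)` -/
noncomputable def am352 : ((Fin 3 → ℝ) × ℝ) →ₗ[ℝ] (ℝ × ℝ × ℝ) :=
  ((8 : ℝ) • co352 0).prod (((8 : ℝ) • co352 1).prod (LinearMap.snd ℝ (Fin 3 → ℝ) ℝ))

theorem am352_apply (z : (Fin 3 → ℝ) × ℝ) : am352 z = (8 * z.1 0, 8 * z.1 1, z.2) := rfl

theorem shell352_neg {z : (Fin 3 → ℝ) × ℝ} (hz : z ∈ shell) : -z ∈ shell := by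
  obtain ⟨h1, h2⟩ := hz
  refine ⟨?_, ?_⟩
  · rw [← h1]
    refine Finset.sum_congr rfl fun i _ => ?_
    show |-(z.1 i)| = |z.1 i|
    rw [abs_neg]
  · show |-(z.2)| ≤ 1
    rw [abs_neg]
    exact h2

theorem shell352_le {z : (Fin 3 → ℝ) × ℝ} (hz : z ∈ shell) :
    |(am352 z).1| + |(am352 z).2.1| = 8 - 8 * |z.1 2| ∧ |(am352 z).2.2| ≤ 1 := by
  obtain ⟨h1, h2⟩ := hz
  rw [Fin.sum_univ_three] at h1
  refine ⟨?_, h2⟩
  show |8 * z.1 0| + |8 * z.1 1| = 8 - 8 * |z.1 2|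
  rw [abs_mul, abs_mul, abs_of_pos (by norm_num : (0 : ℝ) < 8)]
  linarith

theorem am352_inj {z w : (Fin 3 → ℝ) × ℝ} (h : am352 w = am352 z) :
    w.1 0 = z.1 0 ∧ w.1 1 = z.1 1 ∧ w.2 = z.2 := by
  rw [am352_apply, am352_apply, Prod.mk.injEq, Prod.mk.injEq] at h
  exact ⟨by linarith [h.1], by linarith [h.2.1], h.2.2⟩

theorem ext352 {z w : (Fin 3 → ℝ) × ℝ} (h0 : w.1 0 = z.1 0) (h1 : w.1 1 = z.1 1)
    (h2 : w.1 2 = z.1 2) (h3 : w.2 = z.2) : w = z := by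
  refine Prod.ext (funext fun i => ?_) h3
  fin_cases i
  · exact h0
  · exact h1
  · exact h2

theorem embeds_of_Q {E : Type*} [NormedAddCommGroup E] [NormedSpace ℝ E] {X : Set E}
    (φ : ℝ × ℝ × ℝ → E)
    (hpl : IsPLOn φ {z : ℝ × ℝ × ℝ | |z.1| + |z.2.1| ≤ 8 ∧ |z.2.2| ≤ 1})
    (hmaps : ∀ z : ℝ × ℝ × ℝ, |z.1| + |z.2.1| ≤ 8 → |z.2.2| ≤ 1 → φ z ∈ X)
    (hinj : ∀ z w : ℝ × ℝ × ℝ, |z.1| + |z.2.1| ≤ 8 → |z.2.2| ≤ 1 → |w.1| + |w.2.1| ≤ 8 →
      |w.2.2| ≤ 1 → (φ z = φ w ↔ (w = z ∨ (|z.1| + |z.2.1| = 8 ∧ w = -z)))) :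
    EmbedsPuncturedRP3 X := by
  have hq : ∀ z ∈ shell, |(am352 z).1| + |(am352 z).2.1| ≤ 8 ∧ |(am352 z).2.2| ≤ 1 := by
    intro z hz
    obtain ⟨h1, h2⟩ := shell352_le hz
    exact ⟨by linarith [abs_nonneg (z.1 2)], h2⟩
  have hneg : ∀ z, -am352 z = am352 (-z) := fun z => (map_neg am352 z).symm
  have key : ∀ z ∈ shell, ∀ w ∈ shell, 0 ≤ z.1 2 → 0 ≤ w.1 2 →
      (φ (am352 z) = φ (am352 w) ↔ (w = z ∨ w = -z)) := by
    intro z hz w hw hz2 hw2
    rw [hinj _ _ (hq z hz).1 (hq z hz).2 (hq w hw).1 (hq w hw).2]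
    have ez := (shell352_le hz).1
    have ew := (shell352_le hw).1
    rw [abs_of_nonneg hz2] at ez
    rw [abs_of_nonneg hw2] at ew
    constructor
    · rintro (h | ⟨h, h'⟩)
      · left
        obtain ⟨a0, a1, a2⟩ := am352_inj h
        rw [h] at ew
        exact ext352 a0 a1 (by linarith) a2
      · right
        have h'' : am352 w = am352 (-z) := by rw [h', hneg]
        obtain ⟨a0, a1, a2⟩ := am352_inj h''
        have e3 : |(am352 w).1| + |(am352 w).2.1| = |(am352 z).1| + |(am352 z).2.1| := by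
          rw [h']
          show |-(am352 z).1| + |-(am352 z).2.1| = |(am352 z).1| + |(am352 z).2.1|
          rw [abs_neg, abs_neg]
        refine ext352 a0 a1 ?_ a2
        show w.1 2 = -(z.1 2)
        linarith
    · rintro (rfl | rfl)
      · left; rfl
      · right
        have h2 : 0 ≤ -(z.1 2) := hw2
        refine ⟨by linarith, (hneg z).symm⟩
  -- the two halves
  let Xs : Bool → Set ((Fin 3 → ℝ) × ℝ) := fun b => {z | z ∈ shell ∧ 0 ≤ sg352 b * z.1 2}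
  let fs : Bool → ((Fin 3 → ℝ) × ℝ) → E := fun b z => φ (sg352 b • am352 z)
  have hXt : ∀ z, z ∈ Xs true ↔ z ∈ shell ∧ 0 ≤ z.1 2 := by
    intro z
    show (z ∈ shell ∧ 0 ≤ sg352 true * z.1 2) ↔ _
    simp [sg352]
  have hXf : ∀ z, z ∈ Xs false ↔ z ∈ shell ∧ 0 ≤ (-z).1 2 := by
    intro z
    show (z ∈ shell ∧ 0 ≤ sg352 false * z.1 2) ↔ (z ∈ shell ∧ 0 ≤ -(z.1 2))
    simp [sg352]
  have hft : ∀ z, fs true z = φ (am352 z) := by
    intro z
    show φ (sg352 true • am352 z) = _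
    simp [sg352]
  have hff : ∀ z, fs false z = φ (am352 (-z)) := by
    intro z
    show φ (sg352 false • am352 z) = _
    simp [sg352]
  have hfpl : ∀ i, IsPLOn (fs i) (Xs i) := by
    intro b
    have h1 := half352 (sg352 b) (sg352_or b) (sg352 b • am352).toAffineMap
    have hm : MapsTo (sg352 b • am352).toAffineMap
        {z : (Fin 3 → ℝ) × ℝ | z ∈ shell ∧ 0 ≤ sg352 b * z.1 2}
        {z : ℝ × ℝ × ℝ | |z.1| + |z.2.1| ≤ 8 ∧ |z.2.2| ≤ 1} := by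
      rintro z ⟨hz, -⟩
      cases b
      · have e : (sg352 false • am352).toAffineMap z = am352 (-z) := by
          show sg352 false • am352 z = am352 (-z)
          simp [sg352]
        rw [e]
        exact hq _ (shell352_neg hz)
      · have e : (sg352 true • am352).toAffineMap z = am352 z := by
          show sg352 true • am352 z = am352 z
          simp [sg352]
        rw [e]
        exact hq _ hz
    exact plon_comp hpl h1 hm
  have hcomp : ∀ z, z ∈ Xs true → z ∈ Xs false → fs true z = fs false z := by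
    intro z h1 h2
    rw [hXt] at h1
    rw [hXf] at h2
    rw [hft, hff]
    exact (key z h1.1 (-z) (shell352_neg h1.1) h1.2 h2.2).2 (Or.inr rfl)
  obtain ⟨Φ, hΦ, hΦe⟩ := plon_glue Xs fs hfpl (by
    intro i j x hi hj
    cases i <;> cases j
    · rfl
    · exact (hcomp x hj hi).symm
    · exact hcomp x hi hj
    · rfl)
  have hU : (⋃ i, Xs i) = shell := by
    ext z
    rw [Set.mem_iUnion]
    constructor
    · rintro ⟨i, hi, -⟩
      exact hi
    · intro hz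
      rcases le_total 0 (z.1 2) with h | h
      · exact ⟨true, (hXt z).2 ⟨hz, h⟩⟩
      · refine ⟨false, (hXf z).2 ⟨hz, ?_⟩⟩
        show 0 ≤ -(z.1 2)
        linarith
  rw [hU] at hΦ
  have rep : ∀ z ∈ shell, ∃ z', z' ∈ shell ∧ 0 ≤ z'.1 2 ∧ (z' = z ∨ z' = -z) ∧
      Φ z = φ (am352 z') := by
    intro z hz
    rcases le_total 0 (z.1 2) with h | h
    · refine ⟨z, hz, h, Or.inl rfl, ?_⟩
      rw [← hft]
      exact hΦe true ((hXt z).2 ⟨hz, h⟩)
    · have h' : 0 ≤ (-z).1 2 := by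
        show 0 ≤ -(z.1 2)
        linarith
      refine ⟨-z, shell352_neg hz, h', Or.inr rfl, ?_⟩
      rw [← hff]
      exact hΦe false ((hXf z).2 ⟨hz, h'⟩)
  refine ⟨Φ, hΦ, ?_, ?_⟩
  · intro z hz
    obtain ⟨z', hz', -, -, e⟩ := rep z hz
    rw [e]
    exact hmaps _ (hq z' hz').1 (hq z' hz').2
  · intro z hz w hw
    obtain ⟨z', hz', hz2, ez, e⟩ := rep z hz
    obtain ⟨w', hw', hw2, ew, e'⟩ := rep w hw
    rw [e, e', key z' hz' w' hw' hz2 hw2]
    rcases ez with rfl | rfl <;> rcases ew with rfl | rfl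
    · exact Iff.rfl
    · rw [neg_inj, neg_eq_iff_eq_neg]
      exact or_comm
    · rw [neg_neg]
      exact or_comm
    · rw [neg_inj, neg_neg, neg_eq_iff_eq_neg]

end RPF
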