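import Pool.Agent.Helper876.RP.Defs
import Pool.Agent.Helper876.RP.P_cell_rep



namespace RPF
open Set


theorem tet_rep_lin (L : Item) (w : ℕ → ℝ) (f : Fn) :
    lsum L w (fun q => (evI f q : ℝ)) = f.1 * lsum L w (fun _ => 1) +
      f.2.1 * lsum L w (fun q => (q.1 : ℝ)) + f.2.2.1 * lsum L w (fun q => (q.2.1 : ℝ)) +
      f.2.2.2 * lsum L w (fun q => (q.2.2 : ℝ)) := by
  unfold lsum
  induction L with
  | nil => simp
  | cons a L ih =>
    simp only [List.map_cons, List.sum_cons]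
    rw [ih]
    unfold evI
    push_cast
    ring

theorem tet_rep (t : Tet) (h : cellB 1 t.dom t.duals t.den = true) (z : ℝ × ℝ × ℝ)
    (hz : z ∈ t.car) : Rep t.dom (t.w z) z ∧ Rep t.flat (t.w z) (t.fl z) := by
  have h1 : Rep t.dom (t.w z) z := cell_rep 1 t.dom t.duals t.den h z (Or.inl rfl) hz
  refine ⟨h1, h1.1, ?_, ?_⟩
  · intro n hn
    obtain ⟨q, hq⟩ := h1.2.1 n hn
    unfold Tet.dom at hq
    rw [List.mem_map] at hq
    obtain ⟨x, hx, hxq⟩ := hq
    refine ⟨x.2.2, ?_⟩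
    unfold Tet.flat
    rw [List.mem_map]
    refine ⟨x, hx, ?_⟩
    rw [Prod.mk.injEq] at hxq
    rw [hxq.1]
  · intro f
    have e1 : lsum t.dom (t.w z) (fun _ => 1) = 1 := by
      have h2 := h1.2.2 (1, 0, 0, 0)
      have h3 : (fun q : Pt => ((evI (1, 0, 0, 0) q : ℤ) : ℝ)) = fun _ => 1 := by
        funext q
        simp [evI]
      rw [h3] at h2
      rw [h2]
      simp [evR]
    have e2 : lsum t.flat (t.w z) (fun _ => 1) = lsum t.dom (t.w z) (fun _ => 1) := by
      unfold lsum Tet.flat Tet.dom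
      rw [List.map_map, List.map_map]
      rfl
    rw [tet_rep_lin, e2, e1]
    unfold evR Tet.fl
    ring

end RPF
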