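import Pool.Agent.Helper876.RP.Defs
import Pool.Agent.Helper876.RP.P_lsum_congr
import Pool.Agent.Helper876.RP.P_cell_mem
import Pool.Agent.Helper876.RP.P_good_match
import Pool.Agent.Helper876.RP.P_tet_rep



namespace RPF
open Set


theorem tet_anti (cells : List PCell) (exits : ℕ → List Exit) (κ : ℕ → ℝ × ℝ → (Fin 11 → ℝ))
    (hκ : KappaOK cells exits κ) (tets : List Tet)
    (h1 : ∀ t ∈ tets, cellB 1 t.dom t.duals t.den = true)
    (hp : ∀ t ∈ tets, ∀ z ∈ t.car, ((t.fl z).1, (t.fl z).2.1) ∈ plReg cells t.reg)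
    (t : Tet) (ht : t ∈ tets) (sx sy : ℤ) (hs : ∀ x ∈ t.dom, sx * x.2.1 + sy * x.2.2.1 ≤ 8)
    (ha : antiB exits tets t sx sy = true) (z : ℝ × ℝ × ℝ) (hz : z ∈ t.car)
    (h8 : sx * z.1 + sy * z.2.1 = 8) :
    ∃ t' ∈ tets, -z ∈ t'.car ∧ t.phi κ z = t'.phi κ (-z) := by
  have hdual : ∀ t ∈ tets, dualB t.dom t.duals t.den = true := by
    intro t ht
    have := h1 t ht
    simp only [cellB, Bool.and_eq_true] at this
    exact this.1
  have hnodup : ∀ t ∈ tets, (t.dom.map Prod.fst).Nodup := by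
    intro t ht
    have := hdual t ht
    simp only [dualB, Bool.and_eq_true, decide_eq_true_eq] at this
    exact this.1.2
  have hflatdom : ∀ t : Tet, t.flat.map Prod.fst = t.dom.map Prod.fst := by
    intro t
    simp [Tet.flat, Tet.dom, List.map_map, Function.comp_def]
  have hnodupf : ∀ t ∈ tets, (t.flat.map Prod.fst).Nodup := by
    intro t ht
    rw [hflatdom]; exact hnodup t ht
  obtain ⟨hr1, hr2⟩ := tet_rep t (h1 t ht) z hz
  set w := t.w z with hw
  obtain ⟨hw0, hwsupp, hwf⟩ := hr1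
  -- support lies in V
  have hA : ∀ n q, (n, q) ∈ t.dom → w n ≠ 0 → sx * q.1 + sy * q.2.1 = 8 := by
    intro n q hnq hne
    have hsum := hwf (8, -sx, -sy, 0)
    have h0 : evR (8, -sx, -sy, 0) z = 0 := by
      simp only [evR]
      push_cast
      linarith
    rw [h0] at hsum
    unfold lsum at hsum
    have hnn : ∀ x ∈ t.dom.map (fun x => w x.1 * ((evI (8, -sx, -sy, 0) x.2 : ℤ) : ℝ)), 0 ≤ x := by
      intro x hx
      obtain ⟨y, hy, rfl⟩ := List.mem_map.1 hx
      refine mul_nonneg (hw0 _) ?_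
      have h2 := hs y hy
      have h3 : 0 ≤ evI (8, -sx, -sy, 0) y.2 := by
        simp only [evI]
        linarith
      exact_mod_cast h3
    have h2 := List.single_le_sum hnn (w n * ((evI (8, -sx, -sy, 0) q : ℤ) : ℝ))
      (List.mem_map.2 ⟨(n, q), hnq, rfl⟩)
    rw [hsum] at h2
    have h3 : w n * ((evI (8, -sx, -sy, 0) q : ℤ) : ℝ) = 0 :=
      le_antisymm h2 (hnn _ (List.mem_map.2 ⟨(n, q), hnq, rfl⟩))
    have h4 : ((evI (8, -sx, -sy, 0) q : ℤ) : ℝ) = 0 := by
      rcases mul_eq_zero.1 h3 with h | h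
      · exact absurd h hne
      · exact h
    have h5 : evI (8, -sx, -sy, 0) q = 0 := by exact_mod_cast h4
    simp only [evI] at h5
    linarith
  -- slots
  set V := t.slots.filter (fun x => decide (sx * x.2.1.1 + sy * x.2.1.2.1 = 8)) with hV
  have hB : ∀ n, w n ≠ 0 → ∃ x ∈ V, x.1 = n := by
    intro n hne
    obtain ⟨q, hq⟩ := hwsupp n hne
    have h2 := hA n q hq hne
    unfold Tet.dom at hq
    obtain ⟨x, hx, hxe⟩ := List.mem_map.1 hq
    refine ⟨x, ?_, ?_⟩
    · rw [hV, List.mem_filter]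
      refine ⟨hx, ?_⟩
      have e2 : x.2.1 = q := (Prod.mk.inj hxe).2
      rw [e2]
      simpa using h2
    · exact (Prod.mk.inj hxe).1
  have hex : ∃ n, w n ≠ 0 := by
    by_contra hcon
    push Not at hcon
    have hsum := hwf (1, 0, 0, 0)
    have h0 : evR (1, 0, 0, 0) z = 1 := by
      simp [evR]
    rw [h0] at hsum
    unfold lsum at hsum
    have h00 : (t.dom.map (fun x => w x.1 * ((evI (1, 0, 0, 0) x.2 : ℤ) : ℝ))).sum = 0 := by
      apply List.sum_eq_zero
      intro x hx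
      obtain ⟨y, hy, rfl⟩ := List.mem_map.1 hx
      rw [hcon, zero_mul]
    rw [h00] at hsum
    exact zero_ne_one hsum
  unfold antiB at ha
  simp only [Bool.or_eq_true, decide_eq_true_eq, List.any_eq_true, Bool.and_eq_true, List.all_eq_true] at ha
  rcases ha with ha | ha
  · exfalso
    obtain ⟨n, hn⟩ := hex
    obtain ⟨x, hx, _⟩ := hB n hn
    rw [hV, ha] at hx
    simp at hx
  obtain ⟨t', ht', hVt, hgood⟩ := ha
  have hflab : ∀ n, w n ≠ 0 → ∃ x ∈ V, ∃ y ∈ t'.slots, x.1 = n ∧ y.1 = n ∧ y.2.1 = negPt x.2.1 ∧ x ∈ t.slots := by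
    intro n hn
    obtain ⟨x, hx, hxn⟩ := hB n hn
    obtain ⟨y, hy, hy1, hy2⟩ := hVt x hx
    exact ⟨x, hx, y, hy, hxn, hy1.trans hxn, hy2, List.mem_of_mem_filter hx⟩
  have hrep : Rep t'.dom w (-z) := by
    refine ⟨hw0, ?_, ?_⟩
    · intro n hn
      obtain ⟨x, hx, y, hy, hxn, hyn, hyx, hxs⟩ := hflab n hn
      exact ⟨y.2.1, List.mem_map.2 ⟨y, hy, by rw [← hyn]⟩⟩
    · intro f
      have h2 := lsum_congr t'.dom t.dom (hnodup t' ht') (hnodup t ht) w (fun q => (evI f q : ℝ))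
        (fun q => (evI (f.1, -f.2.1, -f.2.2.1, -f.2.2.2) q : ℝ)) (by
          intro n hn
          obtain ⟨x, hx, y, hy, hxn, hyn, hyx, hxs⟩ := hflab n hn
          refine ⟨y.2.1, x.2.1, List.mem_map.2 ⟨y, hy, by rw [← hyn]⟩, List.mem_map.2 ⟨x, hxs, by rw [← hxn]⟩, ?_⟩
          rw [hyx]
          simp only [evI, negPt]
          push_cast
          ring)
      rw [h2, hwf]
      simp only [evR, Prod.fst_neg, Prod.snd_neg]
      push_cast
      ring
  obtain ⟨hc1, hc2⟩ := cell_mem t'.dom t'.duals t'.den (hdual t' ht') w (-z) hrep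
  have hcar : -z ∈ t'.car := hc1
  have hww : t'.w (-z) = w := by
    funext n
    exact (hc2 n).symm
  obtain ⟨_, hr2'⟩ := tet_rep t' (h1 t' ht') (-z) hcar
  rw [hww] at hr2'
  obtain ⟨e, he, e', he', hm⟩ := good_match (exits t.reg) (exits t'.reg) _ hgood t.flat t'.flat
    (hnodupf t ht) (hnodupf t' ht') w (t.fl z) (t'.fl (-z)) hr2 hr2' (by
      intro n hn
      obtain ⟨x, hx, y, hy, hxn, hyn, hyx, hxs⟩ := hflab n hn
      refine ⟨x.2.2, y.2.2, List.mem_map.2 ⟨x, hxs, by rw [← hxn]⟩, List.mem_map.2 ⟨y, hy, by rw [← hyn]⟩, ?_⟩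
      rw [List.mem_flatMap]
      refine ⟨x, hx, List.mem_map.2 ⟨y, ?_, rfl⟩⟩
      rw [List.mem_filter]
      refine ⟨hy, ?_⟩
      simp [hyn, hxn])
  refine ⟨t', ht', hcar, ?_⟩
  obtain ⟨hm1, hm2, hm3, hm4⟩ := hm
  have hk := hκ.2.2.2 t.reg t'.reg ((t.fl z).1, (t.fl z).2.1) ((t'.fl (-z)).1, (t'.fl (-z)).2.1)
    (hp t ht z hz) (hp t' ht' (-z) hcar) e he e' he' (by
      have h41 := congrArg Prod.fst hm4
      have h42 := congrArg (fun x => x.2.1) hm4
      simp only [Exit.posR] at h41 h42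
      refine ⟨hm1, ?_, ?_, ?_⟩
      · simpa [e2R] using hm2
      · simpa [e2R] using hm3
      · simp only [Exit.posR, Prod.mk.injEq]
        refine ⟨?_, ?_, trivial⟩
        · simpa [e2R] using h41
        · simpa [e2R] using h42)
  have h43 := congrArg (fun x => x.2.2) hm4
  simp only [Exit.posR] at h43
  unfold Tet.phi
  rw [hk, h43]

end RPF
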