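import Pool.Agent.Helper876.RP.Defs
import Pool.Agent.Helper876.RP.P_good_match
import Pool.Agent.Helper876.RP.P_tet_rep



namespace RPF
open Set


theorem tet_cons_aux_640 (L : Item) (w : ℕ → ℝ) (p : ℝ × ℝ × ℝ) (h : Rep L w p) :
    ∃ n, w n ≠ 0 := by
  by_contra hcon
  push Not at hcon
  have h1 := h.2.2 (1, 0, 0, 0)
  have h2 : lsum L w (fun q => (evI (1, 0, 0, 0) q : ℝ)) = 0 := by
    unfold lsum
    apply List.sum_eq_zero
    intro y hy
    obtain ⟨x, -, rfl⟩ := List.mem_map.1 hy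
    rw [hcon, zero_mul]
  rw [h2] at h1
  simp [evR] at h1

theorem tet_cons (cells : List PCell) (exits : ℕ → List Exit) (κ : ℕ → ℝ × ℝ → (Fin 11 → ℝ))
    (hκ : KappaOK cells exits κ) (tets : List Tet) (hu : ChartUniq (tets.map Tet.dom))
    (h1 : ∀ t ∈ tets, cellB 1 t.dom t.duals t.den = true)
    (hp : ∀ t ∈ tets, ∀ z ∈ t.car, ((t.fl z).1, (t.fl z).2.1) ∈ plReg cells t.reg)
    (t t' : Tet) (ht : t ∈ tets) (ht' : t' ∈ tets) (hc : consB exits t t' = true)
    (z : ℝ × ℝ × ℝ) (hz : z ∈ t.car) (hz' : z ∈ t'.car) : t.phi κ z = t'.phi κ z := by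
  obtain ⟨r1, r2⟩ := tet_rep t (h1 t ht) z hz
  obtain ⟨r1', r2'⟩ := tet_rep t' (h1 t' ht') z hz'
  have hU := hu t.dom (List.mem_map_of_mem ht) t'.dom (List.mem_map_of_mem ht') (t.w z) (t'.w z) z
    r1 r1'
  have hw : t'.w z = t.w z := by
    funext n
    exact (hU n).1.symm
  rw [hw] at r2'
  have nd : ∀ s ∈ tets, (s.flat.map Prod.fst).Nodup := by
    intro s hs
    have h2 := h1 s hs
    unfold cellB at h2
    rw [Bool.and_eq_true] at h2
    have h3 := h2.1
    unfold dualB at h3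
    simp only [Bool.and_eq_true, decide_eq_true_eq] at h3
    have h4 := h3.1.2
    have h5 : s.flat.map Prod.fst = s.dom.map Prod.fst := by
      unfold Tet.flat Tet.dom
      simp only [List.map_map]
      rfl
    rw [h5]
    exact h4
  set prs : List (Pt × Pt) := t.slots.flatMap (fun x =>
    (t'.slots.filter (fun y => decide (y.1 = x.1) && decide (y.2.1 = x.2.1))).map
      (fun y => (x.2.2, y.2.2))) with hprs
  have hkey : ∀ n, t.w z n ≠ 0 → ∃ a b, (n, a) ∈ t.flat ∧ (n, b) ∈ t'.flat ∧ (a, b) ∈ prs := by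
    intro n hn
    obtain ⟨q, hq, hq'⟩ := (hU n).2 hn
    unfold Tet.dom at hq hq'
    obtain ⟨x, hx, hxe⟩ := List.mem_map.1 hq
    obtain ⟨y, hy, hye⟩ := List.mem_map.1 hq'
    have x1 : x.1 = n := congrArg Prod.fst hxe
    have x2 : x.2.1 = q := congrArg Prod.snd hxe
    have y1 : y.1 = n := congrArg Prod.fst hye
    have y2 : y.2.1 = q := congrArg Prod.snd hye
    refine ⟨x.2.2, y.2.2, ?_, ?_, ?_⟩
    · unfold Tet.flat
      exact List.mem_map.2 ⟨x, hx, by rw [x1]⟩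
    · unfold Tet.flat
      exact List.mem_map.2 ⟨y, hy, by rw [y1]⟩
    · rw [hprs]
      refine List.mem_flatMap.2 ⟨x, hx, List.mem_map.2 ⟨y, List.mem_filter.2 ⟨hy, ?_⟩, rfl⟩⟩
      simp [x1, x2, y1, y2]
  have hne : prs ≠ [] := by
    obtain ⟨n, hn⟩ := tet_cons_aux_640 _ _ _ r1
    obtain ⟨a, b, -, -, hab⟩ := hkey n hn
    intro h
    rw [h] at hab
    exact absurd hab List.not_mem_nil
  have hg : goodPairs (exits t.reg) (exits t'.reg) prs = true := by
    have hc2 : (decide (prs = []) || goodPairs (exits t.reg) (exits t'.reg) prs) = true := hc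
    rw [Bool.or_eq_true, decide_eq_true_eq] at hc2
    exact hc2.resolve_left hne
  obtain ⟨e, he, e', he', hm⟩ := good_match (exits t.reg) (exits t'.reg) prs hg t.flat t'.flat
    (nd t ht) (nd t' ht') (t.w z) (t.fl z) (t'.fl z) r2 r2' hkey
  obtain ⟨m1, m2, m3, m4⟩ := hm
  have p1 : e2R e.p1 (t.fl z) = e2R e'.p1 (t'.fl z) := congrArg Prod.fst m4
  have p2 : e2R e.p2 (t.fl z) = e2R e'.p2 (t'.fl z) := congrArg (fun v => v.2.1) m4
  have p3 : (t.fl z).2.2 = (t'.fl z).2.2 := congrArg (fun v => v.2.2) m4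
  unfold Tet.phi
  refine Prod.ext ?_ ?_
  · refine hκ.2.2.2 t.reg t'.reg _ _ (hp t ht z hz) (hp t' ht' z hz') e he e' he' ?_
    refine ⟨m1, m2, m3, ?_⟩
    unfold Exit.posR
    refine Prod.ext p1 (Prod.ext p2 rfl)
  · show ((t.fl z).2.2 + 1) / 262 = ((t'.fl z).2.2 + 1) / 262
    rw [p3]

end RPF
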