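import Pool.Agent.Helper876.RP.Defs
import Pool.Agent.Helper876.RP.P_tet_rep



namespace RPF
open Set


theorem lsum_mono_aux (L : Item) (w : ℕ → ℝ) (hw : ∀ n, 0 ≤ w n) (φ ψ : Pt → ℝ)
    (h : ∀ x ∈ L, φ x.2 ≤ ψ x.2) : lsum L w φ ≤ lsum L w ψ := by
  unfold lsum
  apply List.sum_le_sum
  intro x hx
  exact mul_le_mul_of_nonneg_left (h x hx) (hw _)

theorem lsum_const_aux (L : Item) (w : ℕ → ℝ) (c : ℝ) :
    lsum L w (fun _ => c) = c * lsum L w (fun _ => 1) := by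
  unfold lsum
  rw [← List.sum_map_mul_left]
  congr 1
  apply List.map_congr_left
  intro x _
  ring

theorem tet_height (t : Tet) (h : cellB 1 t.dom t.duals t.den = true)
    (hZ : ∀ x ∈ t.flat, -1 ≤ x.2.2.2 ∧ x.2.2.2 ≤ 261) (z : ℝ × ℝ × ℝ) (hz : z ∈ t.car) :
    ((t.fl z).2.2 + 1) / 262 ∈ Icc (0 : ℝ) 1 := by
  obtain ⟨-, hw, -, hf⟩ := tet_rep t h z hz
  have h1 : lsum t.flat (t.w z) (fun _ => (1 : ℝ)) = 1 := by
    have h2 := hf (1, 0, 0, 0)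
    simpa [evI, evR] using h2
  have h3 : (t.fl z).2.2 = lsum t.flat (t.w z) (fun q => (q.2.2 : ℝ)) := rfl
  have h4 : (-1 : ℝ) ≤ (t.fl z).2.2 := by
    rw [h3]
    calc (-1 : ℝ) = lsum t.flat (t.w z) (fun _ => (-1 : ℝ)) := by
          rw [lsum_const_aux, h1]; ring
      _ ≤ _ := lsum_mono_aux _ _ hw _ _ (fun x hx => by exact_mod_cast (hZ x hx).1)
  have h5 : (t.fl z).2.2 ≤ 261 := by
    rw [h3]
    calc _ ≤ lsum t.flat (t.w z) (fun _ => (261 : ℝ)) :=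
          lsum_mono_aux _ _ hw _ _ (fun x hx => by exact_mod_cast (hZ x hx).2)
      _ = 261 := by rw [lsum_const_aux, h1]; ring
  constructor
  · linarith
  · linarith

end RPF
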