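import Pool.Agent.Helper876.RP.Defs
import Pool.Agent.Helper876.RP.P_lsum_congr
import Pool.Agent.Helper876.RP.P_sys_unique
import Pool.Agent.Helper876.RP.P_tet_rep



namespace RPF
open Set


theorem tet_inj_slots {exits : ℕ → List Exit} {t t' : Tet} (ha : apB exits t t' = true)
    {e e' : Exit} (he : e ∈ exits t.reg) (he' : e' ∈ exits t'.reg) (hch : e.ch = e'.ch) :
    ∃ M : List (Pt × Pt), sameOpp M = true ∧
      ∀ x ∈ t.slots, ∀ y ∈ t'.slots, x.1 = y.1 → e2I e.s x.2.2 = 0 → e2I e'.s y.2.2 = 0 →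
        e.pos x.2.2 = e'.pos y.2.2 → (x.2.1, y.2.1) ∈ M := by
  rw [apB, Bool.or_eq_true] at ha
  rcases ha with h | h
  · refine ⟨_, h, ?_⟩
    intro x hx y hy hxy _ _ _
    rw [comPrs, List.mem_flatMap]
    refine ⟨(x.1, x.2.1), ?_, ?_⟩
    · exact List.mem_map.2 ⟨x, hx, rfl⟩
    · rw [List.mem_map]
      refine ⟨(y.1, y.2.1), ?_, rfl⟩
      rw [List.mem_filter]
      refine ⟨List.mem_map.2 ⟨y, hy, rfl⟩, ?_⟩
      exact decide_eq_true hxy.symm
  · rw [List.all_eq_true] at h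
    have h1 := h e he
    rw [List.all_eq_true] at h1
    have h2 := h1 e' he'
    rw [Bool.or_eq_true] at h2
    rcases h2 with h2 | h2
    · exact absurd hch (of_decide_eq_true h2)
    · refine ⟨_, h2, ?_⟩
      intro x hx y hy hxy h3 h4 h5
      rw [List.mem_flatMap]
      refine ⟨x, hx, ?_⟩
      rw [List.mem_map]
      refine ⟨y, ?_, rfl⟩
      rw [List.mem_filter]
      refine ⟨hy, ?_⟩
      rw [decide_eq_true hxy.symm, decide_eq_true h3, decide_eq_true h4, decide_eq_true h5]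
      rfl

theorem tet_inj_nodup {t : Tet} (h : cellB 1 t.dom t.duals t.den = true) :
    (t.dom.map Prod.fst).Nodup := by
  rw [cellB, Bool.and_eq_true] at h
  have h1 := h.1
  rw [dualB, Bool.and_eq_true, Bool.and_eq_true, Bool.and_eq_true] at h1
  exact of_decide_eq_true h1.1.2

theorem tet_inj_match {e e' : Exit} {p p' : ℝ × ℝ × ℝ}
    (hm : Match e e' (p.1, p.2.1, 0) (p'.1, p'.2.1, 0)) (h : p.2.2 = p'.2.2) :
    Match e e' p p' := by
  obtain ⟨h1, h2, h3, h4⟩ := hm
  refine ⟨h1, h2, h3, ?_⟩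
  have h5 : e2R e.p1 p = e2R e'.p1 p' := congrArg Prod.fst h4
  have h6 : e2R e.p2 p = e2R e'.p2 p' := congrArg (fun x => x.2.1) h4
  exact Prod.ext h5 (Prod.ext h6 h)

theorem tet_inj (cells : List PCell) (exits : ℕ → List Exit) (κ : ℕ → ℝ × ℝ → (Fin 11 → ℝ))
    (hκ : KappaOK cells exits κ) (charts : ℕ → List Item) (tets : List Tet)
    (h1 : ∀ t ∈ tets, cellB 1 t.dom t.duals t.den = true)
    (h2 : sysB (tets.map (fun t => (t.reg, t.flat))) exits charts = true)
    (h3 : ∀ k, ChartUniq (charts k))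
    (hp : ∀ t ∈ tets, ∀ z ∈ t.car, ((t.fl z).1, (t.fl z).2.1) ∈ plReg cells t.reg)
    (t t' : Tet) (ht : t ∈ tets) (ht' : t' ∈ tets) (ha : apB exits t t' = true)
    (z z' : ℝ × ℝ × ℝ) (hz : z ∈ t.car) (hz' : z' ∈ t'.car) (he : t.phi κ z = t'.phi κ z') :
    z' = z ∨ (z' = -z ∧ (z.1 + z.2.1 = 8 ∨ z.1 - z.2.1 = 8 ∨ -z.1 + z.2.1 = 8 ∨
      -z.1 - z.2.1 = 8)) := by
  have hk : κ t.reg ((t.fl z).1, (t.fl z).2.1) = κ t'.reg ((t'.fl z').1, (t'.fl z').2.1) :=
    congrArg Prod.fst he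
  have hh : ((t.fl z).2.2 + 1) / 262 = ((t'.fl z').2.2 + 1) / 262 := congrArg Prod.snd he
  have hh' : (t.fl z).2.2 = (t'.fl z').2.2 := by linarith
  obtain ⟨e, hee, e', hee', hm⟩ := hκ.2.2.1 t.reg t'.reg _ _ (hp t ht z hz) (hp t' ht' z' hz') hk
  have hm' : Match e e' (t.fl z) (t'.fl z') := tet_inj_match hm hh'
  obtain ⟨hr1, hr2⟩ := tet_rep t (h1 t ht) z hz
  obtain ⟨hr1', hr2'⟩ := tet_rep t' (h1 t' ht') z' hz'
  have hu := sys_unique _ exits charts h2 h3 (t.reg, t.flat) (t'.reg, t'.flat)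
    (List.mem_map.2 ⟨t, ht, rfl⟩) (List.mem_map.2 ⟨t', ht', rfl⟩) e e' hee hee' (t.w z) (t'.w z')
    (t.fl z) (t'.fl z') hr2 hr2' hm'
  obtain ⟨M, hM, hMm⟩ := tet_inj_slots ha hee hee' hm'.1
  have hww : t.w z = t'.w z' := funext fun n => (hu n).1
  have hpq : ∀ n, t.w z n ≠ 0 → ∃ p q, (n, p) ∈ t.dom ∧ (n, q) ∈ t'.dom ∧ (p, q) ∈ M := by
    intro n hn
    obtain ⟨a, b, ha1, hb1, ha2, hb2, hab⟩ := (hu n).2 hn
    obtain ⟨x, hx, hxa⟩ := List.mem_map.1 ha1
    obtain ⟨y, hy, hyb⟩ := List.mem_map.1 hb1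
    have hx1 : x.1 = n := congrArg Prod.fst hxa
    have hx2 : x.2.2 = a := congrArg Prod.snd hxa
    have hy1 : y.1 = n := congrArg Prod.fst hyb
    have hy2 : y.2.2 = b := congrArg Prod.snd hyb
    refine ⟨x.2.1, y.2.1, List.mem_map.2 ⟨x, hx, Prod.ext hx1 rfl⟩,
      List.mem_map.2 ⟨y, hy, Prod.ext hy1 rfl⟩, hMm x hx y hy (hx1.trans hy1.symm) ?_ ?_ ?_⟩
    · rw [hx2]; exact ha2
    · rw [hy2]; exact hb2
    · rw [hx2, hy2]; exact hab
  have hnd := tet_inj_nodup (h1 t ht)
  have hnd' := tet_inj_nodup (h1 t' ht')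
  have key : ∀ f g : Fn, (∀ p q, (p, q) ∈ M → evI f p = evI g q) → evR f z = evR g z' := by
    intro f g hfg
    rw [← hr1.2.2 f, ← hr1'.2.2 g, ← hww]
    refine lsum_congr t.dom t'.dom hnd hnd' (t.w z) _ _ ?_
    intro n hn
    obtain ⟨p, q, hp1, hq1, hpq1⟩ := hpq n hn
    exact ⟨p, q, hp1, hq1, by
      have := hfg p q hpq1
      show ((evI f p : ℤ) : ℝ) = ((evI g q : ℤ) : ℝ)
      rw [this]⟩
  have key2 : ∀ f g : Fn, (∀ p q, (p, q) ∈ M → evI f p = evI g p) → evR f z = evR g z := by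
    intro f g hfg
    rw [← hr1.2.2 f, ← hr1.2.2 g]
    refine lsum_congr t.dom t.dom hnd hnd (t.w z) _ _ ?_
    intro n hn
    obtain ⟨p, q, hp1, hq1, hpq1⟩ := hpq n hn
    exact ⟨p, p, hp1, hp1, by
      have := hfg p q hpq1
      show ((evI f p : ℤ) : ℝ) = ((evI g p : ℤ) : ℝ)
      rw [this]⟩
  rw [sameOpp, Bool.or_eq_true, Bool.and_eq_true, Bool.or_eq_true, Bool.or_eq_true,
    Bool.or_eq_true] at hM
  rcases hM with hM | ⟨hM, hside⟩
  · left
    have hM' : ∀ p q, (p, q) ∈ M → p = q := fun p q h =>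
      of_decide_eq_true (List.all_eq_true.1 hM (p, q) h)
    have k1 := key (0, 1, 0, 0) (0, 1, 0, 0) (fun p q h => by rw [hM' p q h])
    have k2 := key (0, 0, 1, 0) (0, 0, 1, 0) (fun p q h => by rw [hM' p q h])
    have k3 := key (0, 0, 0, 1) (0, 0, 0, 1) (fun p q h => by rw [hM' p q h])
    simp only [evR] at k1 k2 k3
    push_cast at k1 k2 k3
    exact Prod.ext (by linarith) (Prod.ext (by linarith) (by linarith))
  · right
    have hM' : ∀ p q, (p, q) ∈ M → q = negPt p := fun p q h =>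
      of_decide_eq_true (List.all_eq_true.1 hM (p, q) h)
    have k1 := key (0, -1, 0, 0) (0, 1, 0, 0) (fun p q h => by
      rw [hM' p q h]; simp only [evI, negPt]; ring)
    have k2 := key (0, 0, -1, 0) (0, 0, 1, 0) (fun p q h => by
      rw [hM' p q h]; simp only [evI, negPt]; ring)
    have k3 := key (0, 0, 0, -1) (0, 0, 0, 1) (fun p q h => by
      rw [hM' p q h]; simp only [evI, negPt]; ring)
    simp only [evR] at k1 k2 k3
    push_cast at k1 k2 k3
    refine ⟨Prod.ext ?_ (Prod.ext ?_ ?_), ?_⟩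
    · show z'.1 = -z.1
      linarith
    · show z'.2.1 = -z.2.1
      linarith
    · show z'.2.2 = -z.2.2
      linarith
    · rcases hside with ((hside | hside) | hside) | hside
      · left
        have hs : ∀ p q, (p, q) ∈ M → p.1 + p.2.1 = 8 := fun p q h =>
          of_decide_eq_true (List.all_eq_true.1 hside (p, q) h)
        have k4 := key2 (0, 1, 1, 0) (8, 0, 0, 0) (fun p q h => by
          have := hs p q h; simp only [evI]; linarith)
        simp only [evR] at k4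
        push_cast at k4
        linarith
      · right; left
        have hs : ∀ p q, (p, q) ∈ M → p.1 - p.2.1 = 8 := fun p q h =>
          of_decide_eq_true (List.all_eq_true.1 hside (p, q) h)
        have k4 := key2 (0, 1, -1, 0) (8, 0, 0, 0) (fun p q h => by
          have := hs p q h; simp only [evI]; linarith)
        simp only [evR] at k4
        push_cast at k4
        linarith
      · right; right; left
        have hs : ∀ p q, (p, q) ∈ M → -p.1 + p.2.1 = 8 := fun p q h =>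
          of_decide_eq_true (List.all_eq_true.1 hside (p, q) h)
        have k4 := key2 (0, -1, 1, 0) (8, 0, 0, 0) (fun p q h => by
          have := hs p q h; simp only [evI]; linarith)
        simp only [evR] at k4
        push_cast at k4
        linarith
      · right; right; right
        have hs : ∀ p q, (p, q) ∈ M → -p.1 - p.2.1 = 8 := fun p q h =>
          of_decide_eq_true (List.all_eq_true.1 hside (p, q) h)
        have k4 := key2 (0, -1, -1, 0) (8, 0, 0, 0) (fun p q h => by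
          have := hs p q h; simp only [evI]; linarith)
        simp only [evR] at k4
        push_cast at k4
        linarith

end RPF
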