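import Pool.Agent.Helper876.RP.Defs
import Pool.Agent.Helper876.RP.P_cell_rep



namespace RPF
open Set


theorem cell_polytope3_lsum (L : Item) (w : ℕ → ℝ) (φ : Pt → ℝ) (hw : ∀ n, 0 ≤ w n)
    (h1 : ∀ x ∈ L, w x.1 ≤ 1) : |lsum L w φ| ≤ (L.map fun x => |φ x.2|).sum := by
  induction L with
  | nil => simp [lsum]
  | cons a L ih =>
    have e1 : lsum (a :: L) w φ = w a.1 * φ a.2 + lsum L w φ := by simp [lsum]
    rw [e1, List.map_cons, List.sum_cons]
    refine (abs_add_le _ _).trans (add_le_add ?_ (ih fun x hx => h1 x (List.mem_cons_of_mem _ hx)))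
    rw [abs_mul, abs_of_nonneg (hw _)]
    have := h1 a List.mem_cons_self
    calc w a.1 * |φ a.2| ≤ 1 * |φ a.2| := mul_le_mul_of_nonneg_right this (abs_nonneg _)
      _ = _ := one_mul _

noncomputable def cell_polytope3_A (g : Fn) : (ℝ × ℝ × ℝ) →ᵃ[ℝ] ℝ :=
  ((g.2.1 : ℝ) • LinearMap.fst ℝ ℝ (ℝ × ℝ) +
    (g.2.2.1 : ℝ) • ((LinearMap.fst ℝ ℝ ℝ).comp (LinearMap.snd ℝ ℝ (ℝ × ℝ))) +
    (g.2.2.2 : ℝ) • ((LinearMap.snd ℝ ℝ ℝ).comp (LinearMap.snd ℝ ℝ (ℝ × ℝ)))).toAffineMap +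
    AffineMap.const ℝ (ℝ × ℝ × ℝ) (g.1 : ℝ)

theorem cell_polytope3_A_apply (g : Fn) (p : ℝ × ℝ × ℝ) : cell_polytope3_A g p = evR g p := by
  simp only [cell_polytope3_A, evR, AffineMap.coe_add, Pi.add_apply, LinearMap.coe_toAffineMap,
    LinearMap.add_apply, LinearMap.smul_apply, LinearMap.fst_apply, LinearMap.comp_apply,
    LinearMap.snd_apply, AffineMap.const_apply, smul_eq_mul]
  ring

theorem cell_polytope3 (L : Item) (gs : List Fn) (D : ℤ) (h : cellB 1 L gs D = true) :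
    IsPolytope {p : ℝ × ℝ × ℝ | ∀ g ∈ gs, 0 ≤ evR g p} := by
  have hset : {p : ℝ × ℝ × ℝ | ∀ g ∈ gs, 0 ≤ evR g p} =
      {p | ∀ A ∈ cell_polytope3_A '' {g | g ∈ gs}, 0 ≤ A p} := by
    ext p
    constructor
    · rintro hp _ ⟨g, hg, rfl⟩
      rw [cell_polytope3_A_apply]
      exact hp g hg
    · intro hp g hg
      have := hp _ ⟨g, hg, rfl⟩
      rwa [cell_polytope3_A_apply] at this
  refine ⟨?_, cell_polytope3_A '' {g | g ∈ gs}, (List.finite_toSet gs).image _, hset⟩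
  apply Metric.isCompact_of_isClosed_isBounded
  · have : {p : ℝ × ℝ × ℝ | ∀ g ∈ gs, 0 ≤ evR g p} = ⋂ g ∈ gs, {p | 0 ≤ evR g p} := by
      ext p
      simp
    rw [this]
    refine isClosed_biInter fun g _ => isClosed_le continuous_const ?_
    unfold evR
    fun_prop
  · rw [isBounded_iff_forall_norm_le]
    refine ⟨(L.map fun x => |((x.2.1 : ℤ) : ℝ)|).sum + (L.map fun x => |((x.2.2.1 : ℤ) : ℝ)|).sum +
      (L.map fun x => |((x.2.2.2 : ℤ) : ℝ)|).sum, fun p hp => ?_⟩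
    obtain ⟨hw, -, hrep⟩ := cell_rep 1 L gs D h p (Or.inl rfl) hp
    generalize wts L gs D p = w at hw hrep
    have h0 := hrep (1, 0, 0, 0)
    have h1 := hrep (0, 1, 0, 0)
    have h2 := hrep (0, 0, 1, 0)
    have h3 := hrep (0, 0, 0, 1)
    simp only [evI, evR, Int.cast_zero, Int.cast_one, zero_mul, one_mul, add_zero, zero_add] at h0 h1 h2 h3
    have hle : ∀ x ∈ L, w x.1 ≤ 1 := by
      intro x hx
      have e1 : (L.map fun x => w x.1).sum = 1 := by
        have : lsum L w (fun _ => 1) = (L.map fun x => w x.1).sum := by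
          simp [lsum]
        exact this.symm.trans h0
      rw [← e1]
      apply List.single_le_sum
      · intro y hy
        rw [List.mem_map] at hy
        obtain ⟨z, _, rfl⟩ := hy
        exact hw _
      · exact List.mem_map.2 ⟨x, hx, rfl⟩
    have b1 := cell_polytope3_lsum L w (fun q => ((q.1 : ℤ) : ℝ)) hw hle
    have b2 := cell_polytope3_lsum L w (fun q => ((q.2.1 : ℤ) : ℝ)) hw hle
    have b3 := cell_polytope3_lsum L w (fun q => ((q.2.2 : ℤ) : ℝ)) hw hle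
    rw [h1] at b1
    rw [h2] at b2
    rw [h3] at b3
    have p1 := (abs_nonneg _).trans b1
    have p2 := (abs_nonneg _).trans b2
    have p3 := (abs_nonneg _).trans b3
    rw [norm_prod_le_iff, norm_prod_le_iff]
    simp only [Real.norm_eq_abs]
    refine ⟨?_, ?_, ?_⟩ <;> linarith

end RPF
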