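import Pool.Agent.Helper876.RP.Defs



namespace RPF
open Set


/-- affine functions -/
def h170_Aff (h : ℝ × ℝ × ℝ → ℝ) : Prop := ∃ a : (ℝ × ℝ × ℝ) →ᵃ[ℝ] ℝ, ∀ z, a z = h z

theorem h170_const (c : ℝ) : h170_Aff (fun _ => c) := ⟨AffineMap.const ℝ _ c, fun _ => rfl⟩

theorem h170_add {f g : ℝ × ℝ × ℝ → ℝ} (hf : h170_Aff f) (hg : h170_Aff g) :
    h170_Aff (fun z => f z + g z) := by
  obtain ⟨a, ha⟩ := hf
  obtain ⟨b, hb⟩ := hg
  refine ⟨a + b, fun z => ?_⟩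
  show a z + b z = f z + g z
  rw [ha, hb]

theorem h170_smul {f : ℝ × ℝ × ℝ → ℝ} (hf : h170_Aff f) (c : ℝ) :
    h170_Aff (fun z => f z * c) := by
  obtain ⟨a, ha⟩ := hf
  refine ⟨c • a, fun z => ?_⟩
  show c * a z = f z * c
  rw [ha, mul_comm]

theorem h170_lin (l : (ℝ × ℝ × ℝ) →ₗ[ℝ] ℝ) : h170_Aff (fun z => l z) :=
  ⟨l.toAffineMap, fun _ => rfl⟩

theorem h170_ev (f : Fn) : h170_Aff (fun z => evR f z) := by
  have h1 : h170_Aff (fun z => z.1) := h170_lin (LinearMap.fst ℝ ℝ (ℝ × ℝ))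
  have h2 : h170_Aff (fun z => z.2.1) :=
    h170_lin ((LinearMap.fst ℝ ℝ ℝ).comp (LinearMap.snd ℝ ℝ (ℝ × ℝ)))
  have h3 : h170_Aff (fun z => z.2.2) :=
    h170_lin ((LinearMap.snd ℝ ℝ ℝ).comp (LinearMap.snd ℝ ℝ (ℝ × ℝ)))
  obtain ⟨a, ha⟩ := h170_add (h170_add (h170_add (h170_const (f.1 : ℝ))
    (h170_smul h1 (f.2.1 : ℝ))) (h170_smul h2 (f.2.2.1 : ℝ))) (h170_smul h3 (f.2.2.2 : ℝ))
  refine ⟨a, fun z => ?_⟩
  rw [ha]
  unfold evR
  ring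

theorem h170_listsum {α : Type} (L : List α) (h : α → ℝ × ℝ × ℝ → ℝ) (hh : ∀ x, h170_Aff (h x)) :
    h170_Aff (fun z => (L.map fun x => h x z).sum) := by
  induction L with
  | nil =>
    simp only [List.map_nil, List.sum_nil]
    exact h170_const 0
  | cons x L ih =>
    simp only [List.map_cons, List.sum_cons]
    exact h170_add (hh x) ih

theorem h170_w (t : Tet) (n : ℕ) : h170_Aff (fun z => t.w z n) := by
  unfold Tet.w wts
  refine h170_listsum (t.dom.zip t.duals)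
    (fun x z => if x.1.1 = n then evR x.2 z / t.den else 0) ?_
  intro x
  by_cases hx : x.1.1 = n
  · simp only [hx, if_true]
    obtain ⟨a, ha⟩ := h170_smul (h170_ev x.2) ((t.den : ℝ)⁻¹)
    exact ⟨a, fun z => by
      rw [ha]
      show evR x.2 z * (t.den : ℝ)⁻¹ = evR x.2 z / t.den
      rw [div_eq_mul_inv]⟩
  · simp only [hx, if_false]
    exact h170_const 0

theorem h170_ls (t : Tet) (φ : Pt → ℝ) : h170_Aff (fun z => lsum t.flat (t.w z) φ) := by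
  unfold lsum
  exact h170_listsum t.flat (fun x z => t.w z x.1 * φ x.2)
    (fun x => h170_smul (h170_w t x.1) (φ x.2))

theorem fl_affine (t : Tet) : ∃ a : (ℝ × ℝ × ℝ) →ᵃ[ℝ] (ℝ × ℝ × ℝ), ∀ z, a z = t.fl z := by
  obtain ⟨a1, h1⟩ := h170_ls t (fun q => (q.1 : ℝ))
  obtain ⟨a2, h2⟩ := h170_ls t (fun q => (q.2.1 : ℝ))
  obtain ⟨a3, h3⟩ := h170_ls t (fun q => (q.2.2 : ℝ))
  refine ⟨a1.prod (a2.prod a3), fun z => ?_⟩
  have e1 : a1 z = lsum t.flat (t.w z) (fun q => (q.1 : ℝ)) := h1 z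
  have e2 : a2 z = lsum t.flat (t.w z) (fun q => (q.2.1 : ℝ)) := h2 z
  have e3 : a3 z = lsum t.flat (t.w z) (fun q => (q.2.2 : ℝ)) := h3 z
  unfold Tet.fl
  rw [← e1, ← e2, ← e3]
  rfl

end RPF
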