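import Pool.Agent.Helper876.RP.Defs
import Pool.Agent.Helper876.RP.P_polytope_inter



namespace RPF
open Set


theorem plon_prodMk {E F G : Type*} [NormedAddCommGroup E] [NormedSpace ℝ E]
    [NormedAddCommGroup F] [NormedSpace ℝ F] [NormedAddCommGroup G] [NormedSpace ℝ G]
    {X : Set E} {f : E → F} {g : E → G}
    (hf : IsPLOn f X) (hg : IsPLOn g X) : IsPLOn (fun x => (f x, g x)) X := by
  obtain ⟨S, hS, hXS, hS2⟩ := hf
  obtain ⟨T, hT, hXT, hT2⟩ := hg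
  refine ⟨Set.image2 (· ∩ ·) S T, hS.image2 _ hT, ?_, ?_⟩
  · ext x
    constructor
    · intro hx
      have h1 := hx
      rw [hXS] at h1
      have h2 := hx
      rw [hXT] at h2
      obtain ⟨C, hC, hxC⟩ := h1
      obtain ⟨D, hD, hxD⟩ := h2
      exact ⟨C ∩ D, ⟨C, hC, D, hD, rfl⟩, hxC, hxD⟩
    · rintro ⟨_, ⟨C, hC, D, hD, rfl⟩, hx⟩
      rw [hXS]
      exact ⟨C, hC, hx.1⟩
  · rintro _ ⟨C, hC, D, hD, rfl⟩
    obtain ⟨hC1, f1, hf1⟩ := hS2 C hC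
    obtain ⟨hD1, g1, hg1⟩ := hT2 D hD
    refine ⟨polytope_inter hC1 hD1, f1.prod g1, ?_⟩
    intro x hx
    show (f x, g x) = (f1 x, g1 x)
    rw [hf1 hx.1, hg1 hx.2]

end RPF
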