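import Pool.Agent.Helper876.RP.Defs
import Pool.Agent.Helper876.RP.P_plon_comp
import Pool.Agent.Helper876.RP.P_plon_affine
import Pool.Agent.Helper876.RP.P_plon_prodMk
import Pool.Agent.Helper876.RP.P_cell_polytope3
import Pool.Agent.Helper876.RP.P_fl_affine



namespace RPF
open Set


theorem tet_pl (cells : List PCell) (exits : ℕ → List Exit) (κ : ℕ → ℝ × ℝ → (Fin 11 → ℝ))
    (hκ : KappaOK cells exits κ) (t : Tet) (h : cellB 1 t.dom t.duals t.den = true)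
    (hp : ∀ z ∈ t.car, ((t.fl z).1, (t.fl z).2.1) ∈ plReg cells t.reg) :
    IsPLOn (t.phi κ) t.car := by
  have hpoly : IsPolytope t.car := cell_polytope3 t.dom t.duals t.den h
  obtain ⟨a, ha⟩ := fl_affine t
  let lb : (ℝ × ℝ × ℝ) →ₗ[ℝ] (ℝ × ℝ) :=
    (LinearMap.fst ℝ ℝ (ℝ × ℝ)).prod ((LinearMap.fst ℝ ℝ ℝ).comp (LinearMap.snd ℝ ℝ (ℝ × ℝ)))
  let lc : (ℝ × ℝ × ℝ) →ₗ[ℝ] ℝ := (LinearMap.snd ℝ ℝ ℝ).comp (LinearMap.snd ℝ ℝ (ℝ × ℝ))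
  let b : (ℝ × ℝ × ℝ) →ᵃ[ℝ] (ℝ × ℝ) := lb.toAffineMap.comp a
  let c : (ℝ × ℝ × ℝ) →ᵃ[ℝ] ℝ :=
    (262⁻¹ : ℝ) • (lc.toAffineMap.comp a) + AffineMap.const ℝ (ℝ × ℝ × ℝ) (262⁻¹ : ℝ)
  have hb : ∀ z, b z = ((t.fl z).1, (t.fl z).2.1) := by
    intro z
    show ((a z).1, (a z).2.1) = _
    rw [ha]
  have hc : ∀ z, c z = ((t.fl z).2.2 + 1) / 262 := by
    intro z
    show (262⁻¹ : ℝ) * (a z).2.2 + 262⁻¹ = _
    rw [ha]
    ring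
  have h1 : IsPLOn (κ t.reg ∘ b) t.car :=
    plon_comp (hκ.1 t.reg) (plon_affine hpoly b) (fun z hz => by rw [hb]; exact hp z hz)
  have h2 : IsPLOn c t.car := plon_affine hpoly c
  have h3 := plon_prodMk h1 h2
  have h4 : t.phi κ = fun x => ((κ t.reg ∘ b) x, c x) := by
    funext z
    show (κ t.reg ((t.fl z).1, (t.fl z).2.1), ((t.fl z).2.2 + 1) / 262) = (κ t.reg (b z), c z)
    rw [hb, hc]
  rw [h4]
  exact h3

end RPF
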