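import Pool.Agent.Helper876.RP.Defs
import Pool.Agent.Helper876.RP.P_tet_rep



namespace RPF
open Set


theorem tet_plane (cells : List PCell) (exits : ℕ → List Exit)
    (hcov : ∀ r < 2, ∀ y : ℝ × ℝ, (∀ e ∈ exits r, 0 ≤ e2R e.s (y.1, y.2, 0)) → y ∈ plReg cells r)
    (t : Tet) (hr : t.reg < 2) (h : cellB 1 t.dom t.duals t.den = true)
    (hs : ∀ e ∈ exits t.reg, ∀ x ∈ t.flat, 0 ≤ e2I e.s x.2) (z : ℝ × ℝ × ℝ) (hz : z ∈ t.car) :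
    ((t.fl z).1, (t.fl z).2.1) ∈ plReg cells t.reg := by
  apply hcov t.reg hr
  intro e he
  obtain ⟨h1, -, h3⟩ := (tet_rep t h z hz).2
  have h4 := h3 (e.s.1, e.s.2.1, e.s.2.2, 0)
  have h5 : e2R e.s ((t.fl z).1, (t.fl z).2.1, 0) = evR (e.s.1, e.s.2.1, e.s.2.2, 0) (t.fl z) := by
    simp only [e2R, evR]
    push_cast
    ring
  rw [h5, ← h4]
  unfold lsum
  apply List.sum_nonneg
  intro y hy
  obtain ⟨x, hx, rfl⟩ := List.mem_map.mp hy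
  apply mul_nonneg (h1 _)
  have h6 := hs e he x hx
  have h7 : evI (e.s.1, e.s.2.1, e.s.2.2, 0) x.2 = e2I e.s x.2 := by
    simp only [evI, e2I]
    ring
  show (0 : ℝ) ≤ ((evI (e.s.1, e.s.2.1, e.s.2.2, 0) x.2 : ℤ) : ℝ)
  rw [h7]
  exact_mod_cast h6

end RPF
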