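import Pool.Agent.Helper876.RP.Defs
import Pool.Agent.Helper876.RP.P_plon_glue
import Pool.Agent.Helper876.RP.P_embeds_of_Q
import Pool.Agent.Helper876.RP.P_tet_rep
import Pool.Agent.Helper876.RP.P_tet_plane
import Pool.Agent.Helper876.RP.P_tet_height
import Pool.Agent.Helper876.RP.P_tet_pl
import Pool.Agent.Helper876.RP.P_tet_cons
import Pool.Agent.Helper876.RP.P_tet_anti
import Pool.Agent.Helper876.RP.P_tet_inj



namespace RPF
open Set


theorem lsum_nonneg_aux (L : Item) (w : ℕ → ℝ) (φ : Pt → ℝ) (hw : ∀ n, 0 ≤ w n)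
    (hφ : ∀ x ∈ L, 0 ≤ φ x.2) : 0 ≤ lsum L w φ := by
  unfold lsum
  apply List.sum_nonneg
  intro a ha
  rw [List.mem_map] at ha
  obtain ⟨x, hx, rfl⟩ := ha
  exact mul_nonneg (hw _) (hφ x hx)

theorem rep_nonneg_aux (L : Item) (w : ℕ → ℝ) (p : ℝ × ℝ × ℝ) (h : Rep L w p) (f : Fn)
    (hf : ∀ x ∈ L, 0 ≤ evI f x.2) : 0 ≤ evR f p := by
  rw [← h.2.2 f]
  apply lsum_nonneg_aux L w _ h.1
  intro x hx
  exact_mod_cast hf x hx

theorem rep_Q_aux (L : Item) (w : ℕ → ℝ) (p : ℝ × ℝ × ℝ) (h : Rep L w p)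
    (hQ : ∀ x ∈ L, |x.2.1| + |x.2.2.1| ≤ 8 ∧ |x.2.2.2| ≤ 1) :
    |p.1| + |p.2.1| ≤ 8 ∧ |p.2.2| ≤ 1 := by
  have key : ∀ f : Fn, (∀ x ∈ L, 0 ≤ evI f x.2) → 0 ≤ evR f p := fun f hf =>
    rep_nonneg_aux L w p h f hf
  have a1 := key (8, -1, -1, 0) (fun x hx => by
    have := (hQ x hx).1
    simp only [evI]
    have h1 := le_abs_self x.2.1
    have h2 := le_abs_self x.2.2.1
    linarith)
  have a2 := key (8, -1, 1, 0) (fun x hx => by
    have := (hQ x hx).1
    simp only [evI]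
    have h1 := le_abs_self x.2.1
    have h2 := neg_abs_le x.2.2.1
    linarith)
  have a3 := key (8, 1, -1, 0) (fun x hx => by
    have := (hQ x hx).1
    simp only [evI]
    have h1 := neg_abs_le x.2.1
    have h2 := le_abs_self x.2.2.1
    linarith)
  have a4 := key (8, 1, 1, 0) (fun x hx => by
    have := (hQ x hx).1
    simp only [evI]
    have h1 := neg_abs_le x.2.1
    have h2 := neg_abs_le x.2.2.1
    linarith)
  have a5 := key (1, 0, 0, 1) (fun x hx => by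
    have := (hQ x hx).2
    simp only [evI]
    have h1 := neg_abs_le x.2.2.2
    linarith)
  have a6 := key (1, 0, 0, -1) (fun x hx => by
    have := (hQ x hx).2
    simp only [evI]
    have h1 := le_abs_self x.2.2.2
    linarith)
  simp only [evR] at a1 a2 a3 a4 a5 a6
  push_cast at a1 a2 a3 a4 a5 a6
  constructor
  · rcases abs_cases p.1 with ⟨h1, _⟩ | ⟨h1, _⟩ <;> rcases abs_cases p.2.1 with ⟨h2, _⟩ | ⟨h2, _⟩ <;>
      rw [h1, h2] <;> linarith
  · rw [abs_le]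
    constructor <;> linarith

theorem phi_all (cells : List PCell) (exits : ℕ → List Exit) (κ : ℕ → ℝ × ℝ → (Fin 11 → ℝ))
    (hκ : KappaOK cells exits κ) (charts : ℕ → List Item) (tets : List Tet)
    (h1 : ∀ t ∈ tets, cellB 1 t.dom t.duals t.den = true)
    (h2 : sysB (tets.map (fun t => (t.reg, t.flat))) exits charts = true)
    (h3 : ∀ k, ChartUniq (charts k)) (hu : ChartUniq (tets.map Tet.dom))
    (hcov : ∀ r < 2, ∀ y : ℝ × ℝ, (∀ e ∈ exits r, 0 ≤ e2R e.s (y.1, y.2, 0)) → y ∈ plReg cells r)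
    (hr : ∀ t ∈ tets, t.reg < 2)
    (hZ : ∀ t ∈ tets, ∀ x ∈ t.flat, -1 ≤ x.2.2.2 ∧ x.2.2.2 ≤ 261)
    (hQ : ∀ t ∈ tets, ∀ x ∈ t.dom, |x.2.1| + |x.2.2.1| ≤ 8 ∧ |x.2.2.2| ≤ 1)
    (hcons : ∀ t ∈ tets, ∀ t' ∈ tets, consB exits t t' = true)
    (hanti : ∀ t ∈ tets, antiB exits tets t 1 1 = true ∧ antiB exits tets t 1 (-1) = true ∧
      antiB exits tets t (-1) 1 = true ∧ antiB exits tets t (-1) (-1) = true)
    (hap : ∀ t ∈ tets, ∀ t' ∈ tets, apB exits t t' = true)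
    (hcQ : ∀ z : ℝ × ℝ × ℝ, |z.1| + |z.2.1| ≤ 8 → |z.2.2| ≤ 1 → ∃ t ∈ tets, z ∈ t.car) :
    EmbedsPuncturedRP3 (P11 ×ˢ Icc (0 : ℝ) 1) := by
  have hs : ∀ t ∈ tets, ∀ e ∈ exits t.reg, ∀ x ∈ t.flat, 0 ≤ e2I e.s x.2 := by
    intro t ht e he x hx
    unfold sysB at h2
    rw [List.all_eq_true] at h2
    have h := h2 (t.reg, t.flat) (List.mem_map.2 ⟨t, ht, rfl⟩)
    simp only [Bool.and_eq_true, List.all_eq_true] at h
    have h' := (h.2 e he).1 x hx
    simpa using h'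
  have hp : ∀ t ∈ tets, ∀ z ∈ t.car, ((t.fl z).1, (t.fl z).2.1) ∈ plReg cells t.reg :=
    fun t ht z hz => tet_plane cells exits hcov t (hr t ht) (h1 t ht) (hs t ht) z hz
  obtain ⟨φ, hφpl, hφeq⟩ := plon_glue (ι := Fin tets.length) (fun i => (tets.get i).car)
    (fun i => (tets.get i).phi κ)
    (fun i => tet_pl cells exits κ hκ (tets.get i) (h1 _ (tets.get_mem i))
      (hp _ (tets.get_mem i)))
    (fun i j x hx hx' => tet_cons cells exits κ hκ tets hu h1 hp (tets.get i) (tets.get j)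
      (tets.get_mem i) (tets.get_mem j)
      (hcons _ (tets.get_mem i) _ (tets.get_mem j)) x hx hx')
  have hφ : ∀ t ∈ tets, ∀ z ∈ t.car, φ z = t.phi κ z := by
    intro t ht z hz
    obtain ⟨i, rfl⟩ := List.mem_iff_get.1 ht
    exact hφeq i hz
  have hcar : ∀ t ∈ tets, ∀ z ∈ t.car, |z.1| + |z.2.1| ≤ 8 ∧ |z.2.2| ≤ 1 := by
    intro t ht z hz
    exact rep_Q_aux t.dom (t.w z) z (tet_rep t (h1 t ht) z hz).1 (hQ t ht)
  have hU : (⋃ i : Fin tets.length, (tets.get i).car) =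
      {z : ℝ × ℝ × ℝ | |z.1| + |z.2.1| ≤ 8 ∧ |z.2.2| ≤ 1} := by
    ext z
    simp only [Set.mem_iUnion, Set.mem_setOf_eq]
    constructor
    · rintro ⟨i, hi⟩
      exact hcar _ (tets.get_mem i) z hi
    · rintro ⟨ha, hb⟩
      obtain ⟨t, ht, hz⟩ := hcQ z ha hb
      obtain ⟨i, rfl⟩ := List.mem_iff_get.1 ht
      exact ⟨i, hz⟩
  rw [hU] at hφpl
  refine embeds_of_Q φ hφpl ?_ ?_
  · intro z ha hb
    obtain ⟨t, ht, hz⟩ := hcQ z ha hb
    rw [hφ t ht z hz]
    unfold Tet.phi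
    refine ⟨hκ.2.1 _ _ (hp t ht z hz), tet_height t (h1 t ht) (hZ t ht) z hz⟩
  · intro z w hz1 hz2 hw1 hw2
    constructor
    · intro he
      obtain ⟨t, ht, hz⟩ := hcQ z hz1 hz2
      obtain ⟨t', ht', hw⟩ := hcQ w hw1 hw2
      rw [hφ t ht z hz, hφ t' ht' w hw] at he
      rcases tet_inj cells exits κ hκ charts tets h1 h2 h3 hp t t' ht ht' (hap t ht t' ht') z w hz hw
        he with h | ⟨h, h'⟩
      · exact Or.inl h
      · refine Or.inr ⟨le_antisymm hz1 ?_, h⟩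
        have b1 := le_abs_self z.1
        have b2 := le_abs_self z.2.1
        have b3 := neg_abs_le z.1
        have b4 := neg_abs_le z.2.1
        rcases h' with h' | h' | h' | h' <;> linarith
    · rintro (h | ⟨h8, h⟩)
      · rw [h]
      · subst h
        obtain ⟨t, ht, hz⟩ := hcQ z hz1 hz2
        have main : ∀ sx sy : ℤ, (sx = 1 ∨ sx = -1) → (sy = 1 ∨ sy = -1) →
            antiB exits tets t sx sy = true → (sx : ℝ) * z.1 + sy * z.2.1 = 8 →
            φ z = φ (-z) := by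
          intro sx sy hsx hsy hab heq
          obtain ⟨t', ht', hz', hh⟩ := tet_anti cells exits κ hκ tets h1 hp t ht sx sy
            (fun x hx => by
              have h := (hQ t ht x hx).1
              have b1 := le_abs_self x.2.1
              have b2 := le_abs_self x.2.2.1
              have b3 := neg_abs_le x.2.1
              have b4 := neg_abs_le x.2.2.1
              rcases hsx with rfl | rfl <;> rcases hsy with rfl | rfl <;> linarith)
            hab z hz heq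
          rw [hφ t ht z hz, hφ t' ht' (-z) hz', hh]
        obtain ⟨c1, c2, c3, c4⟩ := hanti t ht
        rcases abs_cases z.1 with ⟨e1, _⟩ | ⟨e1, _⟩ <;> rcases abs_cases z.2.1 with ⟨e2, _⟩ | ⟨e2, _⟩
        · exact main 1 1 (Or.inl rfl) (Or.inl rfl) c1 (by push_cast; linarith)
        · exact main 1 (-1) (Or.inl rfl) (Or.inr rfl) c2 (by push_cast; linarith)
        · exact main (-1) 1 (Or.inr rfl) (Or.inl rfl) c3 (by push_cast; linarith)
        · exact main (-1) (-1) (Or.inr rfl) (Or.inr rfl) c4 (by push_cast; linarith)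

end RPF
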