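import Pool.Agent.Helper876.RP.Defs



namespace RPF
open Set


theorem KT_nodup_aux : ∀ T ∈ KT, T.Nodup ∧ ∀ i ∈ T, i < 11 := by
  decide

theorem star_sum_aux (T : List ℕ) (hT : T.Nodup) (hlt : ∀ i ∈ T, i < 11) (y : Fin 11 → ℝ)
    (hy : ∀ i : Fin 11, y i ≠ 0 → (i : ℕ) ∈ T) (g : ℕ → ℝ) :
    (T.map (fun n => (if h : n < 11 then y ⟨n, h⟩ else 0) * g n)).sum = ∑ i : Fin 11, y i * g i := by
  have h1 := List.sum_toFinset (fun n => (if h : n < 11 then y ⟨n, h⟩ else 0) * g n) hT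
  rw [← h1]
  have hsub : T.toFinset ⊆ Finset.range 11 := by
    intro i hi
    rw [Finset.mem_range]
    exact hlt i (List.mem_toFinset.1 hi)
  rw [Finset.sum_subset hsub]
  · rw [Finset.sum_range]
    apply Finset.sum_congr rfl
    intro i _
    simp
  · intro n hn hnT
    rw [List.mem_toFinset] at hnT
    have h11 : n < 11 := Finset.mem_range.1 hn
    rw [dif_pos h11]
    have : y ⟨n, h11⟩ = 0 := by
      by_contra h0
      exact hnT (hy ⟨n, h11⟩ h0)
    rw [this, zero_mul]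

theorem star_rep_aux (v : ℕ) (ms : List Pt) (y : Fin 11 → ℝ) (hy : y ∈ starSet v) :
    ∃ L ∈ starItems v ms, Rep L (fun n => if h : n < 11 then y ⟨n, h⟩ else 0)
      (6 * (fmap ms y) 0, 6 * (fmap ms y) 1, 6 * (fmap ms y) 2) := by
  obtain ⟨T, hT, hv, h0, h1, h2⟩ := hy
  obtain ⟨hnd, hlt⟩ := KT_nodup_aux T hT
  refine ⟨T.map (fun i => (i, ms.getD i (0, 0, 0))), ?_, ?_, ?_, ?_⟩
  · unfold starItems
    rw [List.mem_map]
    exact ⟨T, List.mem_filter.2 ⟨hT, by simpa using hv⟩, rfl⟩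
  · intro n
    show 0 ≤ (if h : n < 11 then y ⟨n, h⟩ else 0)
    split_ifs with h
    · exact h0 _
    · exact le_refl _
  · intro n hn
    change (if h : n < 11 then y ⟨n, h⟩ else 0) ≠ 0 at hn
    split_ifs at hn with h
    · exact ⟨ms.getD n (0, 0, 0), List.mem_map.2 ⟨n, h2 ⟨n, h⟩ hn, rfl⟩⟩
    · exact absurd rfl hn
  · intro f
    unfold lsum
    rw [List.map_map]
    have key := star_sum_aux T hnd hlt y h2 (fun n => (evI f (ms.getD n (0, 0, 0)) : ℝ))
    have e0 : (fmap ms y) 0 = ∑ i : Fin 11, y i * (((ms.getD i (0, 0, 0)).1 : ℝ) / 6) := by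
      simp [fmap, toV, Finset.sum_apply]
    have e1 : (fmap ms y) 1 = ∑ i : Fin 11, y i * (((ms.getD i (0, 0, 0)).2.1 : ℝ) / 6) := by
      simp [fmap, toV, Finset.sum_apply]
    have e2 : (fmap ms y) 2 = ∑ i : Fin 11, y i * (((ms.getD i (0, 0, 0)).2.2 : ℝ) / 6) := by
      simp [fmap, toV, Finset.sum_apply]
    refine Eq.trans ?_ (key.trans ?_)
    · rfl
    · have hs : ∀ i : Fin 11, y i * ((evI f (ms.getD (i : ℕ) (0, 0, 0)) : ℤ) : ℝ) =
          (f.1 : ℝ) * y i + (f.2.1 : ℝ) * (6 * (y i * (((ms.getD (i : ℕ) (0, 0, 0)).1 : ℝ) / 6))) +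
          (f.2.2.1 : ℝ) * (6 * (y i * (((ms.getD (i : ℕ) (0, 0, 0)).2.1 : ℝ) / 6))) +
          (f.2.2.2 : ℝ) * (6 * (y i * (((ms.getD (i : ℕ) (0, 0, 0)).2.2 : ℝ) / 6))) := by
        intro i
        unfold evI
        push_cast
        ring
      rw [Finset.sum_congr rfl (fun i _ => hs i)]
      rw [Finset.sum_add_distrib, Finset.sum_add_distrib, Finset.sum_add_distrib]
      simp only [← Finset.mul_sum]
      rw [h1, ← e0, ← e1, ← e2]
      unfold evR
      ring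

theorem star_inj (v : Fin 11) (ms : List Pt) (h : ChartUniq (starItems v ms)) :
    InjOn (fmap ms) (starSet v) := by
  intro y hy y' hy' hf
  obtain ⟨L, hL, hr⟩ := star_rep_aux v ms y hy
  obtain ⟨M, hM, hr'⟩ := star_rep_aux v ms y' hy'
  rw [← hf] at hr'
  have hu := h L hL M hM _ _ _ hr hr'
  funext i
  have hi := (hu i).1
  simpa using hi

end RPF
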