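import Pool.Agent.Helper876.RP.Defs



namespace RPF
open Set


theorem seg_maps (k i : ℕ) (hi : i < k) (u w q q' : Pt) (h : segEq k i u w q = true)
    (h' : segEq k (i + 1) u w q' = true) (a b : ℝ) (ha : 0 ≤ a) (hb : 0 ≤ b) :
    ∃ s t : ℝ, 0 ≤ s ∧ 0 ≤ t ∧ s + t = a + b ∧ a • toV q + b • toV q' = s • toV u + t • toV w := by
  simp only [segEq, Bool.and_eq_true, decide_eq_true_eq] at h h'
  obtain ⟨⟨h1, h2⟩, h3⟩ := h
  obtain ⟨⟨k1, k2⟩, k3⟩ := h'
  have hk : (0 : ℝ) < k := by exact_mod_cast (Nat.lt_of_le_of_lt (Nat.zero_le i) hi)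
  have hik : (i : ℝ) + 1 ≤ k := by exact_mod_cast hi
  have hi0 : (0 : ℝ) ≤ i := Nat.cast_nonneg i
  have H1 : (k : ℝ) * (q.1 : ℝ) = ((k : ℝ) - i) * u.1 + i * w.1 := by exact_mod_cast h1
  have H2 : (k : ℝ) * (q.2.1 : ℝ) = ((k : ℝ) - i) * u.2.1 + i * w.2.1 := by exact_mod_cast h2
  have H3 : (k : ℝ) * (q.2.2 : ℝ) = ((k : ℝ) - i) * u.2.2 + i * w.2.2 := by exact_mod_cast h3
  have K1 : (k : ℝ) * (q'.1 : ℝ) = ((k : ℝ) - (i + 1)) * u.1 + (i + 1) * w.1 := by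
    have := congrArg (fun z : ℤ => (z : ℝ)) k1
    push_cast at this
    exact this
  have K2 : (k : ℝ) * (q'.2.1 : ℝ) = ((k : ℝ) - (i + 1)) * u.2.1 + (i + 1) * w.2.1 := by
    have := congrArg (fun z : ℤ => (z : ℝ)) k2
    push_cast at this
    exact this
  have K3 : (k : ℝ) * (q'.2.2 : ℝ) = ((k : ℝ) - (i + 1)) * u.2.2 + (i + 1) * w.2.2 := by
    have := congrArg (fun z : ℤ => (z : ℝ)) k3
    push_cast at this
    exact this
  have e1 : (q.1 : ℝ) = (((k : ℝ) - i) * u.1 + i * w.1) / k := by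
    rw [← H1]; field_simp
  have e2 : (q.2.1 : ℝ) = (((k : ℝ) - i) * u.2.1 + i * w.2.1) / k := by
    rw [← H2]; field_simp
  have e3 : (q.2.2 : ℝ) = (((k : ℝ) - i) * u.2.2 + i * w.2.2) / k := by
    rw [← H3]; field_simp
  have f1 : (q'.1 : ℝ) = (((k : ℝ) - (i + 1)) * u.1 + (i + 1) * w.1) / k := by
    rw [← K1]; field_simp
  have f2 : (q'.2.1 : ℝ) = (((k : ℝ) - (i + 1)) * u.2.1 + (i + 1) * w.2.1) / k := by
    rw [← K2]; field_simp
  have f3 : (q'.2.2 : ℝ) = (((k : ℝ) - (i + 1)) * u.2.2 + (i + 1) * w.2.2) / k := by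
    rw [← K3]; field_simp
  refine ⟨(a * (k - i) + b * (k - (i + 1))) / k, (a * i + b * (i + 1)) / k, ?_, ?_, ?_, ?_⟩
  · apply div_nonneg _ hk.le
    have : 0 ≤ (k : ℝ) - i := by linarith
    have : 0 ≤ (k : ℝ) - (i + 1) := by linarith
    positivity
  · positivity
  · field_simp
    ring
  · unfold toV
    ext j
    fin_cases j
    · simp only [Fin.zero_eta, Pi.add_apply, Pi.smul_apply, Matrix.cons_val_zero, smul_eq_mul]
      rw [e1, f1]
      ring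
    · simp only [Fin.mk_one, Pi.add_apply, Pi.smul_apply, Matrix.cons_val_one, smul_eq_mul,
        Matrix.cons_val_zero]
      rw [e2, f2]
      ring
    · simp only [Fin.reduceFinMk, Pi.add_apply, Pi.smul_apply, Matrix.cons_val, smul_eq_mul]
      rw [e3, f3]
      ring

end RPF
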