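import Pool.Agent.Helper876.RP.Defs
import Pool.Agent.Helper876.RP.P_seg_maps



namespace RPF
open Set


theorem star_maps (v : Fin 11) (ms : List Pt) (LZ : List (Pt × Pt)) (chains : List (List ℕ))
    (h : starB v ms LZ chains = true) (y : Fin 11 → ℝ) (hy : y ∈ starSet v) :
    ∃ e ∈ toL LZ, ∃ s t : ℝ, 0 ≤ s ∧ 0 ≤ t ∧ s + t = 1 - y v ∧
      fmap ms y = s • e.1 + t • e.2 := by
  obtain ⟨T, hT, hvT, hy0, hy1, hyT⟩ := hy
  unfold starB at h
  simp only [Bool.and_eq_true, decide_eq_true_eq, List.all_eq_true, Bool.or_eq_true,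
    List.any_eq_true, List.mem_range] at h
  obtain ⟨⟨⟨h1, h2⟩, h3⟩, h4⟩ := h
  obtain ⟨c, hc, i, hi, hci⟩ := (h4 T hT).resolve_left (fun h => h hvT)
  obtain ⟨n, hn, rfl⟩ := List.mem_iff_getElem.1 hc
  have hn' : n < LZ.length := by omega
  have hzip : (LZ[n], chains[n]) ∈ LZ.zip chains := by
    rw [List.mem_iff_getElem]
    refine ⟨n, ?_, ?_⟩
    · rw [List.length_zip]; omega
    · rw [List.getElem_zip]
  have h5 := h3 _ hzip
  unfold chainB at h5
  simp only [Bool.and_eq_true, decide_eq_true_eq, List.all_eq_true, List.mem_range] at h5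
  obtain ⟨⟨h6, h7⟩, h8⟩ := h5
  have hseg1 := h7 i (by omega)
  have hseg2 := h7 (i + 1) (by omega)
  have htri := h8 i hi
  unfold triB at htri
  simp only [Bool.and_eq_true, decide_eq_true_eq, List.any_eq_true] at htri
  obtain ⟨⟨⟨⟨T', hT', ⟨hvT', haT'⟩, hbT'⟩, hab⟩, hav⟩, hbv⟩ := htri
  generalize ha : (chains[n]).getD i 0 = a at *
  generalize hb : (chains[n]).getD (i + 1) 0 = b at *
  have hlt : ∀ T ∈ KT, ∀ x ∈ T, x < 11 := by decide
  have ha11 := hlt T' hT' a haT'
  have hb11 := hlt T' hT' b hbT'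
  let a' : Fin 11 := ⟨a, ha11⟩
  let b' : Fin 11 := ⟨b, hb11⟩
  have hva : v ≠ a' := fun h => hav (by rw [h])
  have hvb : v ≠ b' := fun h => hbv (by rw [h])
  have hab' : a' ≠ b' := fun h => hab (congrArg Fin.val h)
  have hsupp : ∀ j : Fin 11, j ∉ ({v, a', b'} : Finset (Fin 11)) → y j = 0 := by
    intro j hj
    by_contra hne
    apply hj
    rcases hci j (hyT j hne) with h | h | h
    · have : j = v := Fin.ext h
      simp [this]
    · have : j = a' := Fin.ext h
      simp [this]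
    · have : j = b' := Fin.ext h
      simp [this]
  have hsum1 : y v + (y a' + y b') = 1 := by
    rw [← hy1, ← Finset.sum_subset (Finset.subset_univ ({v, a', b'} : Finset (Fin 11)))
      (fun j _ hj => hsupp j hj), Finset.sum_insert (by simp [hva, hvb]),
      Finset.sum_insert (by simp [hab']), Finset.sum_singleton]
  have hf : fmap ms y = y a' • toV (ms.getD a (0, 0, 0)) + y b' • toV (ms.getD b (0, 0, 0)) := by
    unfold fmap
    rw [← Finset.sum_subset (Finset.subset_univ ({v, a', b'} : Finset (Fin 11)))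
      (fun j _ hj => by rw [hsupp j hj, zero_smul]), Finset.sum_insert (by simp [hva, hvb]),
      Finset.sum_insert (by simp [hab']), Finset.sum_singleton, h1]
    have : toV (0, 0, 0) = 0 := by
      unfold toV
      ext j
      fin_cases j <;> simp
    rw [this, smul_zero, zero_add]
  obtain ⟨s, t, hs, ht, hst, hst2⟩ := seg_maps ((chains[n]).length - 1) i hi LZ[n].1 LZ[n].2
    (ms.getD a (0, 0, 0)) (ms.getD b (0, 0, 0)) hseg1 hseg2 (y a') (y b') (hy0 _) (hy0 _)
  refine ⟨(toV LZ[n].1, toV LZ[n].2), ?_, s, t, hs, ht, ?_, ?_⟩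
  · unfold toL
    exact List.mem_map.2 ⟨LZ[n], List.getElem_mem hn', rfl⟩
  · rw [hst]; linarith
  · rw [hf, hst2]

end RPF
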