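import Pool.Agent.Helper876.RP.Defs



namespace RPF
open Set


theorem star_nhds (v : Fin 11) (x : Fin 11 → ℝ) (hx : x ∈ P11) (hv : x v ≠ 0) :
    starSet v ⊆ P11 ∧ starSet v ∈ nhdsWithin x P11 := by
  constructor
  · rintro y ⟨T, hT, hvT, h1, h2, h3⟩
    exact ⟨h1, h2, T, hT, h3⟩
  · rw [mem_nhdsWithin]
    refine ⟨{y | y v ≠ 0}, ?_, hv, ?_⟩
    · exact isOpen_ne_fun (continuous_apply v) continuous_const
    · rintro y ⟨hy, h1, h2, T, hT, h3⟩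
      exact ⟨T, hT, h3 v hy, h1, h2, h3⟩
end RPF
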