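import Pool.Agent.Helper876.RP.Defs
import Pool.Agent.Helper876.RP.P_simplex_polytope



namespace RPF
open Set


theorem star_pl (v : ℕ) (ms : List Pt) : IsPLOn (fmap ms) (starSet v) := by
  refine ⟨simplexSet '' {T | T ∈ KT ∧ v ∈ T}, ?_, ?_, ?_⟩
  · apply Set.Finite.image
    exact (List.finite_toSet KT).subset (fun T hT => hT.1)
  · ext y
    constructor
    · rintro ⟨T, hT, hv, hy⟩
      exact ⟨simplexSet T, ⟨T, ⟨hT, hv⟩, rfl⟩, hy⟩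
    · rintro ⟨C, ⟨T, ⟨hT, hv⟩, rfl⟩, hy⟩
      exact ⟨T, hT, hv, hy⟩
  · rintro C ⟨T, ⟨hT, hv⟩, rfl⟩
    refine ⟨simplex_polytope T, (∑ i : Fin 11, (LinearMap.proj i : (Fin 11 → ℝ) →ₗ[ℝ] ℝ).smulRight
      (toV (ms.getD i (0, 0, 0)))).toAffineMap, ?_⟩
    intro y _
    rw [LinearMap.coe_toAffineMap, LinearMap.sum_apply]
    rfl

end RPF
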