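import Pool.Agent.Helper876.RP.Defs



namespace RPF
open Set


theorem seg_surj_aux (k i : ℕ) (u w q : Pt) (h : segEq k i u w q = true) (j : Fin 3) :
    (k : ℝ) * toV q j = ((k : ℝ) - i) * toV u j + i * toV w j := by
  unfold segEq at h
  simp only [Bool.and_eq_true, decide_eq_true_eq] at h
  obtain ⟨⟨h1, h2⟩, h3⟩ := h
  have h1' : (k : ℝ) * (q.1 : ℝ) = ((k : ℝ) - i) * u.1 + i * w.1 := by exact_mod_cast h1
  have h2' : (k : ℝ) * (q.2.1 : ℝ) = ((k : ℝ) - i) * u.2.1 + i * w.2.1 := by exact_mod_cast h2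
  have h3' : (k : ℝ) * (q.2.2 : ℝ) = ((k : ℝ) - i) * u.2.2 + i * w.2.2 := by exact_mod_cast h3
  fin_cases j
  · show (k : ℝ) * ((q.1 : ℝ) / 6) = ((k : ℝ) - i) * ((u.1 : ℝ) / 6) + i * ((w.1 : ℝ) / 6)
    linear_combination h1' / 6
  · show (k : ℝ) * ((q.2.1 : ℝ) / 6) = ((k : ℝ) - i) * ((u.2.1 : ℝ) / 6) + i * ((w.2.1 : ℝ) / 6)
    linear_combination h2' / 6
  · show (k : ℝ) * ((q.2.2 : ℝ) / 6) = ((k : ℝ) - i) * ((u.2.2 : ℝ) / 6) + i * ((w.2.2 : ℝ) / 6)
    linear_combination h3' / 6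

theorem seg_surj (k : ℕ) (hk : 0 < k) (u w : Pt) (q : ℕ → Pt)
    (h : ∀ i ≤ k, segEq k i u w (q i) = true) (s t : ℝ) (hs : 0 ≤ s) (ht : 0 ≤ t) :
    ∃ i < k, ∃ a b : ℝ, 0 ≤ a ∧ 0 ≤ b ∧ a + b = s + t ∧
      s • toV u + t • toV w = a • toV (q i) + b • toV (q (i + 1)) := by
  rcases eq_or_lt_of_le (add_nonneg hs ht) with hS | hS
  · have hs0 : s = 0 := by linarith
    have ht0 : t = 0 := by linarith
    refine ⟨0, hk, 0, 0, le_refl _, le_refl _, by rw [hs0, ht0], ?_⟩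
    rw [hs0, ht0, zero_smul, zero_smul, zero_smul, zero_smul]
  · have hkR : (0:ℝ) < k := by exact_mod_cast hk
    set r : ℝ := k * t / (s + t) with hr
    have hrS : r * (s + t) = k * t := by
      rw [hr]
      field_simp
    have hr0 : 0 ≤ r := by
      rw [hr]
      positivity
    have hrk : r ≤ k := by
      rw [hr, div_le_iff₀ hS]
      nlinarith
    obtain ⟨i, hik, hi1, hi2⟩ : ∃ i : ℕ, i < k ∧ (i : ℝ) ≤ r ∧ r ≤ (i : ℝ) + 1 := by
      by_cases hc : ⌊r⌋₊ < k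
      · exact ⟨⌊r⌋₊, hc, Nat.floor_le hr0, (Nat.lt_floor_add_one r).le⟩
      · push Not at hc
        have h1 : (k : ℝ) ≤ r := by
          calc (k : ℝ) ≤ (⌊r⌋₊ : ℝ) := by exact_mod_cast hc
            _ ≤ r := Nat.floor_le hr0
        refine ⟨k - 1, by omega, ?_, ?_⟩
        · rw [Nat.cast_sub hk, Nat.cast_one]
          linarith
        · rw [Nat.cast_sub hk, Nat.cast_one]
          linarith
    refine ⟨i, hik, (s + t) * (i + 1 - r), (s + t) * (r - i), ?_, ?_, by ring, ?_⟩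
    · exact mul_nonneg hS.le (by linarith)
    · exact mul_nonneg hS.le (by linarith)
    · funext j
      have e1 := seg_surj_aux k i u w (q i) (h i hik.le) j
      have e2 := seg_surj_aux k (i + 1) u w (q (i + 1)) (h (i + 1) hik) j
      push_cast at e2
      simp only [Pi.add_apply, Pi.smul_apply, smul_eq_mul]
      apply mul_left_cancel₀ hkR.ne'
      linear_combination (toV u j - toV w j) * hrS - ((s + t) * (i + 1 - r)) * e1 -
        ((s + t) * (r - i)) * e2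

end RPF
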