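import Pool.Agent.Helper876.RP.Defs
import Pool.Agent.Helper876.RP.P_seg_surj



namespace RPF
open Set


theorem kt_lt : ∀ T ∈ KT, ∀ x ∈ T, x < 11 := by decide

theorem toV_zero : toV ((0 : ℤ), (0 : ℤ), (0 : ℤ)) = 0 := by
  unfold toV
  ext i
  fin_cases i <;> simp

theorem star_surj (v : Fin 11) (ms : List Pt) (LZ : List (Pt × Pt)) (chains : List (List ℕ))
    (h : starB v ms LZ chains = true) (p : Fin 3 → ℝ) (hp : p ∈ coneSet (toL LZ)) :
    ∃ y ∈ starSet v, fmap ms y = p := by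
  unfold starB at h
  rw [Bool.and_eq_true, Bool.and_eq_true, Bool.and_eq_true] at h
  obtain ⟨⟨⟨hv, hlen⟩, hzip⟩, _⟩ := h
  have hv' := of_decide_eq_true hv
  have hlen' := of_decide_eq_true hlen
  rw [List.all_eq_true] at hzip
  obtain ⟨e', he', s, t, hs, ht, hst, rfl⟩ := hp
  unfold toL at he'
  rw [List.mem_map] at he'
  obtain ⟨e, he, rfl⟩ := he'
  obtain ⟨j, hj, hje⟩ := List.getElem_of_mem he
  have hj2 : j < chains.length := hlen' ▸ hj
  have hmem : (e, chains[j]) ∈ LZ.zip chains := by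
    have h1 : j < (LZ.zip chains).length := by
      rw [List.length_zip]; omega
    have h2 : (LZ.zip chains)[j] = (e, chains[j]) := by
      rw [List.getElem_zip, hje]
    rw [← h2]
    exact List.getElem_mem h1
  have hch := hzip _ hmem
  generalize chains[j] = c at hch
  simp only at hch
  unfold chainB at hch
  rw [Bool.and_eq_true, Bool.and_eq_true] at hch
  obtain ⟨⟨hc2, hseg⟩, htri⟩ := hch
  have hc2' := of_decide_eq_true hc2
  rw [List.all_eq_true] at hseg htri
  obtain ⟨i, hi, a, b, ha, hb, hab, heq⟩ := seg_surj (c.length - 1) (by omega) e.1 e.2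
    (fun i => ms.getD (c.getD i 0) (0, 0, 0))
    (fun i hi => hseg i (List.mem_range.2 (by omega))) s t hs ht
  have ht1 := htri i (List.mem_range.2 hi)
  unfold triB at ht1
  simp only [Bool.and_eq_true, List.any_eq_true, decide_eq_true_eq] at ht1
  obtain ⟨⟨⟨⟨T, hT, ⟨hvT, haT⟩, hbT⟩, _⟩, _⟩, _⟩ := ht1
  have hA : c.getD i 0 < 11 := kt_lt T hT _ haT
  have hB : c.getD (i + 1) 0 < 11 := kt_lt T hT _ hbT
  refine ⟨fun k => (if k = v then 1 - (a + b) else 0) + (if k = ⟨c.getD i 0, hA⟩ then a else 0) +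
    (if k = ⟨c.getD (i + 1) 0, hB⟩ then b else 0), ⟨T, hT, hvT, ?_, ?_, ?_⟩, ?_⟩
  · intro k
    have h0 : 0 ≤ 1 - (a + b) := by linarith
    dsimp only
    split_ifs <;> linarith
  · rw [Finset.sum_add_distrib, Finset.sum_add_distrib, Finset.sum_ite_eq', Finset.sum_ite_eq',
      Finset.sum_ite_eq']
    simp only [Finset.mem_univ, if_true]
    ring
  · intro k hk
    by_contra hkT
    apply hk
    have h1 : k ≠ v := fun h => hkT (h ▸ hvT)
    have h2 : k ≠ ⟨c.getD i 0, hA⟩ := fun h => hkT (h ▸ haT)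
    have h3 : k ≠ ⟨c.getD (i + 1) 0, hB⟩ := fun h => hkT (h ▸ hbT)
    simp only [h1, h2, h3, if_false, add_zero]
  · unfold fmap
    simp only [add_smul, ite_smul, zero_smul, Finset.sum_add_distrib, Finset.sum_ite_eq',
      Finset.mem_univ, if_true]
    rw [hv', toV_zero, smul_zero, zero_add]
    exact heq.symm

end RPF
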