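import Pool.Agent.Helper876.RP.Defs
import Pool.Agent.Helper876.RP.P_star_pl
import Pool.Agent.Helper876.RP.P_star_nhds
import Pool.Agent.Helper876.RP.P_star_maps
import Pool.Agent.Helper876.RP.P_star_surj
import Pool.Agent.Helper876.RP.P_star_inj



namespace RPF
open Set


theorem star_model (v : Fin 11) (ms : List Pt) (LZ : List (Pt × Pt)) (chains : List (List ℕ))
    (h : starB v ms LZ chains = true) (hu : ChartUniq (starItems v ms)) (x : Fin 11 → ℝ)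
    (hx : x ∈ P11) (hv : x v ≠ 0) :
    ∃ N : Set (Fin 11 → ℝ), N ⊆ P11 ∧ N ∈ nhdsWithin x P11 ∧ ∃ f : (Fin 11 → ℝ) → (Fin 3 → ℝ),
      IsPLOn f N ∧ BijOn f N (coneSet (toL LZ)) ∧ f x ∈ coneInt (toL LZ) := by
  obtain ⟨hsub, hnh⟩ := star_nhds v x hx hv
  refine ⟨starSet v, hsub, hnh, fmap ms, star_pl v ms, ⟨?_, star_inj v ms hu, ?_⟩, ?_⟩
  · intro y hy
    obtain ⟨e, he, s, t, hs, ht, hst, hy'⟩ := star_maps v ms LZ chains h y hy
    obtain ⟨T, hT, hvT, hyT⟩ := hy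
    exact ⟨e, he, s, t, hs, ht, by linarith [hyT.1 v], hy'⟩
  · intro p hp
    obtain ⟨y, hy, hyp⟩ := star_surj v ms LZ chains h p hp
    exact ⟨y, hy, hyp⟩
  · have hxs : x ∈ starSet v := mem_of_mem_nhdsWithin hx hnh
    obtain ⟨e, he, s, t, hs, ht, hst, hy'⟩ := star_maps v ms LZ chains h x hxs
    have hpos : 0 < x v := lt_of_le_of_ne (hx.1 v) (Ne.symm hv)
    exact ⟨e, he, s, t, hs, ht, by linarith, hy'⟩

end RPF
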