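import Pool.Agent.Helper876.RP.Data
import Pool.Agent.Helper876.RP.P_star_model
import Pool.Agent.Helper876.RP.P_chart_unique
import Pool.Agent.Helper876.RP.P_model_eq

namespace RPF
open Set
set_option maxRecDepth 100000

def ms0 : List Pt := [(0,0,0), (6,-6,-6), (-6,6,-6), (6,6,6), (-6,-6,6), (6,0,0), (0,6,0), (0,0,6), (-6,0,0), (0,-6,0), (0,0,-6)]

def ch0 : List (List ℕ) := [[3, 5, 1], [3, 6, 2], [3, 7, 4], [1, 10, 2], [1, 9, 4], [2, 8, 4]]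

def sc0 : List (List Fn) := [[(0,0,0,1), (0,1,-1,1), (0,1,-1,0), (0,1,1,-1), (0,1,0,-1), (0,1,0,0), (0,1,0,0), (0,1,1,1), (0,1,1,0), (0,1,0,2), (0,1,0,1)],
  [(0,1,-1,0), (0,1,-2,0), (0,1,0,-1), (0,1,-1,-1), (0,1,0,0), (0,1,0,0), (0,1,1,0), (0,1,1,-1), (0,1,0,1), (0,1,-1,1)],
  [(0,-1,0,0), (0,0,1,-1), (0,-1,1,-1), (0,1,1,-1), (0,1,1,0), (0,0,1,0), (0,0,1,0), (0,-1,1,1), (0,0,1,1)],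
  [(0,0,2,-1), (0,0,1,-1), (0,1,1,0), (0,1,1,1), (0,0,1,0), (0,0,1,0), (0,0,1,1), (0,0,1,2)],
  [(0,-1,0,0), (0,1,0,1), (0,1,-1,1), (0,-1,1,1), (0,0,1,1), (0,0,0,1), (0,0,0,1)],
  [(0,1,1,1), (0,1,0,1), (0,0,1,1), (0,0,2,1), (0,0,0,1), (0,0,0,1)],
  [(0,0,-1,0), (0,-2,1,0), (0,-1,1,0), (0,-1,0,1), (0,-1,-1,1)],
  [(0,-1,1,0), (0,-1,1,-1), (0,-2,0,1), (0,-1,0,1)],
  [(0,0,0,-1), (0,0,-1,1), (0,0,-2,1)],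
  [(0,-1,-1,1), (0,0,-1,1)],
  [(0,0,-1,0)],
  []]

def sd0 : List (List Fn × ℤ) := [([(12,-2,0,0), (0,0,1,1), (0,2,-1,-1)], 12),
  ([(12,-2,0,0), (0,0,-1,-1), (0,2,1,1)], 12),
  ([(12,0,-2,0), (0,-1,0,-1), (0,1,2,1)], 12),
  ([(12,0,-2,0), (0,1,0,1), (0,-1,2,-1)], 12),
  ([(12,0,0,-2), (0,-1,-1,0), (0,1,1,2)], 12),
  ([(12,0,0,-2), (0,1,1,0), (0,-1,-1,2)], 12),
  ([(12,2,0,0), (0,0,-1,1), (0,-2,1,-1)], 12),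
  ([(12,2,0,0), (0,0,1,-1), (0,-2,-1,1)], 12),
  ([(12,0,2,0), (0,1,0,-1), (0,-1,-2,1)], 12),
  ([(12,0,2,0), (0,-1,0,1), (0,1,-2,-1)], 12),
  ([(12,0,0,2), (0,1,-1,0), (0,-1,1,-2)], 12),
  ([(12,0,0,2), (0,-1,1,0), (0,1,-1,-2)], 12)]

theorem model_at_0 (x : Fin 11 → ℝ) (hx : x ∈ P11) (hv : x 0 ≠ 0) :
    ∃ N : Set (Fin 11 → ℝ), N ⊆ P11 ∧ N ∈ nhdsWithin x P11 ∧ ∃ f : (Fin 11 → ℝ) → (Fin 3 → ℝ),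
      IsPLOn f N ∧ BijOn f N (coneSet (toL (modelZ 2))) ∧ f x ∈ coneInt (toL (modelZ 2)) :=
  star_model 0 ms0 (modelZ 2) ch0 (by decide +kernel)
    (chart_unique _ sc0 sd0 (by decide +kernel)) x hx hv

def ms1 : List Pt := [(0,0,6), (0,0,0), (0,0,-6), (0,0,0), (0,0,0), (6,0,0), (0,0,0), (0,0,0), (0,3,-3), (0,6,0), (-6,-6,0)]

def ch1 : List (List ℕ) := [[0, 5], [5, 2], [0, 9], [9, 8, 2], [0, 10], [10, 2]]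

def sc1 : List (List Fn) := [[(0,0,0,1), (0,1,0,1), (0,1,-1,1), (0,1,-1,0), (0,1,0,0), (0,1,0,1)],
  [(0,1,-1,0), (0,1,-2,-1), (0,1,-1,-1), (0,1,0,-1), (0,1,0,0)],
  [(0,0,-1,-1), (0,0,-1,-2), (0,0,1,-1), (0,0,1,0)],
  [(0,0,0,-1), (0,0,1,-1), (0,0,2,1)],
  [(0,0,1,0), (0,0,1,1)],
  [(0,0,0,1)],
  []]

def sd1 : List (List Fn × ℤ) := [([(0,0,0,1), (6,-1,0,-1), (0,1,0,0)], 6),
  ([(6,-1,0,1), (0,0,0,-1), (0,1,0,0)], 6),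
  ([(6,0,-1,1), (0,0,-1,-1), (0,0,2,0)], 6),
  ([(6,0,-1,1), (0,0,0,-2), (0,0,1,1)], 6),
  ([(0,0,0,1), (6,0,-1,-1), (0,0,1,0)], 6),
  ([(0,0,0,2), (12,1,1,-2), (0,-1,-1,0)], 12),
  ([(12,1,1,2), (0,0,0,-2), (0,-1,-1,0)], 12)]

theorem model_at_1 (x : Fin 11 → ℝ) (hx : x ∈ P11) (hv : x 1 ≠ 0) :
    ∃ N : Set (Fin 11 → ℝ), N ⊆ P11 ∧ N ∈ nhdsWithin x P11 ∧ ∃ f : (Fin 11 → ℝ) → (Fin 3 → ℝ),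
      IsPLOn f N ∧ BijOn f N (coneSet (toL (modelZ 1))) ∧ f x ∈ coneInt (toL (modelZ 1)) :=
  star_model 1 ms1 (modelZ 1) ch1 (by decide +kernel)
    (chart_unique _ sc1 sd1 (by decide +kernel)) x hx hv

def ms2 : List Pt := [(0,0,-6), (0,0,6), (0,0,0), (0,0,0), (0,0,0), (6,0,0), (3,0,-3), (0,0,0), (0,6,0), (0,0,0), (-6,-6,0)]

def ch2 : List (List ℕ) := [[1, 5], [5, 6, 0], [1, 8], [8, 0], [1, 10], [10, 0]]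

def sc2 : List (List Fn) := [[(0,0,0,1), (0,1,0,2), (0,1,-1,1), (0,1,-1,0), (0,1,0,0), (0,1,0,1)],
  [(0,1,0,1), (0,2,-1,1), (0,1,-1,-1), (0,1,0,-1), (0,2,0,1)],
  [(0,1,-1,0), (0,0,-1,-1), (0,0,1,-1), (0,1,0,0)],
  [(0,0,0,-1), (0,0,1,-1), (0,0,1,0)],
  [(0,0,1,0), (0,0,1,1)],
  [(0,0,0,1)],
  []]

def sd2 : List (List Fn × ℤ) := [([(0,0,0,1), (6,-1,0,-1), (0,1,0,0)], 6),
  ([(6,-1,0,1), (0,1,0,1), (0,0,0,-2)], 6),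
  ([(0,-1,0,-1), (6,-1,0,1), (0,2,0,0)], 6),
  ([(0,0,0,-1), (6,0,-1,1), (0,0,1,0)], 6),
  ([(0,0,0,1), (6,0,-1,-1), (0,0,1,0)], 6),
  ([(0,0,0,2), (12,1,1,-2), (0,-1,-1,0)], 12),
  ([(0,0,0,-2), (12,1,1,2), (0,-1,-1,0)], 12)]

theorem model_at_2 (x : Fin 11 → ℝ) (hx : x ∈ P11) (hv : x 2 ≠ 0) :
    ∃ N : Set (Fin 11 → ℝ), N ⊆ P11 ∧ N ∈ nhdsWithin x P11 ∧ ∃ f : (Fin 11 → ℝ) → (Fin 3 → ℝ),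
      IsPLOn f N ∧ BijOn f N (coneSet (toL (modelZ 1))) ∧ f x ∈ coneInt (toL (modelZ 1)) :=
  star_model 2 ms2 (modelZ 1) ch2 (by decide +kernel)
    (chart_unique _ sc2 sd2 (by decide +kernel)) x hx hv

def ms3 : List Pt := [(0,0,6), (0,0,0), (0,0,0), (0,0,0), (0,0,-6), (6,0,0), (0,6,0), (-6,-6,0), (-3,-3,-3), (3,0,-3), (0,0,0)]

def ch3 : List (List ℕ) := [[0, 5], [5, 9, 4], [0, 6], [6, 4], [0, 7], [7, 8, 4]]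

def sc3 : List (List Fn) := [[(0,1,-1,0), (0,1,-1,1), (0,1,0,0), (0,1,0,1), (0,1,0,1), (0,1,0,2), (0,0,0,1)],
  [(0,0,0,1), (0,0,1,0), (0,0,1,1), (0,0,1,1), (0,0,1,1), (0,-1,1,1)],
  [(0,0,1,-1), (0,0,2,-1), (0,0,1,0), (0,-1,1,0), (0,-2,1,-1)],
  [(0,0,0,1), (0,-1,0,2), (0,-1,0,1), (0,-1,0,1)],
  [(0,-1,0,1), (0,-2,0,1), (0,-1,0,0)],
  [(0,-1,0,0), (0,-2,0,-1)],
  [(0,-1,0,-1)],
  []]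

def sd3 : List (List Fn × ℤ) := [([(0,0,0,1), (6,-1,0,-1), (0,1,0,0)], 6),
  ([(0,0,0,1), (6,0,-1,-1), (0,0,1,0)], 6),
  ([(6,0,-1,1), (0,0,0,-1), (0,0,1,0)], 6),
  ([(0,0,0,2), (12,1,1,-2), (0,-1,-1,0)], 12),
  ([(12,1,1,2), (0,-1,-1,2), (0,0,0,-4)], 12),
  ([(12,1,1,2), (0,1,1,-2), (0,-2,-2,0)], 12),
  ([(6,-1,0,1), (0,-1,0,-1), (0,2,0,0)], 6),
  ([(6,-1,0,1), (0,1,0,1), (0,0,0,-2)], 6)]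

theorem model_at_3 (x : Fin 11 → ℝ) (hx : x ∈ P11) (hv : x 3 ≠ 0) :
    ∃ N : Set (Fin 11 → ℝ), N ⊆ P11 ∧ N ∈ nhdsWithin x P11 ∧ ∃ f : (Fin 11 → ℝ) → (Fin 3 → ℝ),
      IsPLOn f N ∧ BijOn f N (coneSet (toL (modelZ 1))) ∧ f x ∈ coneInt (toL (modelZ 1)) :=
  star_model 3 ms3 (modelZ 1) ch3 (by decide +kernel)
    (chart_unique _ sc3 sd3 (by decide +kernel)) x hx hv

def ms4 : List Pt := [(0,0,-6), (0,0,0), (0,0,0), (0,0,6), (0,0,0), (0,0,0), (6,0,0), (3,0,-3), (0,6,0), (-6,-6,0), (0,0,0)]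

def ch4 : List (List ℕ) := [[3, 6], [6, 7, 0], [3, 8], [8, 0], [3, 9], [9, 0]]

def sc4 : List (List Fn) := [[(0,0,0,1), (0,1,0,2), (0,1,-1,0), (0,1,-1,1), (0,1,0,1), (0,1,0,0)],
  [(0,1,0,1), (0,1,-1,-1), (0,2,-1,1), (0,2,0,1), (0,1,0,-1)],
  [(0,0,-1,-1), (0,1,-1,0), (0,1,0,0), (0,0,1,-1)],
  [(0,0,0,1), (0,0,1,1), (0,0,1,0)],
  [(0,0,1,0), (0,0,1,-1)],
  [(0,0,0,-1)],
  []]

def sd4 : List (List Fn × ℤ) := [([(0,0,0,1), (6,-1,0,-1), (0,1,0,0)], 6),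
  ([(6,-1,0,1), (0,1,0,1), (0,0,0,-2)], 6),
  ([(0,-1,0,-1), (6,-1,0,1), (0,2,0,0)], 6),
  ([(0,0,0,1), (6,0,-1,-1), (0,0,1,0)], 6),
  ([(0,0,0,-1), (6,0,-1,1), (0,0,1,0)], 6),
  ([(0,0,0,-2), (12,1,1,2), (0,-1,-1,0)], 12),
  ([(0,0,0,2), (12,1,1,-2), (0,-1,-1,0)], 12)]

theorem model_at_4 (x : Fin 11 → ℝ) (hx : x ∈ P11) (hv : x 4 ≠ 0) :
    ∃ N : Set (Fin 11 → ℝ), N ⊆ P11 ∧ N ∈ nhdsWithin x P11 ∧ ∃ f : (Fin 11 → ℝ) → (Fin 3 → ℝ),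
      IsPLOn f N ∧ BijOn f N (coneSet (toL (modelZ 1))) ∧ f x ∈ coneInt (toL (modelZ 1)) :=
  star_model 4 ms4 (modelZ 1) ch4 (by decide +kernel)
    (chart_unique _ sc4 sd4 (by decide +kernel)) x hx hv

def ms5 : List Pt := [(6,0,0), (4,2,0), (2,4,0), (0,-3,0), (0,0,0), (0,0,0), (0,6,0), (-2,2,0), (-4,-2,0), (-6,-6,0), (0,0,0)]

def ch5 : List (List ℕ) := [[0, 1, 2, 6], [6, 7, 8, 9], [9, 3, 0]]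

def sc5 : List (List Fn) := [[(0,0,-1,0), (0,1,-3,0), (0,1,-1,0), (0,1,0,0), (0,1,-1,0), (0,1,-1,0), (0,2,-1,0)],
  [(0,1,-2,0), (0,1,-1,0), (0,1,1,0), (0,1,-1,0), (0,1,0,0), (0,1,0,0)],
  [(0,2,-1,0), (0,0,1,0), (0,3,-1,0), (0,1,0,0), (0,0,1,0)],
  [(0,0,1,0), (0,1,0,0), (0,2,1,0), (0,0,1,0)],
  [(0,0,-1,0), (0,2,-3,0), (0,1,-1,0)],
  [(0,1,1,0), (0,0,1,0)],
  [(0,-1,2,0)],
  []]

def sd5 : List (List Fn × ℤ) := [([(0,1,0,0), (0,0,-2,0), (6,-1,2,0)], 6),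
  ([(0,1,-2,0), (0,0,3,0), (6,-1,-1,0)], 6),
  ([(0,2,-1,0), (0,-1,2,0), (6,-1,-1,0)], 6),
  ([(0,3,0,0), (6,-1,-1,0), (0,-2,1,0)], 6),
  ([(0,2,-2,0), (6,-1,2,0), (0,-1,0,0)], 6),
  ([(6,2,-1,0), (0,1,1,0), (0,-3,0,0)], 6),
  ([(6,2,-1,0), (0,-1,2,0), (0,-1,-1,0)], 6),
  ([(6,2,-1,0), (0,-3,3,0), (0,1,-2,0)], 6)]

theorem model_at_5 (x : Fin 11 → ℝ) (hx : x ∈ P11) (hv : x 5 ≠ 0) :
    ∃ N : Set (Fin 11 → ℝ), N ⊆ P11 ∧ N ∈ nhdsWithin x P11 ∧ ∃ f : (Fin 11 → ℝ) → (Fin 3 → ℝ),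
      IsPLOn f N ∧ BijOn f N (coneSet (toL (modelZ 0))) ∧ f x ∈ coneInt (toL (modelZ 0)) :=
  star_model 5 ms5 (modelZ 0) ch5 (by decide +kernel)
    (chart_unique _ sc5 sd5 (by decide +kernel)) x hx hv

def ms6 : List Pt := [(6,0,0), (0,0,0), (3,3,0), (0,-3,0), (-6,-6,0), (0,6,0), (0,0,0), (-3,0,0), (0,0,0), (0,0,0), (0,0,0)]

def ch6 : List (List ℕ) := [[0, 2, 5], [5, 7, 4], [4, 3, 0]]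

def sc6 : List (List Fn) := [[(0,-1,1,0), (0,-1,2,0), (0,0,1,0), (0,1,1,0), (0,1,0,0)],
  [(0,0,1,0), (0,1,1,0), (0,1,0,0), (0,2,-1,0)],
  [(0,1,0,0), (0,2,-1,0), (0,1,-1,0)],
  [(0,1,-1,0), (0,1,-2,0)],
  [(0,0,-1,0)],
  []]

def sd6 : List (List Fn × ℤ) := [([(0,2,0,0), (0,-1,1,0), (6,-1,-1,0)], 6),
  ([(0,1,-1,0), (0,0,2,0), (6,-1,-1,0)], 6),
  ([(0,1,0,0), (0,0,-2,0), (6,-1,2,0)], 6),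
  ([(0,2,-2,0), (0,-1,0,0), (6,-1,2,0)], 6),
  ([(0,0,-1,0), (6,2,-1,0), (0,-2,2,0)], 6),
  ([(0,0,1,0), (6,2,-1,0), (0,-2,0,0)], 6)]

theorem model_at_6 (x : Fin 11 → ℝ) (hx : x ∈ P11) (hv : x 6 ≠ 0) :
    ∃ N : Set (Fin 11 → ℝ), N ⊆ P11 ∧ N ∈ nhdsWithin x P11 ∧ ∃ f : (Fin 11 → ℝ) → (Fin 3 → ℝ),
      IsPLOn f N ∧ BijOn f N (coneSet (toL (modelZ 0))) ∧ f x ∈ coneInt (toL (modelZ 0)) :=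
  star_model 6 ms6 (modelZ 0) ch6 (by decide +kernel)
    (chart_unique _ sc6 sd6 (by decide +kernel)) x hx hv

def ms7 : List Pt := [(6,0,0), (0,0,0), (0,0,0), (3,3,0), (0,-3,0), (-3,0,0), (-6,-6,0), (0,0,0), (0,6,0), (0,0,0), (0,0,0)]

def ch7 : List (List ℕ) := [[0, 3, 8], [8, 5, 6], [6, 4, 0]]

def sc7 : List (List Fn) := [[(0,-1,0,0), (0,-1,-1,0), (0,0,-1,0), (0,1,-1,0), (0,1,-2,0)],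
  [(0,0,-1,0), (0,1,-2,0), (0,2,-1,0), (0,1,-1,0)],
  [(0,1,-1,0), (0,1,0,0), (0,2,-1,0)],
  [(0,1,1,0), (0,1,0,0)],
  [(0,0,-1,0)],
  []]

def sd7 : List (List Fn × ℤ) := [([(0,2,-2,0), (0,-1,0,0), (6,-1,2,0)], 6),
  ([(0,1,0,0), (0,0,-2,0), (6,-1,2,0)], 6),
  ([(0,1,-1,0), (0,0,2,0), (6,-1,-1,0)], 6),
  ([(0,2,0,0), (6,-1,-1,0), (0,-1,1,0)], 6),
  ([(0,-2,2,0), (0,0,-1,0), (6,2,-1,0)], 6),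
  ([(0,-2,0,0), (6,2,-1,0), (0,0,1,0)], 6)]

theorem model_at_7 (x : Fin 11 → ℝ) (hx : x ∈ P11) (hv : x 7 ≠ 0) :
    ∃ N : Set (Fin 11 → ℝ), N ⊆ P11 ∧ N ∈ nhdsWithin x P11 ∧ ∃ f : (Fin 11 → ℝ) → (Fin 3 → ℝ),
      IsPLOn f N ∧ BijOn f N (coneSet (toL (modelZ 0))) ∧ f x ∈ coneInt (toL (modelZ 0)) :=
  star_model 7 ms7 (modelZ 0) ch7 (by decide +kernel)
    (chart_unique _ sc7 sd7 (by decide +kernel)) x hx hv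

def ms8 : List Pt := [(6,0,0), (2,4,0), (4,2,0), (-6,-6,0), (0,-3,0), (-2,2,0), (0,0,0), (-4,-2,0), (0,0,0), (0,6,0), (0,0,0)]

def ch8 : List (List ℕ) := [[0, 2, 1, 9], [9, 5, 7, 3], [3, 4, 0]]

def sc8 : List (List Fn) := [[(0,-1,1,0), (0,-2,1,0), (0,-1,0,0), (0,-1,0,0), (0,0,-1,0), (0,1,-2,0), (0,0,-1,0)],
  [(0,-1,0,0), (0,-1,-1,0), (0,0,-1,0), (0,0,-1,0), (0,2,-3,0), (0,0,-1,0)],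
  [(0,0,-1,0), (0,1,-3,0), (0,1,-1,0), (0,1,-1,0), (0,1,-1,0)],
  [(0,1,-2,0), (0,1,-1,0), (0,1,0,0), (0,1,-1,0)],
  [(0,2,-1,0), (0,1,0,0), (0,3,-1,0)],
  [(0,2,1,0), (0,1,0,0)],
  [(0,-1,-1,0)],
  []]

def sd8 : List (List Fn × ℤ) := [([(0,1,-2,0), (0,-3,3,0), (6,2,-1,0)], 6),
  ([(0,-1,0,0), (0,2,-2,0), (6,-1,2,0)], 6),
  ([(0,1,0,0), (0,0,-2,0), (6,-1,2,0)], 6),
  ([(0,1,-2,0), (0,0,3,0), (6,-1,-1,0)], 6),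
  ([(0,-1,2,0), (0,2,-1,0), (6,-1,-1,0)], 6),
  ([(0,3,0,0), (6,-1,-1,0), (0,-2,1,0)], 6),
  ([(0,-1,2,0), (0,-1,-1,0), (6,2,-1,0)], 6),
  ([(0,-3,0,0), (6,2,-1,0), (0,1,1,0)], 6)]

theorem model_at_8 (x : Fin 11 → ℝ) (hx : x ∈ P11) (hv : x 8 ≠ 0) :
    ∃ N : Set (Fin 11 → ℝ), N ⊆ P11 ∧ N ∈ nhdsWithin x P11 ∧ ∃ f : (Fin 11 → ℝ) → (Fin 3 → ℝ),
      IsPLOn f N ∧ BijOn f N (coneSet (toL (modelZ 0))) ∧ f x ∈ coneInt (toL (modelZ 0)) :=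
  star_model 8 ms8 (modelZ 0) ch8 (by decide +kernel)
    (chart_unique _ sc8 sd8 (by decide +kernel)) x hx hv

def ms9 : List Pt := [(6,0,0), (3,3,0), (0,0,0), (-6,-6,0), (0,-3,0), (-3,0,0), (0,0,0), (0,0,0), (0,6,0), (0,0,0), (0,0,0)]

def ch9 : List (List ℕ) := [[0, 1, 8], [8, 5, 3], [3, 4, 0]]

def sc9 : List (List Fn) := [[(0,-1,1,0), (0,-1,2,0), (0,0,1,0), (0,1,1,0), (0,1,0,0)],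
  [(0,0,1,0), (0,1,1,0), (0,1,0,0), (0,2,-1,0)],
  [(0,1,0,0), (0,2,-1,0), (0,1,-1,0)],
  [(0,1,-1,0), (0,1,-2,0)],
  [(0,0,-1,0)],
  []]

def sd9 : List (List Fn × ℤ) := [([(0,2,0,0), (0,-1,1,0), (6,-1,-1,0)], 6),
  ([(0,1,-1,0), (0,0,2,0), (6,-1,-1,0)], 6),
  ([(0,1,0,0), (0,0,-2,0), (6,-1,2,0)], 6),
  ([(0,-1,0,0), (0,2,-2,0), (6,-1,2,0)], 6),
  ([(0,0,-1,0), (0,-2,2,0), (6,2,-1,0)], 6),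
  ([(0,-2,0,0), (0,0,1,0), (6,2,-1,0)], 6)]

theorem model_at_9 (x : Fin 11 → ℝ) (hx : x ∈ P11) (hv : x 9 ≠ 0) :
    ∃ N : Set (Fin 11 → ℝ), N ⊆ P11 ∧ N ∈ nhdsWithin x P11 ∧ ∃ f : (Fin 11 → ℝ) → (Fin 3 → ℝ),
      IsPLOn f N ∧ BijOn f N (coneSet (toL (modelZ 0))) ∧ f x ∈ coneInt (toL (modelZ 0)) :=
  star_model 9 ms9 (modelZ 0) ch9 (by decide +kernel)
    (chart_unique _ sc9 sd9 (by decide +kernel)) x hx hv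

def ms10 : List Pt := [(6,0,0), (0,6,0), (-6,-6,0), (0,0,0), (0,0,0), (0,0,0), (0,0,0), (0,0,0), (0,0,0), (0,0,0), (0,0,0)]

def ch10 : List (List ℕ) := [[0, 1], [1, 2], [2, 0]]

def sc10 : List (List Fn) := [[(0,1,0,0), (0,0,1,0)],
  [(0,-1,1,0)],
  []]

def sd10 : List (List Fn × ℤ) := [([(0,1,0,0), (0,0,1,0), (6,-1,-1,0)], 6),
  ([(0,-1,1,0), (0,-1,0,0), (6,2,-1,0)], 6),
  ([(0,1,-1,0), (0,0,-1,0), (6,-1,2,0)], 6)]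

theorem model_at_10 (x : Fin 11 → ℝ) (hx : x ∈ P11) (hv : x 10 ≠ 0) :
    ∃ N : Set (Fin 11 → ℝ), N ⊆ P11 ∧ N ∈ nhdsWithin x P11 ∧ ∃ f : (Fin 11 → ℝ) → (Fin 3 → ℝ),
      IsPLOn f N ∧ BijOn f N (coneSet (toL (modelZ 0))) ∧ f x ∈ coneInt (toL (modelZ 0)) :=
  star_model 10 ms10 (modelZ 0) ch10 (by decide +kernel)
    (chart_unique _ sc10 sd10 (by decide +kernel)) x hx hv

end RPF
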