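import Pool.Agent.Helper876.RP.Checks
import Pool.Agent.Helper876.RP.Cov
import Pool.Agent.Helper876.RP.Stars
import Pool.Agent.Helper876.RP.Coll
import Pool.Agent.Helper876.RP.P_kappa_all
import Pool.Agent.Helper876.RP.P_phi_all
import Pool.Agent.Helper876.RP.P_p11_polyhedron
import Pool.Agent.Helper876.RP.P_p11_connected
import Pool.Agent.Helper876.RP.P_model_eq

namespace RPF
open Set

theorem p11_embeds : EmbedsPuncturedRP3 (P11 ×ˢ Icc (0 : ℝ) 1) := by
  obtain ⟨κ, hκ⟩ := kappa_all pcells exits kcharts ck_pc ck_psys ck_kcharts ck_p4 ck_p5 ck_p6 ck_p7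
  exact phi_all pcells exits κ hκ fcharts tets ck_t1 ck_tsys ck_fcharts
    (chart_unique _ _ _ ck_dm) covP ck_tr ck_tZ ck_tQ ck_cons ck_tanti ck_ap covQ

theorem p11_models (x : Fin 11 → ℝ) (hx : x ∈ P11) :
    ∃ L, (L = diskL ∨ L = pagesL ∨ L = k4L) ∧ ∃ N : Set (Fin 11 → ℝ), N ⊆ P11 ∧
      N ∈ nhdsWithin x P11 ∧ ∃ f : (Fin 11 → ℝ) → (Fin 3 → ℝ), IsPLOn f N ∧
        BijOn f N (coneSet L) ∧ f x ∈ coneInt L := by
  have key : ∀ k : ℕ, k < 3 → toL (modelZ k) = diskL ∨ toL (modelZ k) = pagesL ∨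
      toL (modelZ k) = k4L := by
    intro k hk
    interval_cases k
    · exact Or.inl model_eq.1
    · exact Or.inr (Or.inl model_eq.2.1)
    · exact Or.inr (Or.inr model_eq.2.2)
  have hne : ∃ i : Fin 11, x i ≠ 0 := by
    by_contra h
    push Not at h
    have := hx.2.1
    simp [h] at this
  obtain ⟨i, hi⟩ := hne
  fin_cases i
  · exact ⟨_, key 2 (by norm_num), model_at_0 x hx hi⟩
  · exact ⟨_, key 1 (by norm_num), model_at_1 x hx hi⟩
  · exact ⟨_, key 1 (by norm_num), model_at_2 x hx hi⟩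
  · exact ⟨_, key 1 (by norm_num), model_at_3 x hx hi⟩
  · exact ⟨_, key 1 (by norm_num), model_at_4 x hx hi⟩
  · exact ⟨_, key 0 (by norm_num), model_at_5 x hx hi⟩
  · exact ⟨_, key 0 (by norm_num), model_at_6 x hx hi⟩
  · exact ⟨_, key 0 (by norm_num), model_at_7 x hx hi⟩
  · exact ⟨_, key 0 (by norm_num), model_at_8 x hx hi⟩
  · exact ⟨_, key 0 (by norm_num), model_at_9 x hx hi⟩
  · exact ⟨_, key 0 (by norm_num), model_at_10 x hx hi⟩

theorem p11_fake : IsFakeSurface P11 :=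
  ⟨p11_polyhedron, p11_connected, p11_models⟩

end RPF
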