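import Pool.Agent.Helper876.RP.Defs



namespace RPF
open Set


theorem cs_mem_toFs (m : ℕ) (i : Fin 22) : i ∈ toFs m ↔ m.testBit (i : ℕ) = true := by
  simp [toFs]

theorem cs_sub (τ m : ℕ) (hτ : τ < 2 ^ 22) : toFs τ ⊆ toFs m ↔ m &&& τ = τ := by
  constructor
  · intro h
    apply Nat.eq_of_testBit_eq
    intro i
    rw [Nat.testBit_land]
    by_cases hi : τ.testBit i = true
    · have hlt : i < 22 := by
        by_contra hge
        have h1 : τ < 2 ^ i := lt_of_lt_of_le hτ (Nat.pow_le_pow_right (by norm_num) (by omega))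
        rw [Nat.testBit_lt_two_pow h1] at hi
        exact absurd hi (by simp)
      have h2 : (⟨i, hlt⟩ : Fin 22) ∈ toFs m := h ((cs_mem_toFs τ ⟨i, hlt⟩).2 hi)
      rw [cs_mem_toFs] at h2
      simp only at h2
      rw [h2, hi]; rfl
    · have hi' : τ.testBit i = false := by simpa using hi
      rw [hi', Bool.and_false]
  · intro h i hi
    rw [cs_mem_toFs] at hi ⊢
    have h1 : (m &&& τ).testBit (i : ℕ) = true := by rw [h]; exact hi
    rw [Nat.testBit_land] at h1
    simp only [Bool.and_eq_true] at h1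
    exact h1.1

theorem cs_inj (τ m : ℕ) (hτ : τ < 2 ^ 22) (hm : m < 2 ^ 22) (h : toFs τ = toFs m) : τ = m := by
  have h1 := (cs_sub τ m hτ).1 (by rw [h])
  have h2 := (cs_sub m τ hm).1 (by rw [h])
  rw [Nat.land_comm] at h2
  rw [← h1, h2]

theorem cs_mem_faces (st : List (ℕ × ℕ)) (fin m : ℕ) :
    m ∈ facesOf st fin ↔ (∃ z ∈ st, m = z.1 ∨ m = z.2) ∨ m = fin := by
  simp only [facesOf, List.mem_append, List.mem_flatMap, List.mem_cons, List.not_mem_nil,
    or_false]

theorem cs_faces_cons (x : ℕ × ℕ) (rest : List (ℕ × ℕ)) (fin : ℕ) :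
    facesOf (x :: rest) fin = x.1 :: x.2 :: facesOf rest fin := by
  simp [facesOf]

theorem coll_sound (st : List (ℕ × ℕ)) (v : Fin 22) (h : collB st (2 ^ (v : ℕ)) = true)
    (hb : ∀ m ∈ facesOf st (2 ^ (v : ℕ)), m < 2 ^ 22) :
    Relation.ReflTransGen ElemCollapse ((facesOf st (2 ^ (v : ℕ))).map toFs).toFinset {{v}} := by
  induction st with
  | nil =>
    have : ((facesOf [] (2 ^ (v : ℕ))).map toFs).toFinset = {{v}} := by
      have e : toFs (2 ^ (v : ℕ)) = {v} := by
        ext i
        rw [cs_mem_toFs, Nat.testBit_two_pow, Finset.mem_singleton]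
        simp only [decide_eq_true_eq]
        exact ⟨fun h => Fin.ext h.symm, fun h => by rw [h]⟩
      simp [facesOf, e]
    rw [this]
  | cons x rest ih =>
    simp only [collB, Bool.and_eq_true, decide_eq_true_eq, List.all_eq_true] at h
    obtain ⟨⟨⟨⟨h1, h2⟩, h3⟩, h4⟩, h5⟩ := h
    have hb' : ∀ m ∈ facesOf rest (2 ^ (v : ℕ)), m < 2 ^ 22 := fun m hm => hb m (by
      rw [cs_faces_cons]; exact List.mem_cons_of_mem _ (List.mem_cons_of_mem _ hm))
    have hx1 : x.1 < 2 ^ 22 := hb x.1 (by rw [cs_faces_cons]; exact List.mem_cons_self)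
    have hx2 : x.2 < 2 ^ 22 := hb x.2 (by
      rw [cs_faces_cons]; exact List.mem_cons_of_mem _ List.mem_cons_self)
    have hlater : ∀ m ∈ facesOf rest (2 ^ (v : ℕ)), ¬ toFs x.1 ⊆ toFs m := by
      intro m hm
      rw [cs_sub x.1 m hx1]
      rw [cs_mem_faces] at hm
      rcases hm with ⟨z, hz, hm⟩ | hm
      · rcases hm with hm | hm
        · rw [hm]; exact (h3 z hz).1
        · rw [hm]; exact (h3 z hz).2
      · rw [hm]; exact h4
    have hsub : toFs x.1 ⊆ toFs x.2 := (cs_sub x.1 x.2 hx1).2 h1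
    have hne : toFs x.1 ≠ toFs x.2 := fun he => h2 (cs_inj x.1 x.2 hx1 hx2 he).symm
    refine Relation.ReflTransGen.head ?_ (ih h5 hb')
    have hK : ∀ ρ, ρ ∈ ((facesOf (x :: rest) (2 ^ (v : ℕ))).map toFs).toFinset ↔
        ρ = toFs x.1 ∨ ρ = toFs x.2 ∨ ρ ∈ ((facesOf rest (2 ^ (v : ℕ))).map toFs).toFinset := by
      intro ρ
      rw [cs_faces_cons]
      simp only [List.map_cons, List.toFinset_cons, Finset.mem_insert]
    refine ⟨toFs x.1, (hK _).2 (Or.inl rfl), toFs x.2, (hK _).2 (Or.inr (Or.inl rfl)),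
      (Finset.ssubset_iff_subset_ne.2 ⟨hsub, hne⟩), ?_, ?_⟩
    · intro ρ hρ hss
      rcases (hK ρ).1 hρ with h | h | h
      · rw [h] at hss; exact absurd rfl hss.ne
      · exact h
      · rw [List.mem_toFinset, List.mem_map] at h
        obtain ⟨m, hm, rfl⟩ := h
        exact absurd hss.subset (hlater m hm)
    · ext ρ
      rw [Finset.mem_erase, Finset.mem_erase, hK]
      constructor
      · intro h
        refine ⟨?_, ?_, Or.inr (Or.inr h)⟩
        · rintro rfl
          rw [List.mem_toFinset, List.mem_map] at h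
          obtain ⟨m, hm, he⟩ := h
          exact hlater m hm (by rw [he])
        · rintro rfl
          rw [List.mem_toFinset, List.mem_map] at h
          obtain ⟨m, hm, he⟩ := h
          exact hlater m hm (by rw [he]; exact hsub)
      · rintro ⟨ha, hb'', h | h | h⟩
        · exact absurd h ha
        · exact absurd h hb''
        · exact h

end RPF
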