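import Pool.Agent.Helper876.RP.Defs



namespace RPF
open Set


theorem k22_chk : ∀ t ∈ topsL, ∀ s ∈ t.sublists, ∀ i < 22,
    ((maskOf s).testBit i = true ↔ i ∈ s) := by
  decide +kernel

theorem k22_lt : ∀ t ∈ topsL, ∀ v ∈ t, v < 22 := by
  decide +kernel

theorem k22_faces (fs : List ℕ)
    (h1 : ∀ m ∈ fs, m ≠ 0 ∧ m < 2 ^ 22 ∧ ∃ t ∈ topsL, maskOf t &&& m = m)
    (h2 : ∀ t ∈ topsL, ∀ s ∈ t.sublists, s = [] ∨ maskOf s ∈ fs) :
    K22 = (fs.map toFs).toFinset := by
  ext σ
  simp only [K22, Finset.mem_filter, Finset.mem_univ, true_and, List.mem_toFinset, List.mem_map]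
  constructor
  · rintro ⟨⟨v0, hv0⟩, t, ht, hσ⟩
    classical
    set s : List ℕ := t.filter (fun v => decide (∃ h : v < 22, (⟨v, h⟩ : Fin 22) ∈ σ)) with hs
    have hsub : s ∈ t.sublists := List.mem_sublists.mpr List.filter_sublist
    have hmem : ∀ i : Fin 22, (i : ℕ) ∈ s ↔ i ∈ σ := by
      intro i
      rw [hs, List.mem_filter]
      constructor
      · rintro ⟨_, h⟩
        obtain ⟨_, h⟩ := of_decide_eq_true h
        exact h
      · intro h
        exact ⟨hσ i h, decide_eq_true ⟨i.2, h⟩⟩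
    rcases h2 t ht s hsub with h | h
    · have := (hmem v0).mpr hv0
      rw [h] at this
      simp at this
    · refine ⟨maskOf s, h, ?_⟩
      ext i
      rw [toFs, Finset.mem_filter]
      simp only [Finset.mem_univ, true_and]
      rw [k22_chk t ht s hsub i i.2, hmem]
  · rintro ⟨m, hm, rfl⟩
    obtain ⟨hm0, hm1, t, ht, hmt⟩ := h1 m hm
    have hself : t ∈ t.sublists := List.mem_sublists.mpr (List.Sublist.refl t)
    refine ⟨?_, t, ht, ?_⟩
    · obtain ⟨i, hi⟩ := Nat.exists_testBit_of_ne_zero hm0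
      have hi22 : i < 22 := by
        by_contra hc
        push Not at hc
        have : m < 2 ^ i := lt_of_lt_of_le hm1 (Nat.pow_le_pow_right (by norm_num) hc)
        rw [Nat.testBit_lt_two_pow this] at hi
        exact Bool.false_ne_true hi
      exact ⟨⟨i, hi22⟩, by simp [toFs, hi]⟩
    · intro v hv
      have hv' : m.testBit v = true := by
        simpa [toFs] using hv
      rw [← k22_chk t ht t hself v v.2]
      rw [← hmt, Nat.testBit_and] at hv'
      exact (Bool.and_eq_true_iff.mp hv').1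

end RPF
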