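import Pool.Agent.Helper876.RP.Defs



namespace RPF
open Set


theorem tri_sum (w : Fin 22 → ℝ) : ∑ v, w v • pos22 v =
    (fun i : Fin 11 => w ⟨i, by omega⟩ + w ⟨i + 11, by omega⟩,
      ∑ i : Fin 11, w ⟨(i : ℕ) + 11, by omega⟩) := by
  refine Prod.ext ?_ ?_
  · funext i
    simp only [Prod.fst_sum, Finset.sum_apply]
    fin_cases i <;> simp [pos22, Fin.sum_univ_succ]
  · simp only [Prod.snd_sum]
    simp [pos22, Fin.sum_univ_succ]

end RPF
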