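import Pool.Agent.Helper876.RP.Defs
import Pool.Agent.Helper876.RP.P_tri_sum



namespace RPF
open Set


/-- tail sums -/
noncomputable def tlF (y : Fin 11 → ℝ) (k : ℕ) : ℝ := ∑ u : Fin 11, if k ≤ (u : ℕ) then y u else 0

theorem tlF_zero (y : Fin 11 → ℝ) : tlF y 0 = ∑ u, y u := by
  unfold tlF
  simp

theorem tlF_eleven (y : Fin 11 → ℝ) : tlF y 11 = 0 := by
  unfold tlF
  apply Finset.sum_eq_zero
  intro u _
  rw [if_neg (by omega)]

theorem tlF_step (y : Fin 11 → ℝ) (i : Fin 11) : tlF y i - tlF y ((i : ℕ) + 1) = y i := by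
  unfold tlF
  rw [← Finset.sum_sub_distrib]
  rw [Finset.sum_eq_single i]
  · rw [if_pos le_rfl, if_neg (by omega)]; ring
  · intro u _ hu
    by_cases h1 : (i : ℕ) ≤ u
    · have h2 : (i : ℕ) + 1 ≤ u := by
        have : (i : ℕ) ≠ u := fun h => hu (Fin.ext h.symm)
        omega
      rw [if_pos h1, if_pos h2]; ring
    · rw [if_neg h1, if_neg (by omega)]; ring
  · intro h; exact absurd (Finset.mem_univ _) h

theorem tlF_anti (y : Fin 11 → ℝ) (hy : ∀ i, 0 ≤ y i) (k l : ℕ) (h : k ≤ l) :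
    tlF y l ≤ tlF y k := by
  unfold tlF
  apply Finset.sum_le_sum
  intro u _
  by_cases h1 : l ≤ (u : ℕ)
  · rw [if_pos h1, if_pos (h.trans h1)]
  · rw [if_neg h1]
    split_ifs
    · exact hy u
    · exact le_rfl

/-- upper weights -/
noncomputable def upB (y : Fin 11 → ℝ) (t : ℝ) (k : ℕ) : ℝ := min t (tlF y k) - min t (tlF y (k + 1))

theorem upB_nonneg (y : Fin 11 → ℝ) (hy : ∀ i, 0 ≤ y i) (t : ℝ) (k : ℕ) : 0 ≤ upB y t k := by
  unfold upB
  have := min_le_min_left t (tlF_anti y hy k (k+1) (Nat.le_succ k))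
  linarith

theorem upB_le (y : Fin 11 → ℝ) (hy : ∀ i, 0 ≤ y i) (t : ℝ) (i : Fin 11) : upB y t i ≤ y i := by
  have h1 := tlF_step y i
  have h2 := hy i
  unfold upB
  rcases le_total t (tlF y i) with h3 | h3 <;> rcases le_total t (tlF y ((i:ℕ)+1)) with h4 | h4 <;>
    simp only [min_eq_left, min_eq_right, h3, h4] <;> linarith

theorem upB_ne (y : Fin 11 → ℝ) (hy : ∀ i, 0 ≤ y i) (t : ℝ) (i : Fin 11) (h : upB y t i ≠ 0) :
    y i ≠ 0 ∧ tlF y ((i : ℕ) + 1) < t := by
  constructor
  · intro h0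
    exact h (le_antisymm (by rw [← h0]; exact upB_le y hy t i) (upB_nonneg y hy t i))
  · by_contra hcon
    push Not at hcon
    apply h
    unfold upB
    rw [min_eq_left hcon, min_eq_left (hcon.trans (tlF_anti y hy _ _ (Nat.le_succ _)))]
    ring

theorem loB_ne (y : Fin 11 → ℝ) (hy : ∀ i, 0 ≤ y i) (t : ℝ) (i : Fin 11)
    (h : y i - upB y t i ≠ 0) : y i ≠ 0 ∧ t < tlF y i := by
  constructor
  · intro h0
    apply h
    have h1 := upB_le y hy t i
    have h2 := upB_nonneg y hy t i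
    linarith
  · by_contra hcon
    push Not at hcon
    apply h
    unfold upB
    rw [min_eq_right hcon, min_eq_right ((tlF_anti y hy _ _ (Nat.le_succ _)).trans hcon)]
    have := tlF_step y i
    linarith

theorem upB_sum (y : Fin 11 → ℝ) (hs : ∑ i, y i = 1) (t : ℝ) (ht : t ∈ Icc (0 : ℝ) 1) :
    ∑ i : Fin 11, upB y t (i : ℕ) = t := by
  rw [Fin.sum_univ_eq_sum_range (fun k => upB y t k) 11]
  have : ∀ k, upB y t k = (fun k => min t (tlF y k)) k - (fun k => min t (tlF y k)) (k + 1) :=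
    fun k => rfl
  simp only [this]
  rw [Finset.sum_range_sub']
  rw [tlF_zero, tlF_eleven, hs, min_eq_left ht.2, min_eq_right ht.1]
  ring

/-- the weight -/
noncomputable def w22 (y : Fin 11 → ℝ) (t : ℝ) (v : Fin 22) : ℝ :=
  if h : (v : ℕ) < 11 then y ⟨v, h⟩ - upB y t v else upB y t ((v : ℕ) - 11)

theorem w22_lo (y : Fin 11 → ℝ) (t : ℝ) (i : Fin 11) :
    w22 y t ⟨i, by omega⟩ = y i - upB y t i := by
  unfold w22
  rw [dif_pos i.2]

theorem w22_hi (y : Fin 11 → ℝ) (t : ℝ) (i : Fin 11) :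
    w22 y t ⟨(i : ℕ) + 11, by omega⟩ = upB y t i := by
  unfold w22
  rw [dif_neg (by simp)]
  simp

theorem exists_split (T : List ℕ) (hT : T ≠ []) (p : ℕ → Prop) :
    ∃ m ∈ T, (∀ i ∈ T, p i → i ≤ m) ∧ ((p m) ∨ ∀ i ∈ T, m ≤ i) := by
  classical
  by_cases h : (T.filter (fun i => decide (p i))) = []
  · obtain ⟨m, hm⟩ : ∃ m, m ∈ T.toFinset ∧ ∀ i ∈ T.toFinset, m ≤ i := by
      have hne : T.toFinset.Nonempty := by
        rw [List.toFinset_nonempty_iff]; exact hT
      exact ⟨T.toFinset.min' hne, Finset.min'_mem _ _, fun i hi => Finset.min'_le _ _ hi⟩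
    refine ⟨m, List.mem_toFinset.1 hm.1, ?_, Or.inr fun i hi => hm.2 i (List.mem_toFinset.2 hi)⟩
    intro i hi hp
    exfalso
    have : i ∈ T.filter (fun i => decide (p i)) := by
      rw [List.mem_filter]; exact ⟨hi, by simpa using hp⟩
    rw [h] at this
    simp at this
  · have hne : (T.filter (fun i => decide (p i))).toFinset.Nonempty := by
      rw [List.toFinset_nonempty_iff]; exact h
    have hm := Finset.max'_mem _ hne
    rw [List.mem_toFinset, List.mem_filter] at hm
    refine ⟨(T.filter (fun i => decide (p i))).toFinset.max' hne, hm.1, ?_, Or.inl (by simpa using hm.2)⟩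
    intro i hi hp
    apply Finset.le_max'
    rw [List.mem_toFinset, List.mem_filter]
    exact ⟨hi, by simpa using hp⟩

theorem tri_exists (y : Fin 11 → ℝ) (t : ℝ) (hy : y ∈ P11) (ht : t ∈ Icc (0 : ℝ) 1) :
    ∃ w, IsWeight K22 w ∧ ∑ v, w v • pos22 v = (y, t) := by
  obtain ⟨hy0, hys, T, hT, hsupp⟩ := hy
  have hTne : T ≠ [] := by
    have : ∀ T ∈ KT, T ≠ [] := by decide
    exact this T hT
  obtain ⟨p, hpT, hp1, hp2⟩ := exists_split T hTne (fun k => t < tlF y k)
  have hcov : ∀ v : Fin 22, w22 y t v ≠ 0 → (v : ℕ) ∈ (T.filter (fun v => decide (v ≤ p)) ++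
      (T.filter (fun v => decide (p ≤ v))).map (· + 11)) := by
    intro v hv
    by_cases h : (v : ℕ) < 11
    · have h1 : w22 y t v = y ⟨v, h⟩ - upB y t v := by
        unfold w22; rw [dif_pos h]
      rw [h1] at hv
      have h2 := loB_ne y hy0 t ⟨v, h⟩ hv
      have h3 := hsupp _ h2.1
      rw [List.mem_append]
      left
      rw [List.mem_filter]
      exact ⟨h3, by simpa using hp1 _ h3 h2.2⟩
    · have hv11 : (v : ℕ) - 11 < 11 := by omega
      have h1 : w22 y t v = upB y t ((v : ℕ) - 11) := by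
        unfold w22; rw [dif_neg h]
      rw [h1] at hv
      have h2 := upB_ne y hy0 t ⟨(v : ℕ) - 11, hv11⟩ hv
      have h3 := hsupp _ h2.1
      rw [List.mem_append]
      right
      rw [List.mem_map]
      refine ⟨(v : ℕ) - 11, ?_, by omega⟩
      rw [List.mem_filter]
      refine ⟨h3, ?_⟩
      rw [decide_eq_true_eq]
      rcases hp2 with hp2 | hp2
      · by_contra hcon
        push Not at hcon
        have h4 := tlF_anti y hy0 ((v : ℕ) - 11 + 1) p hcon
        have h5 := h2.2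
        simp only at h5
        linarith
      · exact hp2 _ h3
  have hsum : ∑ v, w22 y t v = 1 := by
    have h1 : ∑ v : Fin (11 + 11), w22 y t v = (∑ i : Fin 11, w22 y t (Fin.castAdd 11 i)) +
      ∑ i : Fin 11, w22 y t (Fin.natAdd 11 i) := Fin.sum_univ_add _
    have h2 : ∀ i : Fin 11, w22 y t (Fin.castAdd 11 i) = y i - upB y t i := w22_lo y t
    have h3 : ∀ i : Fin 11, w22 y t (Fin.natAdd 11 i) = upB y t i := by
      intro i
      rw [← w22_hi y t i]
      congr 1
      apply Fin.ext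
      simp [Fin.natAdd, add_comm]
    simp only [h2, h3] at h1
    rw [Finset.sum_sub_distrib, sub_add_cancel, hys] at h1
    exact h1
  refine ⟨w22 y t, ⟨?_, hsum, Finset.univ.filter (fun v => w22 y t v ≠ 0), ?_, ?_⟩, ?_⟩
  · intro v
    unfold w22
    split_ifs with h
    · have := upB_le y hy0 t ⟨v, h⟩
      simp only at this
      linarith
    · exact upB_nonneg y hy0 t _
  · unfold K22
    rw [Finset.mem_filter]
    refine ⟨Finset.mem_univ _, ?_, ?_⟩
    · by_contra hcon
      rw [Finset.not_nonempty_iff_eq_empty] at hcon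
      have h1 : ∑ v, w22 y t v = 0 := by
        apply Finset.sum_eq_zero
        intro v _
        by_contra h2
        have : v ∈ Finset.univ.filter (fun v => w22 y t v ≠ 0) := by
          rw [Finset.mem_filter]; exact ⟨Finset.mem_univ _, h2⟩
        rw [hcon] at this
        simp at this
      rw [hsum] at h1
      exact one_ne_zero h1
    · refine ⟨_, ?_, fun v hv => hcov v (Finset.mem_filter.1 hv).2⟩
      unfold topsL
      rw [List.mem_flatMap]
      exact ⟨T, hT, List.mem_map.2 ⟨p, hpT, rfl⟩⟩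
  · intro v hv
    rw [Finset.mem_filter]
    exact ⟨Finset.mem_univ _, hv⟩
  · rw [tri_sum]
    refine Prod.ext ?_ ?_
    · funext i
      show w22 y t ⟨i, _⟩ + w22 y t ⟨(i : ℕ) + 11, _⟩ = y i
      rw [w22_lo, w22_hi]; ring
    · show ∑ i : Fin 11, w22 y t ⟨(i : ℕ) + 11, _⟩ = t
      simp only [w22_hi]
      exact upB_sum y hys t ht

end RPF
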