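import Pool.Agent.Helper876.RP.Defs
import Pool.Agent.Helper876.RP.P_tri_sum



namespace RPF
open Set


theorem KT_lt : ∀ T ∈ KT, ∀ a ∈ T, a < 11 := by decide

theorem tri_sound (w : Fin 22 → ℝ) (hw : IsWeight K22 w) :
    ∑ v, w v • pos22 v ∈ P11 ×ˢ Icc (0 : ℝ) 1 := by
  obtain ⟨h0, h1, σ, hσ, hsup⟩ := hw
  rw [tri_sum]
  have hsum : ∑ i : Fin 11, w ⟨i, by omega⟩ + ∑ i : Fin 11, w ⟨(i : ℕ) + 11, by omega⟩ = 1 := by
    rw [← h1]
    have h2 := Fin.sum_univ_add (a := 11) (b := 11) (f := w)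
    rw [h2]
    have h3 : ∑ i : Fin 11, w ⟨(i : ℕ) + 11, by omega⟩ = ∑ i : Fin 11, w (Fin.natAdd 11 i) := by
      apply Finset.sum_congr rfl
      intro i _
      congr 1
      apply Fin.ext
      show (i : ℕ) + 11 = 11 + (i : ℕ)
      omega
    rw [h3]
    rfl
  have hlo : 0 ≤ ∑ i : Fin 11, w ⟨i, by omega⟩ := Finset.sum_nonneg (fun i _ => h0 _)
  have hup : 0 ≤ ∑ i : Fin 11, w ⟨(i : ℕ) + 11, by omega⟩ := Finset.sum_nonneg (fun i _ => h0 _)
  unfold K22 at hσ
  rw [Finset.mem_filter] at hσ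
  obtain ⟨-, -, t, ht, hσt⟩ := hσ
  unfold topsL at ht
  rw [List.mem_flatMap] at ht
  obtain ⟨T, hT, ht⟩ := ht
  rw [List.mem_map] at ht
  obtain ⟨p, hp, rfl⟩ := ht
  refine ⟨⟨?_, ?_, T, hT, ?_⟩, ?_, ?_⟩
  · intro i
    exact add_nonneg (h0 _) (h0 _)
  · show ∑ i : Fin 11, (w ⟨i, by omega⟩ + w ⟨(i : ℕ) + 11, by omega⟩) = 1
    rw [Finset.sum_add_distrib]
    exact hsum
  · intro i hi
    have hi' : w ⟨i, by omega⟩ + w ⟨(i : ℕ) + 11, by omega⟩ ≠ 0 := hi
    by_cases hz : w ⟨i, by omega⟩ = 0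
    · rw [hz, zero_add] at hi'
      have h2 := hσt _ (hsup _ hi')
      rw [List.mem_append] at h2
      rcases h2 with h2 | h2
      · have h3 := (List.mem_filter.1 h2).1
        have h4 := KT_lt T hT _ h3
        simp only at h4
        omega
      · rw [List.mem_map] at h2
        obtain ⟨a, ha, hai⟩ := h2
        have h3 := (List.mem_filter.1 ha).1
        simp only at hai
        have h4 : a = (i : ℕ) := by omega
        rw [← h4]
        exact h3
    · have h2 := hσt _ (hsup _ hz)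
      rw [List.mem_append] at h2
      rcases h2 with h2 | h2
      · exact (List.mem_filter.1 h2).1
      · rw [List.mem_map] at h2
        obtain ⟨a, ha, hai⟩ := h2
        simp only at hai
        have := i.2
        omega
  · exact hup
  · show ∑ i : Fin 11, w ⟨(i : ℕ) + 11, by omega⟩ ≤ 1
    linarith

end RPF
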