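import Pool.Agent.Helper876.RP.Defs
import Pool.Agent.Helper876.RP.P_tri_sum



namespace RPF
open Set


theorem tri_unique_KT : ∀ T ∈ KT, ∀ v ∈ T, v < 11 := by decide

theorem tri_unique_supp (w : Fin 22 → ℝ) (hw : IsWeight K22 w) :
    ∃ p : ℕ, (∀ i : Fin 11, (i : ℕ) < p → w ⟨(i : ℕ) + 11, by omega⟩ = 0) ∧
      ∀ i : Fin 11, p < (i : ℕ) → w ⟨(i : ℕ), by omega⟩ = 0 := by
  obtain ⟨-, -, σ, hσ, hsupp⟩ := hw
  rw [K22, Finset.mem_filter] at hσ
  obtain ⟨-, -, t, ht, hσt⟩ := hσ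
  rw [topsL, List.mem_flatMap] at ht
  obtain ⟨T, hT, ht⟩ := ht
  rw [List.mem_map] at ht
  obtain ⟨p, hp, rfl⟩ := ht
  refine ⟨p, fun i hi => ?_, fun i hi => ?_⟩
  · by_contra hne
    have h1 := hσt _ (hsupp _ hne)
    have h2 : (i : ℕ) + 11 ∈ (T.filter (fun v => decide (v ≤ p)) ++
      (T.filter (fun v => decide (p ≤ v))).map (· + 11)) := h1
    rw [List.mem_append] at h2
    rcases h2 with h2 | h2
    · have h3 := tri_unique_KT T hT _ (List.mem_filter.1 h2).1
      omega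
    · obtain ⟨v, hv, hv2⟩ := List.mem_map.1 h2
      have h3 := (List.mem_filter.1 hv).2
      have h4 : p ≤ v := by simpa using h3
      have h5 : v + 11 = (i : ℕ) + 11 := hv2
      omega
  · by_contra hne
    have h1 := hσt _ (hsupp _ hne)
    have h2 : (i : ℕ) ∈ (T.filter (fun v => decide (v ≤ p)) ++
      (T.filter (fun v => decide (p ≤ v))).map (· + 11)) := h1
    rw [List.mem_append] at h2
    rcases h2 with h2 | h2
    · have h3 := (List.mem_filter.1 h2).2
      have h4 : (i : ℕ) ≤ p := by simpa using h3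
      omega
    · obtain ⟨v, hv, hv2⟩ := List.mem_map.1 h2
      have h5 : v + 11 = (i : ℕ) := hv2
      omega

theorem tri_unique_le (b b' : Fin 11 → ℝ) (h2 : ∑ i, b i = ∑ i, b' i) (h : ∀ i, b' i ≤ b i) :
    ∀ i, b i = b' i := by
  intro i
  have := (Finset.sum_eq_sum_iff_of_le (s := Finset.univ) (f := b') (g := b) (fun i _ => h i)).1 h2.symm
  exact (this i (Finset.mem_univ i)).symm

theorem tri_unique_core (a b a' b' : Fin 11 → ℝ) (hb : ∀ i, 0 ≤ b i) (ha' : ∀ i, 0 ≤ a' i)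
    (h1 : ∀ i, a i + b i = a' i + b' i) (h2 : ∑ i, b i = ∑ i, b' i)
    (p p' : ℕ) (hp1 : ∀ i : Fin 11, (i : ℕ) < p → b i = 0) (hp2 : ∀ i : Fin 11, p < (i : ℕ) → a i = 0)
    (hp1' : ∀ i : Fin 11, (i : ℕ) < p' → b' i = 0)
    (hp2' : ∀ i : Fin 11, p' < (i : ℕ) → a' i = 0) (hpp : p ≤ p') : ∀ i, b i = b' i := by
  rcases lt_or_eq_of_le hpp with hlt | heq
  · refine tri_unique_le b b' h2 fun i => ?_
    by_cases hi : (i : ℕ) < p'
    · rw [hp1' i hi]; exact hb i
    · have e1 := hp2 i (by omega)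
      have e2 := h1 i
      have e3 := ha' i
      rw [e1] at e2
      linarith
  · subst heq
    have hne : ∀ i : Fin 11, (i : ℕ) ≠ p → b i = b' i := by
      intro i hi
      rcases lt_or_gt_of_ne hi with h | h
      · rw [hp1 i h, hp1' i h]
      · have e1 := h1 i
        rw [hp2 i h, hp2' i h] at e1
        linarith
    by_cases hp : p < 11
    · rcases le_total (b' ⟨p, hp⟩) (b ⟨p, hp⟩) with hle | hle
      · refine tri_unique_le b b' h2 fun i => ?_
        by_cases hi : (i : ℕ) = p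
        · have : i = ⟨p, hp⟩ := Fin.ext hi
          rw [this]; exact hle
        · exact (hne i hi).symm.le
      · have := tri_unique_le b' b h2.symm fun i => by
          by_cases hi : (i : ℕ) = p
          · have : i = ⟨p, hp⟩ := Fin.ext hi
            rw [this]; exact hle
          · exact (hne i hi).le
        exact fun i => (this i).symm
    · intro i
      exact hne i (by have := i.2; omega)

theorem tri_unique (w w' : Fin 22 → ℝ) (hw : IsWeight K22 w) (hw' : IsWeight K22 w')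
    (h : ∑ v, w v • pos22 v = ∑ v, w' v • pos22 v) : w = w' := by
  rw [tri_sum, tri_sum] at h
  have h1 := congrFun (Prod.ext_iff.1 h).1
  have h2 := (Prod.ext_iff.1 h).2
  obtain ⟨p, hp1, hp2⟩ := tri_unique_supp w hw
  obtain ⟨p', hp1', hp2'⟩ := tri_unique_supp w' hw'
  have key : ∀ i : Fin 11, w ⟨(i : ℕ) + 11, by omega⟩ = w' ⟨(i : ℕ) + 11, by omega⟩ := by
    rcases le_total p p' with hpp | hpp
    · exact tri_unique_core (fun i => w ⟨(i : ℕ), by omega⟩) (fun i => w ⟨(i : ℕ) + 11, by omega⟩)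
        (fun i => w' ⟨(i : ℕ), by omega⟩) (fun i => w' ⟨(i : ℕ) + 11, by omega⟩)
        (fun i => hw.1 _) (fun i => hw'.1 _) h1 h2 p p' hp1 hp2 hp1' hp2' hpp
    · have := tri_unique_core (fun i => w' ⟨(i : ℕ), by omega⟩) (fun i => w' ⟨(i : ℕ) + 11, by omega⟩)
        (fun i => w ⟨(i : ℕ), by omega⟩) (fun i => w ⟨(i : ℕ) + 11, by omega⟩)
        (fun i => hw'.1 _) (fun i => hw.1 _) (fun i => (h1 i).symm) h2.symm p' p hp1' hp2' hp1 hp2 hpp
      exact fun i => (this i).symm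
  funext v
  by_cases hv : (v : ℕ) < 11
  · have e1 := h1 ⟨(v : ℕ), hv⟩
    have e2 := key ⟨(v : ℕ), hv⟩
    have e3 : w v + w ⟨(v : ℕ) + 11, by omega⟩ = w' v + w' ⟨(v : ℕ) + 11, by omega⟩ := e1
    have e4 : w ⟨(v : ℕ) + 11, by omega⟩ = w' ⟨(v : ℕ) + 11, by omega⟩ := e2
    linarith
  · have e2 := key ⟨(v : ℕ) - 11, by omega⟩
    have e3 : (⟨(v : ℕ) - 11 + 11, by omega⟩ : Fin 22) = v := Fin.ext (by show (v : ℕ) - 11 + 11 = v; omega)
    have e4 : w ⟨(v : ℕ) - 11 + 11, by omega⟩ = w' ⟨(v : ℕ) - 11 + 11, by omega⟩ := e2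
    rw [e3] at e4
    exact e4

end RPF
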