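import Pool.Agent.Helper876.RP.Defs
import Pool.Agent.Helper876.RP.P_tri_exists
import Pool.Agent.Helper876.RP.P_tri_sound
import Pool.Agent.Helper876.RP.P_tri_unique



namespace RPF
open Set


theorem k22_tri : Triangulates K22 pos22 (P11 ×ˢ Icc (0 : ℝ) 1) := by
  refine ⟨?_, ?_, ?_, ?_⟩
  · intro σ hσ
    unfold K22 at hσ
    exact (Finset.mem_filter.1 hσ).2.1
  · intro σ hσ τ hτ hne
    unfold K22 at hσ ⊢
    obtain ⟨_, _, t, ht, h⟩ := Finset.mem_filter.1 hσ
    exact Finset.mem_filter.2 ⟨Finset.mem_univ _, hne, t, ht, fun v hv => h v (hτ hv)⟩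
  · rintro ⟨y, t⟩
    constructor
    · rintro ⟨hy, ht⟩
      exact tri_exists y t hy ht
    · rintro ⟨w, hw, hx⟩
      rw [← hx]
      exact tri_sound w hw
  · exact fun w w' hw hw' h => tri_unique w w' hw hw' h

end RPF
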