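import Mathlib

namespace RPF

open Set

/-- A convex polytope: a compact set cut out by finitely many affine inequalities. -/
def IsPolytope {E : Type*} [NormedAddCommGroup E] [NormedSpace ℝ E] (C : Set E) : Prop :=
  IsCompact C ∧ ∃ S : Set (E →ᵃ[ℝ] ℝ), S.Finite ∧ C = {x | ∀ g ∈ S, 0 ≤ g x}

/-- A (compact) polyhedron: a finite union of convex polytopes. -/
def IsPolyhedron {E : Type*} [NormedAddCommGroup E] [NormedSpace ℝ E] (X : Set E) : Prop :=
  ∃ S : Set (Set E), S.Finite ∧ (∀ C ∈ S, IsPolytope C) ∧ X = ⋃₀ S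

/-- `f` is piecewise linear on the polyhedron `X`: `X` is a finite union of convex polytopes on each
of which `f` agrees with an affine map. -/
def IsPLOn {E F : Type*} [NormedAddCommGroup E] [NormedSpace ℝ E] [NormedAddCommGroup F]
    [NormedSpace ℝ F] (f : E → F) (X : Set E) : Prop :=
  ∃ S : Set (Set E), S.Finite ∧ X = ⋃₀ S ∧
    ∀ C ∈ S, IsPolytope C ∧ ∃ g : E →ᵃ[ℝ] F, EqOn f g C

/-- The union of the triangles `0, u, v` over the pairs `(u, v)` of the list `L`. -/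
def coneSet (L : List ((Fin 3 → ℝ) × (Fin 3 → ℝ))) : Set (Fin 3 → ℝ) :=
  {p | ∃ e ∈ L, ∃ s t : ℝ, 0 ≤ s ∧ 0 ≤ t ∧ s + t ≤ 1 ∧ p = s • e.1 + t • e.2}

/-- The part of `coneSet L` off the sides opposite to `0`. -/
def coneInt (L : List ((Fin 3 → ℝ) × (Fin 3 → ℝ))) : Set (Fin 3 → ℝ) :=
  {p | ∃ e ∈ L, ∃ s t : ℝ, 0 ≤ s ∧ 0 ≤ t ∧ s + t < 1 ∧ p = s • e.1 + t • e.2}

/-- Model 1: a 2-disk (a triangle with `0` inside it). -/
def diskL : List ((Fin 3 → ℝ) × (Fin 3 → ℝ)) :=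
  [(![1, 0, 0], ![0, 1, 0]), (![0, 1, 0], ![-1, -1, 0]), (![-1, -1, 0], ![1, 0, 0])]

/-- Model 2: three half-disks glued along the common diameter from `(0,0,1)` to `(0,0,-1)`. -/
def pagesL : List ((Fin 3 → ℝ) × (Fin 3 → ℝ)) :=
  [(![0, 0, 1], ![1, 0, 0]), (![1, 0, 0], ![0, 0, -1]),
   (![0, 0, 1], ![0, 1, 0]), (![0, 1, 0], ![0, 0, -1]),
   (![0, 0, 1], ![-1, -1, 0]), (![-1, -1, 0], ![0, 0, -1])]

/-- Model 3: the cone from `0` over the 1-skeleton of a tetrahedron. -/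
def k4L : List ((Fin 3 → ℝ) × (Fin 3 → ℝ)) :=
  [(![1, 1, 1], ![1, -1, -1]), (![1, 1, 1], ![-1, 1, -1]), (![1, 1, 1], ![-1, -1, 1]),
   (![1, -1, -1], ![-1, 1, -1]), (![1, -1, -1], ![-1, -1, 1]), (![-1, 1, -1], ![-1, -1, 1])]

/-- A closed fake surface: a connected compact polyhedron in which every point `x` has a closed
neighbourhood PL homeomorphic to one of the three models, with `x` going to an interior point. -/
structure IsFakeSurface {E : Type*} [NormedAddCommGroup E] [NormedSpace ℝ E] (P : Set E) :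
    Prop where
  polyhedron : IsPolyhedron P
  connected : IsConnected P
  models : ∀ x ∈ P, ∃ L, (L = diskL ∨ L = pagesL ∨ L = k4L) ∧ ∃ N : Set E, N ⊆ P ∧
    N ∈ nhdsWithin x P ∧ ∃ f : E → (Fin 3 → ℝ), IsPLOn f N ∧ BijOn f N (coneSet L) ∧
      f x ∈ coneInt L

/-- Barycentric weights supported on a simplex of `K`. -/
def IsWeight {n : ℕ} (K : Finset (Finset (Fin n))) (w : Fin n → ℝ) : Prop :=
  (∀ v, 0 ≤ w v) ∧ ∑ v, w v = 1 ∧ ∃ σ ∈ K, ∀ v, w v ≠ 0 → v ∈ σ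

/-- The finite simplicial complex `K` with vertices at `pos` is a triangulation of `X`. -/
def Triangulates {E : Type*} [NormedAddCommGroup E] [NormedSpace ℝ E] {n : ℕ}
    (K : Finset (Finset (Fin n))) (pos : Fin n → E) (X : Set E) : Prop :=
  (∀ σ ∈ K, σ.Nonempty) ∧ (∀ σ ∈ K, ∀ τ ⊆ σ, τ.Nonempty → τ ∈ K) ∧
  (∀ x, x ∈ X ↔ ∃ w, IsWeight K w ∧ ∑ v, w v • pos v = x) ∧
  (∀ w w', IsWeight K w → IsWeight K w' → ∑ v, w v • pos v = ∑ v, w' v • pos v → w = w')

/-- Elementary simplicial collapse: remove a simplex `σ` together with a free face `τ` of it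
(`σ` is the only simplex of `K` properly containing `τ`). -/
def ElemCollapse {n : ℕ} (K L : Finset (Finset (Fin n))) : Prop :=
  ∃ τ ∈ K, ∃ σ ∈ K, τ ⊂ σ ∧ (∀ ρ ∈ K, τ ⊂ ρ → ρ = σ) ∧ L = (K.erase σ).erase τ

/-- Some triangulation of `X` collapses to a single point. -/
def IsCollapsible {E : Type*} [NormedAddCommGroup E] [NormedSpace ℝ E] (X : Set E) : Prop :=
  ∃ (n : ℕ) (K : Finset (Finset (Fin n))) (pos : Fin n → E), Triangulates K pos X ∧
    ∃ v : Fin n, Relation.ReflTransGen ElemCollapse K {{v}}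

/-- `∂(octahedron) × [-1,1]`, a PL copy of `S² × [-1,1]`; it lies in the 3-sphere
`∂(octahedron × [-1,1])`, and its complement there is a pair of antipodal open balls. -/
def shell : Set ((Fin 3 → ℝ) × ℝ) := {z | ∑ i, |z.1 i| = 1 ∧ |z.2| ≤ 1}

/-- Punctured real projective 3-space is `shell / (z ~ -z)`; a PL embedding of it in `X` is a PL map
of `shell` to `X` which identifies exactly the antipodal points. -/
def EmbedsPuncturedRP3 {E : Type*} [NormedAddCommGroup E] [NormedSpace ℝ E] (X : Set E) : Prop :=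
  ∃ φ : (Fin 3 → ℝ) × ℝ → E, IsPLOn φ shell ∧ MapsTo φ shell X ∧
    ∀ z ∈ shell, ∀ w ∈ shell, (φ z = φ w ↔ (w = z ∨ w = -z))

end RPF
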